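import Pool.Agent.Run7.h112.Semi

/-!
# Knot diagrams are connected
-/

set_option autoImplicit false
set_option linter.unusedSimpArgs false
set_option linter.unusedVariables false

namespace Run7.h112

open Pool.Agent.Helper454.Kauf
open Pool.Agent.Helper454.Kauf.Piece (birth death pos neg)
open Pool.Agent.Helper82_Alt (crs RStep RLab SStep Connected NotNugatory Reduced Fil)

/-- the value `b` occurs -/
def App (w : Word) (m : ℕ) (s : ℕ → ℕ → Bool) (b : Bool) : Prop :=
  ∃ t n j, width (w.take t) m = some n ∧ j < n ∧ s t j = b

theorem App_cons {p : Piece} {w : Word} {m m' : ℕ} {s : ℕ → ℕ → Bool} {b : Bool}
    (hp : p.width m = some m') (h : App (p :: w) m s b) :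
    (∃ j < m, s 0 j = b) ∨ App w m' (fun t => s (t + 1)) b := by
  obtain ⟨t, n, j, h1, h2, h3⟩ := h
  cases t with
  | zero =>
    left
    have : m = n := by simpa [width] using h1
    subst this
    exact ⟨j, h2, h3⟩
  | succ t =>
    right
    refine ⟨t, n, j, ?_, h2, h3⟩
    rw [List.take_succ_cons, width, hp] at h1
    exact h1

theorem App_zero {w : Word} {m : ℕ} {s : ℕ → ℕ → Bool} {j : ℕ} (hj : j < m) :
    App w m s (s 0 j) := ⟨0, m, j, by simp [width], hj, rfl⟩

open Classical in
theorem comp_ge (w : Word) : ∀ (L : List ℕ) (k : ℕ) (s : ℕ → ℕ → Bool) (col : ℕ → Bool),
    width w L.length = some 0 → (∀ c, Even (L.count c)) → (∀ x ∈ L, x < k) →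
    (∀ t (ht : t < w.length), SStep w[t] (s t) (s (t + 1))) →
    (∀ j < L.length, s 0 j = rowF col L j) →
    (if App w L.length s true then 1 else 0) + (if App w L.length s false then 1 else 0) ≤
      componentsAux w L k := by
  induction w with
  | nil =>
    intro L k s col h1 h2 h3 h4 h5
    have hL : L.length = 0 := by simpa [width] using h1
    have : ∀ b, ¬ App [] L.length s b := by
      rintro b ⟨t, n, j, h6, h7, _⟩
      simp only [List.take_nil, width, hL, Option.some.injEq] at h6
      omega
    simp [this]
  | cons p w ih =>
    intro L k s col h1 h2 h3 h4 h5
    obtain ⟨m, hm, hw⟩ := Ex.wd_cons h1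
    have hs0 : SStep p (s 0) (s 1) := h4 0 (by simp)
    have hs' : ∀ t (ht : t < w.length), SStep w[t] (s (t + 1)) (s (t + 1 + 1)) :=
      fun t ht => h4 (t + 1) (by simpa using ht)
    -- comparison of the indicators
    have mono : ∀ m' : ℕ, (∀ b, App (p :: w) L.length s b → App w m' (fun t => s (t + 1)) b) →
        (if App (p :: w) L.length s true then 1 else 0) +
          (if App (p :: w) L.length s false then 1 else 0) ≤
        (if App w m' (fun t => s (t + 1)) true then 1 else 0) +
          (if App w m' (fun t => s (t + 1)) false then 1 else 0) := by
      intro m' h
      have h6 := h true
      have h7 := h false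
      split_ifs <;> first | omega | tauto
    cases p with
    | birth i =>
      obtain ⟨hi, rfl⟩ := Ex.wd_birth hm
      obtain ⟨A, B, rfl, rfl⟩ : ∃ A B, A.length = i ∧ L = A ++ B :=
        ⟨L.take i, L.drop i, by simp; omega, by simp⟩
      obtain ⟨e1, e2, e3⟩ := hs0
      have hl : (A ++ k :: k :: B).length = (A ++ B).length + 2 := by simp; omega
      have hcol : ∀ M : List ℕ, (∀ x ∈ M, x < k) →
          M.map (Function.update col k (s 1 A.length)) = M.map col := by
        intro M hM
        refine List.map_congr_left fun x hx => ?_
        rw [Function.update_of_ne (hM x hx).ne]
      have key := ih (A ++ k :: k :: B) (k + 1) (fun t => s (t + 1))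
        (Function.update col k (s 1 A.length)) (by rw [hl]; exact hw) ?_ ?_ hs' ?_
      · rw [componentsAux, List.take_left, List.drop_left, List.append_assoc]
        refine le_trans (mono _ ?_) key
        intro b hb
        rcases App_cons hm hb with ⟨j, hj, rfl⟩ | h
        · by_cases hji : j < A.length
          · rw [← e1 j hji]
            exact App_zero (s := fun t => s (t + 1)) (by rw [hl]; omega)
          · rw [← e2 j (by omega)]
            exact App_zero (s := fun t => s (t + 1)) (by rw [hl]; omega)
        · rw [hl]; exact h
      · intro c
        have := h2 c
        rw [List.count_append] at this ⊢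
        rw [List.count_cons, List.count_cons]
        rw [Nat.even_iff] at this ⊢
        split_ifs <;> omega
      · intro x hx
        simp only [List.mem_append, List.mem_cons] at hx
        rcases hx with h | rfl | rfl | h
        · exact (h3 x (by simp [h])).trans (Nat.lt_succ_self _)
        · exact Nat.lt_succ_self _
        · exact Nat.lt_succ_self _
        · exact (h3 x (by simp [h])).trans (Nat.lt_succ_self _)
      · intro j hj
        show s 1 j = _
        have hA := hcol A (fun x hx => h3 x (by simp [hx]))
        have hB := hcol B (fun x hx => h3 x (by simp [hx]))
        rcases lt_trichotomy j A.length with h | h | h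
        · rw [e1 j h, h5 j (by simp; omega)]
          unfold rowF
          rw [List.map_append, List.map_append, hA, List.getD_append _ _ _ _ (by simpa using h),
            List.getD_append _ _ _ _ (by simpa using h)]
        · subst h
          rw [rowF_at, Function.update_self]
        · by_cases h' : j = A.length + 1
          · subst h'
            rw [rowF_at', Function.update_self, e3]
          · obtain ⟨j, rfl⟩ : ∃ j', j = j' + 2 := ⟨j - 2, by omega⟩
            rw [e2 j (by omega), rowF_ge _ _ _ _ _ (by omega), h5 j (by rw [hl] at hj; omega)]
            unfold rowF
            rw [List.map_append, List.map_append, hA, hB]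
    | death i =>
      obtain ⟨hi, hmm⟩ := Ex.wd_death hm
      obtain ⟨A, B, x, y, rfl, rfl⟩ := split_list hi
      have hm' : m = (A ++ B).length := by simp at hmm ⊢; omega
      subst hm'
      obtain ⟨e1, e2, e3⟩ := hs0
      have hx : s 0 A.length = col x := by
        rw [h5 A.length (by simp), rowF_at]
      have hy : s 0 (A.length + 1) = col y := by
        rw [h5 (A.length + 1) (by simp), rowF_at']
      have hxy : col x = col y := by rw [← hx, ← hy, e3]
      rw [componentsAux, take_mid, drop_mid, getD_mid, getD_mid']
      have hcf : ∀ M : List ℕ, (M.map (fun c => if c = y then x else c)).map col = M.map col := by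
        intro M
        rw [List.map_map]
        refine List.map_congr_left fun c _ => ?_
        simp only [Function.comp_apply]
        split_ifs with h
        · rw [h, hxy]
        · rfl
      have hl : ((A ++ B).map (fun c => if c = y then x else c)).length = (A ++ B).length := by
        simp
      have hcount : ∀ c, Even ((A ++ B).count c + (if x = c then 1 else 0) +
          (if y = c then 1 else 0)) := by
        intro c
        have := h2 c
        rw [List.count_append, List.count_cons, List.count_cons] at this
        rw [List.count_append]
        have e : List.count c A + List.count c B + (if x = c then 1 else 0) +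
            (if y = c then 1 else 0) = List.count c A + (List.count c B +
            (if y == c then 1 else 0) + (if x == c then 1 else 0)) := by
          simp only [beq_iff_eq]; ring
        rw [e]; exact this
      have key := ih ((A ++ B).map (fun c => if c = y then x else c)) k (fun t => s (t + 1)) col
        (by rw [hl]; exact hw) ?_ ?_ hs' ?_
      · rw [hl] at key
        have old : ∀ j < (A ++ x :: y :: B).length, j ≠ A.length → j ≠ A.length + 1 →
            App w (A ++ B).length (fun t => s (t + 1)) (s 0 j) := by
          intro j hj h6 h7
          by_cases h : j < A.length
          · rw [e1 j h]
            exact App_zero (s := fun t => s (t + 1)) (by simp; omega)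
          · obtain ⟨j, rfl⟩ : ∃ j', j = j' + 2 := ⟨j - 2, by omega⟩
            rw [e2 j (by omega)]
            exact App_zero (s := fun t => s (t + 1)) (by simp at hj ⊢; omega)
        by_cases hxy' : x = y
        · rw [if_pos hxy']
          have h6 : ∀ b, b ≠ col x → App (death A.length :: w) (A ++ x :: y :: B).length s b →
              App w (A ++ B).length (fun t => s (t + 1)) b := by
            intro b hb h
            rcases App_cons hm h with ⟨j, hj, rfl⟩ | h
            · refine old j hj ?_ ?_
              · rintro rfl; exact hb hx
              · rintro rfl; exact hb (by rw [hy, hxy])
            · exact h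
          have h7 := h6 true
          have h8 := h6 false
          cases hcx : col x <;> rw [hcx] at h7 h8
          · have h9 := h7 (by simp)
            split_ifs at key ⊢ <;> first | omega | tauto
          · have h9 := h8 (by simp)
            split_ifs at key ⊢ <;> first | omega | tauto
        · rw [if_neg hxy', zero_add]
          refine le_trans (mono _ ?_) key
          intro b hb
          rcases App_cons hm hb with ⟨j, hj, rfl⟩ | h
          · have other : App w (A ++ B).length (fun t => s (t + 1)) (col x) := by
              have h6 := hcount x
              have hyx : ¬ y = x := fun h => hxy' h.symm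
              simp only [if_true, hyx, if_false] at h6
              have h7 : (A ++ B).count x ≠ 0 := by
                intro h0
                rw [h0] at h6
                simp at h6
              have h8 : x ∈ A ++ B := by
                rw [← List.count_pos_iff]; omega
              obtain ⟨j, hj, hjx⟩ := List.getElem_of_mem h8
              by_cases h : j < A.length
              · have h9 : s 0 j = col x := by
                  rw [h5 j (by simp; omega)]
                  unfold rowF
                  rw [List.map_append, List.getD_append _ _ _ _ (by simpa using h),
                    List.getD_eq_getElem _ _ (by simpa using h), List.getElem_map]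
                  rw [List.getElem_append_left h] at hjx
                  rw [hjx]
                rw [← h9]
                exact old j (by simp; omega) (by omega) (by omega)
              · have h9 : s 0 (j + 2) = col x := by
                  rw [h5 (j + 2) (by simp at hj ⊢; omega), rowF_ge _ _ _ _ _ (by omega)]
                  unfold rowF
                  rw [List.getD_eq_getElem _ _ (by simpa using hj), List.getElem_map, hjx]
                rw [← h9]
                exact old (j + 2) (by simp at hj ⊢; omega) (by omega) (by omega)
            by_cases h6 : j = A.length
            · subst h6; rw [hx]; exact other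
            · by_cases h7 : j = A.length + 1
              · subst h7; rw [hy, ← hxy]; exact other
              · exact old j hj h6 h7
          · exact h
      · intro c
        by_cases hab : x = y
        · subst hab
          rw [map_self']
          have := hcount c
          by_cases hca : x = c
          · subst hca
            simp only [if_true] at this
            rw [Nat.even_iff] at this ⊢
            omega
          · simp only [hca, if_false] at this
            simpa using this
        · have hba : y ≠ x := fun h => hab h.symm
          by_cases hca : x = c
          · subst hca
            rw [count_map_a hab]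
            have ha := hcount x
            have hb := hcount y
            simp only [if_true, if_false, hab, hba] at ha hb
            rw [Nat.even_iff] at ha hb ⊢
            omega
          · by_cases hcb : y = c
            · subst hcb
              rw [count_map_b hab]
              exact Even.zero
            · rw [count_map_c hca hcb]
              have := hcount c
              simp only [hca, hcb, if_false] at this
              simpa using this
      · intro z hz
        rw [List.mem_map] at hz
        obtain ⟨d, hd, rfl⟩ := hz
        split_ifs
        · exact h3 x (by simp)
        · exact h3 d (by rw [List.mem_append] at hd; rcases hd with h | h <;> simp [h])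
      · intro j hj
        rw [hl] at hj
        show s 1 j = _
        have e4 : rowF col ((A ++ B).map (fun c => if c = y then x else c)) j =
            rowF col (A ++ B) j := by
          unfold rowF; rw [hcf]
        rw [e4]
        by_cases h : j < A.length
        · rw [← e1 j h, h5 j (by simp; omega)]
          exact rowF_lt _ _ _ _ h
        · rw [← e2 j (by omega), h5 (j + 2) (by simp at hj ⊢; omega)]
          exact rowF_ge _ _ _ _ _ (by omega)
    | pos i =>
      obtain ⟨hi, hmm⟩ := Ex.wd_pos hm
      obtain ⟨A, B, x, y, rfl, rfl⟩ := split_list hi
      subst hmm
      obtain ⟨e1, e2⟩ := hs0
      have hx : s 0 A.length = col x := by rw [h5 A.length (by simp), rowF_at]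
      have hy : s 0 (A.length + 1) = col y := by rw [h5 (A.length + 1) (by simp), rowF_at']
      have hxy : col x = col y := by rw [← hx, ← hy, e2]
      rw [componentsAux, take_mid, drop_mid, getD_mid, getD_mid']
      have hl : (A ++ [y, x] ++ B).length = (A ++ x :: y :: B).length := by simp
      have key := ih (A ++ [y, x] ++ B) k (fun t => s (t + 1)) col (by rw [hl]; exact hw) ?_ ?_
        hs' ?_
      · refine le_trans (mono _ ?_) key
        intro b hb
        rw [hl]
        rcases App_cons hm hb with ⟨j, hj, rfl⟩ | h
        · rw [← e1 j]
          exact App_zero (s := fun t => s (t + 1)) hj
        · exact h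
      · intro c
        have := h2 c
        rw [List.count_append, List.count_cons, List.count_cons] at this
        rw [List.append_assoc, List.count_append]
        simp only [List.cons_append, List.nil_append, List.count_cons]
        rw [add_right_comm (List.count c B)]
        exact this
      · intro z hz
        apply h3 z
        simp only [List.append_assoc, List.cons_append, List.nil_append, List.mem_append,
          List.mem_cons] at hz ⊢
        tauto
      · intro j hj
        rw [hl] at hj
        show s 1 j = _
        rw [e1 j, h5 j hj]
        unfold rowF
        simp only [List.map_append, List.map_cons, List.map_nil, List.append_assoc,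
          List.cons_append, List.nil_append, hxy]
    | neg i =>
      obtain ⟨hi, hmm⟩ := Ex.wd_neg hm
      obtain ⟨A, B, x, y, rfl, rfl⟩ := split_list hi
      subst hmm
      obtain ⟨e1, e2⟩ := hs0
      have hx : s 0 A.length = col x := by rw [h5 A.length (by simp), rowF_at]
      have hy : s 0 (A.length + 1) = col y := by rw [h5 (A.length + 1) (by simp), rowF_at']
      have hxy : col x = col y := by rw [← hx, ← hy, e2]
      rw [componentsAux, take_mid, drop_mid, getD_mid, getD_mid']
      have hl : (A ++ [y, x] ++ B).length = (A ++ x :: y :: B).length := by simp
      have key := ih (A ++ [y, x] ++ B) k (fun t => s (t + 1)) col (by rw [hl]; exact hw) ?_ ?_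
        hs' ?_
      · refine le_trans (mono _ ?_) key
        intro b hb
        rw [hl]
        rcases App_cons hm hb with ⟨j, hj, rfl⟩ | h
        · rw [← e1 j]
          exact App_zero (s := fun t => s (t + 1)) hj
        · exact h
      · intro c
        have := h2 c
        rw [List.count_append, List.count_cons, List.count_cons] at this
        rw [List.append_assoc, List.count_append]
        simp only [List.cons_append, List.nil_append, List.count_cons]
        rw [add_right_comm (List.count c B)]
        exact this
      · intro z hz
        apply h3 z
        simp only [List.append_assoc, List.cons_append, List.nil_append, List.mem_append,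
          List.mem_cons] at hz ⊢
        tauto
      · intro j hj
        rw [hl] at hj
        show s 1 j = _
        rw [e1 j, h5 j hj]
        unfold rowF
        simp only [List.map_append, List.map_cons, List.map_nil, List.append_assoc,
          List.cons_append, List.nil_append, hxy]

theorem knot_connected {D : Word} (h : IsKnot D) : Connected D := by
  classical
  intro s hs
  have h1 := comp_ge D [] 0 s (fun _ => false) h.1 (by simp) (by simp) hs (by simp)
  have h2 : componentsAux D [] 0 = 1 := h.2
  rw [h2] at h1
  by_cases ht : App D ([] : List ℕ).length s true
  · refine ⟨true, fun t n hn j hj => ?_⟩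
    by_contra hb
    rw [Bool.not_eq_true] at hb
    have hf : App D ([] : List ℕ).length s false := ⟨t, n, j, hn, hj, hb⟩
    rw [if_pos ht, if_pos hf] at h1
    omega
  · refine ⟨false, fun t n hn j hj => ?_⟩
    by_contra hb
    rw [Bool.not_eq_false] at hb
    exact ht ⟨t, n, j, hn, hj, hb⟩

end Run7.h112
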