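import Pool.Agent.Run7.h112.Adq

/-!
# The specialisation `a = i`
-/

set_option autoImplicit false
set_option linter.unusedSimpArgs false
set_option linter.unusedVariables false

namespace Run7.h112

open LaurentPolynomial
open Pool.Agent.Helper454.Kauf
open Pool.Agent.Helper454.Kauf.Piece (birth death pos neg)
open Pool.Agent.Helper82_Alt (crs cx sg w_birth w_death w_cx w_nil width_append Fil LT_mul_coeff
  LC_mul_coeff t_B1 cx_true cx_false)

noncomputable section

section rhoC

variable {R : Type} [CommRing R]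

/-- a constant as a unit -/
def cU (τ : Rˣ) : (LaurentPolynomial R)ˣ := Units.map (C : R →+* LaurentPolynomial R).toMonoidHom τ

theorem cU_zpow (τ : Rˣ) (n : ℤ) : ((cU τ ^ n : (LaurentPolynomial R)ˣ) : LaurentPolynomial R) =
    C ((τ ^ n : Rˣ) : R) := by
  rw [cU, ← map_zpow]; rfl

/-- `a ↦ τ`, `z ↦ z` -/
def rhoC (τ : Rˣ) : Raz →+* LaurentPolynomial R :=
  LaurentPolynomial.eval₂ (LaurentPolynomial.eval₂ (Int.castRingHom _) (sU R)) (cU τ)

theorem rhoC_aPow (τ : Rˣ) (n : ℤ) : rhoC τ (aPow n) = C ((τ ^ n : Rˣ) : R) := by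
  rw [rhoC, aPow, LaurentPolynomial.eval₂_T, cU_zpow]

theorem rhoC_z (τ : Rˣ) : rhoC τ zVar = T 1 := by
  rw [rhoC, zVar, LaurentPolynomial.eval₂_C, LaurentPolynomial.eval₂_T, sU_zpow]

/-- the coefficients -/
theorem rhoC_coeff (τ : Rˣ) (p : Raz) (c : ℤ) : (rhoC τ p).coeff c =
    p.coeff.sum fun j q => ((q.coeff c : ℤ) : R) * ((τ ^ j : Rˣ) : R) := by
  induction p using LaurentPolynomial.induction_on' with
  | add p q hp hq =>
    rw [map_add, AddMonoidAlgebra.coeff_add, Finsupp.add_apply, hp, hq,
      AddMonoidAlgebra.coeff_add, Finsupp.sum_add_index']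
    · intro j; simp
    · intro j a b
      rw [AddMonoidAlgebra.coeff_add, Finsupp.add_apply]
      push_cast; ring
  | C_mul_T n q =>
    have h0 : ((C q * T n : Raz)).coeff = Finsupp.single n q := by
      rw [← single_eq_C_mul_T]; rfl
    rw [h0, Finsupp.sum_single_index (by simp)]
    have h1 : rhoC τ (C q * T n) =
        LaurentPolynomial.eval₂ (Int.castRingHom _) (sU R) q * C ((τ ^ n : Rˣ) : R) := by
      rw [map_mul]
      congr 1
      · rw [rhoC, LaurentPolynomial.eval₂_C]
      · exact rhoC_aPow τ n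
    rw [h1]
    have h2 : ∀ (q : LaurentPolynomial ℤ) (k : ℤ),
        (LaurentPolynomial.eval₂ (Int.castRingHom (LaurentPolynomial R)) (sU R) q).coeff k =
          ((q.coeff k : ℤ) : R) := by
      intro q k
      induction q using LaurentPolynomial.induction_on' with
      | add p q hp hq =>
        rw [map_add, AddMonoidAlgebra.coeff_add, Finsupp.add_apply, hp, hq,
          AddMonoidAlgebra.coeff_add, Finsupp.add_apply]
        push_cast; ring
      | C_mul_T n a =>
        rw [LaurentPolynomial.eval₂_C_mul_T, sU_zpow]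
        have e1 : ((Int.castRingHom (LaurentPolynomial R)) a : LaurentPolynomial R) =
            C ((a : ℤ) : R) := by simp
        rw [e1, ← single_eq_C_mul_T, ← single_eq_C_mul_T]
        show (Finsupp.single n ((a : ℤ) : R)) k = (((Finsupp.single n a) k : ℤ) : R)
        by_cases hk : n = k
        · subst hk; simp
        · rw [Finsupp.single_eq_of_ne' hk, Finsupp.single_eq_of_ne' hk]; simp
    rw [mul_comm (LaurentPolynomial.eval₂ _ _ q), LC_mul_coeff, h2, mul_comm]

end rhoC

/-- the unit `i` -/
def iU : GaussianIntˣ := ⟨⟨0, 1⟩, ⟨0, -1⟩, by decide, by decide⟩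

/-- the weights of the one-dimensional model -/
def wt : Piece → GaussianInt
  | .birth i => (-1) ^ i
  | .death i => (-1) ^ (i + 1)
  | .pos _ => ⟨0, -1⟩
  | .neg _ => ⟨0, 1⟩

def wtp (w : Word) : GaussianInt := (w.map wt).prod

theorem wtp_append (u v : Word) : wtp (u ++ v) = wtp u * wtp v := by simp [wtp]

theorem wtp_cons (p : Piece) (v : Word) : wtp (p :: v) = wt p * wtp v := by simp [wtp]

theorem wtp_nil : wtp [] = 1 := rfl

theorem ii : (⟨0, 1⟩ : GaussianInt) * ⟨0, 1⟩ = -1 := by decide

theorem ij : (⟨0, 1⟩ : GaussianInt) * ⟨0, -1⟩ = 1 := by decide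

theorem ji : (⟨0, -1⟩ : GaussianInt) = -⟨0, 1⟩ := by decide

theorem wt_moved (q : Piece) {j k : ℕ} (h : j = k ∨ j = k + 2 ∨ j + 2 = k) (hk : q.index = k) :
    wt (q.moved j) = wt q := by
  have e : ∀ m : ℕ, ((-1 : GaussianInt)) ^ (m + 2) = (-1) ^ m := by intro m; rw [pow_add]; simp
  cases q <;> simp only [Piece.index, Piece.moved, wt] at hk ⊢ <;> subst hk
  · rcases h with rfl | rfl | h
    · rfl
    · exact e _
    · rw [← h]; exact (e _).symm
  · rcases h with rfl | rfl | h
    · rfl
    · rw [add_right_comm]; exact e _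
    · rw [← h, add_right_comm]; exact (e _).symm

theorem wtp_local {l r : Word} (h : LocalMove l r) : wtp l = wtp r := by
  have pm : ∀ i : ℕ, ((-1 : GaussianInt) ^ i) * (-1) ^ i = 1 := by
    intro i; rw [← mul_pow]; simp
  cases h with
  | exchange p q h =>
    have := wt_moved q (j := q.index + p.outs - p.ins) (k := q.index)
      (by cases p <;> simp only [Piece.outs, Piece.ins] <;> simp only [Piece.ins] at h <;> omega) rfl
    rw [wtp_cons, wtp_cons, wtp_cons, wtp_cons, wtp_nil, this]
    ring
  | zigzag₁ i =>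
    simp only [wtp_cons, wtp_nil, wt]
    have := pm i
    linear_combination this
  | zigzag₂ i =>
    simp only [wtp_cons, wtp_nil, wt]
    have := pm i
    linear_combination this
  | slideBirth₁ i => simp only [wtp_cons, wtp_nil, wt, ji]; ring
  | slideBirth₂ i => simp only [wtp_cons, wtp_nil, wt, ji]; ring
  | slideDeath₁ i => simp only [wtp_cons, wtp_nil, wt, ji]; ring
  | slideDeath₂ i => simp only [wtp_cons, wtp_nil, wt, ji]; ring
  | second₁ i => simp only [wtp_cons, wtp_nil, wt]; rw [mul_one, mul_comm]; exact ij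
  | second₂ i => simp only [wtp_cons, wtp_nil, wt]; rw [mul_one]; exact ij
  | third i => simp only [wtp_cons, wtp_nil, wt]

/-- the one-dimensional model -/
def lam1 (D : Word) : LaurentPolynomial GaussianInt := C (wtp D)

theorem iU_zpow_one : ((iU ^ (1 : ℤ) : GaussianIntˣ) : GaussianInt) = ⟨0, 1⟩ := by
  rw [zpow_one]; rfl

theorem iU_zpow_neg : ((iU ^ (-1 : ℤ) : GaussianIntˣ) : GaussianInt) = ⟨0, -1⟩ := by
  rw [zpow_neg_one]; rfl

theorem ai_value {D : Word} (hD : Closed D) (hne : D ≠ []) : rhoC iU (Lam D) = -C (wtp D) := by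
  letI : Module Raz (LaurentPolynomial GaussianInt) := Module.compHom _ (rhoC iU)
  have sm : ∀ (p : Raz) (q : LaurentPolynomial GaussianInt), p • q = rhoC iU p * q := fun p q => rfl
  have hR : KauffmanRules lam1 := by
    refine ⟨?_, ?_, ?_, ?_, ?_, ?_⟩
    · intro D E h
      induction h with
      | rel D E h =>
        obtain ⟨x, l, r, y, hlr, _, _⟩ := h
        unfold lam1
        rw [wtp_append, wtp_append, wtp_append, wtp_append, wtp_local hlr]
      | refl D => rfl
      | symm D E _ ih => exact ih.symm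
      | trans D E F _ _ ih1 ih2 => exact ih1.trans ih2
    · intro x i y _
      rw [sm, rhoC_aPow, iU_zpow_neg]
      unfold lam1
      rw [← map_mul]
      simp only [wtp_append, wtp_cons, wtp_nil, wt]
      congr 1; ring
    · intro x i y _
      rw [sm, rhoC_aPow, iU_zpow_one]
      unfold lam1
      rw [← map_mul]
      simp only [wtp_append, wtp_cons, wtp_nil, wt]
      congr 1; ring
    · intro x i y _
      rw [sm, rhoC_aPow, iU_zpow_neg]
      unfold lam1
      rw [← map_mul]
      simp only [wtp_append, wtp_cons, wtp_nil, wt]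
      congr 1; ring
    · intro x i y _
      rw [sm, rhoC_aPow, iU_zpow_one]
      unfold lam1
      rw [← map_mul]
      simp only [wtp_append, wtp_cons, wtp_nil, wt]
      congr 1; ring
    · intro x i y _
      have pm : ((-1 : GaussianInt) ^ i) * (-1) ^ i = 1 := by rw [← mul_pow]; simp
      have h1 : wtp (x ++ [pos i] ++ y) + wtp (x ++ [neg i] ++ y) = 0 := by
        simp only [wtp_append, wtp_cons, wtp_nil, wt, ji]; ring
      have h2 : wtp (x ++ y) + wtp (x ++ [death i, birth i] ++ y) = 0 := by
        simp only [wtp_append, wtp_cons, wtp_nil, wt]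
        linear_combination (-wtp x * wtp y) * pm
      unfold lam1
      rw [sm, ← map_add, ← map_add, h1, h2]
      simp
  have h := uniq hR hD hne
  rw [sm] at h
  have hc : lam1 circle = -1 := by
    unfold lam1
    have : wtp circle = -1 := by decide
    rw [this]; simp
  rw [hc] at h
  have h' : rhoC iU (Lam D) = -lam1 D := by rw [h]; ring
  exact h'

theorem wtp_ne (D : Word) : wtp D ≠ 0 := by
  have : IsUnit (wtp D) := by
    induction D with
    | nil => exact isUnit_one
    | cons p w ih =>
      rw [wtp_cons]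
      refine IsUnit.mul ?_ ih
      cases p with
      | birth i => exact (isUnit_one.neg).pow i
      | death i => exact (isUnit_one.neg).pow (i + 1)
      | pos i => exact ⟨iU⁻¹, rfl⟩
      | neg i => exact ⟨iU, rfl⟩
  exact this.ne_zero

theorem C_coeff {R : Type} [CommRing R] (r : R) (k : ℤ) :
    (C r : LaurentPolynomial R).coeff k = if k = 0 then r else 0 := by
  have e : (C r : LaurentPolynomial R) = C r * T 0 := by rw [T_zero, mul_one]
  rw [e, ← single_eq_C_mul_T]
  show (Finsupp.single 0 r) k = _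
  by_cases hk : k = 0
  · subst hk; simp
  · rw [Finsupp.single_eq_of_ne' (Ne.symm hk), if_neg hk]

/-- every row `z^k` with `k ≠ 0` vanishes at `a = i`, and the row `z^0` does not -/
theorem ai_row {D : Word} (hD : Closed D) (hne : D ≠ []) (k : ℤ) :
    ((Lam D).coeff.sum fun j q => ((q.coeff k : ℤ) : GaussianInt) *
      ((iU ^ j : GaussianIntˣ) : GaussianInt)) = if k = 0 then -wtp D else 0 := by
  rw [← rhoC_coeff, ai_value hD hne, ← map_neg, C_coeff]

theorem row_zero {D : Word} (hD : Closed D) (hne : D ≠ []) :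
    ∃ j, ((Lam D).coeff j).coeff 0 ≠ 0 := by
  by_contra h
  push Not at h
  have h1 := ai_row hD hne 0
  rw [Finsupp.sum, Finset.sum_eq_zero (fun j _ => by rw [h j]; simp), if_pos rfl] at h1
  exact wtp_ne D (neg_eq_zero.1 h1.symm)

/-- a row `z^k` with `k ≠ 0` does not have exactly one entry -/
theorem row_two {D : Word} (hD : Closed D) (hne : D ≠ []) {k j : ℤ} (hk : k ≠ 0)
    (hj : ((Lam D).coeff j).coeff k ≠ 0) : ∃ j', j' ≠ j ∧ ((Lam D).coeff j').coeff k ≠ 0 := by
  by_contra h
  push Not at h
  have h1 := ai_row hD hne k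
  rw [if_neg hk, Finsupp.sum, Finset.sum_eq_single j] at h1
  · rcases mul_eq_zero.1 h1 with h2 | h2
    · exact hj (by exact_mod_cast h2)
    · exact (iU ^ j).ne_zero h2
  · intro b _ hb
    rw [h b hb]; simp
  · intro hj'
    have : (Lam D).coeff j = 0 := by simpa using hj'
    rw [this]; simp

theorem Lam_ne {D : Word} (hD : Closed D) (hne : D ≠ []) : Lam D ≠ 0 := by
  intro h
  obtain ⟨j, hj⟩ := row_zero hD hne
  rw [h] at hj
  exact hj rfl

end

end Run7.h112
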