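import Pool.Agent.Run7.h112.Tops

/-!
# Adequacy and the top coefficient
-/

set_option autoImplicit false
set_option linter.unusedSimpArgs false
set_option linter.unusedVariables false

namespace Run7.h112

open LaurentPolynomial
open Pool.Agent.Helper454.Kauf
open Pool.Agent.Helper454.Kauf.Piece (birth death pos neg)
open Pool.Agent.Helper82_Alt (crs cx sg w_birth w_death w_cx w_nil width_append Fil LT_mul_coeff
  LC_mul_coeff t_B1 cx_true cx_false)

theorem AState.map {α β : Type} {s : List α} {w : Word} (h : AState s w) (f : α → β)
    (hf : Function.Injective f) : AState (s.map f) w := by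
  induction h with
  | nil => exact AState.nil
  | birth l r c w _ ih =>
    have := AState.birth (l.map f) (r.map f) (f c) w (by simpa using ih)
    simpa using this
  | death l r c w _ ih =>
    have := AState.death (l.map f) (r.map f) (f c) w (by simpa using ih)
    simpa using this
  | pos l r b c w hbc _ ih =>
    have := AState.pos (l.map f) (r.map f) (f b) (f c) w (fun h => hbc (hf h)) (by simpa using ih)
    simpa using this
  | neg l r b c w hbc _ ih =>
    have := AState.neg (l.map f) (r.map f) (f b) (f c) w (fun h => hbc (hf h)) (by simpa using ih)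
    simpa using this

variable {N : ℕ}

/-- one step of a colouring -/
def PR {α : Type} : Piece → List α → List α → Prop
  | .birth i, s, s' => ∃ A B c, A.length = i ∧ s = A ++ B ∧ s' = A ++ c :: c :: B
  | .death i, s, s' => ∃ A B c, A.length = i ∧ s = A ++ c :: c :: B ∧ s' = A ++ B
  | .pos i, s, s' => ∃ A B b c, A.length = i ∧ b ≠ c ∧ s = A ++ b :: c :: B ∧ s' = s
  | .neg i, s, s' => ∃ A B b c, A.length = i ∧ b ≠ c ∧ s = A ++ b :: b :: B ∧ s' = A ++ c :: c :: B

theorem AState_cons {α : Type} {p : Piece} {w : Word} {s : List α} :
    AState s (p :: w) ↔ ∃ s', PR p s s' ∧ AState s' w := by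
  constructor
  · intro h
    cases h with
    | birth l r c _ h => exact ⟨_, ⟨l, r, c, rfl, rfl, by simp⟩, h⟩
    | death l r c _ h => exact ⟨_, ⟨l, r, c, rfl, by simp, rfl⟩, h⟩
    | pos l r b c _ hbc h => exact ⟨_, ⟨l, r, b, c, rfl, hbc, by simp, rfl⟩, h⟩
    | neg l r b c _ hbc h => exact ⟨_, ⟨l, r, b, c, rfl, hbc, by simp, by simp⟩, h⟩
  · rintro ⟨s', h1, h2⟩
    cases p with
    | birth i =>
      obtain ⟨A, B, c, rfl, rfl, rfl⟩ := h1
      exact AState.birth A B c w (by simpa using h2)
    | death i =>
      obtain ⟨A, B, c, rfl, rfl, rfl⟩ := h1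
      have := AState.death A B c w h2
      simpa using this
    | pos i =>
      obtain ⟨A, B, b, c, rfl, hbc, rfl, rfl⟩ := h1
      have := AState.pos A B b c w hbc (by simpa using h2)
      simpa using this
    | neg i =>
      obtain ⟨A, B, b, c, rfl, hbc, rfl, rfl⟩ := h1
      have := AState.neg A B b c w hbc (by simpa using h2)
      simpa using this

theorem sh_nonneg (g : Fn N → Fn N) (hg : ∀ f : Fn N, (∀ s, 0 ≤ f s) → ∀ s, 0 ≤ g f s) (i : ℕ)
    (f : Fn N) (hf : ∀ s, 0 ≤ f s) (s : List (Fin N)) : 0 ≤ sh g i f s := by
  induction i generalizing f s with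
  | zero => exact hg f hf s
  | succ i ih =>
    cases s with
    | nil => exact le_refl _
    | cons x s => exact ih _ (fun s => hf _) s

theorem base_nonneg (p : Piece) (f : Fn N) (hf : ∀ s, 0 ≤ f s) (s : List (Fin N)) :
    0 ≤ base p f s := by
  cases p with
  | birth i =>
    show 0 ≤ ∑ c, f (c :: c :: s)
    exact Finset.sum_nonneg fun c _ => hf _
  | death i =>
    rcases s with _ | ⟨a, _ | ⟨b, s⟩⟩ <;> simp only [base, bD] <;> try exact le_refl _
    split_ifs
    · exact hf _
    · exact le_refl _
  | pos i =>
    rcases s with _ | ⟨a, _ | ⟨b, s⟩⟩ <;> simp only [base, bV] <;> try exact le_refl _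
    split_ifs
    · exact hf _
    · exact le_refl _
  | neg i =>
    rcases s with _ | ⟨a, _ | ⟨b, s⟩⟩ <;> simp only [base, bH] <;> try exact le_refl _
    split_ifs
    · refine Finset.sum_nonneg fun c _ => ?_
      split_ifs
      · exact hf _
      · exact le_refl _
    · exact le_refl _

theorem M_nonneg (w : Word) (f : Fn N) (hf : ∀ s, 0 ≤ f s) (s : List (Fin N)) :
    0 ≤ M w f s := by
  induction w generalizing s with
  | nil => exact hf s
  | cons p w ih => exact sh_nonneg _ (fun f hf s => base_nonneg p f hf s) _ _ ih s

theorem ini_nonneg (s : List (Fin N)) : 0 ≤ ini N s := by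
  unfold ini; split_ifs <;> norm_num

/-- the value of a piece is not zero iff there is a step -/
theorem op_ne (p : Piece) (f : Fn N) (hf : ∀ s, 0 ≤ f s) (s : List (Fin N)) :
    op p f s ≠ 0 ↔ ∃ s', PR p s s' ∧ f s' ≠ 0 := by
  have key : ∀ (i : ℕ) (f : Fn N), (∀ s, 0 ≤ f s) → ∀ s : List (Fin N),
      sh (base p) i f s ≠ 0 ↔ ∃ s', PR (p.moved i) s s' ∧ f s' ≠ 0 := by
    intro i
    induction i with
    | zero =>
      intro f hf s
      cases p with
      | birth i =>
        simp only [sh, base, bB, Piece.moved, PR]
        rw [ne_eq, Finset.sum_eq_zero_iff_of_nonneg (fun c _ => hf _)]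
        push Not
        constructor
        · rintro ⟨c, _, h⟩
          exact ⟨_, ⟨[], s, c, rfl, rfl, rfl⟩, h⟩
        · rintro ⟨s', ⟨A, B, c, hA, rfl, rfl⟩, h⟩
          obtain rfl := List.length_eq_zero_iff.1 hA
          exact ⟨c, Finset.mem_univ _, h⟩
      | death i =>
        simp only [sh, base, Piece.moved, PR]
        constructor
        · intro h
          rcases s with _ | ⟨a, _ | ⟨b, s⟩⟩
          · simp [bD] at h
          · simp [bD] at h
          · simp only [bD] at h
            split_ifs at h with hab
            · subst hab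
              exact ⟨_, ⟨[], s, a, rfl, rfl, rfl⟩, h⟩
            · exact absurd rfl h
        · rintro ⟨s', ⟨A, B, c, hA, rfl, rfl⟩, h⟩
          obtain rfl := List.length_eq_zero_iff.1 hA
          simpa [bD] using h
      | pos i =>
        simp only [sh, base, Piece.moved, PR]
        constructor
        · intro h
          rcases s with _ | ⟨a, _ | ⟨b, s⟩⟩
          · simp [bV] at h
          · simp [bV] at h
          · simp only [bV] at h
            split_ifs at h with hab
            · exact ⟨_, ⟨[], s, a, b, rfl, hab, rfl, rfl⟩, h⟩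
            · exact absurd rfl h
        · rintro ⟨s', ⟨A, B, b, c, hA, hbc, rfl, rfl⟩, h⟩
          obtain rfl := List.length_eq_zero_iff.1 hA
          simp only [List.nil_append, bV, if_pos hbc] at h ⊢
          exact h
      | neg i =>
        simp only [sh, base, Piece.moved, PR]
        constructor
        · intro h
          rcases s with _ | ⟨a, _ | ⟨b, s⟩⟩
          · simp [bH] at h
          · simp [bH] at h
          · simp only [bH] at h
            split_ifs at h with hab
            · subst hab
              obtain ⟨c, _, hc⟩ := Finset.exists_ne_zero_of_sum_ne_zero h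
              split_ifs at hc with hca
              · exact ⟨_, ⟨[], s, a, c, rfl, Ne.symm hca, rfl, rfl⟩, hc⟩
              · exact absurd rfl hc
            · exact absurd rfl h
        · rintro ⟨s', ⟨A, B, b, c, hA, hbc, rfl, rfl⟩, h⟩
          obtain rfl := List.length_eq_zero_iff.1 hA
          simp only [List.nil_append, bH, if_true] at h ⊢
          intro h0
          have hnn : ∀ d ∈ (Finset.univ : Finset (Fin N)),
              0 ≤ (if d ≠ b then f (d :: d :: B) else 0) := by
            intro d _
            split_ifs
            · exact hf _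
            · exact le_refl _
          have h1 := (Finset.sum_eq_zero_iff_of_nonneg hnn).1 h0 c (Finset.mem_univ _)
          rw [if_pos (Ne.symm hbc)] at h1
          exact h h1
    | succ i ih =>
      intro f hf s
      cases s with
      | nil =>
        simp only [sh]
        constructor
        · intro h; exact absurd rfl h
        · rintro ⟨s', h, _⟩
          exfalso
          cases p with
          | birth _ =>
            obtain ⟨A, B, c, hA, h, _⟩ := h
            have := congrArg List.length h
            simp at this
            try omega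
          | death _ =>
            obtain ⟨A, B, c, hA, h, _⟩ := h
            have := congrArg List.length h
            simp at this
            try omega
          | pos _ =>
            obtain ⟨A, B, b, c, hA, _, h, _⟩ := h
            have := congrArg List.length h
            simp at this
            try omega
          | neg _ =>
            obtain ⟨A, B, b, c, hA, _, h, _⟩ := h
            have := congrArg List.length h
            simp at this
            try omega
      | cons x s =>
        simp only [sh]
        rw [ih (fun r => f (x :: r)) (fun s => hf _) s]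
        constructor
        · rintro ⟨s', h, h'⟩
          refine ⟨x :: s', ?_, h'⟩
          cases p with
          | birth _ =>
            obtain ⟨A, B, c, hA, rfl, rfl⟩ := h
            exact ⟨x :: A, B, c, by simp [hA], rfl, rfl⟩
          | death _ =>
            obtain ⟨A, B, c, hA, rfl, rfl⟩ := h
            exact ⟨x :: A, B, c, by simp [hA], rfl, rfl⟩
          | pos _ =>
            obtain ⟨A, B, b, c, hA, hbc, rfl, rfl⟩ := h
            exact ⟨x :: A, B, b, c, by simp [hA], hbc, rfl, rfl⟩
          | neg _ =>
            obtain ⟨A, B, b, c, hA, hbc, rfl, rfl⟩ := h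
            exact ⟨x :: A, B, b, c, by simp [hA], hbc, rfl, rfl⟩
        · rintro ⟨s', h, h'⟩
          cases p with
          | birth _ =>
            obtain ⟨A, B, c, hA, h1, rfl⟩ := h
            cases A with
            | nil => simp at hA
            | cons y A =>
              simp only [List.cons_append, List.cons.injEq] at h1
              obtain ⟨rfl, rfl⟩ := h1
              exact ⟨_, ⟨A, B, c, by simpa using hA, rfl, rfl⟩, h'⟩
          | death _ =>
            obtain ⟨A, B, c, hA, h1, rfl⟩ := h
            cases A with
            | nil => simp at hA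
            | cons y A =>
              simp only [List.cons_append, List.cons.injEq] at h1
              obtain ⟨rfl, rfl⟩ := h1
              exact ⟨_, ⟨A, B, c, by simpa using hA, rfl, rfl⟩, h'⟩
          | pos _ =>
            obtain ⟨A, B, b, c, hA, hbc, h1, rfl⟩ := h
            cases A with
            | nil => simp at hA
            | cons y A =>
              simp only [List.cons_append, List.cons.injEq] at h1
              obtain ⟨rfl, rfl⟩ := h1
              exact ⟨_, ⟨A, B, b, c, by simpa using hA, hbc, rfl, rfl⟩, h'⟩
          | neg _ =>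
            obtain ⟨A, B, b, c, hA, hbc, h1, rfl⟩ := h
            cases A with
            | nil => simp at hA
            | cons y A =>
              simp only [List.cons_append, List.cons.injEq] at h1
              obtain ⟨rfl, rfl⟩ := h1
              exact ⟨_, ⟨A, B, b, c, by simpa using hA, hbc, rfl, rfl⟩, h'⟩
  have e : p.moved p.index = p := by cases p <;> rfl
  have := key p.index f hf s
  rw [e] at this
  exact this

theorem M_ne (w : Word) (s : List (Fin N)) : M w (ini N) s ≠ 0 ↔ AState s w := by
  induction w generalizing s with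
  | nil =>
    simp only [M, ini]
    constructor
    · intro h
      split_ifs at h with hs
      · subst hs; exact AState.nil
      · exact absurd rfl h
    · intro h
      cases h
      simp
  | cons p w ih =>
    rw [M, op_ne p _ (fun s => M_nonneg w _ ini_nonneg s), AState_cons]
    refine exists_congr fun s' => and_congr Iff.rfl (ih s')

theorem cnt_ne (D : Word) : cnt N D ≠ 0 ↔ AState (α := Fin N) [] D := M_ne D []

theorem AAdequate.large {D : Word} (h : AAdequate D) : ∃ N0 : ℕ, ∀ N ≥ N0, cnt N D ≠ 0 := by
  obtain ⟨N0, h⟩ := h
  refine ⟨N0, fun N hN => (cnt_ne D).2 ?_⟩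
  simpa using h.map (Fin.castLE hN) (Fin.castLE_injective hN)

/-! ### the top coefficient -/

noncomputable section

/-- evaluation of the coefficients -/
theorem rho_eq {R : Type} [CommRing R] (τ : Rˣ) (p : Raz) (c : ℤ) :
    (rho τ p).coeff c = LaurentPolynomial.eval₂ (Int.castRingHom R) τ ((rT p).coeff c) := by
  rw [rho_coeff, rho_coeff, Finsupp.sum, Finsupp.sum, map_sum]
  refine Finset.sum_congr rfl fun j _ => ?_
  rw [map_mul, map_intCast, tU, sU_zpow, LaurentPolynomial.eval₂_T]

/-- the unit `1 - N` -/
def tau (N : ℕ) (h : 2 ≤ N) : ℚˣ := Units.mk0 (1 - (N : ℚ)) (by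
  have : (2 : ℚ) ≤ N := by exact_mod_cast h
  linarith)

theorem tau_val (N : ℕ) (h : 2 ≤ N) : ((tau N h : ℚˣ) : ℚ) = 1 - N := rfl

/-- the top coefficient polynomial -/
def phi (D : Word) : LaurentPolynomial ℤ := (rT (Lam D)).coeff (crs D)

/-- evaluation at `1 - N` -/
def evN (N : ℕ) (h : 2 ≤ N) : LaurentPolynomial ℤ →+* ℚ :=
  LaurentPolynomial.eval₂ (Int.castRingHom ℚ) (tau N h)

theorem phi_ev {D : Word} (hD : Closed D) (hne : D ≠ []) (N : ℕ) (h : 2 ≤ N) :
    -(N : ℚ) * evN N h (phi D) = ((pv N D : ℤ) : ℚ) := by
  have h1 := eqv_all (R := ℚ) (N := N) (τ := tau N h) (tau_val N h) (crs D) D hD rfl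
  unfold Eqv fv at h1
  rw [← h1, kv_ne hne, map_mul]
  have h2 := (top_mul (rho (tau N h) dlt) (rho (tau N h) (Lam D)) 0 (crs D)
    (fun c' hc => rho_coeff_zero _ Fil_dlt hc)
    (fun c' hc => rho_coeff_zero _ (Lam_fil hD hne) hc)).1
  rw [zero_add] at h2
  rw [h2, rho_eq _ (Lam D)]
  congr 1
  rw [rho_dlt, AddMonoidAlgebra.coeff_add, Finsupp.add_apply, LC_mul_coeff]
  simp [tau_val]

theorem ev_ext {f g : LaurentPolynomial ℤ}
    (h : ∀ (N : ℕ) (hN : 2 ≤ N), evN N hN f = evN N hN g) : f = g := by
  rw [← sub_eq_zero]
  have h' : ∀ (N : ℕ) (hN : 2 ≤ N), evN N hN (f - g) = 0 := fun N hN => by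
    rw [map_sub, h, sub_self]
  generalize f - g = u at h'
  obtain ⟨n, P, hP⟩ := u.exists_T_pow
  have hz : P = 0 := by
    have hz2 : P.map (Int.castRingHom ℚ) = 0 := by
      refine Polynomial.eq_zero_of_infinite_isRoot _ ?_
      refine Set.Infinite.mono (s := Set.range fun N : ℕ => (1 - ((N + 2 : ℕ) : ℚ))) ?_ ?_
      · rintro _ ⟨N, rfl⟩
        show Polynomial.eval _ _ = 0
        have h1 := h' (N + 2) (by omega)
        have h2 : evN (N + 2) (by omega) (Polynomial.toLaurent P) = 0 := by
          rw [hP, map_mul, h1, zero_mul]
        rw [evN, LaurentPolynomial.eval₂_toLaurent] at h2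
        rw [Polynomial.eval_map]
        exact h2
      · refine Set.infinite_range_of_injective fun a b hab => ?_
        simp only [Nat.cast_add, Nat.cast_ofNat] at hab
        have : (a : ℚ) = b := by linarith
        exact_mod_cast this
    exact (Polynomial.map_injective _ (RingHom.injective_int _)) (by rw [hz2, Polynomial.map_zero])
  rw [hz, map_zero] at hP
  have := congrArg (fun v => v * T (-(n : ℤ))) hP
  simp only [zero_mul, mul_assoc, ← T_add] at this
  simpa using this.symm

theorem sgn_ne (w : Word) : sgn w ≠ 0 := by
  induction w with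
  | nil => simp [sgn]
  | cons p w ih =>
    have : sgn (p :: w) = sgp p * sgn w := by simp [sgn]
    rw [this]
    refine mul_ne_zero ?_ ih
    cases p <;> simp [sgp]

theorem phi_ne {D : Word} (hD : Closed D) (hne : D ≠ []) : phi D ≠ 0 ↔ AAdequate D := by
  constructor
  · intro h
    by_contra h0
    apply h
    refine ev_ext fun N hN => ?_
    have h1 := phi_ev hD hne N hN
    have h2 : cnt N D = 0 := by
      by_contra h2
      exact h0 ⟨N, (cnt_ne D).1 h2⟩
    rw [pv, h2, mul_zero, Int.cast_zero] at h1
    have hN' : (N : ℚ) ≠ 0 := by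
      have : 0 < N := by omega
      exact_mod_cast this.ne'
    rw [map_zero]
    rcases mul_eq_zero.1 h1 with h3 | h3
    · exact absurd (neg_eq_zero.1 h3) hN'
    · exact h3
  · intro h h0
    obtain ⟨N0, hN0⟩ := h.large
    have h1 := phi_ev hD hne (max N0 2) (le_max_right _ _)
    rw [h0, map_zero, mul_zero] at h1
    have h2 : pv (max N0 2) D = 0 := by exact_mod_cast h1.symm
    rcases mul_eq_zero.1 h2 with h3 | h3
    · exact sgn_ne D h3
    · exact hN0 _ (le_max_left _ _) h3

theorem top_adequate {D : Word} (hD : Closed D) (hne : D ≠ []) :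
    IsTop (Lam D) (crs D) ↔ AAdequate D := by
  rw [isTop_iff, ← phi_ne hD hne]
  exact ⟨fun h => h.1, fun h => ⟨h, Lam_fil hD hne⟩⟩

end

end Run7.h112
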