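import Pool.Agent.Run7.h112.AI

/-!
# Crossing numbers, adequate diagrams, connected sums
-/

set_option autoImplicit false
set_option linter.unusedSimpArgs false
set_option linter.unusedVariables false

namespace Run7.h112

open LaurentPolynomial
open Pool.Agent.Helper454.Kauf
open Pool.Agent.Helper454.Kauf.Piece (birth death pos neg)
open Pool.Agent.Helper82_Alt (crs cx sg w_birth w_death w_cx w_nil width_append Fil LT_mul_coeff
  LC_mul_coeff t_B1 cx_true cx_false)

noncomputable section

theorem crossings_eq (D : Word) : crossings D = crs D := by
  induction D with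
  | nil => rfl
  | cons p w ih => cases p <;> simp [crossings, crs, ih]

/-- `s` is the sum of the largest value of `j + k` and of the largest value of `k - j` for the
monomials `a^j z^k` of `p` -/
def IsTT (p : Raz) (s : ℤ) : Prop := ∃ c c', IsTop p c ∧ IsTop (iva p) c' ∧ c + c' = s

theorem IsTT.unique {p : Raz} {s s' : ℤ} (h : IsTT p s) (h' : IsTT p s') : s = s' := by
  obtain ⟨c, d, h1, h2, rfl⟩ := h
  obtain ⟨c', d', h1', h2', rfl⟩ := h'
  rw [h1.unique h1', h2.unique h2']

theorem iva_ne {p : Raz} (hp : p ≠ 0) : iva p ≠ 0 := by
  intro h
  apply hp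
  rw [← iva_iva p, h, map_zero]

theorem exists_TT {p : Raz} (hp : p ≠ 0) : ∃ s, IsTT p s := by
  obtain ⟨c, hc⟩ := exists_top hp
  obtain ⟨c', hc'⟩ := exists_top (iva_ne hp)
  exact ⟨_, c, c', hc, hc', rfl⟩

theorem IsTT.mul {p q : Raz} {s s' : ℤ} (hp : IsTT p s) (hq : IsTT q s') :
    IsTT (p * q) (s + s') := by
  obtain ⟨c, d, h1, h2, rfl⟩ := hp
  obtain ⟨c', d', h1', h2', rfl⟩ := hq
  refine ⟨c + c', d + d', h1.mul h1', ?_, by ring⟩
  rw [map_mul]
  exact h2.mul h2'

theorem IsTT.aPow (n : ℤ) {p : Raz} {s : ℤ} (hp : IsTT p s) :
    IsTT (Pool.Agent.Helper454.Kauf.aPow n * p) s := by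
  obtain ⟨c, d, h1, h2, rfl⟩ := hp
  refine ⟨n + c, -n + d, h1.aPow n, ?_, by ring⟩
  rw [map_mul, iva_aPow]
  exact h2.aPow (-n)

theorem IsTT.le {D : Word} (hD : Closed D) (hne : D ≠ []) {s : ℤ} (h : IsTT (Lam D) s) :
    s ≤ 2 * (crs D : ℤ) := by
  obtain ⟨c, d, h1, h2, rfl⟩ := h
  have e1 : c ≤ crs D := by
    obtain ⟨⟨j, k, rfl, h⟩, _⟩ := h1
    exact Lam_fil hD hne _ _ h
  have e2 : d ≤ crs D := by
    rw [← Lam_mir hD hne] at h2
    obtain ⟨⟨j, k, rfl, h⟩, _⟩ := h2
    have := Lam_fil (mir_closed.2 hD) (mir_ne hne) _ _ h
    rwa [mir_crs] at this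
  linarith

theorem IsTT.nonneg {D : Word} (hD : Closed D) (hne : D ≠ []) {s : ℤ} (h : IsTT (Lam D) s) :
    0 ≤ s := by
  obtain ⟨c, d, h1, h2, rfl⟩ := h
  obtain ⟨j, hj⟩ := row_zero hD hne
  have e1 := h1.2 _ _ hj
  have e2 := h2.2 (-j) 0 (by rw [iva_coeff, neg_neg]; exact hj)
  linarith

/-- adequate diagrams are those which attain both bounds -/
theorem tt_adequate {D : Word} (hD : Closed D) (hne : D ≠ []) :
    IsTT (Lam D) (2 * (crs D : ℤ)) ↔ Adequate D := by
  have hm := top_adequate (mir_closed.2 hD) (mir_ne hne)
  rw [Lam_mir hD hne, mir_crs] at hm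
  constructor
  · intro h
    obtain ⟨c, d, h1, h2, h3⟩ := h
    have e1 : c ≤ crs D := by
      obtain ⟨⟨j, k, rfl, h⟩, _⟩ := h1
      exact Lam_fil hD hne _ _ h
    have e2 : d ≤ crs D := by
      have h2' := h2
      rw [← Lam_mir hD hne] at h2'
      obtain ⟨⟨j, k, rfl, h⟩, _⟩ := h2'
      have := Lam_fil (mir_closed.2 hD) (mir_ne hne) _ _ h
      rwa [mir_crs] at this
    obtain rfl : c = crs D := by linarith
    obtain rfl : d = crs D := by linarith
    exact ⟨(top_adequate hD hne).1 h1, hm.1 h2⟩
  · intro h
    exact ⟨_, _, (top_adequate hD hne).2 h.1, hm.2 h.2, by ring⟩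

/-! ### isotopy -/

theorem step_ne {D E : Word} (h : IsoStep D E) : D = [] ↔ E = [] := by
  obtain ⟨x, l, r, y, hlr, c1, c2⟩ := h
  have bad : ∀ p q : Piece, width [p, q] 0 = some 0 → p = birth 0 ∧ q = death 0 := by
    intro p q h
    obtain ⟨m, hm, h⟩ := Ex.wd_cons h
    obtain ⟨m', hm', h⟩ := Ex.wd_cons h
    obtain rfl := Ex.wd_nil h
    cases p with
    | birth i =>
      obtain ⟨h1, rfl⟩ := Ex.wd_birth hm
      cases q with
      | birth j => have := Ex.wd_birth hm'; omega
      | death j =>
        have := Ex.wd_death hm'
        exact ⟨by congr 1; omega, by congr 1; omega⟩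
      | pos j => have := Ex.wd_pos hm'; omega
      | neg j => have := Ex.wd_neg hm'; omega
    | death i => have := Ex.wd_death hm; omega
    | pos i => have := Ex.wd_pos hm; omega
    | neg i => have := Ex.wd_neg hm; omega
  have key : ∀ p q : Piece, l = [p, q] → r = [] → ¬ (p = birth 0 ∧ q = death 0) →
      (x ++ l ++ y = [] ↔ x ++ r ++ y = []) := by
    rintro p q rfl rfl hpq
    constructor
    · intro h; simp at h
    · intro h
      simp only [List.append_nil, List.append_eq_nil_iff] at h
      obtain ⟨rfl, rfl⟩ := h
      exact absurd (bad p q c1) hpq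
  have key2 : l ≠ [] → r ≠ [] → (x ++ l ++ y = [] ↔ x ++ r ++ y = []) := by
    intro h1 h2
    constructor <;> intro h <;> simp only [List.append_eq_nil_iff] at h <;> tauto
  rcases hlr with h | h
  · cases h with
    | exchange p q h => exact key2 (by simp) (by simp)
    | zigzag₁ i => exact key _ _ rfl rfl (by simp)
    | zigzag₂ i => exact key _ _ rfl rfl (by simp)
    | slideBirth₁ i => exact key2 (by simp) (by simp)
    | slideBirth₂ i => exact key2 (by simp) (by simp)
    | slideDeath₁ i => exact key2 (by simp) (by simp)
    | slideDeath₂ i => exact key2 (by simp) (by simp)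
    | second₁ i => exact key _ _ rfl rfl (by simp)
    | second₂ i => exact key _ _ rfl rfl (by simp)
    | third i => exact key2 (by simp) (by simp)
  · cases h with
    | birthPos i => exact key2 (by simp) (by simp)
    | birthNeg i => exact key2 (by simp) (by simp)
    | deathPos i => exact key2 (by simp) (by simp)
    | deathNeg i => exact key2 (by simp) (by simp)

theorem iso_ne {D E : Word} (h : Isotopic D E) : D = [] ↔ E = [] := by
  induction h with
  | rel D E h => exact step_ne h
  | refl D => exact Iff.rfl
  | symm D E _ ih => exact ih.symm
  | trans D E F _ _ ih1 ih2 => exact ih1.trans ih2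

theorem IsTT.iso {D E : Word} (h : Isotopic D E) {s : ℤ} (hD : IsTT (Lam D) s) :
    IsTT (Lam E) s := by
  obtain ⟨m, hm⟩ := iso_Lam h
  rw [hm]
  exact hD.aPow m

theorem cn_mem {D : Word} (hD : Closed D) :
    ∃ E, Closed E ∧ Isotopic D E ∧ crs E = crossingNumber D := by
  obtain ⟨E, h1, h2, h3⟩ := Nat.sInf_mem (s := {n | ∃ E, Closed E ∧ Isotopic D E ∧ crossings E = n})
    ⟨_, D, hD, Relation.EqvGen.refl _, rfl⟩
  exact ⟨E, h1, h2, by rw [← crossings_eq]; exact h3⟩

theorem cn_le {D E : Word} (hE : Closed E) (h : Isotopic D E) : crossingNumber D ≤ crs E :=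
  Nat.sInf_le ⟨E, hE, h, crossings_eq E⟩

/-- the lower bound for the crossing number -/
theorem tt_le {D : Word} (hD : Closed D) (hne : D ≠ []) {s : ℤ} (h : IsTT (Lam D) s) :
    s ≤ 2 * (crossingNumber D : ℤ) := by
  obtain ⟨E, hE, hi, hc⟩ := cn_mem hD
  rw [← hc]
  exact (h.iso hi).le hE (fun h0 => hne ((iso_ne hi).2 h0))

theorem connSum_TT {D E : Word} (hD : Closed D) (hDn : D ≠ []) (hE : Closed E) (hEn : E ≠ [])
    {s s' : ℤ} (h : IsTT (Lam D) s) (h' : IsTT (Lam E) s') :
    IsTT (Lam (connSum D E)) (s + s') := by
  rw [connSum_Lam hD hDn hE hEn]; exact h.mul h'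

theorem connSum_adequate {D E : Word} (hD : Closed D) (hDn : D ≠ []) (hE : Closed E) (hEn : E ≠ [])
    (h : Adequate D) (h' : Adequate E) : Adequate (connSum D E) := by
  rw [← tt_adequate (connSum_closed hD hDn hE hEn) (connSum_ne hD hDn hE hEn),
    connSum_crs hD hDn hE hEn]
  have := connSum_TT hD hDn hE hEn ((tt_adequate hD hDn).2 h) ((tt_adequate hE hEn).2 h')
  push_cast
  rw [mul_add]
  exact this

/-- an adequate diagram has the smallest number of crossings -/
theorem cn_adequate {D : Word} (hD : Closed D) (hne : D ≠ []) (h : Adequate D) :
    crossingNumber D = crs D := by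
  have h1 := tt_le hD hne ((tt_adequate hD hne).2 h)
  have h2 := cn_le hD (Relation.EqvGen.refl D)
  omega

theorem connSum_assoc {A B D : Word} (hB : Closed B) (hBn : B ≠ []) :
    connSum A (connSum B D) = connSum (connSum A B) D := by
  obtain ⟨V, hBV, hV⟩ := (closed_form hB hBn).1
  obtain ⟨Y, hBY, hY⟩ := (closed_form hB hBn).2
  unfold connSum
  have hVn : V ≠ [] := by
    rintro rfl
    simp [width] at hV
  obtain ⟨v, V', rfl⟩ := List.exists_cons_of_ne_nil hVn
  have e1 : B.dropLast = v :: V' := by rw [hBV, List.dropLast_concat]
  have e2 : B.tail = V' ++ [death 0] := by rw [hBV]; rfl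
  rw [e1, e2, ← List.append_assoc, List.dropLast_concat, List.cons_append, List.tail_cons,
    List.append_assoc]

/-! ### the number of components of a connected sum -/

/-- partial evaluation of `componentsAux` (compare `Pool.Agent.Y478.KU.runC`) -/
def runC : Word → List ℕ → ℕ → ℕ × List ℕ × ℕ
  | [], L, k => (0, L, k)
  | birth i :: w, L, k => runC w (L.take i ++ [k, k] ++ L.drop i) (k + 1)
  | death i :: w, L, k =>
      ((if L.getD i 0 = L.getD (i + 1) 0 then 1 else 0) +
        (runC w ((L.take i ++ L.drop (i + 2)).map
          (fun c => if c = L.getD (i + 1) 0 then L.getD i 0 else c)) k).1,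
       (runC w ((L.take i ++ L.drop (i + 2)).map
          (fun c => if c = L.getD (i + 1) 0 then L.getD i 0 else c)) k).2)
  | pos i :: w, L, k => runC w (L.take i ++ [L.getD (i + 1) 0, L.getD i 0] ++ L.drop (i + 2)) k
  | neg i :: w, L, k => runC w (L.take i ++ [L.getD (i + 1) 0, L.getD i 0] ++ L.drop (i + 2)) k

theorem componentsAux_append (u v : Word) (L : List ℕ) (k : ℕ) :
    componentsAux (u ++ v) L k =
      (runC u L k).1 + componentsAux v (runC u L k).2.1 (runC u L k).2.2 := by
  induction u generalizing L k with
  | nil => simp [runC]
  | cons p u ih =>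
    cases p with
    | birth i => exact ih _ _
    | death i =>
      show _ + componentsAux (u ++ v) _ _ = _
      rw [ih]
      show _ = ((if L.getD i 0 = L.getD (i + 1) 0 then 1 else 0) + _) + _
      rw [add_assoc]
      rfl
    | pos i => exact ih _ _
    | neg i => exact ih _ _

theorem getD_map' (f : ℕ → ℕ) (L : List ℕ) (i : ℕ) (h : i < L.length) :
    (L.map f).getD i 0 = f (L.getD i 0) := by
  rw [List.getD_eq_getElem _ _ (by simpa using h), List.getD_eq_getElem _ _ h, List.getElem_map]

/-- (this is `Pool.Agent.Y478.KU.componentsAux_rename`) -/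
theorem componentsAux_rename (f : ℕ → ℕ) (hf : Function.Injective f) (w : Word) :
    ∀ (L : List ℕ) (k k' : ℕ), (∀ j, f (k + j) = k' + j) → (width w L.length).isSome →
      componentsAux w (L.map f) k' = componentsAux w L k := by
  induction w with
  | nil => intros; rfl
  | cons p w ih =>
    intro L k k' hk hw
    have hk0 : f k = k' := by simpa using hk 0
    cases p with
    | birth i =>
      simp only [Pool.Agent.Helper454.Kauf.width, Piece.width] at hw
      split at hw
      · rename_i hi
        rw [componentsAux, componentsAux, ← ih (L.take i ++ [k, k] ++ L.drop i) (k + 1) (k' + 1)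
          (fun j => by rw [add_assoc, hk, add_assoc])
          (by simpa [Nat.min_eq_left hi, show i + (2 + (L.length - i)) = L.length + 2 by omega,
                show i + (L.length - i + 2) = L.length + 2 by omega] using hw)]
        simp [List.map_take, List.map_drop, hk0]
      · simp at hw
    | death i =>
      simp only [Pool.Agent.Helper454.Kauf.width, Piece.width] at hw
      split at hw
      · rename_i hi
        rw [componentsAux, componentsAux, getD_map' f L i (by omega), getD_map' f L (i + 1) (by omega)]
        congr 1
        · simp [hf.eq_iff]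
        · rw [← ih ((L.take i ++ L.drop (i + 2)).map
            (fun c => if c = L.getD (i + 1) 0 then L.getD i 0 else c)) k k' hk
            (by simpa [Nat.min_eq_left (show i ≤ L.length by omega),
                  show i + (L.length - (i + 2)) = L.length - 2 by omega] using hw)]
          congr 1
          rw [← List.map_take, ← List.map_drop, ← List.map_append, List.map_map, List.map_map]
          refine List.map_congr_left fun c _ => ?_
          simp only [Function.comp_apply, hf.eq_iff]
          split <;> rfl
      · simp at hw
    | pos i =>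
      simp only [Pool.Agent.Helper454.Kauf.width, Piece.width] at hw
      split at hw
      · rename_i hi
        rw [componentsAux, componentsAux, getD_map' f L i (by omega),
          getD_map' f L (i + 1) (by omega),
          ← ih (L.take i ++ [L.getD (i + 1) 0, L.getD i 0] ++ L.drop (i + 2)) k k' hk
          (by simpa [Nat.min_eq_left (show i ≤ L.length by omega),
                  show i + (2 + (L.length - (i + 2))) = L.length by omega,
                  show i + (L.length - (i + 2) + 2) = L.length by omega] using hw)]
        simp [List.map_take, List.map_drop]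
      · simp at hw
    | neg i =>
      simp only [Pool.Agent.Helper454.Kauf.width, Piece.width] at hw
      split at hw
      · rename_i hi
        rw [componentsAux, componentsAux, getD_map' f L i (by omega),
          getD_map' f L (i + 1) (by omega),
          ← ih (L.take i ++ [L.getD (i + 1) 0, L.getD i 0] ++ L.drop (i + 2)) k k' hk
          (by simpa [Nat.min_eq_left (show i ≤ L.length by omega),
                  show i + (2 + (L.length - (i + 2))) = L.length by omega,
                  show i + (L.length - (i + 2) + 2) = L.length by omega] using hw)]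
        simp [List.map_take, List.map_drop]
      · simp at hw

/-- a list of length `n` split at the position `i` -/
theorem split_at {L : List ℕ} {i : ℕ} (h : i + 2 ≤ L.length) :
    ∃ A B a b, A.length = i ∧ L = A ++ a :: b :: B := by
  refine ⟨L.take i, L.drop (i + 2), L[i], L[i + 1], by simp; omega, ?_⟩
  rw [← List.drop_eq_getElem_cons (i := i + 1) (by omega), ← List.drop_eq_getElem_cons (by omega),
    List.take_append_drop]

theorem take_mid (A B : List ℕ) (a b : ℕ) : (A ++ a :: b :: B).take A.length = A := by simp

theorem drop_mid (A B : List ℕ) (a b : ℕ) : (A ++ a :: b :: B).drop (A.length + 2) = B := by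
  rw [List.drop_append]; simp

theorem getD_mid (A B : List ℕ) (a b : ℕ) : (A ++ a :: b :: B).getD A.length 0 = a := by simp

theorem getD_mid' (A B : List ℕ) (a b : ℕ) : (A ++ a :: b :: B).getD (A.length + 1) 0 = b := by
  rw [List.getD_append_right _ _ _ _ (by omega)]; simp

theorem map_self' (a : ℕ) (M : List ℕ) : M.map (fun c => if c = a then a else c) = M := by
  conv_rhs => rw [← List.map_id M]
  refine List.map_congr_left fun c _ => ?_
  split_ifs with h
  · exact h.symm
  · rfl

theorem count_map_a {a b : ℕ} (hab : a ≠ b) (M : List ℕ) :
    (M.map (fun c => if c = b then a else c)).count a = M.count a + M.count b := by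
  induction M with
  | nil => rfl
  | cons x M ih =>
    rw [List.map_cons, List.count_cons, List.count_cons, List.count_cons, ih]
    simp only [beq_iff_eq]
    by_cases h1 : x = b
    · have h2 : x ≠ a := fun h => hab (h.symm.trans h1)
      simp only [h1, if_true, if_neg (fun h => hab h.symm : ¬ b = a)]
      ring
    · simp only [h1, if_false]
      ring

theorem count_map_b {a b : ℕ} (hab : a ≠ b) (M : List ℕ) :
    (M.map (fun c => if c = b then a else c)).count b = 0 := by
  rw [List.count_eq_zero]
  intro h
  rw [List.mem_map] at h
  obtain ⟨x, _, hx⟩ := h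
  split_ifs at hx with h1
  · exact hab hx
  · exact h1 hx

theorem count_map_c {a b c : ℕ} (ha : a ≠ c) (hb : b ≠ c) (M : List ℕ) :
    (M.map (fun c => if c = b then a else c)).count c = M.count c := by
  induction M with
  | nil => rfl
  | cons x M ih =>
    rw [List.map_cons, List.count_cons, List.count_cons, ih]
    simp only [beq_iff_eq]
    by_cases h1 : x = b
    · subst h1
      simp only [if_true, if_neg ha, if_neg hb]
    · simp only [h1, if_false]

theorem runC_inv (w : Word) : ∀ (L : List ℕ) (k n : ℕ), width w L.length = some n →
    (∀ c ∈ L, c < k) → (∀ c, Even (L.count c)) →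
    (runC w L k).2.1.length = n ∧ (∀ c ∈ (runC w L k).2.1, c < (runC w L k).2.2) ∧
      ∀ c, Even ((runC w L k).2.1.count c) := by
  induction w with
  | nil =>
    intro L k n hn h1 h2
    have : L.length = n := by simpa [width] using hn
    exact ⟨this, h1, h2⟩
  | cons p w ih =>
    intro L k n hn h1 h2
    obtain ⟨m, hm, hw⟩ := Ex.wd_cons hn
    cases p with
    | birth i =>
      obtain ⟨hi, rfl⟩ := Ex.wd_birth hm
      obtain ⟨A, B, rfl, rfl⟩ : ∃ A B, A.length = i ∧ L = A ++ B :=
        ⟨L.take i, L.drop i, by simp; omega, by simp⟩
      rw [runC, List.take_left, List.drop_left]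
      refine ih _ _ n (by simpa [add_comm, add_left_comm, add_assoc] using hw) ?_ ?_
      · intro c hc
        simp only [List.append_assoc, List.cons_append, List.nil_append, List.mem_append,
          List.mem_cons] at hc
        rcases hc with h | rfl | rfl | h
        · exact (h1 c (by simp [h])).trans (Nat.lt_succ_self _)
        · exact Nat.lt_succ_self _
        · exact Nat.lt_succ_self _
        · exact (h1 c (by simp [h])).trans (Nat.lt_succ_self _)
      · intro c
        have := h2 c
        rw [List.count_append] at this
        rw [List.count_append, List.count_append, List.count_cons, List.count_cons, List.count_nil]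
        split_ifs with h
        · rw [Nat.even_add] at this
          rw [Nat.even_add, Nat.even_add]
          simp only [zero_add, Nat.reduceAdd]
          have : Even 2 := even_two
          tauto
        · simpa using this
    | death i =>
      obtain ⟨hi, hmm⟩ := Ex.wd_death hm
      obtain ⟨A, B, a, b, rfl, rfl⟩ := split_at hi
      rw [runC, take_mid, drop_mid, getD_mid, getD_mid']
      have hm' : m = (A ++ B).length := by simp at hmm ⊢; omega
      refine ih _ _ n (by rw [List.length_map, ← hm']; exact hw) ?_ ?_
      · intro c hc
        rw [List.mem_map] at hc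
        obtain ⟨d, hd, rfl⟩ := hc
        split_ifs
        · exact h1 a (by simp)
        · exact h1 d (by rw [List.mem_append] at hd; rcases hd with h | h <;> simp [h])
      · intro c
        have hcount : ∀ c, Even ((A ++ B).count c + (if a = c then 1 else 0) +
            (if b = c then 1 else 0)) := by
          intro c
          have := h2 c
          rw [List.count_append, List.count_cons, List.count_cons] at this
          rw [List.count_append]
          have e : List.count c A + List.count c B + (if a = c then 1 else 0) +
              (if b = c then 1 else 0) = List.count c A + (List.count c B +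
              (if b == c then 1 else 0) + (if a == c then 1 else 0)) := by
            simp only [beq_iff_eq]; ring
          rw [e]; exact this
        have ha := hcount a
        have hb := hcount b
        have hc := hcount c
        by_cases hab : a = b
        · subst hab
          rw [map_self']
          by_cases hca : a = c
          · subst hca
            simp only [if_true] at ha
            rw [Nat.even_iff] at ha ⊢
            omega
          · simp only [hca, if_false] at hc
            simpa using hc
        · have hba : b ≠ a := fun h => hab h.symm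
          by_cases hca : a = c
          · subst hca
            rw [count_map_a hab]
            simp only [if_true, if_false, hab, hba] at ha hb
            rw [Nat.even_iff] at ha hb ⊢
            omega
          · by_cases hcb : b = c
            · subst hcb
              rw [count_map_b hab]
              exact Even.zero
            · rw [count_map_c hca hcb]
              simp only [hca, hcb, if_false] at hc
              simpa using hc
    | pos i =>
      obtain ⟨hi, hmm⟩ := Ex.wd_pos hm
      obtain ⟨A, B, a, b, rfl, rfl⟩ := split_at hi
      rw [runC, take_mid, drop_mid, getD_mid, getD_mid']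
      refine ih _ _ n (by subst hmm; simpa [add_comm, add_left_comm, add_assoc] using hw) ?_ ?_
      · intro c hc
        apply h1 c
        simp only [List.append_assoc, List.cons_append, List.nil_append, List.mem_append,
          List.mem_cons] at hc ⊢
        tauto
      · intro c
        have := h2 c
        rw [List.count_append, List.count_cons, List.count_cons] at this
        rw [List.append_assoc, List.count_append]
        simp only [List.cons_append, List.nil_append, List.count_cons]
        rw [add_right_comm (List.count c B)]
        exact this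
    | neg i =>
      obtain ⟨hi, hmm⟩ := Ex.wd_neg hm
      obtain ⟨A, B, a, b, rfl, rfl⟩ := split_at hi
      rw [runC, take_mid, drop_mid, getD_mid, getD_mid']
      refine ih _ _ n (by subst hmm; simpa [add_comm, add_left_comm, add_assoc] using hw) ?_ ?_
      · intro c hc
        apply h1 c
        simp only [List.append_assoc, List.cons_append, List.nil_append, List.mem_append,
          List.mem_cons] at hc ⊢
        tauto
      · intro c
        have := h2 c
        rw [List.count_append, List.count_cons, List.count_cons] at this
        rw [List.append_assoc, List.count_append]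
        simp only [List.cons_append, List.nil_append, List.count_cons]
        rw [add_right_comm (List.count c B)]
        exact this

theorem knot_ne {D : Word} (h : IsKnot D) : D ≠ [] := by
  rintro rfl
  have := h.2
  simp [components, componentsAux] at this

theorem connSum_components {D E : Word} (hD : Closed D) (hDn : D ≠ []) (hE : Closed E)
    (hEn : E ≠ []) : components (connSum D E) + 1 = components D + components E := by
  obtain ⟨V, rfl, hV⟩ := (closed_form hD hDn).1
  obtain ⟨Y, rfl, hY⟩ := (closed_form hE hEn).2
  unfold connSum components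
  rw [List.dropLast_concat, List.tail_cons, componentsAux_append, componentsAux_append]
  obtain ⟨h1, h2, h3⟩ := runC_inv V [] 0 2 hV (by simp) (by simp)
  generalize (runC V [] 0).1 = e at *
  generalize (runC V [] 0).2.1 = L at *
  generalize (runC V [] 0).2.2 = k at *
  rcases L with _ | ⟨x, _ | ⟨y, _ | ⟨z, L⟩⟩⟩
  · simp at h1
  · simp at h1
  · obtain rfl : x = y := by
      by_contra hxy
      have hyx : y ≠ x := fun h => hxy h.symm
      have := h3 x
      rw [List.count_cons, List.count_cons] at this
      simp [hyx] at this
    have hxk : x < k := h2 x (by simp)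
    have e1 : componentsAux [death 0] [x, x] k = 1 := by simp [componentsAux]
    have e2 : componentsAux (birth 0 :: Y) [] 0 = componentsAux Y [0, 0] 1 := rfl
    rw [e1, e2]
    let f : ℕ → ℕ := fun n => match n with
      | 0 => x
      | n + 1 => k + n
    have hf : Function.Injective f := by
      intro a b h
      cases a <;> cases b <;> simp only [f] at h <;> omega
    have := componentsAux_rename f hf Y [0, 0] 1 k (fun j => by rw [add_comm 1 j]) (by
      show (width Y 2).isSome
      rw [hY]; rfl)
    have e3 : [0, 0].map f = [x, x] := rfl
    rw [e3] at this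
    rw [this]; ring
  · simp at h1

theorem connSum_knot {D E : Word} (hD : IsKnot D) (hE : IsKnot E) : IsKnot (connSum D E) := by
  refine ⟨connSum_closed hD.1 (knot_ne hD) hE.1 (knot_ne hE), ?_⟩
  have := connSum_components hD.1 (knot_ne hD) hE.1 (knot_ne hE)
  rw [hD.2, hE.2] at this
  omega

end

end Run7.h112
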