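import Pool.Agent.Run7.h112.CN

/-!
# Sums of lists of diagrams
-/

set_option autoImplicit false

namespace Run7.h112

open Pool.Agent.Helper454.Kauf
open Pool.Agent.Helper82_Alt (crs)

theorem connSums_append (D : Word) (As Bs : List Word) :
    connSums D (As ++ Bs) = connSums (connSums D As) Bs := List.foldl_append

theorem connSums_cons (D E : Word) (Es : List Word) :
    connSums D (E :: Es) = connSums (connSum D E) Es := rfl

theorem connSums_nil (D : Word) : connSums D [] = D := rfl

theorem connSums_good {D : Word} (hD : Closed D) (hDn : D ≠ []) (Es : List Word)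
    (hE : ∀ E ∈ Es, Closed E ∧ E ≠ []) : Closed (connSums D Es) ∧ connSums D Es ≠ [] := by
  induction Es generalizing D with
  | nil => exact ⟨hD, hDn⟩
  | cons E Es ih =>
    obtain ⟨h1, h2⟩ := hE E (by simp)
    exact ih (connSum_closed hD hDn h1 h2) (connSum_ne hD hDn h1 h2) fun F hF => hE F (by simp [hF])

theorem connSums_crs {D : Word} (hD : Closed D) (hDn : D ≠ []) (Es : List Word)
    (hE : ∀ E ∈ Es, Closed E ∧ E ≠ []) : crs (connSums D Es) = crs D + (Es.map crs).sum := by
  induction Es generalizing D with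
  | nil => simp [connSums]
  | cons E Es ih =>
    obtain ⟨h1, h2⟩ := hE E (by simp)
    rw [connSums_cons, ih (connSum_closed hD hDn h1 h2) (connSum_ne hD hDn h1 h2)
      fun F hF => hE F (by simp [hF]), connSum_crs hD hDn h1 h2]
    simp [add_assoc]

theorem connSums_TT {D : Word} (hD : Closed D) (hDn : D ≠ []) {s : ℤ} (hs : IsTT (Lam D) s)
    (Es : List Word) (f : Word → ℤ)
    (hE : ∀ E ∈ Es, Closed E ∧ E ≠ [] ∧ ∃ t, IsTT (Lam E) t ∧ f E ≤ t) :
    ∃ t, IsTT (Lam (connSums D Es)) t ∧ s + (Es.map f).sum ≤ t := by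
  induction Es generalizing D s with
  | nil => exact ⟨s, hs, by simp⟩
  | cons E Es ih =>
    obtain ⟨h1, h2, t, ht, hf⟩ := hE E (by simp)
    obtain ⟨u, hu, h⟩ := ih (connSum_closed hD hDn h1 h2) (connSum_ne hD hDn h1 h2)
      (connSum_TT hD hDn h1 h2 hs ht) fun F hF => hE F (by simp [hF])
    refine ⟨u, hu, ?_⟩
    rw [List.map_cons, List.sum_cons]
    linarith

end Run7.h112
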