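import Pool.Agent.Run7.h112.Psi
import Pool.Agent.Helper454.Kauf.Exist10

/-!
# The top edge of the Kauffman polynomial
-/

set_option autoImplicit false
set_option linter.unusedSimpArgs false
set_option linter.unusedVariables false

namespace Run7.h112

open LaurentPolynomial
open Pool.Agent.Helper454.Kauf
open Pool.Agent.Helper454.Kauf.Piece (birth death pos neg)
open Pool.Agent.Helper82_Alt (crs cx sg w_birth w_death w_cx w_nil width_append Fil LT_mul_coeff
  LC_mul_coeff t_B1)

noncomputable section

/-- the Kauffman polynomial in the normalisation `1` for the circle -/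
abbrev Lam (D : Word) : Raz := Ex.Lam Raz D

theorem Lam_fil {D : Word} (hD : Closed D) (hne : D ≠ []) : Fil (crs D) (Lam D) := by
  obtain ⟨p, hp, h⟩ := t_B1 Raz (Ex.Lam Raz) Ex.Lam_rules D hD hne
  have : Lam D = p := by
    show Ex.Lam Raz D = p
    rw [h, Ex.Lam_circle]; simp
  rw [this]
  exact hp

section rho

variable {R : Type} [CommRing R]

/-- the variable -/
def sU (R : Type) [CommRing R] : (LaurentPolynomial R)ˣ :=
  ⟨T 1, T (-1), by rw [← T_add]; simp, by rw [← T_add]; simp⟩

def aU (τ : Rˣ) : (LaurentPolynomial R)ˣ :=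
  ⟨C (τ : R) * T 1, C ((τ⁻¹ : Rˣ) : R) * T (-1), by
    rw [mul_mul_mul_comm, ← map_mul, ← T_add]; simp, by
    rw [mul_mul_mul_comm, ← map_mul, ← T_add]; simp⟩

/-- `a ↦ τ s`, `z ↦ s` -/
def rho (τ : Rˣ) : Raz →+* LaurentPolynomial R :=
  LaurentPolynomial.eval₂ (LaurentPolynomial.eval₂ (Int.castRingHom _) (sU R)) (aU τ)

theorem sU_zpow (n : ℤ) : ((sU R ^ n : (LaurentPolynomial R)ˣ) : LaurentPolynomial R) = T n := by
  induction n using Int.induction_on with
  | zero => simp
  | succ n ih => rw [zpow_add_one, Units.val_mul, ih, T_add]; rfl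
  | pred n ih => rw [zpow_sub_one, Units.val_mul, ih, sub_eq_add_neg, T_add]; rfl

theorem aU_zpow (τ : Rˣ) (n : ℤ) : ((aU τ ^ n : (LaurentPolynomial R)ˣ) : LaurentPolynomial R) =
    C ((τ ^ n : Rˣ) : R) * T n := by
  induction n using Int.induction_on with
  | zero => simp
  | succ n ih =>
    rw [zpow_add_one, Units.val_mul, ih, T_add, zpow_add_one, Units.val_mul, map_mul]
    show _ * (C (τ : R) * T 1) = _
    ring
  | pred n ih =>
    rw [zpow_sub_one, Units.val_mul, ih, sub_eq_add_neg, T_add, zpow_add, Units.val_mul, map_mul,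
      zpow_neg_one]
    show _ * (C ((τ⁻¹ : Rˣ) : R) * T (-1)) = _
    ring

theorem rho_aPow (τ : Rˣ) (n : ℤ) : rho τ (aPow n) = C ((τ ^ n : Rˣ) : R) * T n := by
  rw [rho, aPow, LaurentPolynomial.eval₂_T, aU_zpow]

theorem rho_CT (τ : Rˣ) (n : ℤ) : rho τ (C (T n)) = T n := by
  rw [rho, LaurentPolynomial.eval₂_C, LaurentPolynomial.eval₂_T, sU_zpow]

theorem rho_z (τ : Rˣ) : rho τ zVar = T 1 := rho_CT τ 1

/-- the coefficients -/
theorem rho_coeff (τ : Rˣ) (p : Raz) (c : ℤ) : (rho τ p).coeff c =
    p.coeff.sum fun j q => ((q.coeff (c - j) : ℤ) : R) * ((τ ^ j : Rˣ) : R) := by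
  induction p using LaurentPolynomial.induction_on' with
  | add p q hp hq =>
    rw [map_add, AddMonoidAlgebra.coeff_add, Finsupp.add_apply, hp, hq,
      AddMonoidAlgebra.coeff_add, Finsupp.sum_add_index']
    · intro j; simp
    · intro j a b
      rw [AddMonoidAlgebra.coeff_add, Finsupp.add_apply]
      push_cast; ring
  | C_mul_T n q =>
    have h0 : ((C q * T n : Raz)).coeff = Finsupp.single n q := by
      rw [← single_eq_C_mul_T]; rfl
    rw [h0, Finsupp.sum_single_index (by simp)]
    have h1 : rho τ (C q * T n) =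
        LaurentPolynomial.eval₂ (Int.castRingHom _) (sU R) q * (C ((τ ^ n : Rˣ) : R) * T n) := by
      rw [map_mul]
      congr 1
      · rw [rho, LaurentPolynomial.eval₂_C]
      · exact rho_aPow τ n
    rw [h1]
    have h2 : ∀ (q : LaurentPolynomial ℤ) (k : ℤ),
        (LaurentPolynomial.eval₂ (Int.castRingHom (LaurentPolynomial R)) (sU R) q).coeff k =
          ((q.coeff k : ℤ) : R) := by
      intro q k
      induction q using LaurentPolynomial.induction_on' with
      | add p q hp hq =>
        rw [map_add, AddMonoidAlgebra.coeff_add, Finsupp.add_apply, hp, hq,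
          AddMonoidAlgebra.coeff_add, Finsupp.add_apply]
        push_cast; ring
      | C_mul_T n a =>
        rw [LaurentPolynomial.eval₂_C_mul_T, sU_zpow]
        have e1 : ((Int.castRingHom (LaurentPolynomial R)) a : LaurentPolynomial R) =
            C ((a : ℤ) : R) := by simp
        rw [e1, ← single_eq_C_mul_T, ← single_eq_C_mul_T]
        show (Finsupp.single n ((a : ℤ) : R)) k = (((Finsupp.single n a) k : ℤ) : R)
        by_cases hk : n = k
        · subst hk; simp
        · rw [Finsupp.single_eq_of_ne' hk, Finsupp.single_eq_of_ne' hk]; simp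
    have h3 : (LaurentPolynomial.eval₂ (Int.castRingHom (LaurentPolynomial R)) (sU R) q *
        (C ((τ ^ n : Rˣ) : R) * T n)).coeff c =
        ((τ ^ n : Rˣ) : R) * (LaurentPolynomial.eval₂ (Int.castRingHom (LaurentPolynomial R))
          (sU R) q).coeff (c - n) := by
      rw [mul_left_comm, LC_mul_coeff, mul_comm (LaurentPolynomial.eval₂ _ _ q), LT_mul_coeff]
    rw [h3, h2, mul_comm]

/-- vanishing above the filtration degree -/
theorem rho_coeff_zero (τ : Rˣ) {p : Raz} {c c' : ℤ} (hp : Fil c p) (h : c < c') :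
    (rho τ p).coeff c' = 0 := by
  rw [rho_coeff]
  refine Finset.sum_eq_zero fun j _ => ?_
  have : (p.coeff j).coeff (c' - j) = 0 := by
    by_contra h0
    have := hp j _ h0
    omega
  simp [this]

end rho

/-! ### the value -/

/-- the value of a circle -/
def dlt : Raz := C (T (-1)) * (aPow 1 + aPow (-1)) - 1

/-- the Kauffman polynomial in the normalisation `1` for the empty diagram -/
def kv (D : Word) : Raz := if D = [] then 1 else dlt * Lam D

theorem kv_ne {D : Word} (h : D ≠ []) : kv D = dlt * Lam D := if_neg h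

theorem kv_nil : kv [] = 1 := if_pos rfl

theorem Fil_mul {c c' : ℤ} {p q : Raz} (hp : Fil c p) (hq : Fil c' q) : Fil (c + c') (p * q) := by
  -- reduce to monomials in `p`
  have key : ∀ (j k : ℤ), j + k ≤ c → ∀ u : ℤ, Fil (c + c') (C (C u * T k) * T j * q) := by
    intro j k hjk u
    have h1 : Fil c' (C (C u) * q) := by
      intro j' k' h0
      rw [LC_mul_coeff, LC_mul_coeff] at h0
      exact hq j' k' (fun h => h0 (by rw [h, mul_zero]))
    have h2 : Fil (k + c') (C (T k) * (C (C u) * q)) := Fil.zP (h1.mono (by omega))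
    have h3 : Fil (j + (k + c')) (aPow j * (C (T k) * (C (C u) * q))) :=
      Fil.aP (h2.mono (by omega))
    have e : (C (C u * T k) * T j * q : Raz) = aPow j * (C (T k) * (C (C u) * q)) := by
      rw [aPow, map_mul]; ring
    rw [e]
    exact h3.mono (by omega)
  have hsum : p = ∑ j ∈ p.coeff.support, ∑ k ∈ (p.coeff j).coeff.support,
      (C (C ((p.coeff j).coeff k) * T k) * T j : Raz) := by
    have e1 : ∀ (S : Type) [CommRing S] (f : LaurentPolynomial S),
        f = ∑ j ∈ f.coeff.support, (C (f.coeff j) * T j : LaurentPolynomial S) := by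
      intro S _ f
      refine LaurentPolynomial.ext fun k => ?_
      rw [AddMonoidAlgebra.coeff_sum, Finset.sum_apply']
      rw [Finset.sum_eq_single k]
      · rw [← single_eq_C_mul_T]
        show _ = (Finsupp.single k (f.coeff k)) k
        rw [Finsupp.single_eq_same]
      · intro b _ hb
        rw [← single_eq_C_mul_T]
        show (Finsupp.single b (f.coeff b)) k = 0
        rw [Finsupp.single_eq_of_ne' hb]
      · intro hk
        rw [← single_eq_C_mul_T]
        show (Finsupp.single k (f.coeff k)) k = 0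
        rw [Finsupp.single_eq_same]
        simpa using hk
    conv_lhs => rw [e1 _ p]
    refine Finset.sum_congr rfl fun j _ => ?_
    conv_lhs => rw [e1 _ (p.coeff j)]
    rw [map_sum, Finset.sum_mul]
  have hz : Fil (c + c') (0 : Raz) := by
    intro j k h0; simp at h0
  have hsumF : ∀ (s : Finset ℤ) (F : ℤ → Raz), (∀ j ∈ s, Fil (c + c') (F j)) →
      Fil (c + c') (∑ j ∈ s, F j) := by
    intro s F
    classical
    induction s using Finset.induction_on with
    | empty => intro _; simpa using hz
    | insert a s ha ih =>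
      intro h
      rw [Finset.sum_insert ha]
      exact (h a (Finset.mem_insert_self _ _)).add (ih fun j hj => h j (Finset.mem_insert_of_mem hj))
  rw [hsum, Finset.sum_mul]
  refine hsumF _ _ fun j _ => ?_
  rw [Finset.sum_mul]
  refine hsumF _ _ fun k hk => ?_
  exact key j k (hp j k (by simpa using hk)) _

theorem Fil_dlt : Fil 0 dlt := by
  rw [dlt]
  refine Fil.sub (Fil.zP (Fil.add ?_ ?_)) Fil.one
  · have := Fil.aP (c := 1) (n := 1) (p := 1) (Fil.one.mono (by omega))
    rw [mul_one] at this
    exact this.mono (by omega)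
  · have := Fil.aP (c := -1) (n := -1) (p := 1) (Fil.one.mono (by omega))
    rw [mul_one] at this
    exact this.mono (by omega)

theorem kv_fil {D : Word} (hD : Closed D) : Fil (crs D) (kv D) := by
  by_cases h : D = []
  · subst h
    rw [kv_nil]
    exact Fil.one.mono (by simp [crs])
  · rw [kv_ne h]
    have := Fil_mul Fil_dlt (Lam_fil hD h)
    rwa [zero_add] at this

theorem kv_local {x l r y : Word} (h : LocalMove l r) (h1 : Closed (x ++ l ++ y))
    (h2 : Closed (x ++ r ++ y)) : kv (x ++ l ++ y) = kv (x ++ r ++ y) := by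
  obtain ⟨k, k', hx, hl, hy⟩ := Ex.split3 h1
  have n1 : x ++ l ++ y ≠ [] := by
    have := Ex.local_left_ne h
    simp [this]
  have n2 : x ++ r ++ y ≠ [] := by
    rcases Ex.local_width h hl with hr | hk
    · simp [hr]
    · exact Ex.ne_nil_of hx hk
  rw [kv_ne n1, kv_ne n2]
  congr 1
  exact Ex.Lam_regular _ _ (Relation.EqvGen.rel _ _ (RegStep.mk x l r y h h1 h2))

theorem kv_cxBirth (b : Bool) (x : Word) (i : ℕ) (y : Word) (hc : Closed (x ++ [birth i] ++ y)) :
    kv (x ++ [birth i, cx b i] ++ y) = aPow (sg b) * kv (x ++ [birth i] ++ y) := by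
  rw [kv_ne (by simp), kv_ne (by simp)]
  have := Pool.Agent.Helper82_Alt.cxBirth Ex.Lam_rules b x i y hc
  rw [smul_eq_mul] at this
  show dlt * Ex.Lam Raz _ = _
  rw [this]; ring

theorem kv_cxDeath (b : Bool) (x : Word) (i : ℕ) (y : Word) (hc : Closed (x ++ [death i] ++ y)) :
    kv (x ++ [cx b i, death i] ++ y) = aPow (sg b) * kv (x ++ [death i] ++ y) := by
  rw [kv_ne (by simp), kv_ne (by simp)]
  have := Pool.Agent.Helper82_Alt.cxDeath Ex.Lam_rules b x i y hc
  rw [smul_eq_mul] at this
  show dlt * Ex.Lam Raz _ = _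
  rw [this]; ring

theorem kv_skein (x : Word) (i : ℕ) (y : Word) (hc : Closed (x ++ [pos i] ++ y)) :
    kv (x ++ [pos i] ++ y) + kv (x ++ [neg i] ++ y) =
      zVar * (kv (x ++ y) + kv (x ++ [death i, birth i] ++ y)) := by
  obtain ⟨k, k', hx, hl, hy⟩ := Ex.split3 hc
  have hk : 1 ≤ k := by
    obtain ⟨h1, h2⟩ := Ex.wd_pos (i := i) (n := k) (k := k') (by simpa [width] using hl)
    omega
  have n0 : x ++ y ≠ [] := by
    have := Ex.ne_nil_of (x := x) (y := y) (r := []) hx hk
    simpa using this
  rw [kv_ne (by simp), kv_ne (by simp), kv_ne n0, kv_ne (by simp)]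
  have := Ex.Lam_skein x i y hc
  show dlt * Ex.Lam Raz _ + dlt * Ex.Lam Raz _ = zVar * (dlt * Ex.Lam Raz _ + dlt * Ex.Lam Raz _)
  linear_combination dlt * this

theorem kv_circ (x : Word) (i : ℕ) (y : Word) (hc : Closed (x ++ y))
    (hc2 : Closed (x ++ [birth i, death i] ++ y)) :
    kv (x ++ [birth i, death i] ++ y) = dlt * kv (x ++ y) := by
  by_cases hne : x ++ y = []
  · rw [hne, kv_nil, kv_ne (by simp)]
    simp only [List.append_eq_nil_iff] at hne
    obtain ⟨rfl, rfl⟩ := hne
    have hi : i = 0 := by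
      unfold Closed at hc2
      simp only [List.nil_append, List.append_nil, width, Piece.width] at hc2
      split_ifs at hc2 with h1
      · omega
      · simp at hc2
    subst hi
    show dlt * Ex.Lam Raz circle = _
    rw [Ex.Lam_circle]
  · obtain ⟨k, k', hx, hl, hy⟩ := Ex.split3 hc2
    have hi : i ≤ k := by
      simp only [width, Piece.width] at hl
      split_ifs at hl with h1
      · exact h1
      · simp at hl
    have := Pool.Agent.Helper82_Alt.circ_any Ex.Lam_rules (x := x) (y := y) (n := k) (i := i) hx hi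
      hc hne
    rw [smul_eq_mul, smul_eq_mul] at this
    rw [kv_ne (by simp), kv_ne hne]
    have hz := Pool.Agent.Helper82_Alt.zz
    have h2 : Ex.Lam Raz (x ++ [birth i, death i] ++ y) = dlt * Ex.Lam Raz (x ++ y) := by
      have h3 := congrArg (fun m => (C (T (-1)) : Raz) * m) this
      beta_reduce at h3
      rw [← mul_assoc, hz, one_mul, ← mul_assoc] at h3
      rw [h3, dlt]
      have : (C (T (-1)) : Raz) * (aPow 1 + aPow (-1) - zVar) =
        C (T (-1)) * (aPow 1 + aPow (-1)) - 1 := by
        linear_combination (-1 : Raz) * hz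
      rw [this]
    show dlt * Ex.Lam Raz _ = _
    rw [h2]

end

end Run7.h112
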