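import Pool.Agent.Run7.h112.Gph
import Pool.Agent.Run7.h112.CN2

/-!
# The graph of the `A`-state
-/

set_option autoImplicit false
set_option linter.unusedSimpArgs false
set_option linter.unusedVariables false

namespace Run7.h112

open Pool.Agent.Helper454.Kauf
open Pool.Agent.Helper454.Kauf.Piece (birth death pos neg)
open Pool.Agent.Helper82_Alt (crs RStep RLab SStep Connected NotNugatory Reduced)

/-- a symbolic run: `L` are the labels of the strands, `Q` the fresh labels, `E` the pairs of equal
labels, `NE` the pairs of labels at the crossings -/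
inductive Run {V : Type} : Word → List V → List V → List (V × V) → List (V × V) → Prop
  | nil : Run [] [] [] [] []
  | birth (A B : List V) (q : V) (w : Word) (Q : List V) (E NE : List (V × V)) :
      Run w (A ++ q :: q :: B) Q E NE → Run (Piece.birth A.length :: w) (A ++ B) (q :: Q) E NE
  | death (A B : List V) (x y : V) (w : Word) (Q : List V) (E NE : List (V × V)) :
      Run w (A ++ B) Q E NE →
      Run (Piece.death A.length :: w) (A ++ x :: y :: B) Q ((x, y) :: E) NE
  | pos (A B : List V) (x y : V) (w : Word) (Q : List V) (E NE : List (V × V)) :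
      Run w (A ++ x :: y :: B) Q E NE →
      Run (Piece.pos A.length :: w) (A ++ x :: y :: B) Q E ((x, y) :: NE)
  | neg (A B : List V) (x y q : V) (w : Word) (Q : List V) (E NE : List (V × V)) :
      Run w (A ++ q :: q :: B) Q E NE →
      Run (Piece.neg A.length :: w) (A ++ x :: y :: B) (q :: Q) ((x, y) :: E) ((x, q) :: NE)

/-- the number of fresh labels -/
def fr : Word → ℕ
  | [] => 0
  | .birth _ :: w => fr w + 1
  | .death _ :: w => fr w
  | .pos _ :: w => fr w
  | .neg _ :: w => fr w + 1

theorem split_list {V : Type} {L : List V} {i : ℕ} (h : i + 2 ≤ L.length) :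
    ∃ A B a b, A.length = i ∧ L = A ++ a :: b :: B := by
  refine ⟨L.take i, L.drop (i + 2), L[i], L[i + 1], by simp; omega, ?_⟩
  rw [← List.drop_eq_getElem_cons (i := i + 1) (by omega), ← List.drop_eq_getElem_cons (by omega),
    List.take_append_drop]

theorem exists_run {V : Type} (w : Word) : ∀ (L Q : List V), width w L.length = some 0 →
    Q.length = fr w → ∃ E NE, Run w L Q E NE ∧ NE.length = crs w := by
  induction w with
  | nil =>
    intro L Q h hQ
    have : L.length = 0 := by simpa [width] using h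
    obtain rfl := List.length_eq_zero_iff.1 this
    obtain rfl : Q = [] := List.length_eq_zero_iff.1 hQ
    exact ⟨[], [], Run.nil, rfl⟩
  | cons p w ih =>
    intro L Q h hQ
    obtain ⟨m, hm, hw⟩ := Ex.wd_cons h
    cases p with
    | birth i =>
      obtain ⟨hi, rfl⟩ := Ex.wd_birth hm
      obtain ⟨A, B, rfl, rfl⟩ : ∃ A B, A.length = i ∧ L = A ++ B :=
        ⟨L.take i, L.drop i, by simp; omega, by simp⟩
      cases Q with
      | nil => simp [fr] at hQ
      | cons q Q =>
        obtain ⟨E, NE, h1, h2⟩ := ih (A ++ q :: q :: B) Q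
          (by simpa [add_comm, add_left_comm, add_assoc] using hw) (by simpa [fr] using hQ)
        exact ⟨E, NE, Run.birth A B q w Q E NE h1, h2⟩
    | death i =>
      obtain ⟨hi, hmm⟩ := Ex.wd_death hm
      obtain ⟨A, B, x, y, rfl, rfl⟩ := split_list hi
      have hm' : m = (A ++ B).length := by simp at hmm ⊢; omega
      obtain ⟨E, NE, h1, h2⟩ := ih (A ++ B) Q (by rw [← hm']; exact hw) (by simpa [fr] using hQ)
      exact ⟨_, _, Run.death A B x y w Q E NE h1, h2⟩
    | pos i =>
      obtain ⟨hi, rfl⟩ := Ex.wd_pos hm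
      obtain ⟨A, B, x, y, rfl, rfl⟩ := split_list hi
      obtain ⟨E, NE, h1, h2⟩ := ih (A ++ x :: y :: B) Q hw (by simpa [fr] using hQ)
      exact ⟨_, _, Run.pos A B x y w Q E NE h1, by simp [crs, h2]⟩
    | neg i =>
      obtain ⟨hi, rfl⟩ := Ex.wd_neg hm
      obtain ⟨A, B, x, y, rfl, rfl⟩ := split_list hi
      cases Q with
      | nil => simp [fr] at hQ
      | cons q Q =>
        obtain ⟨E, NE, h1, h2⟩ := ih (A ++ q :: q :: B) Q (by simpa using hw)
          (by simpa [fr] using hQ)
        exact ⟨_, _, Run.neg A B x y q w Q E NE h1, by simp [crs, h2]⟩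

/-! ### the number of colourings -/

section count

variable {V : Type} [Fintype V] {N : ℕ}

noncomputable section

open Classical in
/-- the number of the colourings `g` which agree with `f` outside `Q` -/
def ZZ (Q : List V) (f : V → Fin N) (E NE : List (V × V)) : ℤ :=
  ∑ g : V → Fin N, if (∀ v, v ∉ Q → g v = f v) ∧ (∀ e ∈ E, g e.1 = g e.2) ∧
    ∀ e ∈ NE, g e.1 ≠ g e.2 then 1 else 0

theorem sh_at (g : Fn N → Fn N) (A : List (Fin N)) (f : Fn N) (s : List (Fin N)) :
    sh g A.length f (A ++ s) = g (fun r => f (A ++ r)) s := by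
  have := sh_app g (rfl : A.length = A.length) 0 f s
  rw [Nat.add_zero] at this
  rw [this]
  rfl

theorem map_upd {L : List V} [DecidableEq V] (f : V → Fin N) (q : V) (c : Fin N) (h : q ∉ L) :
    L.map (Function.update f q c) = L.map f := by
  refine List.map_congr_left fun x hx => ?_
  rw [Function.update_of_ne]
  rintro rfl
  exact h hx

open Classical in
theorem Z_fresh {q : V} {Q : List V} (hq : q ∉ Q) (f : V → Fin N) (E NE : List (V × V)) :
    ∑ c : Fin N, ZZ Q (Function.update f q c) E NE = ZZ (q :: Q) f E NE := by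
  unfold ZZ
  rw [Finset.sum_comm]
  refine Finset.sum_congr rfl fun g _ => ?_
  rw [Finset.sum_eq_single (g q)]
  · congr 1
    refine propext (and_congr ?_ Iff.rfl)
    constructor
    · intro h v hv
      simp only [List.mem_cons, not_or] at hv
      rw [h v hv.2, Function.update_of_ne hv.1]
    · intro h v hv
      by_cases hvq : v = q
      · subst hvq; simp
      · rw [Function.update_of_ne hvq]
        exact h v (by simp [hvq, hv])
  · intro c _ hc
    rw [if_neg]
    rintro ⟨h, _⟩
    have := h q hq
    rw [Function.update_self] at this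
    exact hc this.symm
  · intro h; exact absurd (Finset.mem_univ _) h

open Classical in
theorem Z_eq {Q : List V} (f : V → Fin N) {x y : V} (hx : x ∉ Q) (hy : y ∉ Q)
    (E NE : List (V × V)) :
    ZZ Q f ((x, y) :: E) NE = if f x = f y then ZZ Q f E NE else 0 := by
  unfold ZZ
  split_ifs with h
  · refine Finset.sum_congr rfl fun g _ => ?_
    congr 1
    refine propext ?_
    constructor
    · rintro ⟨h1, h2, h3⟩
      exact ⟨h1, fun e he => h2 e (by simp [he]), h3⟩
    · rintro ⟨h1, h2, h3⟩
      refine ⟨h1, fun e he => ?_, h3⟩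
      rcases List.mem_cons.1 he with rfl | he
      · show g x = g y
        rw [h1 x hx, h1 y hy, h]
      · exact h2 e he
  · refine Finset.sum_eq_zero fun g _ => ?_
    rw [if_neg]
    rintro ⟨h1, h2, h3⟩
    have := h2 (x, y) (by simp)
    exact h (by rw [← h1 x hx, ← h1 y hy]; exact this)

open Classical in
theorem Z_ne {Q : List V} (f : V → Fin N) {x y : V} (hx : x ∉ Q) (hy : y ∉ Q)
    (E NE : List (V × V)) :
    ZZ Q f E ((x, y) :: NE) = if f x ≠ f y then ZZ Q f E NE else 0 := by
  unfold ZZ
  split_ifs with h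
  · refine Finset.sum_congr rfl fun g _ => ?_
    congr 1
    refine propext ?_
    constructor
    · rintro ⟨h1, h2, h3⟩
      exact ⟨h1, h2, fun e he => h3 e (by simp [he])⟩
    · rintro ⟨h1, h2, h3⟩
      refine ⟨h1, h2, fun e he => ?_⟩
      rcases List.mem_cons.1 he with rfl | he
      · show g x ≠ g y
        rw [h1 x hx, h1 y hy]; exact h
      · exact h3 e he
  · refine Finset.sum_eq_zero fun g _ => ?_
    rw [if_neg]
    rintro ⟨h1, h2, h3⟩
    have := h3 (x, y) (by simp)
    exact h (by rw [← h1 x hx, ← h1 y hy]; exact this)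

theorem Z_nil (f : V → Fin N) : ZZ ([] : List V) f [] [] = 1 := by
  classical
  unfold ZZ
  rw [Finset.sum_eq_single f]
  · simp
  · intro g _ hg
    rw [if_neg]
    rintro ⟨h, _⟩
    exact hg (funext fun v => h v (by simp))
  · intro h; exact absurd (Finset.mem_univ _) h

theorem run_count {w : Word} {L Q : List V} {E NE : List (V × V)} (h : Run w L Q E NE) :
    ∀ f : V → Fin N, Q.Nodup → (∀ x ∈ L, x ∉ Q) → M w (ini N) (L.map f) = ZZ Q f E NE := by
  classical
  induction h with
  | nil =>
    intro f _ _
    rw [Z_nil]; rfl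
  | birth A B q w Q E NE _ ih =>
    intro f hQ hL
    rw [List.nodup_cons] at hQ
    have hqA : q ∉ A := fun h => hL q (by simp [h]) (by simp)
    have hqB : q ∉ B := fun h => hL q (by simp [h]) (by simp)
    rw [← Z_fresh hQ.1, List.map_append, M]
    have e1 : op (birth A.length) (M w (ini N)) (A.map f ++ B.map f) =
        bB (fun r => M w (ini N) (A.map f ++ r)) (B.map f) := by
      have := sh_at (bB (N := N)) (A.map f) (M w (ini N)) (B.map f)
      rw [List.length_map] at this
      exact this
    rw [e1]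
    refine Finset.sum_congr rfl fun c _ => ?_
    rw [← ih (Function.update f q c) hQ.2]
    · rw [List.map_append, List.map_cons, List.map_cons, map_upd f q c hqA, map_upd f q c hqB,
        Function.update_self]
    · intro x hx
      simp only [List.mem_append, List.mem_cons] at hx
      have hx' : x = q ∨ x ∈ A ++ B := by
        rw [List.mem_append]; tauto
      rcases hx' with rfl | hx'
      · exact hQ.1
      · intro h; exact hL x hx' (by simp [h])
  | death A B x y w Q E NE _ ih =>
    intro f hQ hL
    rw [Z_eq f (hL x (by simp)) (hL y (by simp)), List.map_append, List.map_cons, List.map_cons, M]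
    have e1 : op (death A.length) (M w (ini N)) (A.map f ++ f x :: f y :: B.map f) =
        bD (fun r => M w (ini N) (A.map f ++ r)) (f x :: f y :: B.map f) := by
      have := sh_at (bD (N := N)) (A.map f) (M w (ini N)) (f x :: f y :: B.map f)
      rw [List.length_map] at this
      exact this
    rw [e1, bD]
    split_ifs with h
    · rw [← ih f hQ fun z hz => hL z (by
        simp only [List.mem_append, List.mem_cons] at hz ⊢; tauto), List.map_append]
    · rfl
  | pos A B x y w Q E NE _ ih =>
    intro f hQ hL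
    rw [Z_ne f (hL x (by simp)) (hL y (by simp)), List.map_append, List.map_cons, List.map_cons, M]
    have e1 : op (pos A.length) (M w (ini N)) (A.map f ++ f x :: f y :: B.map f) =
        bV (fun r => M w (ini N) (A.map f ++ r)) (f x :: f y :: B.map f) := by
      have := sh_at (bV (N := N)) (A.map f) (M w (ini N)) (f x :: f y :: B.map f)
      rw [List.length_map] at this
      exact this
    rw [e1, bV]
    split_ifs with h
    · rw [← ih f hQ hL, List.map_append, List.map_cons, List.map_cons]
    · rfl
  | neg A B x y q w Q E NE _ ih =>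
    intro f hQ hL
    rw [List.nodup_cons] at hQ
    have hxq : x ≠ q := fun h => hL x (by simp) (by simp [h])
    have hqA : q ∉ A := fun h => hL q (by simp [h]) (by simp)
    have hqB : q ∉ B := fun h => hL q (by simp [h]) (by simp)
    have hxQ : x ∉ Q := fun h => hL x (by simp) (by simp [h])
    rw [Z_eq f (hL x (by simp)) (hL y (by simp)), List.map_append, List.map_cons, List.map_cons, M]
    have e1 : op (neg A.length) (M w (ini N)) (A.map f ++ f x :: f y :: B.map f) =
        bH (fun r => M w (ini N) (A.map f ++ r)) (f x :: f y :: B.map f) := by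
      have := sh_at (bH (N := N)) (A.map f) (M w (ini N)) (f x :: f y :: B.map f)
      rw [List.length_map] at this
      exact this
    rw [e1, bH]
    split_ifs with h
    · rw [← Z_fresh hQ.1]
      refine Finset.sum_congr rfl fun c _ => ?_
      rw [Z_ne _ hxQ hQ.1, Function.update_of_ne hxq, Function.update_self]
      have e2 : (c ≠ f x) ↔ (f x ≠ c) := ne_comm
      by_cases hc : f x ≠ c
      · rw [if_pos hc, if_pos (e2.2 hc), ← ih (Function.update f q c) hQ.2]
        · rw [List.map_append, List.map_cons, List.map_cons, map_upd f q c hqA,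
            map_upd f q c hqB, Function.update_self]
        · intro z hz
          simp only [List.mem_append, List.mem_cons] at hz
          have hz' : z = q ∨ z ∈ A ++ x :: y :: B := by
            simp only [List.mem_append, List.mem_cons]; tauto
          rcases hz' with rfl | hz'
          · exact hQ.1
          · intro h; exact hL z hz' (by simp [h])
      · rw [if_neg hc, if_neg (fun h => hc (e2.1 h))]
    · rfl

theorem Z_pc {Q : List V} (hQ : ∀ v, v ∈ Q) (f : V → Fin N) (E NE : List (V × V)) :
    ZZ Q f E NE = (G.pc N (G.cl ⊥ E) NE : ℤ) := by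
  classical
  unfold ZZ G.pc
  rw [Finset.sum_boole, Nat.card_eq_fintype_card, Fintype.card_subtype]
  congr 2
  ext g
  simp only [Finset.mem_filter, Finset.mem_univ, true_and]
  have e1 : (∀ v, v ∉ Q → g v = f v) ↔ True := by
    simp only [iff_true]; intro v hv; exact absurd (hQ v) hv
  have e2 : (∀ e ∈ E, g e.1 = g e.2) ↔ ∀ x y, (G.cl ⊥ E) x y → g x = g y := by
    have := G.cl_le (r := (⊥ : Setoid V)) (s := Setoid.ker g) (l := E)
    constructor
    · intro h x y hxy
      exact this.2 ⟨bot_le, h⟩ hxy
    · intro h e he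
      exact h _ _ (G.cl_mem he)
  rw [e1, e2]
  simp

end

end count

/-! ### connectedness -/

section conn

variable {V : Type}

/-- the labels in a row -/
def rowF (c : V → Bool) (L : List V) (j : ℕ) : Bool := (L.map c).getD j false

theorem rowF_lt (c : V → Bool) (A B B' : List V) {j : ℕ} (h : j < A.length) :
    rowF c (A ++ B) j = rowF c (A ++ B') j := by
  unfold rowF
  rw [List.map_append, List.map_append, List.getD_append _ _ _ _ (by simpa using h),
    List.getD_append _ _ _ _ (by simpa using h)]

theorem rowF_ge (c : V → Bool) (A B : List V) (x y : V) {j : ℕ} (h : A.length ≤ j) :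
    rowF c (A ++ x :: y :: B) (j + 2) = rowF c (A ++ B) j := by
  unfold rowF
  rw [List.map_append, List.map_append, List.getD_append_right _ _ _ _ (by simp; omega),
    List.getD_append_right _ _ _ _ (by simpa using h)]
  simp only [List.length_map, List.map_cons]
  rw [show j + 2 - A.length = (j - A.length) + 1 + 1 by omega, List.getD_cons_succ,
    List.getD_cons_succ]

theorem rowF_at (c : V → Bool) (A B : List V) (x y : V) :
    rowF c (A ++ x :: y :: B) A.length = c x := by
  unfold rowF
  rw [List.map_append, List.getD_append_right _ _ _ _ (by simp)]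
  simp

theorem rowF_at' (c : V → Bool) (A B : List V) (x y : V) :
    rowF c (A ++ x :: y :: B) (A.length + 1) = c y := by
  unfold rowF
  rw [List.map_append, List.getD_append_right _ _ _ _ (by simp)]
  simp

theorem run_static {w : Word} {L Q : List V} {E NE : List (V × V)} (h : Run w L Q E NE)
    (c : V → Bool) (hE : ∀ e ∈ E, c e.1 = c e.2) (hN : ∀ e ∈ NE, c e.1 = c e.2) :
    ∃ s : ℕ → ℕ → Bool, s 0 = rowF c L ∧
      (∀ t (ht : t < w.length), SStep w[t] (s t) (s (t + 1))) ∧
      ∀ q ∈ Q, ∃ t n j, width (w.take t) L.length = some n ∧ j < n ∧ s t j = c q := by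
  have key : ∀ (p : Piece) (w : Word) (L L' Q' : List V), p.width L.length = some L'.length →
      SStep p (rowF c L) (rowF c L') →
      (∃ s : ℕ → ℕ → Bool, s 0 = rowF c L' ∧
        (∀ t (ht : t < w.length), SStep w[t] (s t) (s (t + 1))) ∧
        ∀ q ∈ Q', ∃ t n j, width (w.take t) L'.length = some n ∧ j < n ∧ s t j = c q) →
      ∃ s : ℕ → ℕ → Bool, s 0 = rowF c L ∧ s 1 = rowF c L' ∧
        (∀ t (ht : t < (p :: w).length), SStep (p :: w)[t] (s t) (s (t + 1))) ∧
        ∀ q ∈ Q', ∃ t n j, width ((p :: w).take t) L.length = some n ∧ j < n ∧ s t j = c q := by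
    rintro p w L L' Q' hp hs ⟨s, h0, h1, h2⟩
    refine ⟨fun t => match t with
      | 0 => rowF c L
      | t + 1 => s t, rfl, h0, ?_, ?_⟩
    · intro t ht
      cases t with
      | zero =>
        show SStep p (rowF c L) (s 0)
        rw [h0]; exact hs
      | succ t => exact h1 t (by simpa using ht)
    · intro q hq
      obtain ⟨t, n, j, h3, h4, h5⟩ := h2 q hq
      refine ⟨t + 1, n, j, ?_, h4, h5⟩
      rw [List.take_succ_cons, width, hp]
      exact h3
  induction h with
  | nil => exact ⟨fun _ => rowF c [], rfl, by simp, by simp⟩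
  | birth A B q w Q E NE _ ih =>
    obtain ⟨s, h0, h1, h2, h3⟩ := key (birth A.length) w (A ++ B) (A ++ q :: q :: B) Q
      (by simp [Piece.width]; omega) (by
        refine ⟨fun j hj => rowF_lt c _ _ _ hj, fun j hj => rowF_ge c _ _ _ _ hj, ?_⟩
        rw [rowF_at, rowF_at']) (ih hE hN)
    refine ⟨s, h0, h2, ?_⟩
    intro z hz
    rcases List.mem_cons.1 hz with rfl | hz
    · refine ⟨1, (A ++ z :: z :: B).length, A.length, ?_, by simp, by rw [h1, rowF_at]⟩
      show ((birth A.length).width (A ++ B).length).bind _ = _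
      simp [Piece.width, width]
      omega
    · exact h3 z hz
  | death A B x y w Q E NE _ ih =>
    have hxy : c x = c y := hE (x, y) (by simp)
    obtain ⟨s, h0, h1, h2, h3⟩ := key (death A.length) w (A ++ x :: y :: B) (A ++ B) Q
      (by simp [Piece.width]; omega) (by
        refine ⟨fun j hj => rowF_lt c _ _ _ hj, fun j hj => rowF_ge c _ _ _ _ hj, ?_⟩
        rw [rowF_at, rowF_at', hxy]) (ih (fun e he => hE e (by simp [he])) hN)
    exact ⟨s, h0, h2, h3⟩
  | pos A B x y w Q E NE _ ih =>
    have hxy : c x = c y := hN (x, y) (by simp)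
    obtain ⟨s, h0, h1, h2, h3⟩ := key (pos A.length) w (A ++ x :: y :: B) (A ++ x :: y :: B) Q
      (by simp [Piece.width]) (by
        refine ⟨fun j => rfl, ?_⟩
        rw [rowF_at, rowF_at', hxy]) (ih hE (fun e he => hN e (by simp [he])))
    exact ⟨s, h0, h2, h3⟩
  | neg A B x y q w Q E NE _ ih =>
    have hxy : c x = c y := hE (x, y) (by simp)
    have hxq : c x = c q := hN (x, q) (by simp)
    obtain ⟨s, h0, h1, h2, h3⟩ := key (neg A.length) w (A ++ x :: y :: B) (A ++ q :: q :: B) Q
      (by simp [Piece.width]) (by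
        refine ⟨fun j => ?_, ?_⟩
        · unfold rowF
          rw [List.map_append, List.map_append]
          simp only [List.map_cons]
          rw [← hxy, ← hxq]
        · rw [rowF_at, rowF_at', hxy])
        (ih (fun e he => hE e (by simp [he])) (fun e he => hN e (by simp [he])))
    refine ⟨s, h0, h2, ?_⟩
    intro z hz
    rcases List.mem_cons.1 hz with rfl | hz
    · refine ⟨1, (A ++ z :: z :: B).length, A.length, ?_, by simp, by rw [h1, rowF_at]⟩
      show ((neg A.length).width (A ++ x :: y :: B).length).bind _ = _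
      simp [Piece.width, width]
    · exact h3 z hz

theorem run_conn {D : Word} {Q : List V} {E NE : List (V × V)} (h : Run D [] Q E NE)
    (hQ : ∀ v, v ∈ Q) (hc : Connected D) : G.cl (G.cl ⊥ E) NE = ⊤ := by
  classical
  refine le_antisymm le_top ?_
  intro x y _
  have hle : G.cl ⊥ E ≤ G.cl (G.cl ⊥ E) NE := G.le_cl _ _
  obtain ⟨s, h0, h1, h2⟩ := run_static h (fun v => decide ((G.cl (G.cl ⊥ E) NE) x v)) (by
    intro e he
    have h3 : (G.cl (G.cl ⊥ E) NE) e.1 e.2 := hle (G.cl_mem he)
    simp only [decide_eq_decide]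
    exact ⟨fun h => Setoid.trans' _ h h3, fun h => Setoid.trans' _ h (Setoid.symm' _ h3)⟩) (by
    intro e he
    have h3 : (G.cl (G.cl ⊥ E) NE) e.1 e.2 := G.cl_mem he
    simp only [decide_eq_decide]
    exact ⟨fun h => Setoid.trans' _ h h3, fun h => Setoid.trans' _ h (Setoid.symm' _ h3)⟩)
  obtain ⟨v, hv⟩ := hc s h1
  obtain ⟨t, n, j, h3, h4, h5⟩ := h2 x (hQ x)
  obtain ⟨t', n', j', h3', h4', h5'⟩ := h2 y (hQ y)
  have e1 := hv t n h3 j h4
  have e2 := hv t' n' h3' j' h4'
  rw [e1] at h5
  rw [e2] at h5'
  rw [h5] at h5'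
  have e3 : (G.cl (G.cl ⊥ E) NE) x x := Setoid.refl' _ x
  have e4 := decide_eq_decide.1 h5'
  exact e4.1 e3

end conn

/-! ### bridges -/

section bridge

variable {V : Type}

/-- the sum of the jumps of the region labels over the strands with `c = true` -/
def Phi (c : V → Bool) : List V → (ℕ → ℤ) → ℤ
  | [], _ => 0
  | x :: L, r => (if c x then r 1 - r 0 else 0) + Phi c L (fun j => r (j + 1))

theorem Phi_append (c : V → Bool) (A B : List V) (r : ℕ → ℤ) :
    Phi c (A ++ B) r = Phi c A r + Phi c B (fun j => r (j + A.length)) := by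
  induction A generalizing r with
  | nil => simp [Phi]
  | cons x A ih =>
    rw [List.cons_append, Phi, Phi, ih, add_assoc]
    congr 2

theorem Phi_congr (c : V → Bool) (A : List V) {r r' : ℕ → ℤ} (h : ∀ j ≤ A.length, r j = r' j) :
    Phi c A r = Phi c A r' := by
  induction A generalizing r r' with
  | nil => rfl
  | cons x A ih =>
    rw [Phi, Phi, h 0 (by omega), h 1 (by simp)]
    congr 1
    exact ih fun j hj => h (j + 1) (by simpa using hj)

/-- region labels along a diagram -/
def RR (w : Word) (ρ : ℕ → ℕ → ℤ) : Prop := ∀ t (h : t < w.length), RStep w[t] (ρ t) (ρ (t + 1))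

theorem RR.head {p : Piece} {w : Word} {ρ : ℕ → ℕ → ℤ} (h : RR (p :: w) ρ) :
    RStep p (ρ 0) (ρ 1) := h 0 (by simp)

theorem RR.tail {p : Piece} {w : Word} {ρ : ℕ → ℕ → ℤ} (h : RR (p :: w) ρ) :
    RR w (fun t => ρ (t + 1)) := fun t ht => h (t + 1) (by simpa using ht)

theorem Phi_birth (c : V → Bool) (A B : List V) (q : V) {r r' : ℕ → ℤ}
    (h : RStep (birth A.length) r r') : Phi c (A ++ q :: q :: B) r' = Phi c (A ++ B) r := by
  obtain ⟨h1, h2⟩ := h
  rw [Phi_append, Phi_append, Phi, Phi]
  have e1 : Phi c A r' = Phi c A r := Phi_congr c A h1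
  have e2 : Phi c B (fun j => r' (j + 1 + 1 + A.length)) = Phi c B (fun j => r (j + A.length)) :=
    Phi_congr c B fun j _ => by
      have := h2 (j + A.length) (by omega)
      rw [← this]
      congr 1; omega
  rw [e1, e2]
  have e3 := h2 A.length (le_refl _)
  have e4 := h1 A.length (le_refl _)
  have e5 : r' (1 + 1 + A.length) = r A.length := by rw [← e3]; congr 1; omega
  have e6 : r' (0 + A.length) = r A.length := by rw [zero_add]; exact e4
  by_cases hq : c q
  · simp only [hq, if_true]
    rw [show (0 : ℕ) + 1 + A.length = 1 + A.length by omega, e5, e6]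
    ring
  · simp [hq]

theorem Phi_death (c : V → Bool) (A B : List V) {x y : V} (hxy : c x = c y) {r r' : ℕ → ℤ}
    (h : RStep (death A.length) r r') : Phi c (A ++ x :: y :: B) r = Phi c (A ++ B) r' := by
  obtain ⟨h1, h2⟩ := h
  rw [Phi_append, Phi_append, Phi, Phi]
  have e1 : Phi c A r = Phi c A r' := Phi_congr c A h1
  have e2 : Phi c B (fun j => r (j + 1 + 1 + A.length)) = Phi c B (fun j => r' (j + A.length)) :=
    Phi_congr c B fun j _ => by
      have := h2 (j + A.length) (by omega)
      rw [← this]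
      congr 1; omega
  rw [e1, e2]
  have e3 := h2 A.length (le_refl _)
  have e4 := h1 A.length (le_refl _)
  have e5 : r (1 + 1 + A.length) = r' A.length := by rw [← e3]; congr 1; omega
  have e6 : r (0 + A.length) = r' A.length := by rw [zero_add]; exact e4
  by_cases hq : c x
  · have hq' : c y := by rw [← hxy]; exact hq
    simp only [hq, hq', if_true]
    rw [show (0 : ℕ) + 1 + A.length = 1 + A.length by omega, e5, e6]
    ring
  · have hq' : ¬ c y := by rw [← hxy]; exact hq
    simp [hq, hq']

/-- a crossing: the labels differ only at one place -/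
theorem Phi_cross (c : V → Bool) (A B : List V) (x y x' y' : V) {r r' : ℕ → ℤ}
    (h : ∀ j, j ≠ A.length + 1 → r' j = r j) :
    Phi c (A ++ x :: y :: B) r - Phi c (A ++ x' :: y' :: B) r' =
      (if c x then r (A.length + 1) - r A.length else 0) +
      (if c y then r (A.length + 2) - r (A.length + 1) else 0) -
      (if c x' then r' (A.length + 1) - r A.length else 0) -
      (if c y' then r (A.length + 2) - r' (A.length + 1) else 0) := by
  rw [Phi_append, Phi_append, Phi, Phi, Phi, Phi]
  have e1 : Phi c A r' = Phi c A r := Phi_congr c A fun j hj => h j (by omega)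
  have e2 : Phi c B (fun j => r' (j + 1 + 1 + A.length)) =
      Phi c B (fun j => r (j + 1 + 1 + A.length)) := Phi_congr c B fun j _ => h _ (by omega)
  rw [e1, e2]
  have a1 : (0 : ℕ) + 1 + A.length = A.length + 1 := by omega
  have a2 : (1 : ℕ) + 1 + A.length = A.length + 2 := by omega
  have a3 : (1 : ℕ) + A.length = A.length + 1 := by omega
  have a4 : (0 : ℕ) + A.length = A.length := by omega
  rw [a1, a2, a4]
  rw [h A.length (by omega), h (A.length + 2) (by omega)]
  ring

theorem run_flat {w : Word} {L Q : List V} {E NE : List (V × V)} (h : Run w L Q E NE)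
    (c : V → Bool) (hE : ∀ e ∈ E, c e.1 = c e.2) (hN : ∀ e ∈ NE, c e.1 = c e.2) :
    ∀ ρ : ℕ → ℕ → ℤ, RR w ρ → Phi c L (ρ 0) = 0 := by
  induction h with
  | nil => intro ρ _; rfl
  | birth A B q w Q E NE _ ih =>
    intro ρ hρ
    rw [← Phi_birth c A B q hρ.head]
    exact ih hE hN _ hρ.tail
  | death A B x y w Q E NE _ ih =>
    intro ρ hρ
    rw [Phi_death c A B (hE (x, y) (by simp)) hρ.head]
    exact ih (fun e he => hE e (by simp [he])) hN _ hρ.tail
  | pos A B x y w Q E NE _ ih =>
    intro ρ hρ
    have hxy : c x = c y := hN (x, y) (by simp)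
    have h1 := ih hE (fun e he => hN e (by simp [he])) _ hρ.tail
    have h2 := Phi_cross c A B x y x y (r := ρ 0) (r' := ρ 1) hρ.head
    simp only [zero_add] at h1
    rw [h1, sub_zero] at h2
    rw [h2, ← hxy]
    split_ifs <;> ring
  | neg A B x y q w Q E NE _ ih =>
    intro ρ hρ
    have hxy : c x = c y := hE (x, y) (by simp)
    have hxq : c x = c q := hN (x, q) (by simp)
    have h1 := ih (fun e he => hE e (by simp [he])) (fun e he => hN e (by simp [he])) _ hρ.tail
    have h2 := Phi_cross c A B x y q q (r := ρ 0) (r' := ρ 1) hρ.head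
    simp only [zero_add] at h1
    rw [h1, sub_zero] at h2
    rw [h2, ← hxy, ← hxq]
    split_ifs <;> ring

/-- the crossing of a bridge is nugatory -/
theorem run_bridge {w : Word} {L Q : List V} {E NE : List (V × V)} (h : Run w L Q E NE)
    (c : V → Bool) (hE : ∀ e ∈ E, c e.1 = c e.2) :
    ∀ U e U', NE = U ++ e :: U' → (∀ f ∈ U ++ U', c f.1 = c f.2) → c e.1 ≠ c e.2 →
    ∃ t i, ∃ ht : t < w.length,
      (w[t] = Piece.pos i ∧ ∀ ρ : ℕ → ℕ → ℤ, RR w ρ → Phi c L (ρ 0) = 0 →
        ρ t (i + 1) = ρ (t + 1) (i + 1)) ∨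
      (w[t] = Piece.neg i ∧ ∀ ρ : ℕ → ℕ → ℤ, RR w ρ → Phi c L (ρ 0) = 0 →
        ρ t i = ρ t (i + 2)) := by
  have key : ∀ (p : Piece) (w : Word) (L L' : List V),
      (∀ ρ : ℕ → ℕ → ℤ, RR (p :: w) ρ → Phi c L (ρ 0) = Phi c L' (ρ 1)) →
      (∃ t i, ∃ ht : t < w.length,
        (w[t] = Piece.pos i ∧ ∀ ρ : ℕ → ℕ → ℤ, RR w ρ → Phi c L' (ρ 0) = 0 →
          ρ t (i + 1) = ρ (t + 1) (i + 1)) ∨
        (w[t] = Piece.neg i ∧ ∀ ρ : ℕ → ℕ → ℤ, RR w ρ → Phi c L' (ρ 0) = 0 →
          ρ t i = ρ t (i + 2))) →
      ∃ t i, ∃ ht : t < (p :: w).length,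
        ((p :: w)[t] = Piece.pos i ∧ ∀ ρ : ℕ → ℕ → ℤ, RR (p :: w) ρ → Phi c L (ρ 0) = 0 →
          ρ t (i + 1) = ρ (t + 1) (i + 1)) ∨
        ((p :: w)[t] = Piece.neg i ∧ ∀ ρ : ℕ → ℕ → ℤ, RR (p :: w) ρ → Phi c L (ρ 0) = 0 →
          ρ t i = ρ t (i + 2)) := by
    rintro p w L L' hL ⟨t, i, ht, h⟩
    refine ⟨t + 1, i, by simpa using ht, ?_⟩
    rcases h with ⟨h1, h2⟩ | ⟨h1, h2⟩
    · left
      refine ⟨by simpa using h1, fun ρ hρ h0 => ?_⟩
      exact h2 _ hρ.tail (by rw [hL ρ hρ] at h0; exact h0)
    · right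
      refine ⟨by simpa using h1, fun ρ hρ h0 => ?_⟩
      exact h2 _ hρ.tail (by rw [hL ρ hρ] at h0; exact h0)
  induction h with
  | nil =>
    intro U e U' h
    simp at h
  | birth A B q w Q E NE _ ih =>
    intro U e U' h h1 h2
    exact key _ w _ _ (fun ρ hρ => (Phi_birth c A B q hρ.head).symm) (ih hE U e U' h h1 h2)
  | death A B x y w Q E NE _ ih =>
    intro U e U' h h1 h2
    exact key _ w _ _ (fun ρ hρ => Phi_death c A B (hE (x, y) (by simp)) hρ.head)
      (ih (fun e he => hE e (by simp [he])) U e U' h h1 h2)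
  | pos A B x y w Q E NE hr ih =>
    intro U e U' h h1 h2
    cases U with
    | nil =>
      simp only [List.nil_append, List.cons.injEq] at h
      obtain ⟨rfl, rfl⟩ := h
      refine ⟨0, A.length, by simp, Or.inl ⟨rfl, fun ρ hρ h0 => ?_⟩⟩
      have h3 := run_flat hr c hE h1 _ hρ.tail
      have h4 := Phi_cross c A B x y x y (r := ρ 0) (r' := ρ 1) hρ.head
      simp only [zero_add] at h3
      rw [h0, h3] at h4
      show ρ 0 (A.length + 1) = ρ 1 (A.length + 1)
      have h5 : c x ≠ c y := h2
      cases hx : c x <;> cases hy : c y <;> rw [hx, hy] at h4 h5 <;> simp at h4 h5 <;> linarith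
    | cons g U =>
      simp only [List.cons_append, List.cons.injEq] at h
      obtain ⟨rfl, h⟩ := h
      have hxy : c x = c y := h1 (x, y) (by simp)
      refine key _ w _ _ (fun ρ hρ => ?_) (ih hE U e U' h (fun f hf => h1 f (by
        simp only [List.cons_append, List.mem_cons]; right; exact hf)) h2)
      have h4 := Phi_cross c A B x y x y (r := ρ 0) (r' := ρ 1) hρ.head
      rw [← hxy] at h4
      have h5 : Phi c (A ++ x :: y :: B) (ρ 0) - Phi c (A ++ x :: y :: B) (ρ 1) = 0 := by
        rw [h4]; split_ifs <;> ring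
      linarith
  | neg A B x y q w Q E NE hr ih =>
    intro U e U' h h1 h2
    have hxy : c x = c y := hE (x, y) (by simp)
    have hE' : ∀ e ∈ E, c e.1 = c e.2 := fun e he => hE e (by simp [he])
    cases U with
    | nil =>
      simp only [List.nil_append, List.cons.injEq] at h
      obtain ⟨rfl, rfl⟩ := h
      refine ⟨0, A.length, by simp, Or.inr ⟨rfl, fun ρ hρ h0 => ?_⟩⟩
      have h3 := run_flat hr c hE' h1 _ hρ.tail
      have h4 := Phi_cross c A B x y q q (r := ρ 0) (r' := ρ 1) hρ.head
      simp only [zero_add] at h3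
      rw [h0, h3, ← hxy] at h4
      have h5 : c x ≠ c q := h2
      cases hx : c x <;> cases hy : c q <;> rw [hx, hy] at h4 h5 <;> simp at h4 h5 <;> linarith
    | cons g U =>
      simp only [List.cons_append, List.cons.injEq] at h
      obtain ⟨rfl, h⟩ := h
      have hxq : c x = c q := h1 (x, q) (by simp)
      refine key _ w _ _ (fun ρ hρ => ?_) (ih hE' U e U' h (fun f hf => h1 f (by
        simp only [List.cons_append, List.mem_cons]; right; exact hf)) h2)
      have h4 := Phi_cross c A B x y q q (r := ρ 0) (r' := ρ 1) hρ.head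
      rw [← hxy, ← hxq] at h4
      have h5 : Phi c (A ++ x :: y :: B) (ρ 0) - Phi c (A ++ q :: q :: B) (ρ 1) = 0 := by
        rw [h4]; split_ifs <;> ring
      linarith

theorem RLab.rr {D : Word} {r : ℕ → ℕ → Bool} (h : RLab D r) :
    RR D (fun t j => if r t j then 1 else 0) := by
  intro t ht
  have := h.2.2 t ht
  revert this
  generalize D[t] = p
  intro this
  cases p with
  | birth i => exact ⟨fun j hj => by simp only [this.1 j hj], fun j hj => by simp only [this.2 j hj]⟩
  | death i => exact ⟨fun j hj => by simp only [this.1 j hj], fun j hj => by simp only [this.2 j hj]⟩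
  | pos i => exact fun j hj => by simp only [this j hj]
  | neg i => exact fun j hj => by simp only [this j hj]

theorem run_noBridge {D : Word} {Q : List V} {E NE : List (V × V)} (h : Run D [] Q E NE)
    (hr : Reduced D) : G.NoBridge (G.cl ⊥ E) NE := by
  classical
  intro U e U' hU
  by_contra hb
  have hle : G.cl ⊥ E ≤ G.cl (G.cl ⊥ E) (U ++ U') := G.le_cl _ _
  obtain ⟨t, i, ht, h1⟩ := run_bridge h
    (fun v => decide ((G.cl (G.cl ⊥ E) (U ++ U')) e.1 v)) (by
      intro f hf
      have h3 : (G.cl (G.cl ⊥ E) (U ++ U')) f.1 f.2 := hle (G.cl_mem hf)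
      simp only [decide_eq_decide]
      exact ⟨fun h => Setoid.trans' _ h h3, fun h => Setoid.trans' _ h (Setoid.symm' _ h3)⟩)
    U e U' hU (by
      intro f hf
      have h3 : (G.cl (G.cl ⊥ E) (U ++ U')) f.1 f.2 := G.cl_mem hf
      simp only [decide_eq_decide]
      exact ⟨fun h => Setoid.trans' _ h h3, fun h => Setoid.trans' _ h (Setoid.symm' _ h3)⟩)
    (by
      intro h0
      have e3 : (G.cl (G.cl ⊥ E) (U ++ U')) e.1 e.1 := Setoid.refl' _ _
      exact hb ((decide_eq_decide.1 h0).1 e3))
  have hnn : ∀ {a b : Bool}, ((if a then (1 : ℤ) else 0) = if b then 1 else 0) → a = b := by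
    intro a b h
    cases a <;> cases b <;> simp at h <;> rfl
  rcases h1 with ⟨h1, h2⟩ | ⟨h1, h2⟩
  · obtain ⟨_, r, hr1, hr2⟩ := hr t ht i (Or.inl h1)
    exact hr2 (hnn (h2 _ (RLab.rr hr1) rfl))
  · obtain ⟨⟨r, hr1, hr2⟩, _⟩ := hr t ht i (Or.inr h1)
    exact hr2 (hnn (h2 _ (RLab.rr hr1) rfl))

end bridge

end Run7.h112
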