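import Mathlib

/-!
# Chromatic polynomials of multigraphs given by a setoid and a list of pairs

The vertices of the graph are the classes of `r`, the edges are the members of the list `l`.
-/

set_option autoImplicit false
set_option linter.unusedSimpArgs false
set_option linter.unusedVariables false

namespace Run7.h112.G

open Polynomial

variable {V : Type}

/-- merging the classes of `a` and `b` -/
def mg (r : Setoid V) (a b : V) : Setoid V where
  r x y := r x y ∨ (r x a ∧ r b y) ∨ (r x b ∧ r a y)
  iseqv := by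
    refine ⟨fun x => Or.inl (r.refl x), ?_, ?_⟩
    · intro x y h
      rcases h with h | ⟨h, h'⟩ | ⟨h, h'⟩
      · exact Or.inl (r.symm h)
      · exact Or.inr (Or.inr ⟨r.symm h', r.symm h⟩)
      · exact Or.inr (Or.inl ⟨r.symm h', r.symm h⟩)
    · intro x y z h h1
      rcases h with h | ⟨h, h'⟩ | ⟨h, h'⟩ <;> rcases h1 with h1 | ⟨h1, h1'⟩ | ⟨h1, h1'⟩
      · exact Or.inl (r.trans h h1)
      · exact Or.inr (Or.inl ⟨r.trans h h1, h1'⟩)
      · exact Or.inr (Or.inr ⟨r.trans h h1, h1'⟩)
      · exact Or.inr (Or.inl ⟨h, r.trans h' h1⟩)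
      · exact Or.inr (Or.inl ⟨h, h1'⟩)
      · exact Or.inl (r.trans h h1')
      · exact Or.inr (Or.inr ⟨h, r.trans h' h1⟩)
      · exact Or.inl (r.trans h h1')
      · exact Or.inr (Or.inr ⟨h, h1'⟩)

theorem mg_apply {r : Setoid V} {a b x y : V} :
    mg r a b x y ↔ r x y ∨ (r x a ∧ r b y) ∨ (r x b ∧ r a y) := Iff.rfl

theorem le_mg (r : Setoid V) (a b : V) : r ≤ mg r a b := fun _ _ h => Or.inl h

theorem mg_self (r : Setoid V) (a b : V) : mg r a b a b := Or.inr (Or.inl ⟨r.refl a, r.refl b⟩)

theorem mg_le {r s : Setoid V} {a b : V} : mg r a b ≤ s ↔ r ≤ s ∧ s a b := by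
  constructor
  · intro h
    exact ⟨(le_mg r a b).trans h, h (mg_self r a b)⟩
  · rintro ⟨h, h'⟩ x y hxy
    rcases hxy with h1 | ⟨h1, h2⟩ | ⟨h1, h2⟩
    · exact h h1
    · exact s.trans (h h1) (s.trans h' (h h2))
    · exact s.trans (h h1) (s.trans (s.symm h') (h h2))

/-- the equivalence relation generated by `r` and the edges -/
def cl (r : Setoid V) : List (V × V) → Setoid V
  | [] => r
  | e :: l => mg (cl r l) e.1 e.2

theorem cl_le {r s : Setoid V} {l : List (V × V)} : cl r l ≤ s ↔ r ≤ s ∧ ∀ e ∈ l, s e.1 e.2 := by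
  induction l with
  | nil => simp [cl]
  | cons e l ih =>
    rw [cl, mg_le, ih]
    simp only [List.mem_cons, forall_eq_or_imp]
    tauto

theorem le_cl (r : Setoid V) (l : List (V × V)) : r ≤ cl r l := (cl_le.1 le_rfl).1

theorem cl_mem {r : Setoid V} {l : List (V × V)} {e : V × V} (h : e ∈ l) : cl r l e.1 e.2 :=
  (cl_le.1 le_rfl).2 e h

theorem cl_mono {r r' : Setoid V} {l l' : List (V × V)} (h : r ≤ r') (hl : ∀ e ∈ l, e ∈ l') :
    cl r l ≤ cl r' l' :=
  cl_le.2 ⟨h.trans (le_cl r' l'), fun e he => cl_mem (hl e he)⟩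

theorem cl_mg (r : Setoid V) (e : V × V) (l : List (V × V)) :
    cl (mg r e.1 e.2) l = cl r (e :: l) := by
  refine le_antisymm ?_ ?_
  · rw [cl_le, mg_le]
    exact ⟨⟨le_cl _ _, cl_mem (by simp)⟩, fun f hf => cl_mem (by simp [hf])⟩
  · rw [cl_le]
    refine ⟨(le_mg r _ _).trans (le_cl _ _), ?_⟩
    intro f hf
    rcases List.mem_cons.1 hf with rfl | hf
    · exact le_cl _ _ (mg_self r _ _)
    · exact cl_mem hf

/-- a crossing symmetry: if `c`, `d` become equivalent by merging `a` and `b` but were not
equivalent before, then `a` and `b` become equivalent by merging `c` and `d` -/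
theorem mg_exch {r : Setoid V} {a b c d : V} (h : mg r a b c d) (h' : ¬ r c d) :
    mg r c d a b := by
  rcases h with h | ⟨h1, h2⟩ | ⟨h1, h2⟩
  · exact absurd h h'
  · exact Or.inr (Or.inl ⟨r.symm h1, r.symm h2⟩)
  · exact Or.inr (Or.inr ⟨h2, h1⟩)

noncomputable section

variable [Fintype V]

/-- the number of classes -/
def nc (r : Setoid V) : ℕ := Nat.card (Quotient r)

theorem nc_mg {r : Setoid V} {a b : V} (h : ¬ r a b) : nc (mg r a b) + 1 = nc r := by
  classical
  let f : {q : Quotient r // q ≠ Quotient.mk r b} → Quotient (mg r a b) := fun q =>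
    Quotient.lift (fun x => Quotient.mk (mg r a b) x)
      (fun x y hxy => Quotient.sound (Or.inl hxy)) q.1
  have hf : Function.Bijective f := by
    constructor
    · rintro ⟨q, hq⟩ ⟨q', hq'⟩ hqq
      induction q using Quotient.inductionOn with
      | h x =>
        induction q' using Quotient.inductionOn with
        | h y =>
          have h1 : mg r a b x y := Quotient.exact hqq
          have hx : ¬ r x b := fun h => hq (Quotient.sound h)
          have hy : ¬ r y b := fun h => hq' (Quotient.sound h)
          rcases h1 with h1 | ⟨h1, h2⟩ | ⟨h1, h2⟩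
          · exact Subtype.ext (Quotient.sound h1)
          · exact absurd (r.symm h2) hy
          · exact absurd h1 hx
    · intro q
      induction q using Quotient.inductionOn with
      | h x =>
        by_cases hx : r x b
        · refine ⟨⟨Quotient.mk r a, fun h0 => h (Quotient.exact h0)⟩, ?_⟩
          exact Quotient.sound (Or.inr (Or.inl ⟨r.refl a, r.symm hx⟩))
        · exact ⟨⟨Quotient.mk r x, fun h0 => hx (Quotient.exact h0)⟩, rfl⟩
  haveI : Fintype (Quotient r) := Fintype.ofFinite _
  unfold nc
  rw [← Nat.card_eq_of_bijective f hf, Nat.card_eq_fintype_card, Nat.card_eq_fintype_card,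
    Fintype.card_subtype_compl, Fintype.card_subtype_eq]
  have : 0 < Fintype.card (Quotient r) := Fintype.card_pos_iff.2 ⟨Quotient.mk r b⟩
  omega

/-- the number of proper colourings -/
def pc (N : ℕ) (r : Setoid V) (l : List (V × V)) : ℕ :=
  Nat.card {f : V → Fin N // (∀ x y, r x y → f x = f y) ∧ ∀ e ∈ l, f e.1 ≠ f e.2}

theorem pc_nil (N : ℕ) (r : Setoid V) : pc N r [] = N ^ nc r := by
  have e : {f : V → Fin N // (∀ x y, r x y → f x = f y) ∧ ∀ e ∈ ([] : List (V × V)), f e.1 ≠ f e.2} ≃
      (Quotient r → Fin N) :=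
    { toFun := fun f q => Quotient.lift f.1 (fun x y h => f.2.1 x y h) q
      invFun := fun g => ⟨fun x => g (Quotient.mk r x),
        fun x y h => congrArg g (Quotient.sound h), by simp⟩
      left_inv := fun f => by ext; rfl
      right_inv := fun g => by
        funext q
        induction q using Quotient.inductionOn with
        | h x => rfl }
  rw [pc, Nat.card_congr e, nc, Nat.card_fun, Nat.card_eq_fintype_card (α := Fin N),
    Fintype.card_fin]

theorem pc_cons (N : ℕ) (r : Setoid V) (e : V × V) (l : List (V × V)) :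
    pc N r (e :: l) + pc N (mg r e.1 e.2) l = pc N r l := by
  classical
  unfold pc
  rw [Nat.card_eq_fintype_card, Nat.card_eq_fintype_card, Nat.card_eq_fintype_card,
    Fintype.card_subtype, Fintype.card_subtype, Fintype.card_subtype, ← Finset.card_union_of_disjoint]
  · congr 1
    ext f
    simp only [Finset.mem_union, Finset.mem_filter, Finset.mem_univ, true_and, List.mem_cons,
      forall_eq_or_imp]
    constructor
    · rintro (⟨h1, h2, h3⟩ | ⟨h1, h2⟩)
      · exact ⟨h1, h3⟩
      · exact ⟨fun x y h => h1 x y (Or.inl h), h2⟩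
    · rintro ⟨h1, h2⟩
      by_cases h : f e.1 = f e.2
      · refine Or.inr ⟨?_, h2⟩
        intro x y hxy
        rcases hxy with h3 | ⟨h3, h4⟩ | ⟨h3, h4⟩
        · exact h1 _ _ h3
        · rw [h1 _ _ h3, h, h1 _ _ h4]
        · rw [h1 _ _ h3, ← h, h1 _ _ h4]
      · exact Or.inl ⟨h1, h, h2⟩
  · rw [Finset.disjoint_filter]
    rintro f _ ⟨_, h1⟩ ⟨h2, _⟩
    exact h1 e (by simp) (h2 _ _ (mg_self r _ _))

theorem pc_loop (N : ℕ) {r : Setoid V} {e : V × V} (l : List (V × V)) (h : r e.1 e.2) :
    pc N r (e :: l) = 0 := by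
  have h1 := pc_cons N r e l
  have h2 : mg r e.1 e.2 = r := le_antisymm (mg_le.2 ⟨le_rfl, h⟩) (le_mg _ _ _)
  rw [h2] at h1
  omega

theorem pc_perm (N : ℕ) (r : Setoid V) {l l' : List (V × V)} (h : l.Perm l') :
    pc N r l = pc N r l' := by
  unfold pc
  refine Nat.card_congr (Equiv.subtypeEquivRight fun f => ?_)
  refine and_congr Iff.rfl ?_
  constructor
  · intro h1 e he; exact h1 e (h.mem_iff.2 he)
  · intro h1 e he; exact h1 e (h.mem_iff.1 he)

open Classical in
/-- the Tutte polynomial at `y = 0` (for a connected graph) -/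
def TT : Setoid V → List (V × V) → ℤ[X]
  | r, [] => (X - 1) ^ (nc r - 1)
  | r, e :: l => if r e.1 e.2 then 0 else TT r l + TT (mg r e.1 e.2) l

theorem TT_loop {r : Setoid V} {e : V × V} (l : List (V × V)) (h : r e.1 e.2) :
    TT r (e :: l) = 0 := by rw [TT, if_pos h]

theorem TT_cons {r : Setoid V} {e : V × V} (l : List (V × V)) (h : ¬ r e.1 e.2) :
    TT r (e :: l) = TT r l + TT (mg r e.1 e.2) l := by rw [TT, if_neg h]

theorem nc_pos [Nonempty V] (r : Setoid V) : 0 < nc r := by
  unfold nc
  haveI : Nonempty (Quotient r) := Nonempty.map (Quotient.mk r) inferInstance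
  exact Nat.card_pos

theorem TT_eval [Nonempty V] (N : ℕ) (r : Setoid V) (l : List (V × V)) :
    (-1 : ℤ) ^ nc r * (pc N r l : ℤ) = -(N : ℤ) * (TT r l).eval (1 - (N : ℤ)) := by
  induction l generalizing r with
  | nil =>
    obtain ⟨m, hm⟩ := Nat.exists_eq_succ_of_ne_zero (nc_pos r).ne'
    rw [pc_nil, TT, hm]
    simp only [Nat.succ_eq_add_one, Nat.add_sub_cancel, eval_pow, eval_sub, eval_X, eval_one,
      Nat.cast_pow]
    rw [show (1 : ℤ) - N - 1 = (-1) * N by ring, mul_pow, pow_succ, pow_succ]
    ring
  | cons e l ih =>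
    by_cases h : r e.1 e.2
    · rw [pc_loop N l h, TT_loop l h]; simp
    · rw [TT_cons l h, eval_add, mul_add, ← ih, ← ih, ← nc_mg h]
      have h1 := pc_cons N r e l
      have h2 : (pc N r l : ℤ) = pc N r (e :: l) + pc N (mg r e.1 e.2) l := by
        rw [← h1]; push_cast; ring
      rw [h2, pow_succ]
      ring

theorem poly_ext {p q : ℤ[X]} (h : ∀ N : ℕ, 1 ≤ N → p.eval (1 - (N : ℤ)) = q.eval (1 - (N : ℤ))) :
    p = q := by
  refine Polynomial.eq_of_infinite_eval_eq p q ?_
  refine Set.Infinite.mono (s := Set.range fun N : ℕ => (1 - ((N + 1 : ℕ) : ℤ))) ?_ ?_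
  · rintro _ ⟨N, rfl⟩
    exact h (N + 1) (by omega)
  · refine Set.infinite_range_of_injective fun a b hab => ?_
    simp only [Nat.cast_add, Nat.cast_one] at hab
    omega

theorem TT_perm [Nonempty V] (r : Setoid V) {l l' : List (V × V)} (h : l.Perm l') :
    TT r l = TT r l' := by
  refine poly_ext fun N hN => ?_
  have h1 := TT_eval N r l
  rw [pc_perm N r h, TT_eval N r l'] at h1
  have hN' : -(N : ℤ) ≠ 0 := by
    have : (1 : ℤ) ≤ N := by exact_mod_cast hN
    omega
  exact (mul_left_cancel₀ hN' h1).symm

/-- an edge between different components -/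
theorem TT_split [Nonempty V] {r : Setoid V} {l : List (V × V)} {a b : V} (h : ¬ cl r l a b) :
    TT r l = (X - 1) * TT (mg r a b) l := by
  induction l generalizing r with
  | nil =>
    have h' : ¬ r a b := h
    rw [TT, TT, ← nc_mg h']
    obtain ⟨m, hm⟩ := Nat.exists_eq_succ_of_ne_zero (nc_pos (mg r a b)).ne'
    rw [hm]
    simp only [Nat.succ_eq_add_one, Nat.add_sub_cancel]
    rw [pow_succ]; ring
  | cons g l ih =>
    have h1 : ¬ cl r l a b := fun h0 => h (cl_mono le_rfl (fun e he => by simp [he]) h0)
    have h2 : ¬ cl (mg r g.1 g.2) l a b := by rw [cl_mg]; exact h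
    by_cases hg : r g.1 g.2
    · rw [TT_loop l hg, TT_loop l (le_mg r a b hg), mul_zero]
    · have hg' : ¬ mg r a b g.1 g.2 := by
        intro h0
        have := mg_exch h0 hg
        exact h2 (le_cl _ _ this)
      have hc : mg (mg r g.1 g.2) a b = mg (mg r a b) g.1 g.2 := by
        refine le_antisymm ?_ ?_
        · rw [mg_le, mg_le]
          exact ⟨⟨(le_mg r a b).trans (le_mg _ _ _), mg_self _ _ _⟩,
            le_mg _ _ _ (mg_self r a b)⟩
        · rw [mg_le, mg_le]
          exact ⟨⟨(le_mg r _ _).trans (le_mg _ _ _), mg_self _ _ _⟩,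
            le_mg _ _ _ (mg_self r _ _)⟩
      rw [TT_cons l hg, TT_cons l hg', ih h1, ih h2, hc]
      ring

/-- a bridge -/
theorem TT_bridge [Nonempty V] {r : Setoid V} {l : List (V × V)} {e : V × V}
    (h : ¬ cl r l e.1 e.2) : TT r (e :: l) = X * TT (mg r e.1 e.2) l := by
  have h' : ¬ r e.1 e.2 := fun h0 => h (le_cl _ _ h0)
  rw [TT_cons l h', TT_split h]
  ring

theorem nc_top [Nonempty V] : nc (⊤ : Setoid V) = 1 := by
  unfold nc
  rw [Nat.card_eq_one_iff_unique]
  refine ⟨⟨fun a b => ?_⟩, Nonempty.map (Quotient.mk ⊤) inferInstance⟩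
  induction a using Quotient.inductionOn with
  | h x =>
    induction b using Quotient.inductionOn with
    | h y => exact Quotient.sound trivial

/-- adding a redundant edge -/
theorem cl_cons_of {r : Setoid V} {l : List (V × V)} {e : V × V} (h : cl r l e.1 e.2) :
    cl r (e :: l) = cl r l :=
  le_antisymm (mg_le.2 ⟨le_rfl, h⟩) (le_mg _ _ _)

theorem TT_nonneg [Nonempty V] {r : Setoid V} {l : List (V × V)} (h : cl r l = ⊤) (j : ℕ) :
    0 ≤ (TT r l).coeff j := by
  induction l generalizing r j with
  | nil =>
    have h' : r = ⊤ := h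
    rw [TT, h', nc_top]
    simp only [tsub_self, pow_zero]
    rw [coeff_one]
    split_ifs <;> norm_num
  | cons e l ih =>
    by_cases he : r e.1 e.2
    · rw [TT_loop l he]; simp
    · have h2 : cl (mg r e.1 e.2) l = ⊤ := by rw [cl_mg]; exact h
      by_cases hc : cl r l e.1 e.2
      · rw [TT_cons l he, coeff_add]
        rw [cl_cons_of hc] at h
        exact add_nonneg (ih h j) (ih h2 j)
      · rw [TT_bridge hc]
        cases j with
        | zero => simp
        | succ j => rw [coeff_X_mul]; exact ih h2 j

/-- no edge is a bridge -/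
def NoBridge (r : Setoid V) (l : List (V × V)) : Prop :=
  ∀ U e U', l = U ++ e :: U' → cl r (U ++ U') e.1 e.2

theorem NoBridge.perm {r : Setoid V} {l : List (V × V)} (h : NoBridge r l) {e : V × V}
    {l' : List (V × V)} (hp : l.Perm (e :: l')) : cl r l' e.1 e.2 := by
  obtain ⟨U, U', rfl⟩ := List.append_of_mem (hp.mem_iff.2 (by simp : e ∈ e :: l'))
  have h1 := h U e U' rfl
  have h2 : (U ++ U').Perm l' := by
    have : (e :: (U ++ U')).Perm (e :: l') := (List.perm_middle.symm).trans hp
    exact (List.perm_cons e).1 this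
  exact cl_mono le_rfl (fun f hf => h2.mem_iff.1 hf) h1

theorem noBridge_iff {r : Setoid V} {l : List (V × V)} :
    NoBridge r l ↔ ∀ e l', l.Perm (e :: l') → cl r l' e.1 e.2 := by
  constructor
  · intro h e l' hp; exact h.perm hp
  · rintro h U e U' rfl
    exact h e _ List.perm_middle

/-- a bridgeless graph has a term of low degree -/
theorem low_degree [Nonempty V] (n : ℕ) : ∀ (r : Setoid V) (l : List (V × V)), l.length = n →
    cl r l = ⊤ → (∀ e ∈ l, ¬ r e.1 e.2) → NoBridge r l →
    ∃ j, 2 * j ≤ n ∧ 0 < (TT r l).coeff j := by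
  induction n using Nat.strong_induction_on with
  | _ n IH =>
    intro r l hn hc hl hb
    cases l with
    | nil =>
      have h' : r = ⊤ := hc
      refine ⟨0, by omega, ?_⟩
      rw [TT, h', nc_top]
      simp
    | cons e l =>
      rw [List.length_cons] at hn
      have he := hl e (by simp)
      have hec : cl r l e.1 e.2 := hb.perm (List.Perm.refl _)
      have hc1 : cl r l = ⊤ := by rw [← cl_cons_of hec]; exact hc
      have hc2 : cl (mg r e.1 e.2) l = ⊤ := by rw [cl_mg]; exact hc
      rw [noBridge_iff] at hb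
      by_cases hpar : ∃ f ∈ l, mg r e.1 e.2 f.1 f.2
      · obtain ⟨f, hf, hfe⟩ := hpar
        have hf' := hl f (by simp [hf])
        -- the graph without `e`
        suffices h : ∃ j, 2 * j ≤ n ∧ 0 < (TT r l).coeff j by
          obtain ⟨j, h1, h2⟩ := h
          refine ⟨j, h1, ?_⟩
          rw [TT_cons l he, coeff_add]
          have := TT_nonneg hc2 j
          linarith
        by_cases hb' : NoBridge r l
        · obtain ⟨j, h1, h2⟩ := IH l.length (by omega) r l rfl hc1
            (fun g hg => hl g (by simp [hg])) hb'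
          exact ⟨j, by omega, h2⟩
        · rw [noBridge_iff] at hb'
          push Not at hb'
          obtain ⟨g, l', hp, hg⟩ := hb'
          have hlen : l.length = l'.length + 1 := by rw [hp.length_eq]; rfl
          have hgl : g ∈ l := hp.mem_iff.2 (by simp)
          have hgr : ¬ r g.1 g.2 := fun h => hg (le_cl _ _ h)
          -- `g` is parallel to `e`
          have hge : mg r e.1 e.2 g.1 g.2 := by
            by_contra hne
            have hfl' : f ∈ l' := by
              rcases List.mem_cons.1 (hp.mem_iff.1 hf) with rfl | h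
              · exact absurd hfe hne
              · exact h
            have h1 : cl r l' e.1 e.2 := by
              have h2 : mg r f.1 f.2 e.1 e.2 := mg_exch hfe hf'
              exact (mg_le.2 ⟨le_cl r l', cl_mem hfl'⟩) h2
            have h2 : cl r (e :: l') g.1 g.2 := hb g (e :: l')
              (((List.perm_cons e).2 hp).trans (List.Perm.swap g e l'))
            rw [cl_cons_of h1] at h2
            exact hg h2
          have heg : mg r g.1 g.2 e.1 e.2 := mg_exch hge hgr
          rw [TT_perm r hp, TT_bridge hg]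
          have key := IH l'.length (by omega) (mg r g.1 g.2) l' rfl ?_ ?_ ?_
          · obtain ⟨j, h1, h2⟩ := key
            exact ⟨j + 1, by omega, by rw [coeff_X_mul]; exact h2⟩
          · rw [cl_mg]
            refine le_antisymm le_top ?_
            rw [← hc1]
            exact cl_mono le_rfl fun h hh => hp.mem_iff.1 hh
          · intro h hh h0
            have hhr : ¬ r h.1 h.2 := hl h (by
              rw [List.mem_cons]; right; exact hp.mem_iff.2 (by simp [hh]))
            have := mg_exch h0 hhr
            exact hg ((mg_le.2 ⟨le_cl r l', cl_mem hh⟩) this)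
          · rw [noBridge_iff]
            intro h l'' hp'
            by_cases hpar' : mg r g.1 g.2 h.1 h.2
            · exact le_cl _ _ hpar'
            · have h1 : cl r (e :: g :: l'') h.1 h.2 := by
                refine hb h (e :: g :: l'') ?_
                have h2 : l.Perm (h :: g :: l'') :=
                  hp.trans (((List.perm_cons g).2 hp').trans (List.Perm.swap h g l''))
                exact ((List.perm_cons e).2 h2).trans (List.Perm.swap h e _)
              rw [cl_mg]
              have h3 : cl r (g :: l'') e.1 e.2 :=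
                (mg_le.2 ⟨le_cl r (g :: l''), cl_mem (by simp)⟩) heg
              rw [cl_cons_of h3] at h1
              exact h1
      · push Not at hpar
        obtain ⟨j, h1, h2⟩ := IH l.length (by omega) (mg r e.1 e.2) l rfl hc2 hpar (by
          rw [noBridge_iff]
          intro f l' hp
          have h1 : cl r (e :: l') f.1 f.2 :=
            hb f (e :: l') (((List.perm_cons e).2 hp).trans (List.Perm.swap f e l'))
          rw [cl_mg]
          exact h1)
        refine ⟨j, by omega, ?_⟩
        rw [TT_cons l he, coeff_add]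
        have := TT_nonneg hc1 j
        linarith

end

end Run7.h112.G
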