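import Pool.Agent.Run7.h112.Edge

/-!
# The top edge of the Kauffman polynomial is given by the colour model
-/

set_option autoImplicit false
set_option linter.unusedSimpArgs false
set_option linter.unusedVariables false

namespace Run7.h112

open LaurentPolynomial
open Pool.Agent.Helper454.Kauf
open Pool.Agent.Helper454.Kauf.Piece (birth death pos neg)
open Pool.Agent.Helper82_Alt (crs cx sg w_birth w_death w_cx w_nil width_append Fil LT_mul_coeff
  LC_mul_coeff t_B1 cx_true cx_false)

/-- the sign of the piece -/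
def sgp : Piece → ℤ
  | .birth i => (-1) ^ i
  | .death i => (-1) ^ (i + 1)
  | .pos _ => 1
  | .neg _ => -1

/-- the sign of the diagram -/
def sgn (w : Word) : ℤ := (w.map sgp).prod

theorem sgn_append (u v : Word) : sgn (u ++ v) = sgn u * sgn v := by simp [sgn]

theorem pm (i : ℕ) : ((-1 : ℤ) ^ i) * (-1) ^ i = 1 := by
  rw [← mul_pow]; simp

def ini (N : ℕ) : Fn N := fun s => if s = [] then 1 else 0

/-- the colour model (unsigned) -/
def cnt (N : ℕ) (w : Word) : ℤ := M w (ini N) []

/-- the colour model -/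
def pv (N : ℕ) (w : Word) : ℤ := sgn w * cnt N w

theorem pv_rel {N n : ℕ} {c : ℤ} {l r x y : Word} (h : Rel N n c l r) (hx : width x 0 = some n)
    {e : ℤ} (he : sgn l = e * sgn r) : pv N (x ++ l ++ y) = e * c * pv N (x ++ r ++ y) := by
  unfold pv cnt
  rw [h.ctx hx]
  simp only [sgn_append, he]
  ring

/-! ### the polynomial side -/

noncomputable section

variable {R : Type} [CommRing R]

/-- the top coefficient -/
def fv (τ : Rˣ) (D : Word) : R := (rho τ (kv D)).coeff (crs D)

theorem mulT_coeff (f : LaurentPolynomial R) (m k : ℤ) : (T m * f).coeff k = f.coeff (k - m) :=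
  LT_mul_coeff m k f

theorem fv_skein (τ : Rˣ) (x : Word) (i : ℕ) (y : Word) (hc : Closed (x ++ [pos i] ++ y)) :
    fv τ (x ++ [pos i] ++ y) + fv τ (x ++ [neg i] ++ y) =
      fv τ (x ++ y) + fv τ (x ++ [death i, birth i] ++ y) := by
  have h := congrArg (fun p => (rho τ p).coeff ((crs (x ++ y) : ℤ) + 1)) (kv_skein x i y hc)
  simp only [map_add, map_mul, rho_z, AddMonoidAlgebra.coeff_add, Finsupp.add_apply,
    mulT_coeff, add_sub_cancel_right] at h
  have e1 : ((crs (x ++ [pos i] ++ y) : ℕ) : ℤ) = crs (x ++ y) + 1 := by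
    simp only [crs_append, crs]; push_cast; ring
  have e2 : ((crs (x ++ [neg i] ++ y) : ℕ) : ℤ) = crs (x ++ y) + 1 := by
    simp only [crs_append, crs]; push_cast; ring
  have e3 : ((crs (x ++ [death i, birth i] ++ y) : ℕ) : ℤ) = crs (x ++ y) := by
    simp only [crs_append, crs]; push_cast; ring
  unfold fv
  rw [e1, e2, e3]
  exact h

theorem fv_R2 (τ : Rˣ) (x : Word) (i : ℕ) (y : Word)
    (hc : Closed (x ++ [pos i, neg i] ++ y)) (hc0 : Closed (x ++ [] ++ y)) :
    fv τ (x ++ [pos i, neg i] ++ y) = 0 := by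
  unfold fv
  rw [kv_local (LocalMove.second₁ i) hc hc0]
  refine rho_coeff_zero τ (kv_fil hc0) ?_
  simp only [crs_append, crs]
  push_cast; linarith

theorem fv_birth (τ : Rˣ) (b : Bool) (x : Word) (i : ℕ) (y : Word)
    (hc : Closed (x ++ [birth i] ++ y)) :
    fv τ (x ++ [birth i, cx b i] ++ y) = if b then (τ : R) * fv τ (x ++ [birth i] ++ y) else 0 := by
  unfold fv
  rw [kv_cxBirth b x i y hc, map_mul, rho_aPow, mul_assoc, LC_mul_coeff, mulT_coeff]
  cases b
  · simp only [sg, if_false, Bool.false_eq_true]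
    rw [rho_coeff_zero τ (kv_fil hc), mul_zero]
    simp only [crs_append, crs, cx_false]
    push_cast; linarith
  · simp only [sg, if_true, zpow_one]
    congr 2
    simp only [crs_append, crs, cx_true]
    push_cast; ring

theorem fv_death (τ : Rˣ) (b : Bool) (x : Word) (i : ℕ) (y : Word)
    (hc : Closed (x ++ [death i] ++ y)) :
    fv τ (x ++ [cx b i, death i] ++ y) = if b then (τ : R) * fv τ (x ++ [death i] ++ y) else 0 := by
  unfold fv
  rw [kv_cxDeath b x i y hc, map_mul, rho_aPow, mul_assoc, LC_mul_coeff, mulT_coeff]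
  cases b
  · simp only [sg, if_false, Bool.false_eq_true]
    rw [rho_coeff_zero τ (kv_fil hc), mul_zero]
    simp only [crs_append, crs, cx_false]
    push_cast; linarith
  · simp only [sg, if_true, zpow_one]
    congr 2
    simp only [crs_append, crs, cx_true]
    push_cast; ring

theorem rho_dlt (τ : Rˣ) : rho τ dlt = C ((τ : R) - 1) + C ((τ⁻¹ : Rˣ) : R) * T (-2) := by
  rw [dlt, map_sub, map_mul, map_add, rho_CT, rho_aPow, rho_aPow, map_one, zpow_one, zpow_neg_one,
    mul_add, mul_left_comm, ← T_add, mul_left_comm, ← T_add, map_sub, map_one]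
  simp
  ring

theorem fv_circ (τ : Rˣ) (x : Word) (i : ℕ) (y : Word) (hc : Closed (x ++ y))
    (hc2 : Closed (x ++ [birth i, death i] ++ y)) :
    fv τ (x ++ [birth i, death i] ++ y) = ((τ : R) - 1) * fv τ (x ++ y) := by
  unfold fv
  rw [kv_circ x i y hc hc2, map_mul, rho_dlt, add_mul, AddMonoidAlgebra.coeff_add,
    Finsupp.add_apply, LC_mul_coeff, mul_assoc, LC_mul_coeff, mulT_coeff]
  have e1 : ((crs (x ++ [birth i, death i] ++ y) : ℕ) : ℤ) = crs (x ++ y) := by
    simp only [crs_append, crs]; push_cast; ring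
  rw [e1, rho_coeff_zero τ (kv_fil hc) (show (crs (x ++ y) : ℤ) < crs (x ++ y) - -2 by linarith),
    mul_zero, add_zero]

theorem fv_nil (τ : Rˣ) : fv τ [] = 1 := by
  unfold fv
  rw [kv_nil, map_one, ← T_zero]
  simp [crs]

theorem fv_local (τ : Rˣ) {x l r y : Word} (h : LocalMove l r) (h1 : Closed (x ++ l ++ y))
    (h2 : Closed (x ++ r ++ y)) (hcr : crs l = crs r) :
    fv τ (x ++ l ++ y) = fv τ (x ++ r ++ y) := by
  unfold fv
  rw [kv_local h h1 h2]
  congr 1
  simp only [crs_append, hcr]

/-! ### comparison -/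

/-- both sides are equal -/
def Eqv (N : ℕ) (τ : Rˣ) (D : Word) : Prop := fv τ D = ((pv N D : ℤ) : R)

theorem w_split {x l y : Word} (h : Closed (x ++ l ++ y)) :
    ∃ k k', width x 0 = some k ∧ width l k = some k' ∧ width y k' = some 0 := Ex.split3 h

theorem pv_skein (N : ℕ) (x : Word) (i : ℕ) (y : Word) (hc : Closed (x ++ [pos i] ++ y)) :
    pv N (x ++ [pos i] ++ y) + pv N (x ++ [neg i] ++ y) =
      pv N (x ++ y) + pv N (x ++ [death i, birth i] ++ y) := by
  obtain ⟨k, k', hx, hl, hy⟩ := w_split hc
  have hk : i + 2 ≤ k := (Ex.wd_pos (i := i) (n := k) (k := k') (by simpa [width] using hl)).1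
  have h1 : ∀ s : List (Fin N), s.length = k →
      (M [pos i] (M y (ini N)) + M [death i, birth i] (M y (ini N))) s =
      (M [neg i] (M y (ini N)) + M [] (M y (ini N))) s := by
    intro s hs
    have := r_skein hk (M y (ini N)) s hs
    simp only [Pi.add_apply]
    linarith
  have h2 := M_len x hx h1 [] rfl
  rw [M_add, M_add] at h2
  simp only [Pi.add_apply] at h2
  have e : x ++ y = x ++ [] ++ y := by simp
  rw [e]
  unfold pv cnt
  simp only [M_append, sgn_append]
  have s1 : sgn [pos i] = 1 := by simp [sgn, sgp]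
  have s2 : sgn [neg i] = -1 := by simp [sgn, sgp]
  have s3 : sgn [death i, birth i] = -1 := by
    simp [sgn, sgp, pow_succ, pm]
  have s4 : sgn ([] : Word) = 1 := by simp [sgn]
  rw [s1, s2, s3, s4]
  linear_combination (sgn x * sgn y) * h2

theorem closed_sm {x y : Word} {i : ℕ} (hc : Closed (x ++ [pos i] ++ y)) :
    Closed (x ++ y) ∧ Closed (x ++ [death i, birth i] ++ y) ∧ Closed (x ++ [neg i] ++ y) := by
  obtain ⟨k, k', hx, hl, hy⟩ := w_split hc
  obtain ⟨h1, h2⟩ := Ex.wd_pos (i := i) (n := k) (k := k') (by simpa [width] using hl)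
  subst h2
  refine ⟨?_, ?_, ?_⟩
  · have := closed_of (l := [pos i]) (r := []) (x := x) (y := y) (n := k') ⟨k', hl, rfl⟩ hx hc
    simpa using this
  · refine closed_of ⟨k', hl, ?_⟩ hx hc
    rw [w_death _ h1, w_birth _ (by omega), w_nil]; congr 1; omega
  · refine closed_of ⟨k', hl, ?_⟩ hx hc
    have := w_cx true (i := i) (n := k') [] h1
    rw [w_nil] at this
    exact this

theorem sw_iff {N n : ℕ} {τ : Rˣ}
    (IH : ∀ D, Closed D → crs D < n → Eqv N τ D)
    (x : Word) (i : ℕ) (y : Word) (hc : Closed (x ++ [pos i] ++ y))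
    (hn : crs (x ++ [pos i] ++ y) = n) :
    Eqv N τ (x ++ [pos i] ++ y) ↔ Eqv N τ (x ++ [neg i] ++ y) := by
  obtain ⟨c1, c2, c3⟩ := closed_sm hc
  have f := fv_skein τ x i y hc
  have p := pv_skein N x i y hc
  have i1 := IH _ c1 (by simp only [crs_append, crs] at hn ⊢; omega)
  have i2 := IH _ c2 (by simp only [crs_append, crs] at hn ⊢; omega)
  unfold Eqv at *
  rw [i1, i2] at f
  have p' := congrArg (fun z : ℤ => (z : R)) p
  simp only [Int.cast_add] at p'
  rw [← p'] at f
  constructor
  · intro h; rw [h] at f; exact add_left_cancel f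
  · intro h; rw [h] at f; exact add_right_cancel f

theorem sgn2 (p q : Piece) : sgn [p, q] = sgp p * sgp q := by simp [sgn]

theorem sgp_moved (q : Piece) {j k : ℕ} (h : j = k ∨ j = k + 2 ∨ j + 2 = k) (hk : q.index = k) :
    sgp (q.moved j) = sgp q := by
  have e : ∀ m : ℕ, ((-1 : ℤ)) ^ (m + 2) = (-1) ^ m := by intro m; rw [pow_add]; simp
  cases q <;> simp only [Piece.index, Piece.moved, sgp] at hk ⊢ <;> subst hk
  · rcases h with rfl | rfl | h
    · rfl
    · exact e _
    · rw [← h]; exact (e _).symm
  · rcases h with rfl | rfl | h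
    · rfl
    · exact e _
    · rw [← h]
      exact (e _).symm

theorem shd {N n : ℕ} {τ : Rˣ} (hτ : (τ : R) = 1 - N)
    (IH : ∀ D, Closed D → crs D < n → Eqv N τ D) : Shd n (Eqv N τ) := by
  have pw : ∀ (m : ℕ), ((-1 : ℤ)) ^ (m + 2) = (-1) ^ m := by intro m; rw [pow_add]; simp
  refine ⟨?_, ?_, ?_, ?_, ?_, ?_, ?_, ?_, ?_, ?_, ?_⟩
  · -- exchange
    intro x p q y h c1 c2 hn
    obtain ⟨k, k', hx, hl, hy⟩ := w_split c2
    have hq : q.index ≤ k := by
      rw [width] at hl
      obtain ⟨m, hm, _⟩ := Option.bind_eq_some_iff.1 hl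
      have := (width_piece hm).1
      omega
    have hf := fv_local τ (LocalMove.exchange p q h) c1 c2 (by
      cases p <;> cases q <;> simp [crs, Piece.moved])
    have hp := pv_rel (x := x) (y := y) (r_exch (N := N) (n := k) p q h hq) hx (e := 1) (by
      rw [sgn2, sgn2, sgp_moved q (k := q.index) (by
        cases p <;> simp only [Piece.ins, Piece.outs] at h ⊢ <;> omega) rfl]
      ring)
    unfold Eqv
    rw [hf, hp, one_mul, one_mul]
  · intro x i y c1 c2 hn
    obtain ⟨k, k', hx, hl, hy⟩ := w_split c1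
    have hk : i < k := by
      obtain ⟨m, hm, hl⟩ := Ex.wd_cons hl
      obtain ⟨m', hm', _⟩ := Ex.wd_cons hl
      have := Ex.wd_birth hm
      have := Ex.wd_death hm'
      omega
    have hf := fv_local τ (LocalMove.zigzag₁ i) c1 c2 rfl
    have hp := pv_rel (x := x) (y := y) (r_zig1 (N := N) hk) hx (e := 1) (by
      rw [sgn2]; simp only [sgp, sgn, List.map_nil, List.prod_nil]
      have := pm i
      rw [show i + 1 + 1 = i + 2 from rfl, pw]; linarith)
    unfold Eqv
    rw [hf, hp, one_mul, one_mul]
  · intro x i y c1 c2 hn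
    obtain ⟨k, k', hx, hl, hy⟩ := w_split c1
    have hk : i < k := by
      obtain ⟨m, hm, hl⟩ := Ex.wd_cons hl
      have := Ex.wd_birth hm
      omega
    have hf := fv_local τ (LocalMove.zigzag₂ i) c1 c2 rfl
    have hp := pv_rel (x := x) (y := y) (r_zig2 (N := N) hk) hx (e := 1) (by
      rw [sgn2]; simp only [sgp, sgn, List.map_nil, List.prod_nil]
      have := pm (i + 1)
      linarith)
    unfold Eqv
    rw [hf, hp, one_mul, one_mul]
  · -- slide at a birth
    intro x i y c1 c2 hn
    obtain ⟨k, k', hx, hl, hy⟩ := w_split c1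
    have hk : i < k := by
      obtain ⟨m, hm, hl⟩ := Ex.wd_cons hl
      obtain ⟨m', hm', _⟩ := Ex.wd_cons hl
      have := Ex.wd_birth hm
      have := Ex.wd_pos hm'
      omega
    have c2' : Closed ((x ++ [birth (i + 1)]) ++ [pos i] ++ y) := by simpa using c2
    have c3 := (closed_sm c2').2.2
    have s1 := sw_iff IH _ i y c2' (by simpa using hn)
    simp only [List.append_assoc, List.cons_append, List.nil_append] at s1 c3 c1 c2 ⊢
    rw [s1]
    have hf := fv_local τ (x := x) (y := y) (LocalMove.slideBirth₁ i) (by simpa using c1)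
      (by simpa using c3) rfl
    have hp := pv_rel (x := x) (y := y) (r_sb1 (N := N) hk) hx (e := 1) (by
      rw [sgn2, sgn2]; simp only [sgp, pow_succ]; ring)
    simp only [List.append_assoc, List.cons_append, List.nil_append] at hf hp
    unfold Eqv
    rw [hf, hp, one_mul, one_mul]
  · -- slide at a death
    intro x i y c1 c2 hn
    obtain ⟨k, k', hx, hl, hy⟩ := w_split c1
    have hk : i + 3 ≤ k := by
      obtain ⟨m, hm, hl⟩ := Ex.wd_cons hl
      obtain ⟨m', hm', _⟩ := Ex.wd_cons hl
      have := Ex.wd_pos hm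
      have := Ex.wd_death hm'
      omega
    have c2' : Closed (x ++ [pos i] ++ (death (i + 1) :: y)) := by simpa using c2
    have c3 := (closed_sm c2').2.2
    have s1 := sw_iff IH x i _ c2' (by simpa using hn)
    simp only [List.append_assoc, List.cons_append, List.nil_append] at s1 c3 c1 c2 ⊢
    rw [s1]
    have hf := fv_local τ (x := x) (y := y) (LocalMove.slideDeath₁ i) (by simpa using c1)
      (by simpa using c3) rfl
    have hp := pv_rel (x := x) (y := y) (r_sd1 (N := N) hk) hx (e := 1) (by
      rw [sgn2, sgn2]; simp only [sgp, pow_succ]; ring)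
    simp only [List.append_assoc, List.cons_append, List.nil_append] at hf hp
    unfold Eqv
    rw [hf, hp, one_mul, one_mul]
  · -- the third move
    intro x i y c1 c2 hn
    obtain ⟨k, k', hx, hl, hy⟩ := w_split c1
    have hk : i + 3 ≤ k := by
      obtain ⟨m, hm, hl⟩ := Ex.wd_cons hl
      obtain ⟨m', hm', _⟩ := Ex.wd_cons hl
      have := Ex.wd_pos hm
      have := Ex.wd_pos hm'
      omega
    have hf := fv_local τ (LocalMove.third i) c1 c2 rfl
    have hp := pv_rel (x := x) (y := y) (r_th (N := N) hk) hx (e := 1) (by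
      simp [sgn, sgp])
    unfold Eqv
    rw [hf, hp, one_mul, one_mul]
  · -- double crossing
    intro x i y c1 hn
    have c1' : Closed ((x ++ [pos i]) ++ [pos i] ++ y) := by simpa using c1
    have c3 := (closed_sm c1').2.2
    have c4 : Closed (x ++ [pos i] ++ y) := by simpa using (closed_sm c1').1
    have c5 : Closed (x ++ [] ++ y) := by simpa using (closed_sm c4).1
    have s1 := sw_iff IH _ i y c1' (by simpa using hn)
    simp only [List.append_assoc, List.cons_append, List.nil_append] at s1 c3 c1 ⊢
    rw [s1]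
    obtain ⟨k, k', hx, hl, hy⟩ := w_split c4
    have hf := fv_R2 τ x i y (by simpa using c3) c5
    have hp := pv_rel (x := x) (y := y) (r_sq (N := N) k i false) hx (e := -1) (by
      simp [sgn, sgp, cx])
    simp only [List.append_assoc, List.cons_append, List.nil_append, cx_false, cx_true,
      Bool.not_false] at hf hp
    unfold Eqv
    rw [hf, hp]; simp
  · -- curl at a birth
    intro x i y c1 hn
    have c1' : Closed ((x ++ [birth i]) ++ [pos i] ++ y) := by simpa using c1
    have c4 : Closed (x ++ [birth i] ++ y) := by simpa using (closed_sm c1').1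
    obtain ⟨k, k', hx, hl, hy⟩ := w_split c4
    obtain ⟨m, hm, _⟩ := Ex.wd_cons hl
    have hk := Ex.wd_birth hm
    have hf := fv_birth τ false x i y c4
    have hp := pv_rel (x := x) (y := y) (r_kb (N := N) k i hk.1 false) hx (e := 1) (by
      simp [sgn, sgp, cx])
    simp only [cx_false, if_false, Bool.false_eq_true] at hf hp
    unfold Eqv
    rw [hf, hp]; simp
  · -- curl at a death
    intro x i y c1 hn
    have c1' : Closed (x ++ [pos i] ++ (death i :: y)) := by simpa using c1
    have c4 : Closed (x ++ [death i] ++ y) := by simpa using (closed_sm c1').1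
    obtain ⟨k, k', hx, hl, hy⟩ := w_split c4
    obtain ⟨m, hm, _⟩ := Ex.wd_cons hl
    have hk := Ex.wd_death hm
    have hf := fv_death τ false x i y c4
    have hp := pv_rel (x := x) (y := y) (r_kd (N := N) k i (by omega) false) hx (e := 1) (by
      simp [sgn, sgp, cx])
    simp only [cx_false, if_false, Bool.false_eq_true] at hf hp
    unfold Eqv
    rw [hf, hp]; simp
  · -- circle
    intro x i y c1 c2 hn h
    obtain ⟨k, k', hx, hl, hy⟩ := w_split c2
    obtain ⟨m, hm, _⟩ := Ex.wd_cons hl
    have hk := Ex.wd_birth hm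
    have hf := fv_circ τ x i y c1 c2
    have hp := pv_rel (x := x) (y := y) (r_circ (N := N) k i hk.1) hx (e := -1) (by
      rw [sgn2]; simp only [sgp, sgn, List.map_nil, List.prod_nil, pow_succ]
      have := pm i
      linarith)
    have e : x ++ y = x ++ [] ++ y := by simp
    unfold Eqv at *
    rw [hf, hp, h, ← e, hτ]
    push_cast; ring
  · intro _
    unfold Eqv
    rw [fv_nil]
    simp [pv, cnt, sgn, M, ini]

/-- number of negative pieces -/
def negs (w : Word) : ℕ := w.countP (fun p => match p with | .neg _ => true | _ => false)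

theorem eqv_all {N : ℕ} {τ : Rˣ} (hτ : (τ : R) = 1 - N) : ∀ (n : ℕ) (D : Word), Closed D →
    crs D = n → Eqv N τ D := by
  intro n
  induction n using Nat.strong_induction_on with
  | _ n IH0 =>
    have IH : ∀ D, Closed D → crs D < n → Eqv N τ D := fun D hD hn => IH0 _ hn D hD rfl
    have key : ∀ (m : ℕ) (D : Word), negs D = m → Closed D → crs D = n → Eqv N τ D := by
      intro m
      induction m with
      | zero =>
        intro D hm hD hn
        refine shd_all (shd hτ IH) D ?_ hD hn
        intro i hi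
        have h0 : 0 < negs D := List.countP_pos_iff.2 ⟨neg i, hi, rfl⟩
        omega
      | succ m ih =>
        intro D hm hD hn
        have : ∃ i, neg i ∈ D := by
          have h0 : 0 < negs D := by omega
          obtain ⟨p, hp, hq⟩ := List.countP_pos_iff.1 h0
          cases p with
          | neg i => exact ⟨i, hp⟩
          | birth i => simp at hq
          | death i => simp at hq
          | pos i => simp at hq
        obtain ⟨i, hi⟩ := this
        obtain ⟨x, y, rfl⟩ := List.append_of_mem hi
        have e : x ++ neg i :: y = x ++ [neg i] ++ y := by simp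
        rw [e] at hD hn hm ⊢
        have hD' : Closed (x ++ [pos i] ++ y) := by
          obtain ⟨k, k', hx, hl, hy⟩ := w_split hD
          refine closed_of ⟨k', hl, ?_⟩ hx hD
          exact hl
        refine (sw_iff IH x i y hD' (by simp only [crs_append, crs] at hn ⊢; omega)).1 ?_
        refine ih _ ?_ hD' (by simp only [crs_append, crs] at hn ⊢; omega)
        simp only [negs, List.countP_append, List.countP_cons, List.countP_nil] at hm ⊢
        simp at hm ⊢
        omega
    intro D hD hn
    exact key _ D rfl hD hn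

end

end Run7.h112
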