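import Pool.Agent.Helper82_Alt.B1

/-!
# The shadow calculus

Sliced diagrams in which crossing signs do not matter, in which double crossings and curls are
zero, and in which only moves which keep the number of crossings are allowed. Every diagram
without ends which has at least one crossing is zero.
-/

set_option autoImplicit false
set_option linter.unusedSimpArgs false
set_option linter.unusedVariables false

namespace Run7.h112

open Pool.Agent.Helper454.Kauf
open Pool.Agent.Helper454.Kauf.Piece (birth death pos neg)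
open Pool.Agent.Helper82_Alt (crs cx w_birth w_death w_cx w_nil width_append)

theorem w_pos {i n : ℕ} (w : Word) (h : i + 2 ≤ n) : width (pos i :: w) n = width w n :=
  w_cx false w h

theorem crs_append (u v : Word) : crs (u ++ v) = crs u + crs v := by
  induction u with
  | nil => simp [crs]
  | cons p u ih => cases p <;> simp [crs, ih] <;> omega

/-- the rules of the shadow calculus for diagrams with `n0` crossings -/
structure Shd (n0 : ℕ) (Γ : Word → Prop) : Prop where
  exch : ∀ (x : Word) (p q : Piece) (y : Word), p.index + p.ins ≤ q.index →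
    Closed (x ++ [p, q.moved (q.index + p.outs - p.ins)] ++ y) → Closed (x ++ [q, p] ++ y) →
    crs (x ++ [q, p] ++ y) = n0 →
    (Γ (x ++ [p, q.moved (q.index + p.outs - p.ins)] ++ y) ↔ Γ (x ++ [q, p] ++ y))
  zig1 : ∀ x i y, Closed (x ++ [birth i, death (i + 1)] ++ y) → Closed (x ++ [] ++ y) →
    crs (x ++ [] ++ y) = n0 → (Γ (x ++ [birth i, death (i + 1)] ++ y) ↔ Γ (x ++ [] ++ y))
  zig2 : ∀ x i y, Closed (x ++ [birth (i + 1), death i] ++ y) → Closed (x ++ [] ++ y) →
    crs (x ++ [] ++ y) = n0 → (Γ (x ++ [birth (i + 1), death i] ++ y) ↔ Γ (x ++ [] ++ y))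
  sb : ∀ x i y, Closed (x ++ [birth i, pos (i + 1)] ++ y) → Closed (x ++ [birth (i + 1), pos i] ++ y) →
    crs (x ++ [birth (i + 1), pos i] ++ y) = n0 →
    (Γ (x ++ [birth i, pos (i + 1)] ++ y) ↔ Γ (x ++ [birth (i + 1), pos i] ++ y))
  sd : ∀ x i y, Closed (x ++ [pos (i + 1), death i] ++ y) → Closed (x ++ [pos i, death (i + 1)] ++ y) →
    crs (x ++ [pos i, death (i + 1)] ++ y) = n0 →
    (Γ (x ++ [pos (i + 1), death i] ++ y) ↔ Γ (x ++ [pos i, death (i + 1)] ++ y))
  third : ∀ x i y, Closed (x ++ [pos i, pos (i + 1), pos i] ++ y) →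
    Closed (x ++ [pos (i + 1), pos i, pos (i + 1)] ++ y) →
    crs (x ++ [pos (i + 1), pos i, pos (i + 1)] ++ y) = n0 →
    (Γ (x ++ [pos i, pos (i + 1), pos i] ++ y) ↔ Γ (x ++ [pos (i + 1), pos i, pos (i + 1)] ++ y))
  sq : ∀ x i y, Closed (x ++ [pos i, pos i] ++ y) → crs (x ++ [pos i, pos i] ++ y) = n0 →
    Γ (x ++ [pos i, pos i] ++ y)
  kb : ∀ x i y, Closed (x ++ [birth i, pos i] ++ y) → crs (x ++ [birth i, pos i] ++ y) = n0 →
    Γ (x ++ [birth i, pos i] ++ y)
  kd : ∀ x i y, Closed (x ++ [pos i, death i] ++ y) → crs (x ++ [pos i, death i] ++ y) = n0 →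
    Γ (x ++ [pos i, death i] ++ y)
  circ : ∀ x i y, Closed (x ++ y) → Closed (x ++ [birth i, death i] ++ y) → crs (x ++ y) = n0 →
    Γ (x ++ y) → Γ (x ++ [birth i, death i] ++ y)
  nil : n0 = 0 → Γ []

variable {n0 : ℕ} {Γ : Word → Prop}

/-- `l` and `r` can be exchanged -/
def S (n0 : ℕ) (Γ : Word → Prop) (n : ℕ) (l r : Word) : Prop :=
  (∃ m, width l n = some m ∧ width r n = some m) ∧ crs l = crs r ∧
    ∀ x y, width x 0 = some n → Closed (x ++ l ++ y) → Closed (x ++ r ++ y) →
      crs (x ++ r ++ y) = n0 → (Γ (x ++ l ++ y) ↔ Γ (x ++ r ++ y))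

/-- `l` is zero -/
def Z (n0 : ℕ) (Γ : Word → Prop) (n : ℕ) (l : Word) : Prop :=
  ∀ x y, width x 0 = some n → Closed (x ++ l ++ y) → crs (x ++ l ++ y) = n0 → Γ (x ++ l ++ y)

theorem closed_of {n : ℕ} {l r x y : Word}
    (h : ∃ m, width l n = some m ∧ width r n = some m)
    (hx : width x 0 = some n) (hc : Closed (x ++ l ++ y)) : Closed (x ++ r ++ y) := by
  obtain ⟨m, h1, h2⟩ := h
  unfold Closed at *
  rw [width_append, width_append, hx, Option.bind_some, h1] at hc
  rw [width_append, width_append, hx, Option.bind_some, h2]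
  exact hc

theorem S.refl {n m : ℕ} {l : Word} (h : width l n = some m) : S n0 Γ n l l :=
  ⟨⟨m, h, h⟩, rfl, fun _ _ _ _ _ _ => Iff.rfl⟩

theorem S.symm {n : ℕ} {l r : Word} (h : S n0 Γ n l r) : S n0 Γ n r l := by
  obtain ⟨⟨m, h1, h2⟩, hc, h3⟩ := h
  refine ⟨⟨m, h2, h1⟩, hc.symm, fun x y hx hl hr hn => (h3 x y hx hr hl ?_).symm⟩
  rw [crs_append, crs_append] at hn ⊢
  omega

theorem S.trans {n : ℕ} {l r s : Word} (h : S n0 Γ n l r) (h' : S n0 Γ n r s) : S n0 Γ n l s := by
  obtain ⟨⟨m, h1, h2⟩, hc, h3⟩ := h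
  obtain ⟨⟨m', h1', h2'⟩, hc', h3'⟩ := h'
  have : m' = m := by rw [h2] at h1'; exact (Option.some.inj h1').symm
  subst this
  refine ⟨⟨m', h1, h2'⟩, hc.trans hc', fun x y hx hl hs hn => ?_⟩
  have hr : Closed (x ++ r ++ y) := closed_of ⟨m', h1, h2⟩ hx hl
  refine (h3 x y hx hl hr ?_).trans (h3' x y hx hr hs hn)
  rw [crs_append, crs_append] at hn ⊢
  omega

theorem S.cong {n m : ℕ} {l r : Word} (u v : Word) (h : S n0 Γ n l r) (hu : width u m = some n)
    (hv : ∃ k, width (u ++ l ++ v) m = some k) : S n0 Γ m (u ++ l ++ v) (u ++ r ++ v) := by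
  obtain ⟨⟨m', h1, h2⟩, hc, h3⟩ := h
  obtain ⟨k, hk⟩ := hv
  refine ⟨⟨k, hk, ?_⟩, ?_, fun x y hx hl hr hn => ?_⟩
  · rw [width_append, width_append, hu, Option.bind_some, h1] at hk
    rw [width_append, width_append, hu, Option.bind_some, h2]
    exact hk
  · simp only [crs_append]; omega
  · have hxu : width (x ++ u) 0 = some n := by rw [width_append, hx, Option.bind_some, hu]
    have := h3 (x ++ u) (v ++ y) hxu (by simpa only [List.append_assoc] using hl)
      (by simpa only [List.append_assoc] using hr) (by simpa only [List.append_assoc] using hn)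
    simpa only [List.append_assoc] using this

theorem S.left {n m : ℕ} {l r : Word} (u : Word) (h : S n0 Γ n l r) (hu : width u m = some n) :
    S n0 Γ m (u ++ l) (u ++ r) := by
  have := S.cong u [] h hu (by
    obtain ⟨⟨m', h1, h2⟩, _, _⟩ := h
    exact ⟨m', by rw [List.append_nil, width_append, hu, Option.bind_some, h1]⟩)
  simpa only [List.append_nil] using this

theorem S.right {n : ℕ} {l r : Word} (v : Word) (h : S n0 Γ n l r)
    (hv : ∃ k, width (l ++ v) n = some k) : S n0 Γ n (l ++ v) (r ++ v) := by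
  have := S.cong [] v h (m := n) rfl (by simpa using hv)
  simpa using this

theorem Z.cong {n m : ℕ} {l : Word} (u v : Word) (h : Z n0 Γ n l) (hu : width u m = some n) :
    Z n0 Γ m (u ++ l ++ v) := by
  intro x y hx hc hn
  have hxu : width (x ++ u) 0 = some n := by rw [width_append, hx, Option.bind_some, hu]
  have := h (x ++ u) (v ++ y) hxu (by simpa only [List.append_assoc] using hc)
    (by simpa only [List.append_assoc] using hn)
  simpa only [List.append_assoc] using this

theorem Z.left {n m : ℕ} {l : Word} (u : Word) (h : Z n0 Γ n l) (hu : width u m = some n) :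
    Z n0 Γ m (u ++ l) := by
  simpa using h.cong u [] hu

theorem Z.right {n : ℕ} {l : Word} (v : Word) (h : Z n0 Γ n l) : Z n0 Γ n (l ++ v) := by
  simpa using h.cong [] v (m := n) rfl

theorem Z.of_S {n : ℕ} {l r : Word} (h : S n0 Γ n l r) (hz : Z n0 Γ n r) : Z n0 Γ n l := by
  intro x y hx hc hn
  have hr := closed_of h.1 hx hc
  have hn' : crs (x ++ r ++ y) = n0 := by
    have := h.2.1
    rw [crs_append, crs_append] at hn ⊢
    omega
  exact (h.2.2 x y hx hc hr hn').2 (hz x y hx hr hn')

/-! ### chains -/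

/-- the crossings `i, i+1, ..., i+e-1` -/
def ch : ℕ → ℕ → Word
  | _, 0 => []
  | i, e + 1 => pos i :: ch (i + 1) e

theorem ch_succ (i e : ℕ) : ch i (e + 1) = ch i e ++ [pos (i + e)] := by
  induction e generalizing i with
  | zero => simp [ch]
  | succ e ih =>
    rw [ch, ih (i + 1)]
    have ee : i + 1 + e = i + (e + 1) := by omega
    simp only [ch, ee, List.cons_append]

theorem w_ch {n i e : ℕ} (y : Word) (h : e = 0 ∨ i + e + 1 ≤ n) :
    width (ch i e ++ y) n = width y n := by
  induction e generalizing i with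
  | zero => rfl
  | succ e ih =>
    rw [ch, List.cons_append, w_pos _ (by omega), ih (by omega)]

theorem w_ch' {n i e : ℕ} (h : e = 0 ∨ i + e + 1 ≤ n) : width (ch i e) n = some n := by
  have := w_ch (n := n) (i := i) (e := e) [] h
  simpa [w_nil] using this

theorem crs_ch (i e : ℕ) : crs (ch i e) = e := by
  induction e generalizing i with
  | zero => rfl
  | succ e ih => rw [ch]; simp [crs, ih]

section moves

variable (H : Shd n0 Γ)

include H

theorem s_xx {n i j : ℕ} (h : i + 2 ≤ j) (h' : j + 2 ≤ n) :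
    S n0 Γ n [pos i, pos j] [pos j, pos i] := by
  refine ⟨⟨n, ?_, ?_⟩, rfl, fun x y hx hl hr hn => ?_⟩
  · rw [w_pos _ (by omega), w_pos _ (by omega), w_nil]
  · rw [w_pos _ (by omega), w_pos _ (by omega), w_nil]
  · have := H.exch x (pos i) (pos j) y (by simp [Piece.index, Piece.ins]; omega)
    simp only [Piece.index, Piece.ins, Piece.outs, Piece.moved, Nat.add_sub_cancel] at this
    exact this hl hr hn

theorem s_bx {n i j : ℕ} (h : i ≤ j) (h' : j + 2 ≤ n) :
    S n0 Γ n [birth i, pos (j + 2)] [pos j, birth i] := by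
  refine ⟨⟨n + 2, ?_, ?_⟩, rfl, fun x y hx hl hr hn => ?_⟩
  · rw [w_birth _ (by omega), w_pos _ (by omega), w_nil]
  · rw [w_pos _ (by omega), w_birth _ (by omega), w_nil]
  · have := H.exch x (birth i) (pos j) y (by simp [Piece.index, Piece.ins]; omega)
    simp only [Piece.index, Piece.ins, Piece.outs, Piece.moved, Nat.sub_zero] at this
    exact this hl hr hn

theorem s_xb {n i j : ℕ} (h : i + 2 ≤ j) (h' : j ≤ n) :
    S n0 Γ n [pos i, birth j] [birth j, pos i] := by
  refine ⟨⟨n + 2, ?_, ?_⟩, rfl, fun x y hx hl hr hn => ?_⟩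
  · rw [w_pos _ (by omega), w_birth _ (by omega), w_nil]
  · rw [w_birth _ (by omega), w_pos _ (by omega), w_nil]
  · have := H.exch x (pos i) (birth j) y (by simp [Piece.index, Piece.ins]; omega)
    simp only [Piece.index, Piece.ins, Piece.outs, Piece.moved, Nat.add_sub_cancel] at this
    exact this hl hr hn

theorem s_bb {n i j : ℕ} (h : i ≤ j) (h' : j ≤ n) :
    S n0 Γ n [birth i, birth (j + 2)] [birth j, birth i] := by
  refine ⟨⟨n + 2 + 2, ?_, ?_⟩, rfl, fun x y hx hl hr hn => ?_⟩
  · rw [w_birth _ (by omega), w_birth _ (by omega), w_nil]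
  · rw [w_birth _ (by omega), w_birth _ (by omega), w_nil]
  · have := H.exch x (birth i) (birth j) y (by simp [Piece.index, Piece.ins]; omega)
    simp only [Piece.index, Piece.ins, Piece.outs, Piece.moved, Nat.sub_zero] at this
    exact this hl hr hn

theorem s_xd {n i j : ℕ} (h : i + 2 ≤ j) (h' : j + 2 ≤ n) :
    S n0 Γ n [pos i, death j] [death j, pos i] := by
  refine ⟨⟨n - 2, ?_, ?_⟩, rfl, fun x y hx hl hr hn => ?_⟩
  · rw [w_pos _ (by omega), w_death _ (by omega), w_nil]
  · rw [w_death _ (by omega), w_pos _ (by omega), w_nil]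
  · have := H.exch x (pos i) (death j) y (by simp [Piece.index, Piece.ins]; omega)
    simp only [Piece.index, Piece.ins, Piece.outs, Piece.moved, Nat.add_sub_cancel] at this
    exact this hl hr hn

theorem s_dx {n i j : ℕ} (h : i ≤ j) (h' : j + 4 ≤ n) :
    S n0 Γ n [death i, pos j] [pos (j + 2), death i] := by
  refine ⟨⟨n - 2, ?_, ?_⟩, rfl, fun x y hx hl hr hn => ?_⟩
  · rw [w_death _ (by omega), w_pos _ (by omega), w_nil]
  · rw [w_pos _ (by omega), w_death _ (by omega), w_nil]
  · have := H.exch x (death i) (pos (j + 2)) y (by simp [Piece.index, Piece.ins]; omega)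
    simp only [Piece.index, Piece.ins, Piece.outs, Piece.moved, Nat.add_zero,
      Nat.add_sub_cancel] at this
    exact this hl hr hn

theorem s_bd {n i j : ℕ} (h : i ≤ j) (h' : j + 2 ≤ n) :
    S n0 Γ n [birth i, death (j + 2)] [death j, birth i] := by
  refine ⟨⟨n, ?_, ?_⟩, rfl, fun x y hx hl hr hn => ?_⟩
  · rw [w_birth _ (by omega), w_death _ (by omega), w_nil]; congr 1
  · rw [w_death _ (by omega), w_birth _ (by omega), w_nil]; congr 1; omega
  · have := H.exch x (birth i) (death j) y (by simp [Piece.index, Piece.ins]; omega)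
    simp only [Piece.index, Piece.ins, Piece.outs, Piece.moved, Nat.sub_zero] at this
    exact this hl hr hn

theorem s_db {n i j : ℕ} (h : i ≤ j) (h' : j + 2 ≤ n) :
    S n0 Γ n [death i, birth j] [birth (j + 2), death i] := by
  refine ⟨⟨n, ?_, ?_⟩, rfl, fun x y hx hl hr hn => ?_⟩
  · rw [w_death _ (by omega), w_birth _ (by omega), w_nil]; congr 1; omega
  · rw [w_birth _ (by omega), w_death _ (by omega), w_nil]; congr 1
  · have := H.exch x (death i) (birth (j + 2)) y (by simp [Piece.index, Piece.ins]; omega)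
    simp only [Piece.index, Piece.ins, Piece.outs, Piece.moved, Nat.add_zero,
      Nat.add_sub_cancel] at this
    exact this hl hr hn

theorem s_dd {n i j : ℕ} (h : i ≤ j) (h' : j + 4 ≤ n) :
    S n0 Γ n [death i, death j] [death (j + 2), death i] := by
  refine ⟨⟨n - 2 - 2, ?_, ?_⟩, rfl, fun x y hx hl hr hn => ?_⟩
  · rw [w_death _ (by omega), w_death _ (by omega), w_nil]
  · rw [w_death _ (by omega), w_death _ (by omega), w_nil]
  · have := H.exch x (death i) (death (j + 2)) y (by simp [Piece.index, Piece.ins]; omega)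
    simp only [Piece.index, Piece.ins, Piece.outs, Piece.moved, Nat.add_zero,
      Nat.add_sub_cancel] at this
    exact this hl hr hn

theorem s_sb {n i : ℕ} (h : i < n) : S n0 Γ n [birth i, pos (i + 1)] [birth (i + 1), pos i] := by
  refine ⟨⟨n + 2, ?_, ?_⟩, rfl, fun x y hx hl hr hn => H.sb x i y hl hr hn⟩
  · rw [w_birth _ (by omega), w_pos _ (by omega), w_nil]
  · rw [w_birth _ (by omega), w_pos _ (by omega), w_nil]

theorem s_sd {n i : ℕ} (h : i + 3 ≤ n) :
    S n0 Γ n [pos (i + 1), death i] [pos i, death (i + 1)] := by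
  refine ⟨⟨n - 2, ?_, ?_⟩, rfl, fun x y hx hl hr hn => H.sd x i y hl hr hn⟩
  · rw [w_pos _ (by omega), w_death _ (by omega), w_nil]
  · rw [w_pos _ (by omega), w_death _ (by omega), w_nil]

theorem s_th {n i : ℕ} (h : i + 3 ≤ n) :
    S n0 Γ n [pos i, pos (i + 1), pos i] [pos (i + 1), pos i, pos (i + 1)] := by
  refine ⟨⟨n, ?_, ?_⟩, rfl, fun x y hx hl hr hn => H.third x i y hl hr hn⟩
  · rw [w_pos _ (by omega), w_pos _ (by omega), w_pos _ (by omega), w_nil]
  · rw [w_pos _ (by omega), w_pos _ (by omega), w_pos _ (by omega), w_nil]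

theorem s_z1 {n i : ℕ} (h : i < n) : S n0 Γ n [birth i, death (i + 1)] [] := by
  refine ⟨⟨n, ?_, rfl⟩, rfl, fun x y hx hl hr hn => H.zig1 x i y hl hr hn⟩
  rw [w_birth _ (by omega), w_death _ (by omega), w_nil]; congr 1

theorem s_z2 {n i : ℕ} (h : i < n) : S n0 Γ n [birth (i + 1), death i] [] := by
  refine ⟨⟨n, ?_, rfl⟩, rfl, fun x y hx hl hr hn => H.zig2 x i y hl hr hn⟩
  rw [w_birth _ (by omega), w_death _ (by omega), w_nil]; congr 1

theorem z_sq {n i : ℕ} : Z n0 Γ n [pos i, pos i] := fun x y _ hc hn => H.sq x i y hc hn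

theorem z_kb {n i : ℕ} : Z n0 Γ n [birth i, pos i] := fun x y _ hc hn => H.kb x i y hc hn

theorem z_kd {n i : ℕ} : Z n0 Γ n [pos i, death i] := fun x y _ hc hn => H.kd x i y hc hn

/-! ### moving things through chains -/

/-- a crossing far on the left -/
theorem ch_left {n i e j : ℕ} (h : j + 2 ≤ i) (h1 : e = 0 ∨ i + e + 1 ≤ n) (h2 : j + 2 ≤ n) :
    S n0 Γ n (ch i e ++ [pos j]) ([pos j] ++ ch i e) := by
  induction e with
  | zero => exact S.refl (m := n) (by rw [ch, List.nil_append, w_pos _ h2, w_nil])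
  | succ e ih =>
    rw [ch_succ]
    have e1 := (s_xx H (n := n) (i := j) (j := i + e) (by omega) (by omega)).symm.left
      (m := n) (ch i e) (w_ch' (by omega))
    have e2 := (ih (by omega)).right [pos (i + e)] ⟨n, by
      rw [List.append_assoc, w_ch _ (by omega), List.cons_append, List.nil_append,
        w_pos _ (by omega), w_pos _ (by omega), w_nil]⟩
    simp only [List.append_assoc, List.cons_append, List.nil_append] at e1 e2 ⊢
    exact e1.trans e2

/-- a crossing far on the right -/
theorem ch_right {n i e j : ℕ} (h : i + e + 1 ≤ j) (h2 : j + 2 ≤ n) :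
    S n0 Γ n (ch i e ++ [pos j]) ([pos j] ++ ch i e) := by
  induction e with
  | zero => exact S.refl (m := n) (by rw [ch, List.nil_append, w_pos _ h2, w_nil])
  | succ e ih =>
    rw [ch_succ]
    have e1 := (s_xx H (n := n) (i := i + e) (j := j) (by omega) (by omega)).left
      (m := n) (ch i e) (w_ch' (by omega))
    have e2 := (ih (by omega)).right [pos (i + e)] ⟨n, by
      rw [List.append_assoc, w_ch _ (by omega), List.cons_append, List.nil_append,
        w_pos _ (by omega), w_pos _ (by omega), w_nil]⟩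
    simp only [List.append_assoc, List.cons_append, List.nil_append] at e1 e2 ⊢
    exact e1.trans e2

/-- a crossing in the middle -/
theorem ch_mid {n i e j : ℕ} (h : i ≤ j) (h1 : j + 2 ≤ i + e) (h2 : i + e + 1 ≤ n) :
    S n0 Γ n (ch i e ++ [pos j]) ([pos (j + 1)] ++ ch i e) := by
  induction e with
  | zero => omega
  | succ e ih =>
    by_cases hj : j + 2 ≤ i + e
    · rw [ch_succ]
      have e1 := (s_xx H (n := n) (i := j) (j := i + e) (by omega) (by omega)).symm.left
        (m := n) (ch i e) (w_ch' (by omega))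
      have e2 := (ih hj (by omega)).right [pos (i + e)] ⟨n, by
        rw [List.append_assoc, w_ch _ (by omega), List.cons_append, List.nil_append,
          w_pos _ (by omega), w_pos _ (by omega), w_nil]⟩
      simp only [List.append_assoc, List.cons_append, List.nil_append] at e1 e2 ⊢
      exact e1.trans e2
    · -- `j = i + e - 1`
      obtain ⟨e', rfl⟩ : ∃ e', e = e' + 1 := ⟨e - 1, by omega⟩
      obtain rfl : j = i + e' := by omega
      rw [ch_succ, ch_succ]
      have e1 := (s_th H (n := n) (i := i + e') (by omega)).left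
        (m := n) (ch i e') (w_ch' (by omega))
      have e2 := (ch_right H (n := n) (i := i) (e := e') (j := i + e' + 1) (by omega)
        (by omega)).right [pos (i + e'), pos (i + e' + 1)] ⟨n, by
        rw [List.append_assoc, w_ch _ (by omega), List.cons_append, List.nil_append,
          w_pos _ (by omega), w_pos _ (by omega), w_pos _ (by omega), w_nil]⟩
      have ee : i + (e' + 1) = i + e' + 1 := by omega
      simp only [List.append_assoc, List.cons_append, List.nil_append, ee] at e1 e2 ⊢
      exact e1.trans e2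

/-- the last crossing again -/
theorem ch_sq {n i e : ℕ} (h : i + e + 2 ≤ n) : Z n0 Γ n (ch i (e + 1) ++ [pos (i + e)]) := by
  rw [ch_succ]
  have := (z_sq H (n := n) (i := i + e)).left (m := n) (ch i e) (w_ch' (by omega))
  simpa using this

/-- a birth on the left -/
theorem ch_b {n i e p : ℕ} (h : p ≤ i) (h1 : e = 0 ∨ i + e + 1 ≤ n) (h2 : p ≤ n) :
    S n0 Γ n (ch i e ++ [birth p]) ([birth p] ++ ch (i + 2) e) := by
  induction e with
  | zero => exact S.refl (m := n + 2) (by rw [ch, List.nil_append, w_birth _ h2, w_nil])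
  | succ e ih =>
    rw [ch_succ, ch_succ]
    have e1 := (s_bx H (n := n) (i := p) (j := i + e) (by omega) (by omega)).symm.left
      (m := n) (ch i e) (w_ch' (by omega))
    have e2 := (ih (by omega)).right [pos (i + e + 2)] ⟨n + 2, by
      rw [List.append_assoc, w_ch _ (by omega), List.cons_append, List.nil_append,
        w_birth _ (by omega), w_pos _ (by omega), w_nil]⟩
    have ee : i + 2 + e = i + e + 2 := by omega
    simp only [List.append_assoc, List.cons_append, List.nil_append, ee] at e1 e2 ⊢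
    exact e1.trans e2

/-- a birth in front of a chain on its right -/
theorem b_ch {n i e p : ℕ} (h : p ≤ i) (h1 : e = 0 ∨ i + e + 1 ≤ n) (h2 : p ≤ n) :
    S n0 Γ n ([birth p] ++ ch (i + 2) e) (ch i e ++ [birth p]) := (ch_b H h h1 h2).symm

/-- a death on the left -/
theorem ch_d {n i e p : ℕ} (h : p ≤ i) (h1 : e = 0 ∨ i + e + 3 ≤ n) (h2 : p + 2 ≤ n) :
    S n0 Γ n (ch (i + 2) e ++ [death p]) ([death p] ++ ch i e) := by
  induction e with
  | zero => exact S.refl (m := n - 2) (by rw [ch, List.nil_append, w_death _ h2, w_nil])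
  | succ e ih =>
    rw [ch_succ, ch_succ]
    have e1 := (s_dx H (n := n) (i := p) (j := i + e) (by omega) (by omega)).symm.left
      (m := n) (ch (i + 2) e) (w_ch' (by omega))
    have e2 := (ih (by omega)).right [pos (i + e)] ⟨n - 2, by
      rw [List.append_assoc, w_ch _ (by omega), List.cons_append, List.nil_append,
        w_death _ (by omega), w_pos _ (by omega), w_nil]⟩
    have ee : i + 2 + e = i + e + 2 := by omega
    simp only [List.append_assoc, List.cons_append, List.nil_append, ee] at e1 e2 ⊢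
    exact e1.trans e2

/-- a death far on the right -/
theorem ch_dr {n i e p : ℕ} (h : i + e + 1 ≤ p) (h2 : p + 2 ≤ n) :
    S n0 Γ n (ch i e ++ [death p]) ([death p] ++ ch i e) := by
  induction e with
  | zero => exact S.refl (m := n - 2) (by rw [ch, List.nil_append, w_death _ h2, w_nil])
  | succ e ih =>
    rw [ch_succ]
    have e1 := (s_xd H (n := n) (i := i + e) (j := p) (by omega) (by omega)).left
      (m := n) (ch i e) (w_ch' (by omega))
    have e2 := (ih (by omega)).right [pos (i + e)] ⟨n - 2, by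
      rw [List.append_assoc, w_ch _ (by omega), List.cons_append, List.nil_append,
        w_death _ (by omega), w_pos _ (by omega), w_nil]⟩
    simp only [List.append_assoc, List.cons_append, List.nil_append] at e1 e2 ⊢
    exact e1.trans e2

/-- a death in the middle of a chain -/
theorem ch_dz {n i e j : ℕ} (h : i ≤ j) (h1 : j + 2 ≤ i + e) (h2 : i + e + 1 ≤ n) :
    Z n0 Γ n (ch i e ++ [death j]) := by
  induction e with
  | zero => omega
  | succ e ih =>
    by_cases hj : j + 2 ≤ i + e
    · rw [ch_succ]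
      obtain ⟨k, hk⟩ : ∃ k, i + e = k + 2 := ⟨i + e - 2, by omega⟩
      have e1 := (s_dx H (n := n) (i := j) (j := k) (by omega) (by omega)).symm.left
        (m := n) (ch i e) (w_ch' (by omega))
      have e2 := (ih hj (by omega)).right [pos k]
      rw [hk]
      simp only [List.append_assoc, List.cons_append, List.nil_append] at e1 e2 ⊢
      exact Z.of_S e1 e2
    · obtain ⟨e', rfl⟩ : ∃ e', e = e' + 1 := ⟨e - 1, by omega⟩
      obtain rfl : j = i + e' := by omega
      rw [ch_succ, ch_succ]
      have e1 := (s_sd H (n := n) (i := i + e') (by omega)).left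
        (m := n) (ch i e' ++ [pos (i + e')]) (by
          rw [w_ch _ (by omega), w_pos _ (by omega), w_nil])
      have e2 := (z_sq H (n := n) (i := i + e')).cong (m := n) (ch i e') [death (i + e' + 1)]
        (w_ch' (by omega))
      have ee : i + (e' + 1) = i + e' + 1 := by omega
      simp only [List.append_assoc, List.cons_append, List.nil_append, ee] at e1 e2 ⊢
      exact Z.of_S e1 e2

/-- chains through each other -/
theorem ch_ch {n i a e : ℕ} (h : e + 1 ≤ a) (h2 : i + a + 1 ≤ n) :
    S n0 Γ n (ch i a ++ ch i e) (ch (i + 1) e ++ ch i a) := by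
  induction e with
  | zero =>
    have h := S.refl (n0 := n0) (Γ := Γ) (n := n) (m := n) (l := ch i a) (w_ch' (by omega))
    have e1 : ch i a ++ ch i 0 = ch i a := by simp [ch]
    have e2 : ch (i + 1) 0 ++ ch i a = ch i a := by simp [ch]
    rw [e1, e2]
    exact h
  | succ e ih =>
    rw [ch_succ i e, ch_succ (i + 1) e]
    have e1 := (ih (by omega)).right [pos (i + e)] ⟨n, by
      rw [List.append_assoc, w_ch _ (by omega), w_ch _ (by omega), w_pos _ (by omega), w_nil]⟩
    have e2 := (ch_mid H (n := n) (i := i) (e := a) (j := i + e) (by omega) (by omega) h2).left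
      (m := n) (ch (i + 1) e) (w_ch' (by omega))
    have ee : i + 1 + e = i + e + 1 := by omega
    simp only [List.append_assoc, List.cons_append, List.nil_append, ee] at e1 e2 ⊢
    exact e1.trans e2

theorem ch_chz {n i a e : ℕ} (h : a ≤ e) (ha : 1 ≤ a) (h2 : i + e + 1 ≤ n) :
    Z n0 Γ n (ch i a ++ ch i e) := by
  obtain ⟨a, rfl⟩ : ∃ a', a = a' + 1 := ⟨a - 1, by omega⟩
  induction e with
  | zero => omega
  | succ e ih =>
    by_cases he : a + 1 ≤ e
    · rw [ch_succ i e]
      have := (ih (by omega) he).right [pos (i + e)]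
      simpa using this
    · obtain rfl : a = e := by omega
      -- `ch i (a+1) ++ ch i a ++ [pos (i+a)]`
      have e1 := (ch_ch H (n := n) (i := i) (a := a + 1) (e := a) (by omega) (by omega)).right
        [pos (i + a)] ⟨n, by
          rw [List.append_assoc, w_ch _ (by omega), w_ch _ (by omega), w_pos _ (by omega), w_nil]⟩
      have e2 := (ch_sq H (n := n) (i := i) (e := a) (by omega)).left (m := n) (ch (i + 1) a)
        (w_ch' (by omega))
      have e3 : ch i (a + 1) ++ ch i (a + 1) = ch i (a + 1) ++ ch i a ++ [pos (i + a)] := by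
        conv_lhs => rw [ch_succ i a]
        rw [← ch_succ i a]
        simp [ch_succ]
      rw [e3]
      refine Z.of_S e1 ?_
      simpa using e2

end moves

end Run7.h112
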