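import Pool.Agent.Run7.h112.NB

/-!
# The shadow calculus: normal forms
-/

set_option autoImplicit false
set_option linter.unusedSimpArgs false
set_option linter.unusedVariables false

namespace Run7.h112

open Pool.Agent.Helper454.Kauf
open Pool.Agent.Helper454.Kauf.Piece (birth death pos neg)
open Pool.Agent.Helper82_Alt (crs cx w_birth w_death w_cx w_nil width_append)

variable {n0 : ℕ} {Γ : Word → Prop}

/-- a new arc whose left end is the strand `k` and which crosses `e` strands -/
def U (k e : ℕ) : Word := birth k :: ch (k + 1) e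

theorem w_U {n k e : ℕ} (y : Word) (h : k + e ≤ n) : width (U k e ++ y) n = width y (n + 2) := by
  rw [U, List.cons_append, w_birth _ (by omega), w_ch _ (by omega)]

theorem w_U' {n k e : ℕ} (h : k + e ≤ n) : width (U k e) n = some (n + 2) := by
  have := w_U (n := n) (k := k) (e := e) [] h
  simpa [w_nil] using this

theorem crs_U (k e : ℕ) : crs (U k e) = e := by rw [U]; simp [crs, crs_ch]

theorem U_ext (k e : ℕ) : U k e ++ [pos (k + e + 1)] = U k (e + 1) := by
  rw [U, U, ch_succ]
  have : k + 1 + e = k + e + 1 := by omega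
  rw [this]
  rfl

/-- the crossings `i+e-1, ..., i` -/
def rch : ℕ → ℕ → Word
  | _, 0 => []
  | i, e + 1 => pos (i + e) :: rch i e

theorem w_rch {n i e : ℕ} (y : Word) (h : e = 0 ∨ i + e + 1 ≤ n) :
    width (rch i e ++ y) n = width y n := by
  induction e with
  | zero => rfl
  | succ e ih =>
    rw [rch, List.cons_append, w_pos _ (by omega), ih (by omega)]

section moves

variable (H : Shd n0 Γ)

include H

theorem U_left {n k e j : ℕ} (h : j + 2 ≤ k) (h1 : k + e ≤ n) :
    S n0 Γ n (U k e ++ [pos j]) ([pos j] ++ U k e) := by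
  have e1 := (ch_left H (n := n + 2) (i := k + 1) (e := e) (j := j) (by omega) (by omega)
    (by omega)).left (m := n) [birth k] (by rw [w_birth _ (by omega), w_nil])
  have e2 := (s_xb H (n := n) (i := j) (j := k) h (by omega)).symm.right (ch (k + 1) e)
    ⟨n + 2, by simp only [List.cons_append, List.nil_append]
               rw [w_birth _ (by omega), w_pos _ (by omega), w_ch' (by omega)]⟩
  simp only [U, List.append_assoc, List.cons_append, List.nil_append] at e1 e2 ⊢
  exact e1.trans e2

theorem U_next {n j e : ℕ} (h1 : j + 1 + e ≤ n) :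
    S n0 Γ n (U (j + 1) e ++ [pos j]) (U j (e + 1)) := by
  have e1 := (ch_left H (n := n + 2) (i := j + 2) (e := e) (j := j) (by omega) (by omega)
    (by omega)).left (m := n) [birth (j + 1)] (by rw [w_birth _ (by omega), w_nil])
  have e2 := (s_sb H (n := n) (i := j) (by omega)).symm.right (ch (j + 2) e)
    ⟨n + 2, by simp only [List.cons_append, List.nil_append]
               rw [w_birth _ (by omega), w_pos _ (by omega), w_ch' (by omega)]⟩
  simp only [U, ch, List.append_assoc, List.cons_append, List.nil_append] at e1 e2 ⊢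
  exact e1.trans e2

theorem U_self {n k e : ℕ} (h1 : k + e ≤ n) : Z n0 Γ n (U k e ++ [pos k]) := by
  cases e with
  | zero => exact z_kb H
  | succ e =>
    -- `birth k, pos (k+1), ch (k+2) e, pos k`
    have e1 := (ch_left H (n := n + 2) (i := k + 2) (e := e) (j := k) (by omega) (by omega)
      (by omega)).left (m := n) [birth k, pos (k + 1)] (by
        rw [w_birth _ (by omega), w_pos _ (by omega), w_nil])
    have e2 := (s_sb H (n := n) (i := k) (by omega)).right (pos k :: ch (k + 2) e)
      ⟨n + 2, by simp only [List.cons_append, List.nil_append]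
                 rw [w_birth _ (by omega), w_pos _ (by omega), w_pos _ (by omega),
                  w_ch' (by omega)]⟩
    have e3 := (z_sq H (n := n + 2) (i := k)).cong (m := n) [birth (k + 1)] (ch (k + 2) e) (by
      rw [w_birth _ (by omega), w_nil])
    simp only [U, ch, List.append_assoc, List.cons_append, List.nil_append] at e1 e2 e3 ⊢
    exact Z.of_S e1 (Z.of_S e2 e3)

theorem U_mid {n k e j : ℕ} (h : k ≤ j) (h1 : j + 2 ≤ k + e) (h2 : k + e ≤ n) :
    S n0 Γ n (U k e ++ [pos (j + 1)]) ([pos j] ++ U k e) := by
  have e1 := (ch_mid H (n := n + 2) (i := k + 1) (e := e) (j := j + 1) (by omega) (by omega)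
    (by omega)).left (m := n) [birth k] (by rw [w_birth _ (by omega), w_nil])
  have e2 := (s_bx H (n := n) (i := k) (j := j) h (by omega)).right (ch (k + 1) e)
    ⟨n + 2, by simp only [List.cons_append, List.nil_append]
               rw [w_birth _ (by omega), w_pos _ (by omega), w_ch' (by omega)]⟩
  simp only [U, List.append_assoc, List.cons_append, List.nil_append] at e1 e2 ⊢
  exact e1.trans e2

theorem U_end {n k e : ℕ} (h2 : k + e + 1 ≤ n) : Z n0 Γ n (U k (e + 1) ++ [pos (k + e + 1)]) := by
  have e1 := (ch_sq H (n := n + 2) (i := k + 1) (e := e) (by omega)).left (m := n) [birth k] (by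
    rw [w_birth _ (by omega), w_nil])
  have ee : k + 1 + e = k + e + 1 := by omega
  simp only [U, List.append_assoc, List.cons_append, List.nil_append, ee] at e1 ⊢
  exact e1

theorem U_right {n k e j : ℕ} (h : k + e ≤ j) (h2 : j + 2 ≤ n) :
    S n0 Γ n (U k e ++ [pos (j + 2)]) ([pos j] ++ U k e) := by
  have e1 := (ch_right H (n := n + 2) (i := k + 1) (e := e) (j := j + 2) (by omega)
    (by omega)).left (m := n) [birth k] (by rw [w_birth _ (by omega), w_nil])
  have e2 := (s_bx H (n := n) (i := k) (j := j) (by omega) (by omega)).right (ch (k + 1) e)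
    ⟨n + 2, by simp only [List.cons_append, List.nil_append]
               rw [w_birth _ (by omega), w_pos _ (by omega), w_ch' (by omega)]⟩
  simp only [U, List.append_assoc, List.cons_append, List.nil_append] at e1 e2 ⊢
  exact e1.trans e2

/-- nested births: the crossings on the left and on the right are equal -/
theorem nest {n k : ℕ} (h : k ≤ n) :
    S n0 Γ n [birth k, birth (k + 1), pos k] [birth k, birth (k + 1), pos (k + 2)] := by
  have e1 := (s_sb H (n := n + 2) (i := k) (by omega)).symm.left (m := n) [birth k] (by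
    rw [w_birth _ (by omega), w_nil])
  have e2 := (s_bb H (n := n) (i := k) (j := k) (le_refl k) h).symm.right [pos (k + 1)] ⟨n + 2 + 2, by
    simp only [List.cons_append, List.nil_append]
    rw [w_birth _ (by omega), w_birth _ (by omega), w_pos _ (by omega), w_nil]⟩
  have e3 := (s_sb H (n := n + 2) (i := k + 1) (by omega)).symm.left (m := n) [birth k] (by
    rw [w_birth _ (by omega), w_nil])
  simp only [List.append_assoc, List.cons_append, List.nil_append] at e1 e2 e3 ⊢
  exact e1.trans (e2.trans e3)

/-- `U k a ++ U k (e+1)` with the births in front -/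
theorem UU_aux {n k a e : ℕ} (h : k + a ≤ n) (h' : k + e ≤ n + 1) :
    S n0 Γ n (U k a ++ U k (e + 1))
      ([birth k, birth (k + 1)] ++ (ch (k + 2) (a + 1) ++ ch (k + 2) e)) := by
  -- move the second birth to the front
  have e1 := (ch_b H (n := n + 2) (i := k + 1) (e := a) (p := k) (by omega) (by omega)
    (by omega)).cong (m := n) [birth k] (ch (k + 1) (e + 1)) (by
      rw [w_birth _ (by omega), w_nil]) ⟨n + 2 + 2, by
        simp only [List.append_assoc, List.cons_append, List.nil_append]
        rw [w_birth _ (by omega), w_ch _ (by omega), w_birth _ (by omega), w_ch' (by omega)]⟩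
  -- `birth k, birth k, ch (k+3) a, pos (k+1), ch (k+2) e`
  have e2 := (ch_left H (n := n + 2 + 2) (i := k + 3) (e := a) (j := k + 1) (by omega) (by omega)
    (by omega)).cong (m := n) [birth k, birth k] (ch (k + 2) e) (by
      rw [w_birth _ (by omega), w_birth _ (by omega), w_nil]) ⟨n + 2 + 2, by
        simp only [List.append_assoc, List.cons_append, List.nil_append]
        rw [w_birth _ (by omega), w_birth _ (by omega), w_ch _ (by omega), w_pos _ (by omega),
          w_ch' (by omega)]⟩
  -- `birth k, birth k, pos (k+1)` to `birth k, birth (k+1), pos (k+2)`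
  have e3 := ((s_bb H (n := n) (i := k) (j := k) (le_refl k) (by omega)).symm.right
      [pos (k + 1)] ⟨n + 2 + 2, by
        simp only [List.cons_append, List.nil_append]
        rw [w_birth _ (by omega), w_birth _ (by omega), w_pos _ (by omega), w_nil]⟩).right
      (ch (k + 3) a ++ ch (k + 2) e) ⟨n + 2 + 2, by
        simp only [List.cons_append, List.nil_append, List.append_assoc]
        rw [w_birth _ (by omega), w_birth _ (by omega), w_pos _ (by omega), w_ch _ (by omega),
          w_ch' (by omega)]⟩
  have e4 := ((s_sb H (n := n + 2) (i := k + 1) (by omega)).symm.left (m := n) [birth k] (by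
      rw [w_birth _ (by omega), w_nil])).right
      (ch (k + 3) a ++ ch (k + 2) e) ⟨n + 2 + 2, by
        simp only [List.cons_append, List.nil_append, List.append_assoc]
        rw [w_birth _ (by omega), w_birth _ (by omega), w_pos _ (by omega), w_ch _ (by omega),
          w_ch' (by omega)]⟩
  simp only [U, ch, List.append_assoc, List.cons_append, List.nil_append] at e1 e2 e3 e4 ⊢
  exact e1.trans (e2.trans (e3.trans e4))

theorem UU_aux2 {n k a e : ℕ} (h : k + a ≤ n) (h' : k + e ≤ n) :
    S n0 Γ n (U k e ++ U (k + 1) (a + 1))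
      ([birth k, birth (k + 1)] ++ (ch (k + 3) e ++ ch (k + 2) (a + 1))) := by
  have e1 := (ch_b H (n := n + 2) (i := k + 1) (e := e) (p := k + 1) (by omega) (by omega)
    (by omega)).cong (m := n) [birth k] (ch (k + 2) (a + 1)) (by
      rw [w_birth _ (by omega), w_nil]) ⟨n + 2 + 2, by
        simp only [List.append_assoc, List.cons_append, List.nil_append]
        rw [w_birth _ (by omega), w_ch _ (by omega), w_birth _ (by omega), w_ch' (by omega)]⟩
  simp only [U, List.append_assoc, List.cons_append, List.nil_append] at e1 ⊢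
  exact e1

theorem UU {n k a e : ℕ} (h : k + a ≤ n) (h' : e ≤ a) :
    S n0 Γ n (U k a ++ U k (e + 1)) (U k e ++ U (k + 1) (a + 1)) := by
  have e1 := UU_aux H (n := n) (k := k) (a := a) (e := e) h (by omega)
  have e2 := UU_aux2 H (n := n) (k := k) (a := a) (e := e) h (by omega)
  have e3 := (ch_ch H (n := n + 2 + 2) (i := k + 2) (a := a + 1) (e := e) (by omega)
    (by omega)).left (m := n) [birth k, birth (k + 1)] (by
      rw [w_birth _ (by omega), w_birth _ (by omega), w_nil])
  exact e1.trans (e3.trans e2.symm)

theorem UUz {n k a e : ℕ} (h0 : k + a ≤ n) (h : k + e ≤ n + 1) (h' : a < e) :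
    Z n0 Γ n (U k a ++ U k (e + 1)) := by
  have e1 := UU_aux H (n := n) (k := k) (a := a) (e := e) h0 h
  have e3 := (ch_chz H (n := n + 2 + 2) (i := k + 2) (a := a + 1) (e := e) (by omega) (by omega)
    (by omega)).left (m := n) [birth k, birth (k + 1)] (by
      rw [w_birth _ (by omega), w_birth _ (by omega), w_nil])
  exact Z.of_S e1 e3

theorem U_b {n k e l : ℕ} (h : l ≤ k) (h1 : k + e ≤ n) :
    S n0 Γ n (U k e ++ [birth l]) ([birth l] ++ U (k + 2) e) := by
  have e1 := (ch_b H (n := n + 2) (i := k + 1) (e := e) (p := l) (by omega) (by omega)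
    (by omega)).left (m := n) [birth k] (by rw [w_birth _ (by omega), w_nil])
  have e2 := (s_bb H (n := n) (i := l) (j := k) h (by omega)).symm.right (ch (k + 3) e)
    ⟨n + 2 + 2, by simp only [List.cons_append, List.nil_append]
                   rw [w_birth _ (by omega), w_birth _ (by omega), w_ch' (by omega)]⟩
  simp only [U, List.append_assoc, List.cons_append, List.nil_append] at e1 e2 ⊢
  exact e1.trans e2

theorem U_d_left {n k e j : ℕ} (h : j ≤ k) (h1 : k + 2 + e ≤ n) :
    S n0 Γ n (U (k + 2) e ++ [death j]) ([death j] ++ U k e) := by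
  have e1 := (ch_d H (n := n + 2) (i := k + 1) (e := e) (p := j) (by omega) (by omega)
    (by omega)).left (m := n) [birth (k + 2)] (by rw [w_birth _ (by omega), w_nil])
  have e2 := (s_db H (n := n) (i := j) (j := k) h (by omega)).symm.right (ch (k + 1) e)
    ⟨n, by simp only [List.cons_append, List.nil_append]
           rw [w_birth _ (by omega), w_death _ (by omega), w_ch' (by omega)]
           congr 1⟩
  simp only [U, List.append_assoc, List.cons_append, List.nil_append] at e1 e2 ⊢
  exact e1.trans e2

theorem U_d_prev {n j e : ℕ} (h1 : j + 1 + e ≤ n) :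
    S n0 Γ n (U (j + 1) e ++ [death j]) (ch j e) := by
  have e1 := (ch_d H (n := n + 2) (i := j) (e := e) (p := j) (by omega) (by omega)
    (by omega)).left (m := n) [birth (j + 1)] (by rw [w_birth _ (by omega), w_nil])
  have e2 := (s_z2 H (n := n) (i := j) (by omega)).right (ch j e)
    ⟨n, by simp only [List.cons_append, List.nil_append]
           rw [w_birth _ (by omega), w_death _ (by omega), Nat.add_sub_cancel, w_ch' (by omega)]⟩
  simp only [U, List.append_assoc, List.cons_append, List.nil_append] at e1 e2 ⊢
  exact e1.trans e2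

theorem U_d_self {n k e : ℕ} (h1 : k + e + 1 ≤ n) : Z n0 Γ n (U k (e + 1) ++ [death k]) := by
  have e1 := (ch_d H (n := n + 2) (i := k) (e := e) (p := k) (by omega) (by omega)
    (by omega)).left (m := n) [birth k, pos (k + 1)] (by
      rw [w_birth _ (by omega), w_pos _ (by omega), w_nil])
  have e2 := (s_sb H (n := n) (i := k) (by omega)).right (death k :: ch k e)
    ⟨n, by simp only [List.cons_append, List.nil_append]
           rw [w_birth _ (by omega), w_pos _ (by omega), w_death _ (by omega),
            Nat.add_sub_cancel, w_ch' (by omega)]⟩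
  have e3 := (z_kd H (n := n + 2) (i := k)).cong (m := n) [birth (k + 1)] (ch k e) (by
    rw [w_birth _ (by omega), w_nil])
  simp only [U, ch, List.append_assoc, List.cons_append, List.nil_append] at e1 e2 e3 ⊢
  exact Z.of_S e1 (Z.of_S e2 e3)

theorem U_d_mid {n k e j : ℕ} (h : k + 1 ≤ j) (h1 : j + 1 ≤ k + e) (h2 : k + e ≤ n) :
    Z n0 Γ n (U k e ++ [death j]) := by
  have e1 := (ch_dz H (n := n + 2) (i := k + 1) (e := e) (j := j) (by omega) (by omega)
    (by omega)).left (m := n) [birth k] (by rw [w_birth _ (by omega), w_nil])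
  simp only [U, List.append_assoc, List.cons_append, List.nil_append] at e1 ⊢
  exact e1

theorem U_d_end {n k e : ℕ} (h2 : k + e + 1 ≤ n) :
    Z n0 Γ n (U k (e + 1) ++ [death (k + e + 1)]) := by
  have e1 := (z_kd H (n := n + 2) (i := k + e + 1)).left (m := n) (birth k :: ch (k + 1) e) (by
    rw [w_birth _ (by omega), w_ch' (by omega)])
  have ee : k + 1 + e = k + e + 1 := by omega
  simp only [U, ch_succ, List.append_assoc, List.cons_append, List.nil_append, ee] at e1 ⊢
  exact e1

theorem U_d_right {n k e j : ℕ} (h : k + e ≤ j) (h2 : j + 2 ≤ n) :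
    S n0 Γ n (U k e ++ [death (j + 2)]) ([death j] ++ U k e) := by
  have e1 := (ch_dr H (n := n + 2) (i := k + 1) (e := e) (p := j + 2) (by omega)
    (by omega)).left (m := n) [birth k] (by rw [w_birth _ (by omega), w_nil])
  have e2 := (s_bd H (n := n) (i := k) (j := j) (by omega) (by omega)).right (ch (k + 1) e)
    ⟨n, by simp only [List.cons_append, List.nil_append]
           rw [w_birth _ (by omega), w_death _ (by omega), Nat.add_sub_cancel,
            w_ch' (by omega)]⟩
  simp only [U, List.append_assoc, List.cons_append, List.nil_append] at e1 e2 ⊢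
  exact e1.trans e2

theorem U_d_next {n k e : ℕ} (h2 : k + e + 1 ≤ n) :
    S n0 Γ n (U k e ++ [death (k + e + 1)]) (rch k e) := by
  induction e with
  | zero => exact s_z1 H (by omega)
  | succ e ih =>
    have e1 := (s_sd H (n := n + 2) (i := k + e + 1) (by omega)).symm.left (m := n) (U k e) (w_U'
      (by omega))
    have e2 := (U_right H (n := n) (k := k) (e := e) (j := k + e) (le_refl _) (by omega)).right
      [death (k + e + 1)] ⟨n, by
        simp only [List.append_assoc, List.cons_append, List.nil_append]
        rw [w_U _ (by omega), w_pos _ (by omega), w_death _ (by omega), w_nil]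
        congr 1⟩
    have e3 := (ih (by omega)).left (m := n) [pos (k + e)] (by rw [w_pos _ (by omega), w_nil])
    have ee : k + (e + 1) + 1 = k + e + 1 + 1 := by omega
    rw [← U_ext, rch, ee]
    simp only [List.append_assoc, List.cons_append, List.nil_append] at e1 e2 e3 ⊢
    exact e1.trans (e2.trans e3)

end moves

/-! ### normal forms -/

/-- `NF p n w`: `w` is a normal form with `n` strands at its bottom, where the positions `≥ p` are
right ends of arcs -/
inductive NF : ℕ → ℕ → Word → Prop
  | nil : NF 0 0 []
  | cons {p n : ℕ} {w : Word} (k e : ℕ) : NF p n w → p ≤ k → k + e ≤ n →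
      NF (k + 1) (n + 2) (w ++ U k e)

theorem NF.w {p n : ℕ} {w : Word} (h : NF p n w) : width w 0 = some n := by
  induction h with
  | nil => rfl
  | cons k e _ _ he ih => rw [width_append, ih, Option.bind_some, w_U' he]

theorem NF.zero {p : ℕ} {w : Word} (h : NF p 0 w) : w = [] := by
  generalize hn : 0 = n at h
  cases h with
  | nil => rfl
  | cons => omega

/-- `w'` implies `w` -/
def Imp (n0 : ℕ) (Γ : Word → Prop) (w w' : Word) : Prop :=
  ∀ y, Closed (w ++ y) → Closed (w' ++ y) → crs (w' ++ y) = n0 → Γ (w' ++ y) → Γ (w ++ y)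

/-- every diagram with the upper part `w` is zero -/
def Zr (n0 : ℕ) (Γ : Word → Prop) (w : Word) : Prop :=
  ∀ y, Closed (w ++ y) → crs (w ++ y) = n0 → Γ (w ++ y)

theorem Z.zr {w : Word} (h : Z n0 Γ 0 w) : Zr n0 Γ w := fun y hc hn => by
  simpa using h [] y rfl (by simpa using hc) (by simpa using hn)

theorem Zr.right {w : Word} (v : Word) (h : Zr n0 Γ w) : Zr n0 Γ (w ++ v) := fun y hc hn => by
  rw [List.append_assoc] at hc hn ⊢
  exact h _ hc hn

/-- `w` is zero or can be replaced by a normal form -/
def Rd (n0 : ℕ) (Γ : Word → Prop) (n p : ℕ) (w : Word) : Prop :=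
  Zr n0 Γ w ∨ ∃ p' w', NF p' n w' ∧ p' ≤ p ∧ crs w = crs w' ∧ Imp n0 Γ w w'

theorem Rd.nf {n p : ℕ} {w : Word} (h : NF p n w) : Rd n0 Γ n p w :=
  Or.inr ⟨p, w, h, le_refl _, rfl, fun _ _ _ _ h => h⟩

theorem Rd.mono {n p p' : ℕ} {w : Word} (h : Rd n0 Γ n p w) (hp : p ≤ p') : Rd n0 Γ n p' w := by
  rcases h with h | ⟨q, v, h1, h2, h3⟩
  · exact Or.inl h
  · exact Or.inr ⟨q, v, h1, h2.trans hp, h3⟩

theorem Rd.of_imp {w w' : Word} {n p : ℕ} (hc : crs w = crs w') (hi : Imp n0 Γ w w')
    (hw : width w 0 = width w' 0) (hr : Rd n0 Γ n p w') : Rd n0 Γ n p w := by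
  have hcl : ∀ y, Closed (w ++ y) → Closed (w' ++ y) := by
    intro y hy
    unfold Closed at *
    rw [width_append] at *
    rw [← hw]; exact hy
  rcases hr with hz | ⟨p', v, h1, h2, h3, h4⟩
  · refine Or.inl fun y hcw hn => ?_
    have hn' : crs (w' ++ y) = n0 := by rw [crs_append] at hn ⊢; omega
    exact hi y hcw (hcl y hcw) hn' (hz y (hcl y hcw) hn')
  · refine Or.inr ⟨p', v, h1, h2, hc.trans h3, fun y hcw hc' hn hy => ?_⟩
    have hn' : crs (w' ++ y) = n0 := by rw [crs_append] at hn ⊢; omega
    exact hi y hcw (hcl y hcw) hn' (h4 y (hcl y hcw) hc' hn hy)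

theorem Rd.of_S {n p : ℕ} {w w' : Word} (h : S n0 Γ 0 w w') (hr : Rd n0 Γ n p w') :
    Rd n0 Γ n p w := by
  obtain ⟨⟨m, h1, h2⟩, h3, h4⟩ := h
  refine hr.of_imp h3 (fun y hc hc' hn hy => ?_) (h1.trans h2.symm)
  have := (h4 [] y rfl (by simpa using hc) (by simpa using hc') (by simpa using hn)).2
  simp only [List.nil_append] at this
  exact this hy

theorem Rd.U {n p k e : ℕ} {w : Word} (h : Rd n0 Γ n p w) (hw : width w 0 = some n)
    (hp : p ≤ k) (he : k + e ≤ n) : Rd n0 Γ (n + 2) (k + 1) (w ++ U k e) := by
  rcases h with h | ⟨q, v, h1, h2, h3, h4⟩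
  · exact Or.inl (h.right _)
  · refine Or.inr ⟨k + 1, v ++ Run7.h112.U k e, h1.cons k e (h2.trans hp) he, le_refl _, ?_, ?_⟩
    · simp only [crs_append, h3]
    · intro y hc hc' hn hy
      rw [List.append_assoc] at *
      exact h4 _ hc hc' hn hy

section moves

variable (H : Shd n0 Γ)

include H

theorem cross {n p : ℕ} {w : Word} (h : NF p n w) :
    ∀ j, j + 2 ≤ n → Rd n0 Γ n p (w ++ [pos j]) := by
  induction h with
  | nil => intro j hj; omega
  | @cons p₀ n w k e hw hp he ih =>
    intro j hj
    have hw0 := hw.w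
    by_cases h1 : j + 2 ≤ k
    · have e1 := (U_left H (n := n) (k := k) (e := e) (j := j) h1 he).left (m := 0) w hw0
      have e2 := ((ih j (by omega)).mono hp).U (k := k) (e := e) (by
        rw [width_append, hw0, Option.bind_some, w_pos _ (by omega), w_nil]) (le_refl _) he
      simp only [List.append_assoc] at e1 e2 ⊢
      exact e2.of_S e1
    by_cases h2 : j + 1 = k
    · subst h2
      by_cases h3 : p₀ ≤ j
      · have e1 := (U_next H (n := n) (e := e) (j := j) he).left (m := 0) w hw0
        have e2 := ((Rd.nf (n0 := n0) (Γ := Γ) hw).U (k := j) (e := e + 1) hw0 h3 (by omega)).mono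
          (show j + 1 ≤ j + 1 + 1 by omega)
        simp only [List.append_assoc] at e1 ⊢
        exact e2.of_S e1
      · obtain rfl : p₀ = j + 1 := by omega
        have e1 := (U_next H (n := n) (e := e) (j := j) he).left (m := 0) w hw0
        generalize hq : j + 1 = q at hw
        cases hw with
        | nil => omega
        | @cons p₁ n w k₁ e₁ hw hp₁ he₁ =>
          obtain rfl : k₁ = j := by omega
          have hw1 := hw.w
          by_cases h4 : e ≤ e₁
          · have e2 := (UU H (n := n) (k := k₁) (a := e₁) (e := e) he₁ h4).left (m := 0) w hw1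
            have hN : NF (k₁ + 1 + 1) (n + 2 + 2) ((w ++ U k₁ e) ++ U (k₁ + 1) (e₁ + 1)) :=
              (hw.cons k₁ e hp₁ (by omega)).cons (k₁ + 1) (e₁ + 1) (le_refl _) (by omega)
            have e3 := Rd.nf (n0 := n0) (Γ := Γ) hN
            simp only [List.append_assoc] at e1 e2 e3 ⊢
            exact e3.of_S (e1.trans e2)
          · have e2 := (UUz H (n := n) (k := k₁) (a := e₁) (e := e) he₁ (by omega)
              (by omega)).left (m := 0) w hw1
            simp only [List.append_assoc] at e1 e2 ⊢
            exact Or.inl (Z.zr (Z.of_S e1 e2))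
    by_cases h3 : j = k
    · subst h3
      have e1 := (U_self H (n := n) (k := j) (e := e) he).left (m := 0) w hw0
      simp only [List.append_assoc] at e1 ⊢
      exact Or.inl (Z.zr e1)
    by_cases h4 : j + 1 ≤ k + e
    · obtain ⟨j, rfl⟩ : ∃ j', j = j' + 1 := ⟨j - 1, by omega⟩
      have e1 := (U_mid H (n := n) (k := k) (e := e) (j := j) (by omega) (by omega) he).left
        (m := 0) w hw0
      have e2 := ((ih j (by omega)).mono hp).U (k := k) (e := e) (by
        rw [width_append, hw0, Option.bind_some, w_pos _ (by omega), w_nil]) (le_refl _) he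
      simp only [List.append_assoc] at e1 e2 ⊢
      exact e2.of_S e1
    by_cases h5 : j = k + e
    · obtain ⟨e, rfl⟩ : ∃ e', e = e' + 1 := ⟨e - 1, by omega⟩
      subst h5
      have e1 := (U_end H (n := n) (k := k) (e := e) (by omega)).left (m := 0) w hw0
      simp only [List.append_assoc] at e1 ⊢
      exact Or.inl (Z.zr e1)
    by_cases h6 : j = k + e + 1
    · subst h6
      rw [List.append_assoc, U_ext]
      exact (Rd.nf hw).U hw0 hp (by omega)
    · obtain ⟨j, rfl⟩ : ∃ j', j = j' + 2 := ⟨j - 2, by omega⟩
      have e1 := (U_right H (n := n) (k := k) (e := e) (j := j) (by omega) (by omega)).left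
        (m := 0) w hw0
      have e2 := ((ih j (by omega)).mono hp).U (k := k) (e := e) (by
        rw [width_append, hw0, Option.bind_some, w_pos _ (by omega), w_nil]) (le_refl _) he
      simp only [List.append_assoc] at e1 e2 ⊢
      exact e2.of_S e1

theorem Rd.x {n p j : ℕ} {w : Word} (h : Rd n0 Γ n p w) (hw : width w 0 = some n)
    (hj : j + 2 ≤ n) : Rd n0 Γ n p (w ++ [pos j]) := by
  rcases h with h | ⟨q, v, h1, h2, h3, h4⟩
  · exact Or.inl (h.right _)
  · refine ((cross H h1 j hj).mono h2).of_imp ?_ ?_ ?_
    · simp only [crs_append, h3]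
    · intro y hc hc' hn hy
      rw [List.append_assoc] at *
      exact h4 _ hc hc' hn hy
    · rw [width_append, width_append, hw, h1.w]

theorem nfbirth {n p : ℕ} {w : Word} (h : NF p n w) :
    ∀ l, l ≤ n → Rd n0 Γ (n + 2) (max (p + 2) (l + 1)) (w ++ [birth l]) := by
  induction h with
  | nil =>
    intro l hl
    have := (NF.nil.cons l 0 (Nat.zero_le _) (by omega))
    exact (Rd.nf this).mono (by omega)
  | @cons p₀ n w k e hw hp he ih =>
    intro l hl
    have hw0 := hw.w
    by_cases h1 : l ≤ k
    · have e1 := (U_b H (n := n) (k := k) (e := e) (l := l) h1 he).left (m := 0) w hw0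
      have e2 := ((ih l (by omega)).U (k := k + 2) (e := e) (by
        rw [width_append, hw0, Option.bind_some, w_birth _ (by omega), w_nil]) (by omega)
        (by omega)).mono (show k + 2 + 1 ≤ max (k + 1 + 2) (l + 1) by omega)
      simp only [List.append_assoc] at e1 e2 ⊢
      exact e2.of_S e1
    · have := ((hw.cons k e hp he).cons l 0 (by omega) (by omega))
      exact (Rd.nf this).mono (by omega)

theorem Rd.b {n p l : ℕ} {w : Word} (h : Rd n0 Γ n p w) (hw : width w 0 = some n)
    (hl : l ≤ n) : ∃ p', Rd n0 Γ (n + 2) p' (w ++ [birth l]) := by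
  rcases h with h | ⟨q, v, h1, h2, h3, h4⟩
  · exact ⟨0, Or.inl (h.right _)⟩
  · refine ⟨_, (nfbirth H h1 l hl).of_imp ?_ ?_ ?_⟩
    · simp only [crs_append, h3]
    · intro y hc hc' hn hy
      rw [List.append_assoc] at *
      exact h4 _ hc hc' hn hy
    · rw [width_append, width_append, hw, h1.w]

theorem Rd.ch {n p i e : ℕ} {w : Word} (h : Rd n0 Γ n p w) (hw : width w 0 = some n)
    (he : e = 0 ∨ i + e + 1 ≤ n) : Rd n0 Γ n p (w ++ ch i e) := by
  induction e with
  | zero => simpa [Run7.h112.ch] using h
  | succ e ih =>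
    have := (ih (by omega)).x H (j := i + e) (by
      rw [width_append, hw, Option.bind_some, w_ch' (by omega)]) (by omega)
    rw [ch_succ]
    simpa using this

theorem Rd.rch {n p i e : ℕ} {w : Word} (h : Rd n0 Γ n p w) (hw : width w 0 = some n)
    (he : e = 0 ∨ i + e + 1 ≤ n) : Rd n0 Γ n p (w ++ rch i e) := by
  induction e generalizing w with
  | zero => simpa [Run7.h112.rch] using h
  | succ e ih =>
    have := ih (h.x H (j := i + e) hw (by omega)) (by
      rw [width_append, hw, Option.bind_some, w_pos _ (by omega), w_nil]) (by omega)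
    rw [Run7.h112.rch]
    simpa using this

theorem Rd.U' {n p k e : ℕ} {w : Word} (h : Rd n0 Γ n p w) (hw : width w 0 = some n)
    (he : k + e ≤ n) : ∃ p', Rd n0 Γ (n + 2) p' (w ++ Run7.h112.U k e) := by
  obtain ⟨p', h1⟩ := h.b H (l := k) hw (by omega)
  refine ⟨p', ?_⟩
  have := h1.ch H (i := k + 1) (e := e) (by
    rw [width_append, hw, Option.bind_some, w_birth _ (by omega), w_nil]) (by omega)
  simpa [Run7.h112.U] using this

theorem nfdeath {n p : ℕ} {w : Word} (h : NF p n w) :
    ∀ j, j + 2 ≤ n → ∃ p', Rd n0 Γ (n - 2) p' (w ++ [death j]) := by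
  induction h with
  | nil => intro j hj; omega
  | @cons p₀ n w k e hw hp he ih =>
    intro j hj
    have hw0 := hw.w
    rw [Nat.add_sub_cancel]
    by_cases h1 : j + 2 ≤ k
    · obtain ⟨k, rfl⟩ : ∃ k', k = k' + 2 := ⟨k - 2, by omega⟩
      have e1 := (U_d_left H (n := n) (k := k) (e := e) (j := j) (by omega) he).left
        (m := 0) w hw0
      obtain ⟨p', h2⟩ := ih j (by omega)
      obtain ⟨p'', h3⟩ := h2.U' H (k := k) (e := e) (by
        rw [width_append, hw0, Option.bind_some, w_death _ (by omega), w_nil]) (by omega)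
      have hn : n - 2 + 2 = n := by omega
      rw [hn] at h3
      simp only [List.append_assoc] at e1 h3 ⊢
      exact ⟨p'', h3.of_S e1⟩
    by_cases h2 : j + 1 = k
    · subst h2
      have e1 := (U_d_prev H (n := n) (e := e) (j := j) he).left (m := 0) w hw0
      have e2 := (Rd.nf hw).ch H (i := j) (e := e) hw0 (by omega)
      simp only [List.append_assoc] at e1 e2 ⊢
      exact ⟨_, e2.of_S e1⟩
    by_cases h3 : j = k
    · subst h3
      cases e with
      | zero =>
        refine ⟨p₀, (Rd.nf hw).of_imp ?_ ?_ ?_⟩
        · simp [crs_append, crs_U, crs]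
        · intro y hc hc' hn hy
          have := H.circ w j y hc' (by simpa [U, ch] using hc) hn hy
          simpa [U, ch] using this
        · rw [width_append, width_append, hw0, Option.bind_some, w_U' (by omega),
            Option.bind_some, w_death _ (by omega), w_nil, Nat.add_sub_cancel]
      | succ e =>
        have e1 := (U_d_self H (n := n) (k := j) (e := e) (by omega)).left (m := 0) w hw0
        simp only [List.append_assoc] at e1 ⊢
        exact ⟨0, Or.inl (Z.zr e1)⟩
    by_cases h4 : j + 1 ≤ k + e
    · have e1 := (U_d_mid H (n := n) (k := k) (e := e) (j := j) (by omega) h4 he).left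
        (m := 0) w hw0
      simp only [List.append_assoc] at e1 ⊢
      exact ⟨0, Or.inl (Z.zr e1)⟩
    by_cases h5 : j = k + e
    · obtain ⟨e, rfl⟩ : ∃ e', e = e' + 1 := ⟨e - 1, by omega⟩
      subst h5
      have e1 := (U_d_end H (n := n) (k := k) (e := e) (by omega)).left (m := 0) w hw0
      simp only [List.append_assoc] at e1 ⊢
      exact ⟨0, Or.inl (Z.zr e1)⟩
    by_cases h6 : j = k + e + 1
    · subst h6
      have e1 := (U_d_next H (n := n) (k := k) (e := e) (by omega)).left (m := 0) w hw0
      have e2 := (Rd.nf hw).rch H (i := k) (e := e) hw0 (by omega)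
      simp only [List.append_assoc] at e1 e2 ⊢
      exact ⟨_, e2.of_S e1⟩
    · obtain ⟨j, rfl⟩ : ∃ j', j = j' + 2 := ⟨j - 2, by omega⟩
      have e1 := (U_d_right H (n := n) (k := k) (e := e) (j := j) (by omega) (by omega)).left
        (m := 0) w hw0
      obtain ⟨p', h2⟩ := ih j (by omega)
      obtain ⟨p'', h3⟩ := h2.U' H (k := k) (e := e) (by
        rw [width_append, hw0, Option.bind_some, w_death _ (by omega), w_nil]) (by omega)
      have hn : n - 2 + 2 = n := by omega
      rw [hn] at h3
      simp only [List.append_assoc] at e1 h3 ⊢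
      exact ⟨p'', h3.of_S e1⟩

theorem Rd.d {n p j : ℕ} {w : Word} (h : Rd n0 Γ n p w) (hw : width w 0 = some n)
    (hj : j + 2 ≤ n) : ∃ p', Rd n0 Γ (n - 2) p' (w ++ [death j]) := by
  rcases h with h | ⟨q, v, h1, h2, h3, h4⟩
  · exact ⟨0, Or.inl (h.right _)⟩
  · obtain ⟨p', h5⟩ := nfdeath H h1 j hj
    refine ⟨p', h5.of_imp ?_ ?_ ?_⟩
    · simp only [crs_append, h3]
    · intro y hc hc' hn hy
      rw [List.append_assoc] at *
      exact h4 _ hc hc' hn hy
    · rw [width_append, width_append, hw, h1.w]

theorem flatRd (w : Word) : ∀ m, (∀ i, neg i ∉ w) → width w 0 = some m → ∃ p, Rd n0 Γ m p w := by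
  induction w using List.reverseRecOn with
  | nil =>
    intro m _ hw
    have : m = 0 := by simpa [width] using hw.symm
    subst this
    exact ⟨0, Rd.nf NF.nil⟩
  | append_singleton w p ih =>
    intro m hf hw
    rw [width_append] at hw
    obtain ⟨n, hn, hp⟩ := Option.bind_eq_some_iff.1 hw
    obtain ⟨q, hq⟩ := ih n (fun i hi => hf i (by simp [hi])) hn
    cases p with
    | birth i =>
      simp only [width, Piece.width] at hp
      split_ifs at hp with h1
      · simp only [Option.bind_some, Option.some.injEq] at hp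
        subst hp
        exact hq.b H hn h1
      · simp at hp
    | death i =>
      simp only [width, Piece.width] at hp
      split_ifs at hp with h1
      · simp only [Option.bind_some, Option.some.injEq] at hp
        subst hp
        exact hq.d H hn h1
      · simp at hp
    | pos i =>
      simp only [width, Piece.width] at hp
      split_ifs at hp with h1
      · simp only [Option.bind_some, Option.some.injEq] at hp
        subst hp
        exact ⟨q, hq.x H hn h1⟩
      · simp at hp
    | neg i => exact absurd (by simp) (hf i)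

/-- The shadow calculus is trivial. -/
theorem shd_all (w : Word) (hf : ∀ i, neg i ∉ w) (hw : Closed w) (hn : crs w = n0) : Γ w := by
  obtain ⟨p, h⟩ := flatRd H w 0 hf hw
  rcases h with h | ⟨q, v, h1, h2, h3, h4⟩
  · simpa using h [] (by simpa using hw) (by simpa using hn)
  · have := h1.zero
    subst this
    have h0 : n0 = 0 := by rw [← hn, h3]; rfl
    have := h4 [] (by simpa using hw) rfl (by simp [crs, h0]) (H.nil h0)
    simpa using this

end moves

end Run7.h112
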