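import Pool.Agent.Run7.h112.NB2

/-!
# The colour model of the top edge of the Kauffman polynomial

The strands carry colours in `Fin N`. At `pos` both strands keep their colours, which must be
different; at `neg` the two upper ends have the same colour, the two lower ends have the same
colour, and these colours are different.
-/

set_option autoImplicit false
set_option linter.unusedSimpArgs false
set_option linter.unusedVariables false

namespace Run7.h112

open Pool.Agent.Helper454.Kauf
open Pool.Agent.Helper454.Kauf.Piece (birth death pos neg)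
open Pool.Agent.Helper82_Alt (crs cx w_birth w_death w_cx w_nil width_append)

abbrev Fn (N : ℕ) : Type := List (Fin N) → ℤ

variable {N : ℕ}

/-- the operator `g` acts after the first `i` strands -/
def sh (g : Fn N → Fn N) : ℕ → Fn N → Fn N
  | 0, f, s => g f s
  | _ + 1, _, [] => 0
  | i + 1, f, x :: s => sh g i (fun r => f (x :: r)) s

def bB (f : Fn N) : Fn N := fun s => ∑ c : Fin N, f (c :: c :: s)

def bD (f : Fn N) : Fn N
  | a :: b :: s => if a = b then f s else 0
  | _ => 0

def bV (f : Fn N) : Fn N
  | a :: b :: s => if a ≠ b then f (a :: b :: s) else 0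
  | _ => 0

def bH (f : Fn N) : Fn N
  | a :: b :: s => if a = b then ∑ c : Fin N, (if c ≠ a then f (c :: c :: s) else 0) else 0
  | _ => 0

/-- the piece at position `0` -/
def base : Piece → Fn N → Fn N
  | .birth _ => bB
  | .death _ => bD
  | .pos _ => bV
  | .neg _ => bH

def op (p : Piece) : Fn N → Fn N := sh (base p) p.index

/-- the value of the diagram `w` followed by `f` -/
def M : Word → Fn N → Fn N
  | [], f => f
  | p :: w, f => op p (M w f)

theorem M_append (u v : Word) (f : Fn N) : M (u ++ v) f = M u (M v f) := by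
  induction u with
  | nil => rfl
  | cons p u ih => rw [List.cons_append, M, M, ih]

theorem sh_app (g : Fn N → Fn N) {A : List (Fin N)} {i : ℕ} (h : A.length = i) (k : ℕ) (f : Fn N)
    (s : List (Fin N)) : sh g (i + k) f (A ++ s) = sh g k (fun r => f (A ++ r)) s := by
  induction A generalizing i f with
  | nil =>
    obtain rfl : i = 0 := h.symm
    simp
  | cons x A ih =>
    obtain ⟨i, rfl⟩ : ∃ i', i = i' + 1 := ⟨A.length, by simpa using h.symm⟩
    have : i + 1 + k = (i + k) + 1 := by omega
    rw [this, List.cons_append, sh]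
    exact ih (by simpa using h) (fun r => f (x :: r))

theorem base_add (p : Piece) (f g : Fn N) : base p (f + g) = base p f + base p g := by
  funext s
  cases p with
  | birth i => simp [base, bB, Finset.sum_add_distrib]
  | death i =>
    rcases s with _ | ⟨a, _ | ⟨b, s⟩⟩ <;> simp [base, bD]
    split_ifs <;> simp
  | pos i =>
    rcases s with _ | ⟨a, _ | ⟨b, s⟩⟩ <;> simp [base, bV]
    split_ifs <;> simp
  | neg i =>
    rcases s with _ | ⟨a, _ | ⟨b, s⟩⟩ <;> simp [base, bH]
    split_ifs
    · rw [← Finset.sum_add_distrib]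
      refine Finset.sum_congr rfl fun c _ => ?_
      split_ifs <;> simp
    · simp

theorem base_zero (p : Piece) : base p (0 : Fn N) = 0 := by
  have := base_add p (0 : Fn N) 0
  simpa using this

theorem sh_add {g : Fn N → Fn N} (hg : ∀ f f', g (f + f') = g f + g f') (i : ℕ) (f f' : Fn N) :
    sh g i (f + f') = sh g i f + sh g i f' := by
  funext s
  induction i generalizing f f' s with
  | zero => simp [sh, hg]
  | succ i ih =>
    cases s with
    | nil => simp [sh]
    | cons x s =>
      simp only [sh, Pi.add_apply]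
      exact ih (fun r => f (x :: r)) (fun r => f' (x :: r)) s

theorem sh_sum {ι : Type} {g : Fn N → Fn N} (hg : ∀ f f', g (f + f') = g f + g f') (i : ℕ)
    (t : Finset ι) (F : ι → Fn N) : sh g i (∑ c ∈ t, F c) = ∑ c ∈ t, sh g i (F c) := by
  classical
  induction t using Finset.induction_on with
  | empty =>
    have := sh_add hg i (0 : Fn N) 0
    simpa using this
  | insert a t ha ih => rw [Finset.sum_insert ha, Finset.sum_insert ha, sh_add hg, ih]

theorem op_add (p : Piece) (f g : Fn N) : op p (f + g) = op p f + op p g :=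
  sh_add (base_add p) _ f g

theorem op_zero (p : Piece) : op p (0 : Fn N) = 0 := by
  have := op_add p (0 : Fn N) 0
  simpa using this

theorem M_add (w : Word) (f g : Fn N) : M w (f + g) = M w f + M w g := by
  induction w with
  | nil => rfl
  | cons p w ih => rw [M, M, M, ih, op_add]

theorem M_zero (w : Word) : M w (0 : Fn N) = 0 := by
  have := M_add w (0 : Fn N) 0
  simpa using this

/-- the two parts have the same value on states with `n` strands -/
def Rel (N n : ℕ) (c : ℤ) (l r : Word) : Prop :=
  ∀ (f : Fn N) (s : List (Fin N)), s.length = n → M l f s = c * M r f s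

theorem M_smul (w : Word) (c : ℤ) (f : Fn N) : M w (c • f) = c • M w f := by
  have h : ∀ p : Piece, ∀ f : Fn N, op p (c • f) = c • op p f := by
    intro p f
    let φ : Fn N →+ Fn N := ⟨⟨op p, op_zero p⟩, op_add p⟩
    exact map_zsmul φ c f
  induction w with
  | nil => rfl
  | cons p w ih => rw [M, M, ih, h]

/-- values only depend on states with the right number of strands -/
theorem base_len (p : Piece) {m n : ℕ} (hp : p.ins ≤ n) (hm : m = n - p.ins + p.outs)
    {f g : Fn N} (h : ∀ s : List (Fin N), s.length = m → f s = g s) (s : List (Fin N))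
    (hs : s.length = n) : base p f s = base p g s := by
  cases p with
  | birth i =>
    simp only [Piece.ins, Piece.outs] at hp hm
    simp only [base, bB]
    exact Finset.sum_congr rfl fun c _ => h _ (by simp; omega)
  | death i =>
    simp only [Piece.ins, Piece.outs] at hp hm
    rcases s with _ | ⟨a, _ | ⟨b, s⟩⟩ <;> simp only [base, bD]
    split_ifs
    · exact h _ (by simp at hs; omega)
    · rfl
  | pos i =>
    simp only [Piece.ins, Piece.outs] at hp hm
    rcases s with _ | ⟨a, _ | ⟨b, s⟩⟩ <;> simp only [base, bV]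
    split_ifs
    · exact h _ (by simp at hs ⊢; omega)
    · rfl
  | neg i =>
    simp only [Piece.ins, Piece.outs] at hp hm
    rcases s with _ | ⟨a, _ | ⟨b, s⟩⟩ <;> simp only [base, bH]
    split_ifs
    · refine Finset.sum_congr rfl fun c _ => ?_
      split_ifs
      · exact h _ (by simp at hs ⊢; omega)
      · rfl
    · rfl

theorem sh_len (p : Piece) (i : ℕ) {m n : ℕ} (hp : i + p.ins ≤ n) (hm : m = n - p.ins + p.outs)
    {f g : Fn N} (h : ∀ s : List (Fin N), s.length = m → f s = g s) (s : List (Fin N))
    (hs : s.length = n) : sh (base p) i f s = sh (base p) i g s := by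
  induction i generalizing m n f g s with
  | zero => exact base_len p (by omega) hm h s hs
  | succ i ih =>
    cases s with
    | nil => rfl
    | cons x s =>
      simp only [sh]
      simp only [List.length_cons] at hs
      refine ih (m := m - 1) (n := n - 1) (by omega) (by omega) ?_ s (by omega)
      intro r hr
      have : 1 ≤ m := by
        cases p <;> simp only [Piece.ins, Piece.outs] at hp hm <;> omega
      exact h _ (by simp; omega)

theorem width_piece {p : Piece} {n m : ℕ} (h : p.width n = some m) :
    p.index + p.ins ≤ n ∧ m = n - p.ins + p.outs := by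
  cases p with
  | birth i =>
    simp only [Piece.width] at h
    split_ifs at h with h1
    · simp only [Option.some.injEq] at h
      simp only [Piece.index, Piece.ins, Piece.outs]
      omega
  | death i =>
    simp only [Piece.width] at h
    split_ifs at h with h1
    · simp only [Option.some.injEq] at h
      simp only [Piece.index, Piece.ins, Piece.outs]
      omega
  | pos i =>
    simp only [Piece.width] at h
    split_ifs at h with h1
    · simp only [Option.some.injEq] at h
      simp only [Piece.index, Piece.ins, Piece.outs]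
      omega
  | neg i =>
    simp only [Piece.width] at h
    split_ifs at h with h1
    · simp only [Option.some.injEq] at h
      simp only [Piece.index, Piece.ins, Piece.outs]
      omega

theorem M_len (w : Word) {n m : ℕ} (hw : width w n = some m) {f g : Fn N}
    (h : ∀ s : List (Fin N), s.length = m → f s = g s) (s : List (Fin N)) (hs : s.length = n) :
    M w f s = M w g s := by
  induction w generalizing n s with
  | nil =>
    have : n = m := by simpa [width] using hw
    exact h s (by omega)
  | cons p w ih =>
    rw [width] at hw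
    obtain ⟨k, hk, hw⟩ := Option.bind_eq_some_iff.1 hw
    obtain ⟨h1, h2⟩ := width_piece hk
    exact sh_len p p.index h1 h2 (fun s hs => ih hw s hs) s hs

theorem Rel.ctx {n : ℕ} {c : ℤ} {l r : Word} (h : Rel N n c l r) {x y : Word}
    (hx : width x 0 = some n) (f : Fn N) :
    M (x ++ l ++ y) f [] = c * M (x ++ r ++ y) f [] := by
  rw [M_append, M_append, M_append, M_append]
  have : ∀ s : List (Fin N), s.length = n → M l (M y f) s = (c • M r (M y f)) s := by
    intro s hs
    rw [h _ s hs]; rfl
  rw [M_len x hx this [] rfl, M_smul]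
  rfl

/-! ### the moves -/

/-- split a state -/
theorem split_state {n i : ℕ} (h : i ≤ n) (s : List (Fin N)) (hs : s.length = n) :
    ∃ A r : List (Fin N), A.length = i ∧ r.length = n - i ∧ s = A ++ r :=
  ⟨s.take i, s.drop i, by simp; omega, by simp; omega, by simp⟩

theorem op_app (p : Piece) {A : List (Fin N)} {i k : ℕ} (h : A.length = i) (hp : p.index = i + k)
    (f : Fn N) (s : List (Fin N)) : op p f (A ++ s) = sh (base p) k (fun r => f (A ++ r)) s := by
  rw [op, hp, sh_app _ h]

theorem r_zig1 {n i : ℕ} (h : i < n) : Rel N n 1 [birth i, death (i + 1)] [] := by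
  intro f s hs
  obtain ⟨A, r, hA, hr, rfl⟩ := split_state (show i ≤ n by omega) s hs
  rcases r with _ | ⟨x, r⟩
  · simp at hr; omega
  simp only [M]
  rw [op_app (k := 0) (birth i) hA rfl]
  have h1 : ∀ (r' : List (Fin N)), op (death (i + 1)) f (A ++ r') =
      sh (base (death (i + 1))) 1 (fun r => f (A ++ r)) r' :=
    fun r' => op_app (death (i + 1)) hA rfl f r'
  simp only [sh, base, bB, h1, bD]
  simp

theorem r_zig2 {n i : ℕ} (h : i < n) : Rel N n 1 [birth (i + 1), death i] [] := by
  intro f s hs
  obtain ⟨A, r, hA, hr, rfl⟩ := split_state (show i ≤ n by omega) s hs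
  rcases r with _ | ⟨x, r⟩
  · simp at hr; omega
  simp only [M]
  rw [op_app (k := 1) (birth (i + 1)) hA rfl]
  have h1 : ∀ (r' : List (Fin N)), op (death i) f (A ++ r') =
      sh (base (death i)) 0 (fun r => f (A ++ r)) r' :=
    fun r' => op_app (death i) hA rfl f r'
  simp only [sh, base, bB, h1, bD]
  simp

theorem r_sb1 {n i : ℕ} (h : i < n) :
    Rel N n 1 [birth i, pos (i + 1)] [birth (i + 1), neg i] := by
  intro f s hs
  obtain ⟨A, r, hA, hr, rfl⟩ := split_state (show i ≤ n by omega) s hs
  rcases r with _ | ⟨x, r⟩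
  · simp at hr; omega
  simp only [M]
  rw [op_app (k := 0) (birth i) hA rfl, op_app (k := 1) (birth (i + 1)) hA rfl]
  have h1 : ∀ (r' : List (Fin N)), op (pos (i + 1)) f (A ++ r') =
      sh (base (pos (i + 1))) 1 (fun r => f (A ++ r)) r' :=
    fun r' => op_app (pos (i + 1)) hA rfl f r'
  have h2 : ∀ (r' : List (Fin N)), op (neg i) f (A ++ r') =
      sh (base (neg i)) 0 (fun r => f (A ++ r)) r' :=
    fun r' => op_app (neg i) hA rfl f r'
  simp only [sh, base, bB, h1, h2, bV, bH]
  simp

theorem r_sb2 {n i : ℕ} (h : i < n) :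
    Rel N n 1 [birth i, neg (i + 1)] [birth (i + 1), pos i] := by
  intro f s hs
  obtain ⟨A, r, hA, hr, rfl⟩ := split_state (show i ≤ n by omega) s hs
  rcases r with _ | ⟨x, r⟩
  · simp at hr; omega
  simp only [M]
  rw [op_app (k := 0) (birth i) hA rfl, op_app (k := 1) (birth (i + 1)) hA rfl]
  have h1 : ∀ (r' : List (Fin N)), op (neg (i + 1)) f (A ++ r') =
      sh (base (neg (i + 1))) 1 (fun r => f (A ++ r)) r' :=
    fun r' => op_app (neg (i + 1)) hA rfl f r'
  have h2 : ∀ (r' : List (Fin N)), op (pos i) f (A ++ r') =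
      sh (base (pos i)) 0 (fun r => f (A ++ r)) r' :=
    fun r' => op_app (pos i) hA rfl f r'
  simp only [sh, base, bB, h1, h2, bV, bH]
  simp only [Finset.sum_ite_eq', Finset.mem_univ, if_true, one_mul]
  refine Finset.sum_congr rfl fun c _ => ?_
  by_cases hc : c = x
  · simp [hc]
  · simp [hc, Ne.symm hc]

theorem r_sd1 {n i : ℕ} (h : i + 3 ≤ n) :
    Rel N n 1 [pos (i + 1), death i] [neg i, death (i + 1)] := by
  intro f s hs
  obtain ⟨A, r, hA, hr, rfl⟩ := split_state (show i ≤ n by omega) s hs
  rcases r with _ | ⟨a, _ | ⟨b, _ | ⟨c, r⟩⟩⟩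
  · simp at hr; omega
  · simp at hr; omega
  · simp at hr; omega
  simp only [M]
  rw [op_app (k := 1) (pos (i + 1)) hA rfl, op_app (k := 0) (neg i) hA rfl]
  have h1 : ∀ (r' : List (Fin N)), op (death i) f (A ++ r') =
      sh (base (death i)) 0 (fun r => f (A ++ r)) r' :=
    fun r' => op_app (death i) hA rfl f r'
  have h2 : ∀ (r' : List (Fin N)), op (death (i + 1)) f (A ++ r') =
      sh (base (death (i + 1))) 1 (fun r => f (A ++ r)) r' :=
    fun r' => op_app (death (i + 1)) hA rfl f r'
  simp only [sh, base, bB, h1, h2, bV, bH, bD]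
  by_cases hab : a = b
  · subst hab
    by_cases hac : a = c
    · subst hac
      simp only [ne_eq, not_true_eq_false, if_false, if_true, one_mul]
      symm
      refine Finset.sum_eq_zero fun d _ => ?_
      split_ifs <;> simp_all
    · simp only [ne_eq, hac, not_false_eq_true, if_true, one_mul]
      rw [Finset.sum_eq_single c]
      · simp [Ne.symm hac]
      · intro d _ hd
        simp [hd]
      · simp
  · simp [hab]

theorem r_sd2 {n i : ℕ} (h : i + 3 ≤ n) :
    Rel N n 1 [neg (i + 1), death i] [pos i, death (i + 1)] := by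
  intro f s hs
  obtain ⟨A, r, hA, hr, rfl⟩ := split_state (show i ≤ n by omega) s hs
  rcases r with _ | ⟨a, _ | ⟨b, _ | ⟨c, r⟩⟩⟩
  · simp at hr; omega
  · simp at hr; omega
  · simp at hr; omega
  simp only [M]
  rw [op_app (k := 1) (neg (i + 1)) hA rfl, op_app (k := 0) (pos i) hA rfl]
  have h1 : ∀ (r' : List (Fin N)), op (death i) f (A ++ r') =
      sh (base (death i)) 0 (fun r => f (A ++ r)) r' :=
    fun r' => op_app (death i) hA rfl f r'
  have h2 : ∀ (r' : List (Fin N)), op (death (i + 1)) f (A ++ r') =
      sh (base (death (i + 1))) 1 (fun r => f (A ++ r)) r' :=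
    fun r' => op_app (death (i + 1)) hA rfl f r'
  simp only [sh, base, bB, h1, h2, bV, bH, bD]
  by_cases hbc : b = c
  · subst hbc
    by_cases hab : a = b
    · subst hab
      simp only [ne_eq, not_true_eq_false, if_false, if_true, mul_zero]
      refine Finset.sum_eq_zero fun d _ => ?_
      split_ifs <;> simp_all
    · simp only [ne_eq, hab, not_false_eq_true, if_true, one_mul]
      rw [Finset.sum_eq_single a]
      · simp [hab]
      · intro d _ hd
        simp [Ne.symm hd]
      · simp
  · simp [hbc]

theorem r_sq (n i : ℕ) (b : Bool) : Rel N n 0 [cx b i, cx (!b) i] [] := by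
  intro f s hs
  rw [zero_mul]
  by_cases hi : i ≤ n
  · obtain ⟨A, r, hA, hr, rfl⟩ := split_state hi s hs
    have h1 : ∀ (r' : List (Fin N)), op (pos i) f (A ++ r') =
        sh (base (pos i)) 0 (fun r => f (A ++ r)) r' :=
      fun r' => op_app (pos i) hA rfl f r'
    have h2 : ∀ (r' : List (Fin N)), op (neg i) f (A ++ r') =
        sh (base (neg i)) 0 (fun r => f (A ++ r)) r' :=
      fun r' => op_app (neg i) hA rfl f r'
    cases b
    · show op (pos i) (op (neg i) f) (A ++ r) = 0
      rw [op_app (k := 0) (pos i) hA rfl]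
      rcases r with _ | ⟨x, _ | ⟨y, r⟩⟩ <;> simp only [sh, base, bV, h2, bH]
      by_cases hxy : x = y <;> simp [hxy]
    · show op (neg i) (op (pos i) f) (A ++ r) = 0
      rw [op_app (k := 0) (neg i) hA rfl]
      rcases r with _ | ⟨x, _ | ⟨y, r⟩⟩ <;> simp only [sh, base, bV, h1, bH]
      simp
  · -- the state is too short
    have hz : ∀ (g : Fn N → Fn N) (i : ℕ) (f : Fn N) (s : List (Fin N)), s.length < i →
        sh g i f s = 0 := by
      intro g i
      induction i with
      | zero => intro f s h; omega
      | succ i ih =>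
        intro f s h
        cases s with
        | nil => rfl
        | cons x s => exact ih _ s (by simpa using h)
    cases b
    · exact hz _ _ _ _ (by show s.length < i; omega)
    · exact hz _ _ _ _ (by show s.length < i; omega)

theorem r_th {n i : ℕ} (h : i + 3 ≤ n) :
    Rel N n 1 [pos i, pos (i + 1), pos i] [pos (i + 1), pos i, pos (i + 1)] := by
  intro f s hs
  obtain ⟨A, r, hA, hr, rfl⟩ := split_state (show i ≤ n by omega) s hs
  rcases r with _ | ⟨a, _ | ⟨b, _ | ⟨c, r⟩⟩⟩
  · simp at hr; omega
  · simp at hr; omega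
  · simp at hr; omega
  have h1 : ∀ (f : Fn N) (r' : List (Fin N)), op (pos i) f (A ++ r') =
      sh (base (pos i)) 0 (fun r => f (A ++ r)) r' :=
    fun f r' => op_app (pos i) hA rfl f r'
  have h2 : ∀ (f : Fn N) (r' : List (Fin N)), op (pos (i + 1)) f (A ++ r') =
      sh (base (pos (i + 1))) 1 (fun r => f (A ++ r)) r' :=
    fun f r' => op_app (pos (i + 1)) hA rfl f r'
  simp only [M, h1, h2, sh, base, bV]
  by_cases hab : a = b <;> by_cases hbc : b = c <;> simp [hab, hbc]

theorem r_kb (n i : ℕ) (hi : i ≤ n) (b : Bool) :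
    Rel N n (if b then (N : ℤ) - 1 else 0) [birth i, cx b i] [birth i] := by
  intro f s hs
  obtain ⟨A, r, hA, hr, rfl⟩ := split_state hi s hs
  have h1 : ∀ (r' : List (Fin N)), op (pos i) f (A ++ r') =
      sh (base (pos i)) 0 (fun r => f (A ++ r)) r' :=
    fun r' => op_app (pos i) hA rfl f r'
  have h2 : ∀ (r' : List (Fin N)), op (neg i) f (A ++ r') =
      sh (base (neg i)) 0 (fun r => f (A ++ r)) r' :=
    fun r' => op_app (neg i) hA rfl f r'
  cases b
  · show op (birth i) (op (pos i) f) (A ++ r) = _
    rw [op_app (k := 0) (birth i) hA rfl]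
    simp only [sh, base, bB, h1, bV]
    simp
  · show op (birth i) (op (neg i) f) (A ++ r) = _ * op (birth i) f (A ++ r)
    rw [op_app (k := 0) (birth i) hA rfl, op_app (k := 0) (birth i) hA rfl]
    simp only [sh, base, bB, h2, bH, if_true]
    rw [Finset.sum_comm, Finset.mul_sum]
    refine Finset.sum_congr rfl fun c _ => ?_
    rw [← Finset.sum_filter, Finset.sum_const, nsmul_eq_mul]
    congr 1
    have : (Finset.univ.filter (fun x : Fin N => c ≠ x)) = Finset.univ.erase c := by
      ext x; simp [eq_comm, ne_comm]
    rw [this, Finset.card_erase_of_mem (Finset.mem_univ _), Finset.card_univ, Fintype.card_fin]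
    have := c.pos
    push_cast [Nat.cast_sub (show 1 ≤ N by omega)]
    ring

theorem r_kd (n i : ℕ) (hi : i ≤ n) (b : Bool) :
    Rel N n (if b then (N : ℤ) - 1 else 0) [cx b i, death i] [death i] := by
  intro f s hs
  obtain ⟨A, r, hA, hr, rfl⟩ := split_state hi s hs
  have h1 : ∀ (f : Fn N) (r' : List (Fin N)), op (death i) f (A ++ r') =
      sh (base (death i)) 0 (fun r => f (A ++ r)) r' :=
    fun f r' => op_app (death i) hA rfl f r'
  cases b
  · show op (pos i) (op (death i) f) (A ++ r) = _
    rw [op_app (k := 0) (pos i) hA rfl]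
    rcases r with _ | ⟨x, _ | ⟨y, r⟩⟩ <;> simp only [sh, base, bV, h1, bD]
    · simp
    · simp
    · by_cases hxy : x = y <;> simp [hxy]
  · show op (neg i) (op (death i) f) (A ++ r) = _ * op (death i) f (A ++ r)
    rw [op_app (k := 0) (neg i) hA rfl, h1]
    rcases r with _ | ⟨x, _ | ⟨y, r⟩⟩ <;> simp only [sh, base, bH, h1, bD]
    · simp
    · simp
    · by_cases hxy : x = y
      · subst hxy
        simp only [if_true]
        rw [← Finset.sum_filter, Finset.sum_const, nsmul_eq_mul]
        congr 1
        have : (Finset.univ.filter (fun c : Fin N => c ≠ x)) = Finset.univ.erase x := by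
          ext x; simp
        rw [this, Finset.card_erase_of_mem (Finset.mem_univ _), Finset.card_univ,
          Fintype.card_fin]
        have := x.pos
        push_cast [Nat.cast_sub (show 1 ≤ N by omega)]
        ring
      · simp [hxy]

theorem r_circ (n i : ℕ) (hi : i ≤ n) : Rel N n N [birth i, death i] [] := by
  intro f s hs
  obtain ⟨A, r, hA, hr, rfl⟩ := split_state hi s hs
  have h1 : ∀ (f : Fn N) (r' : List (Fin N)), op (death i) f (A ++ r') =
      sh (base (death i)) 0 (fun r => f (A ++ r)) r' :=
    fun f r' => op_app (death i) hA rfl f r'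
  show op (birth i) (op (death i) f) (A ++ r) = _
  rw [op_app (k := 0) (birth i) hA rfl]
  simp only [sh, base, bB, h1, bD]
  simp [M]

/-- the skein relation -/
theorem r_skein {n i : ℕ} (hi : i + 2 ≤ n) (f : Fn N) (s : List (Fin N)) (hs : s.length = n) :
    M [pos i] f s - M [neg i] f s = M [] f s - M [death i, birth i] f s := by
  obtain ⟨A, r, hA, hr, rfl⟩ := split_state (show i ≤ n by omega) s hs
  have h1 : ∀ (f : Fn N) (p : Piece) (hp : p.index = i) (r' : List (Fin N)), op p f (A ++ r') =
      sh (base p) 0 (fun r => f (A ++ r)) r' :=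
    fun f p hp r' => op_app p hA (by simpa using hp) f r'
  rcases r with _ | ⟨x, _ | ⟨y, r⟩⟩
  · simp at hr; omega
  · simp at hr; omega
  simp only [M, h1 _ (pos i) rfl, h1 _ (neg i) rfl, h1 _ (death i) rfl, h1 _ (birth i) rfl,
    sh, base, bB, bD, bV, bH]
  by_cases hxy : x = y
  · subst hxy
    simp only [ne_eq, not_true_eq_false, if_false, if_true]
    rw [eq_comm, ← sub_eq_zero]
    have : ∑ c : Fin N, f (A ++ c :: c :: r) = f (A ++ x :: x :: r) +
        ∑ c : Fin N, (if ¬ c = x then f (A ++ c :: c :: r) else 0) := by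
      rw [← Finset.add_sum_erase _ _ (Finset.mem_univ x)]
      congr 1
      rw [← Finset.sum_filter]
      refine Finset.sum_congr ?_ fun _ _ => rfl
      ext c; simp
    rw [this]
    ring
  · simp [hxy]

/-! ### exchange of the heights -/

theorem base_nat (p : Piece) {u : List (Fin N)} (hu : u.length = p.ins) (F : Fn N)
    (s : List (Fin N)) : base p F (u ++ s) = base p (fun r => F (r ++ s)) u := by
  cases p with
  | birth i =>
    obtain rfl : u = [] := by simpa [Piece.ins] using hu
    simp [base, bB]
  | death i =>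
    rcases u with _ | ⟨a, _ | ⟨b, _ | ⟨c, u⟩⟩⟩ <;> simp [Piece.ins] at hu
    simp [base, bD]
  | pos i =>
    rcases u with _ | ⟨a, _ | ⟨b, _ | ⟨c, u⟩⟩⟩ <;> simp [Piece.ins] at hu
    simp [base, bV]
  | neg i =>
    rcases u with _ | ⟨a, _ | ⟨b, _ | ⟨c, u⟩⟩⟩ <;> simp [Piece.ins] at hu
    simp [base, bH]

theorem swap (p : Piece) (Q : Fn N → Fn N) (hQ : ∀ f f', Q (f + f') = Q f + Q f') (k : ℕ)
    {u : List (Fin N)} (hu : u.length = p.ins)
    (G : List (Fin N) → Fn N) (t : List (Fin N)) :
    base p (fun r => sh Q k (G r) t) u =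
      sh Q k (fun v => base p (fun r => G r v) u) t := by
  have hz : sh Q k (0 : Fn N) t = 0 := by
    have := congrFun (sh_add hQ k (0 : Fn N) 0) t
    simpa using this
  have hz' : sh Q k (fun _ => 0 : Fn N) t = 0 := hz
  have hs : ∀ F : Fin N → Fn N, ∑ c : Fin N, sh Q k (F c) t =
      sh Q k (fun v => ∑ c : Fin N, F c v) t := by
    intro F
    have := congrFun (sh_sum hQ k Finset.univ F) t
    rw [Finset.sum_apply] at this
    rw [← this]
    congr 1
    funext v
    rw [Finset.sum_apply]
  cases p with
  | birth i =>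
    obtain rfl : u = [] := by simpa [Piece.ins] using hu
    simp only [base, bB]
    exact hs _
  | death i =>
    rcases u with _ | ⟨a, _ | ⟨b, _ | ⟨c, u⟩⟩⟩ <;> simp [Piece.ins] at hu
    simp only [base, bD]
    by_cases hab : a = b
    · simp only [if_pos hab]
    · simp only [if_neg hab]
      exact hz'.symm
  | pos i =>
    rcases u with _ | ⟨a, _ | ⟨b, _ | ⟨c, u⟩⟩⟩ <;> simp [Piece.ins] at hu
    simp only [base, bV]
    by_cases hab : a ≠ b
    · simp only [if_pos hab]
    · simp only [if_neg hab]
      exact hz'.symm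
  | neg i =>
    rcases u with _ | ⟨a, _ | ⟨b, _ | ⟨c, u⟩⟩⟩ <;> simp [Piece.ins] at hu
    simp only [base, bH]
    by_cases hab : a = b
    · simp only [if_pos hab]
      rw [← hs]
      refine Finset.sum_congr rfl fun c _ => ?_
      by_cases hc : c ≠ a
      · simp only [if_pos hc]
      · simp only [if_neg hc]
        exact hz'.symm
    · simp only [if_neg hab]
      exact hz'.symm

theorem base_moved (q : Piece) (j : ℕ) : (base (q.moved j) : Fn N → Fn N) = base q := by
  cases q <;> rfl

theorem index_moved (q : Piece) (j : ℕ) : (q.moved j).index = j := by cases q <;> rfl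

theorem r_exch {n : ℕ} (p q : Piece) (h : p.index + p.ins ≤ q.index) (hn : q.index ≤ n) :
    Rel N n 1 [p, q.moved (q.index + p.outs - p.ins)] [q, p] := by
  intro f s hs
  rw [one_mul]
  obtain ⟨A, r, hA, hr, rfl⟩ := split_state (show p.index ≤ n by omega) s hs
  obtain ⟨u, t, hu, ht, rfl⟩ := split_state (show p.ins ≤ n - p.index by omega) r hr
  obtain ⟨k, hk⟩ : ∃ k, q.index = p.index + p.ins + k := ⟨q.index - (p.index + p.ins), by omega⟩
  simp only [M]
  rw [op_app (k := 0) p hA (by omega), sh, base_nat p hu]
  have e1 : ∀ r : List (Fin N), r.length = p.outs →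
      op (q.moved (q.index + p.outs - p.ins)) f (A ++ (r ++ t)) =
        sh (base q) k (fun v => f (A ++ (r ++ v))) t := by
    intro r hr
    rw [op_app (k := p.outs + k) _ hA (by rw [index_moved]; omega), base_moved,
      sh_app _ hr]
  rw [base_len p (n := p.ins) (m := p.outs) (le_refl _) (by omega) e1 u hu]
  rw [swap p (base q) (base_add q) k hu]
  have e2 : op q (op p f) (A ++ (u ++ t)) =
      sh (base q) k (fun v => op p f (A ++ (u ++ v))) t := by
    rw [op_app (k := p.ins + k) _ hA (by omega), sh_app _ hu]
  rw [e2]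
  congr 1
  funext v
  rw [op_app (k := 0) p hA (by omega), sh, base_nat p hu]

end Run7.h112
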