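import Pool.Agent.Run7.h112.Spec

/-!
# Reduced diagrams

(The definitions `RStep`, `RLab`, `NotNugatory`, `Reduced` are those of
`Pool.Agent.Helper82_Alt.Defs`, repeated here so that the statement does not depend on that file.)
-/

set_option autoImplicit false

namespace Run7.h112.R

open Pool.Agent.Helper454.Kauf

/-- Labels of the regions are carried along: `r j` is the label of the gap between the strands
`j - 1` and `j` above the piece, `r'` are the labels below. -/
def RStep : Piece → (ℕ → Bool) → (ℕ → Bool) → Prop
  | .birth i, r, r' => (∀ j ≤ i, r' j = r j) ∧ ∀ j ≥ i, r' (j + 2) = r j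
  | .death i, r, r' => (∀ j ≤ i, r j = r' j) ∧ ∀ j ≥ i, r (j + 2) = r' j
  | .pos i, r, r' => ∀ j, j ≠ i + 1 → r' j = r j
  | .neg i, r, r' => ∀ j, j ≠ i + 1 → r' j = r j

/-- `r` is a labelling of the regions of the diagram `D`: `r t j` is the label of the region of the
gap `j` at the level `t` (below the first `t` pieces); gaps of the same region have equal labels. The
gaps above, below and to the right of the diagram belong to the unbounded region. -/
def RLab (D : Word) (r : ℕ → ℕ → Bool) : Prop :=
  (∀ j, r 0 j = r 0 0) ∧ (∀ t, D.length ≤ t → r t = r 0) ∧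
    ∀ t (h : t < D.length), RStep D[t] (r t) (r (t + 1))

/-- The diagram is reduced: at no crossing two opposite corners belong to the same region, i.e. some
labelling of the regions distinguishes the left and the right corner, and some labelling
distinguishes the top and the bottom corner. -/
def Reduced (D : Word) : Prop :=
  ∀ t (h : t < D.length) i, (D[t] = Piece.pos i ∨ D[t] = Piece.neg i) →
    (∃ r, RLab D r ∧ r t i ≠ r t (i + 2)) ∧ ∃ r, RLab D r ∧ r t (i + 1) ≠ r (t + 1) (i + 1)

end Run7.h112.R
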