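import Pool.Agent.Run7.h112.SGSum
import Pool.Agent.Helper82_Alt.A2

/-!
# The invariant of 4-valent spatial graphs
-/

set_option autoImplicit false
set_option linter.unusedSimpArgs false
set_option linter.unusedVariables false

namespace Run7.h112

open LaurentPolynomial
open Pool.Agent.Helper454.Kauf
open Pool.Agent.Helper454.Kauf.Piece (birth death pos neg)
open Pool.Agent.Helper82_Alt (crs cx sg w_birth w_death w_cx w_nil width_append E e_zig1 e_zig2
  e_sb e_sd e_r2 e_third e_far e_third' e_over E.left E.right E.trans E.symm E.cong cx_true cx_false)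
open GPiece (lnk vtx)

noncomputable section

/-! ### regular isotopies of links -/

theorem step_nil {D E : Word} (h : RegStep D E) : D = [] ↔ E = [] := by
  obtain ⟨x, l, r, y, hlr, c1, c2⟩ := h
  obtain ⟨k, k', hx, hl, hy⟩ := Ex.split3 c1
  have n1 : x ++ l ++ y ≠ [] := by
    have := Ex.local_left_ne hlr
    simp [this]
  have n2 : x ++ r ++ y ≠ [] := by
    rcases Ex.local_width hlr hl with hr | hk
    · simp [hr]
    · exact Ex.ne_nil_of hx hk
  exact ⟨fun h => absurd h n1, fun h => absurd h n2⟩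

theorem kv_reg {D E : Word} (h : RegIsotopic D E) : (D = [] ↔ E = []) ∧ kv D = kv E := by
  induction h with
  | rel D E h =>
    refine ⟨step_nil h, ?_⟩
    obtain ⟨x, l, r, y, hlr, c1, c2⟩ := h
    exact kv_local hlr c1 c2
  | refl D => exact ⟨Iff.rfl, rfl⟩
  | symm D E _ ih => exact ⟨ih.1.symm, ih.2.symm⟩
  | trans D E F _ _ ih1 ih2 => exact ⟨ih1.1.trans ih2.1, ih1.2.trans ih2.2⟩

theorem mirE {n : ℕ} {l r : Word} (h : E n l r) : E n (mir l) (mir r) := by
  obtain ⟨⟨m, h1, h2⟩, h3⟩ := h
  refine ⟨⟨m, by rw [mir_width]; exact h1, by rw [mir_width]; exact h2⟩, ?_⟩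
  intro x y hx hc
  have h4 := h3 (mir x) (mir y) (by rw [mir_width]; exact hx) (by
    have := mir_closed.2 hc
    simpa only [mir_append, mir_mir] using this)
  have h5 := mir_reg h4
  simpa only [mir_append, mir_mir] using h5

/-- a context for a part with `n` strands above and `m` strands below -/
structure Ctx (n m : ℕ) where
  x : Word
  y : Word
  hx : width x 0 = some n
  hy : width y m = some 0

/-- the value in a context -/
def Ctx.v {n m : ℕ} (C : Ctx n m) (w : Word) : Raz := kv (C.x ++ w ++ C.y)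

theorem Ctx.closed {n m : ℕ} (C : Ctx n m) {w : Word} (h : width w n = some m) :
    Closed (C.x ++ w ++ C.y) := Ex.closed_of C.hx h C.hy

theorem Ctx.eqE {n m : ℕ} (C : Ctx n m) {l r : Word} (h : E n l r) (hl : width l n = some m) :
    C.v l = C.v r := (kv_reg (h.2 C.x C.y C.hx (C.closed hl))).2

/-- the skein relation inside a word -/
theorem Ctx.skein {n m k : ℕ} (C : Ctx n m) (u v : Word) (i : ℕ) (hu : width u n = some k)
    (hi : i + 2 ≤ k) (hv : width v k = some m) :
    C.v (u ++ [pos i] ++ v) + C.v (u ++ [neg i] ++ v) =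
      zVar * (C.v (u ++ v) + C.v (u ++ [death i, birth i] ++ v)) := by
  have hc : Closed ((C.x ++ u) ++ [pos i] ++ (v ++ C.y)) := by
    refine Ex.closed_of (k := k) (k' := k) ?_ (w_cx false [] hi) ?_
    · rw [width_append, C.hx, Option.bind_some, hu]
    · rw [width_append, hv, Option.bind_some, C.hy]
  have := kv_skein (C.x ++ u) i (v ++ C.y) hc
  simpa only [Ctx.v, List.append_assoc] using this

theorem Ctx.curlD {n m k : ℕ} (C : Ctx n m) (b : Bool) (u v : Word) (i : ℕ)
    (hu : width u n = some k) (hi : i + 2 ≤ k) (hv : width v (k - 2) = some m) :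
    C.v (u ++ [cx b i, death i] ++ v) = aPow (sg b) * C.v (u ++ [death i] ++ v) := by
  have hc : Closed ((C.x ++ u) ++ [death i] ++ (v ++ C.y)) := by
    refine Ex.closed_of (k := k) (k' := k - 2) ?_ (w_death [] hi) ?_
    · rw [width_append, C.hx, Option.bind_some, hu]
    · rw [width_append, hv, Option.bind_some, C.hy]
  have := kv_cxDeath b (C.x ++ u) i (v ++ C.y) hc
  simpa only [Ctx.v, List.append_assoc] using this

theorem Ctx.curlB {n m k : ℕ} (C : Ctx n m) (b : Bool) (u v : Word) (i : ℕ)
    (hu : width u n = some k) (hi : i ≤ k) (hv : width v (k + 2) = some m) :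
    C.v (u ++ [birth i, cx b i] ++ v) = aPow (sg b) * C.v (u ++ [birth i] ++ v) := by
  have hc : Closed ((C.x ++ u) ++ [birth i] ++ (v ++ C.y)) := by
    refine Ex.closed_of (k := k) (k' := k + 2) ?_ (w_birth [] hi) ?_
    · rw [width_append, C.hx, Option.bind_some, hu]
    · rw [width_append, hv, Option.bind_some, C.hy]
  have := kv_cxBirth b (C.x ++ u) i (v ++ C.y) hc
  simpa only [Ctx.v, List.append_assoc] using this

/-! ### the relations for the fillings -/

/-- the abbreviation for `a` -/
abbrev ka : Raz := aPow 1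
/-- the abbreviation for `a⁻¹` -/
abbrev kA : Raz := aPow (-1)

theorem aA : ka * kA - 1 = 0 := by rw [Ex.raz_aa, sub_self]

theorem zd : zVar * dlt + zVar - ka - kA = 0 := by
  rw [dlt, mul_sub, ← mul_assoc, Ex.raz_zz]; ring

section fill

variable {n : ℕ}

theorem fwd {i : ℕ} (h : i + 2 ≤ n) (b : Fl) : width (fl b i) n = some n := fl_width b h

theorem top_I (C : Ctx n n) {i : ℕ} (h : i + 2 ≤ n) (b : Bool) :
    C.v (cx b i :: fl .I i) = C.v [cx b i] := rfl

theorem top_E (C : Ctx n n) {i : ℕ} (h : i + 2 ≤ n) (b : Bool) :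
    C.v (cx b i :: fl .E i) = aPow (sg b) * C.v (fl .E i) := by
  have := C.curlD b [] [birth i] i rfl h (by rw [w_birth _ (by omega), w_nil]; congr 1; omega)
  simp only [List.nil_append, List.cons_append] at this
  exact this

theorem bot_E (C : Ctx n n) {i : ℕ} (h : i + 2 ≤ n) (b : Bool) :
    C.v (fl .E i ++ [cx b i]) = aPow (sg b) * C.v (fl .E i) := by
  have := C.curlB b [death i] [] i (w_death [] h) (by omega) (by rw [w_nil]; congr 1; omega)
  simp only [List.nil_append, List.cons_append, List.append_nil] at this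
  exact this

theorem neg_eq (C : Ctx n n) {i : ℕ} (h : i + 2 ≤ n) :
    C.v [neg i] = zVar * (C.v (fl .I i) + C.v (fl .E i)) - C.v (fl .P i) := by
  have := C.skein [] [] i rfl h rfl
  simp only [List.nil_append, List.append_nil] at this
  show C.v [neg i] = zVar * (C.v [] + C.v [death i, birth i]) - C.v [pos i]
  linear_combination this

theorem nP (C : Ctx n n) {i : ℕ} (h : i + 2 ≤ n) : C.v [neg i, pos i] = C.v [] := by
  refine C.eqE (e_r2 true h) ?_
  show width [cx true i, cx false i] n = some n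
  rw [w_cx _ _ h, w_cx _ _ h, w_nil]

theorem pN (C : Ctx n n) {i : ℕ} (h : i + 2 ≤ n) : C.v [pos i, neg i] = C.v [] := by
  refine C.eqE (e_r2 false h) ?_
  show width [cx false i, cx true i] n = some n
  rw [w_cx _ _ h, w_cx _ _ h, w_nil]

theorem pP (C : Ctx n n) {i : ℕ} (h : i + 2 ≤ n) : C.v [pos i, pos i] =
    zVar * C.v (fl .P i) + zVar * kA * C.v (fl .E i) - C.v (fl .I i) := by
  have h1 := C.skein [pos i] [] i (w_cx false [] h) h rfl
  have h2 := top_E C h false
  have h3 := pN C h
  simp only [List.append_nil, List.cons_append, List.nil_append] at h1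
  change C.v [pos i, death i, birth i] = kA * C.v (fl .E i) at h2
  show _ = zVar * C.v [pos i] + zVar * kA * C.v (fl .E i) - C.v []
  rw [h2, h3] at h1
  linear_combination h1

end fill

/-- the weights of the pairs of fillings -/
def om : Fl → Fl → Raz
  | .I, .I => dlt - 1 - zVar * ka + zVar ^ 2
  | .I, .E => zVar ^ 2 - 1
  | .I, .P => ka - zVar
  | .E, .I => zVar ^ 2 - 1
  | .E, .E => dlt - 1 - zVar * kA + zVar ^ 2
  | .E, .P => kA - zVar
  | .P, .I => ka - zVar
  | .P, .E => kA - zVar
  | .P, .P => 1 - dlt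

/-- twisting, on the two sides -/
theorem tw_PN {xI xE xP yI yE yP XI XE XP YI YE YP : Raz} (h1 : XI = xP) (h2 : XE = kA * xE)
    (h3 : XP = zVar * xP + zVar * kA * xE - xI) (h4 : YI = zVar * (yI + yE) - yP)
    (h5 : YE = ka * yE) (h6 : YP = yI) :
    (om .I .I * (XI * YI) + om .I .E * (XI * YE) + om .I .P * (XI * YP)) +
    (om .E .I * (XE * YI) + om .E .E * (XE * YE) + om .E .P * (XE * YP)) +
    (om .P .I * (XP * YI) + om .P .E * (XP * YE) + om .P .P * (XP * YP)) =
    (om .I .I * (xI * yI) + om .I .E * (xI * yE) + om .I .P * (xI * yP)) +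
    (om .E .I * (xE * yI) + om .E .E * (xE * yE) + om .E .P * (xE * yP)) +
    (om .P .I * (xP * yI) + om .P .E * (xP * yE) + om .P .P * (xP * yP)) := by
  rw [h1, h2, h3, h4, h5, h6]
  have d1 := zd
  have d2 := aA
  simp only [om]
  generalize dlt = d at *
  generalize zVar = z at *
  generalize ka = a at *
  generalize kA = A at *
  linear_combination (-A*xE*yI + xP*yE) * d1 + (-xI*yE + (-1 + z^2)*xE*yI +
    (-1 + d + z^2)*xE*yE - z*xE*yP + z*xP*yE) * d2

theorem tw_NP {xI xE xP yI yE yP XI XE XP YI YE YP : Raz} (h1 : YI = yP) (h2 : YE = kA * yE)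
    (h3 : YP = zVar * yP + zVar * kA * yE - yI) (h4 : XI = zVar * (xI + xE) - xP)
    (h5 : XE = ka * xE) (h6 : XP = xI) :
    (om .I .I * (XI * YI) + om .I .E * (XI * YE) + om .I .P * (XI * YP)) +
    (om .E .I * (XE * YI) + om .E .E * (XE * YE) + om .E .P * (XE * YP)) +
    (om .P .I * (XP * YI) + om .P .E * (XP * YE) + om .P .P * (XP * YP)) =
    (om .I .I * (xI * yI) + om .I .E * (xI * yE) + om .I .P * (xI * yP)) +
    (om .E .I * (xE * yI) + om .E .E * (xE * yE) + om .E .P * (xE * yP)) +
    (om .P .I * (xP * yI) + om .P .E * (xP * yE) + om .P .P * (xP * yP)) := by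
  rw [h1, h2, h3, h4, h5, h6]
  have d1 := zd
  have d2 := aA
  simp only [om]
  generalize dlt = d at *
  generalize zVar = z at *
  generalize ka = a at *
  generalize kA = A at *
  linear_combination (-A*xI*yE + xE*yP) * d1 + ((-1 + z^2)*xI*yE - xE*yI +
    (-1 + d + z^2)*xE*yE + z*xE*yP - z*xP*yE) * d2

theorem rot_id {xI xE xP yI yE yP XI XE XP YI YE YP : Raz} (h1 : XI = xE) (h2 : XE = xI)
    (h3 : XP = zVar * (xI + xE) - xP) (h4 : YI = yE) (h5 : YE = yI)
    (h6 : YP = zVar * (yI + yE) - yP) :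
    (om .I .I * (XI * YI) + om .I .E * (XI * YE) + om .I .P * (XI * YP)) +
    (om .E .I * (XE * YI) + om .E .E * (XE * YE) + om .E .P * (XE * YP)) +
    (om .P .I * (XP * YI) + om .P .E * (XP * YE) + om .P .P * (XP * YP)) =
    (om .I .I * (xI * yI) + om .I .E * (xI * yE) + om .I .P * (xI * yP)) +
    (om .E .I * (xE * yI) + om .E .E * (xE * yE) + om .E .P * (xE * yP)) +
    (om .P .I * (xP * yI) + om .P .E * (xP * yE) + om .P .P * (xP * yP)) := by
  rw [h1, h2, h3, h4, h5, h6]
  have d1 := zd
  simp only [om]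
  generalize dlt = d at *
  generalize zVar = z at *
  generalize ka = a at *
  generalize kA = A at *
  linear_combination (-z*xI*yI - z*xI*yE + xI*yP - z*xE*yI - z*xE*yE + xE*yP + xP*yI +
    xP*yE) * d1

end

end Run7.h112
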