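import Pool.Agent.Run7.h112.SGInv

/-!
# The invariant of 4-valent spatial graphs: the moves
-/

set_option autoImplicit false
set_option linter.unusedSimpArgs false
set_option linter.unusedVariables false

namespace Run7.h112

open LaurentPolynomial
open Pool.Agent.Helper454.Kauf
open Pool.Agent.Helper454.Kauf.Piece (birth death pos neg)
open Pool.Agent.Helper82_Alt (crs cx sg w_birth w_death w_cx w_nil width_append E e_zig1 e_zig2
  e_sb e_sd e_r2 e_third e_far e_third' e_over E.left E.right E.trans E.symm E.cong cx_true cx_false
  E_of_local e_invcong cw ic)
open GPiece (lnk vtx)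

/-! ### relations between words of links -/

theorem exL {n i : ℕ} (p : Piece) (h : p.index + p.ins ≤ i) (h' : i + 2 ≤ n) (b : Fl) :
    E n (p :: fl b (i + p.outs - p.ins)) (fl b i ++ [p]) := by
  have hin : p.index + p.ins ≤ n := by omega
  have hw : ∃ m, width [p] n = some m := by
    cases p with
    | birth j => exact ⟨_, w_birth [] (by simpa [Piece.index, Piece.ins] using hin)⟩
    | death j => exact ⟨_, w_death [] (by simpa [Piece.index, Piece.ins] using hin)⟩
    | pos j => exact ⟨_, w_cx false [] (by simpa [Piece.index, Piece.ins] using hin)⟩
    | neg j => exact ⟨_, w_cx true [] (by simpa [Piece.index, Piece.ins] using hin)⟩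
  cases b with
  | I =>
    obtain ⟨m, hm⟩ := hw
    exact E.refl (m := m) hm
  | P => exact e_far p (pos i) h h'
  | E =>
    have e1 := (e_far p (death i) h h').right [birth (i + p.outs - p.ins)] (by
      cases p with
      | birth j =>
        simp only [Piece.index, Piece.ins, Piece.outs, Piece.moved] at *
        refine ⟨n + 2, ?_⟩
        show width [birth j, death _, birth _] n = _
        rw [w_birth _ (by omega), w_death _ (by omega), w_birth _ (by omega), w_nil]
        congr 1
      | death j =>
        simp only [Piece.index, Piece.ins, Piece.outs, Piece.moved] at *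
        refine ⟨n - 2, ?_⟩
        show width [death j, death _, birth _] n = _
        rw [w_death _ (by omega), w_death _ (by omega), w_birth _ (by omega), w_nil]
        congr 1; omega
      | pos j =>
        simp only [Piece.index, Piece.ins, Piece.outs, Piece.moved] at *
        refine ⟨n, ?_⟩
        show width [cx false j, death _, birth _] n = _
        rw [w_cx _ _ (by omega), w_death _ (by omega), w_birth _ (by omega), w_nil]
        congr 1; omega
      | neg j =>
        simp only [Piece.index, Piece.ins, Piece.outs, Piece.moved] at *
        refine ⟨n, ?_⟩
        show width [cx true j, death _, birth _] n = _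
        rw [w_cx _ _ (by omega), w_death _ (by omega), w_birth _ (by omega), w_nil]
        congr 1; omega)
    have e2 := (e_far (n := n - 2) p (birth i) h (by
      show i + 0 ≤ n - 2; omega)).left (m := n) [death i] (w_death [] h')
    have e1' : E n (p :: fl .E (i + p.outs - p.ins)) ([death i] ++ [p, (birth i).moved
        ((birth i).index + p.outs - p.ins)]) := e1
    exact e1'.trans e2

theorem moved_self (q : Piece) : q.moved q.index = q := by cases q <;> rfl

theorem moved_moved (q : Piece) (i j : ℕ) : (q.moved i).moved j = q.moved j := by cases q <;> rfl

theorem ins_moved (q : Piece) (j : ℕ) : (q.moved j).ins = q.ins := by cases q <;> rfl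

theorem exR {n j : ℕ} (q : Piece) (h : j + 2 ≤ q.index) (h' : q.index + q.ins ≤ n) (b : Fl) :
    E n (fl b j ++ [q]) (q :: fl b j) := by
  have hw : ∃ m, width [q] n = some m := by
    cases q with
    | birth j => exact ⟨_, w_birth [] (by simpa [Piece.index, Piece.ins] using h')⟩
    | death j => exact ⟨_, w_death [] (by simpa [Piece.index, Piece.ins] using h')⟩
    | pos j => exact ⟨_, w_cx false [] (by simpa [Piece.index, Piece.ins] using h')⟩
    | neg j => exact ⟨_, w_cx true [] (by simpa [Piece.index, Piece.ins] using h')⟩
  cases b with
  | I =>
    obtain ⟨m, hm⟩ := hw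
    exact E.refl (m := m) hm
  | P =>
    have := e_far (n := n) (pos j) q h h'
    have e : q.moved (q.index + (pos j).outs - (pos j).ins) = q := by
      show q.moved (q.index + 2 - 2) = q
      rw [Nat.add_sub_cancel, moved_self]
    rw [e] at this
    exact this
  | E =>
    have h1 := e_far (n := n) (death j) q h h'
    have e1 : q.moved (q.index + (death j).outs - (death j).ins) = q.moved (q.index - 2) := rfl
    rw [e1] at h1
    have h2 := e_far (n := n - 2) (birth j) (q.moved (q.index - 2)) (by
      rw [index_moved]; show j + 0 ≤ q.index - 2; omega) (by
      rw [index_moved, ins_moved]; omega)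
    rw [index_moved, moved_moved] at h2
    have e2 : q.moved (q.index - 2 + (birth j).outs - (birth j).ins) = q := by
      show q.moved (q.index - 2 + 2 - 0) = q
      have : q.index - 2 + 2 - 0 = q.index := by omega
      rw [this, moved_self]
    rw [e2] at h2
    have h3 := h2.left (m := n) [death j] (w_death [] (by omega))
    have h4 := h1.right [birth j] (by
      obtain ⟨⟨m, hm1, hm2⟩, _⟩ := h1
      rw [width_append, hm1, Option.bind_some]
      cases q with
      | birth k =>
        simp only [Piece.index, Piece.ins] at *
        have := w_birth (i := k) (n := n) [death j] (by omega)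
        rw [w_death _ (by omega), w_nil] at this
        rw [this] at hm2
        have hm := Option.some.inj hm2
        exact ⟨_, w_birth [] (by omega)⟩
      | death k =>
        simp only [Piece.index, Piece.ins] at *
        rw [w_death _ (by omega), w_death _ (by omega), w_nil] at hm2
        have hm := Option.some.inj hm2
        exact ⟨_, w_birth [] (by omega)⟩
      | pos k =>
        simp only [Piece.index, Piece.ins] at *
        have := w_cx false (i := k) (n := n) [death j] (by omega)
        rw [w_death _ (by omega), w_nil] at this
        rw [cx_false] at this
        rw [this] at hm2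
        have hm := Option.some.inj hm2
        exact ⟨_, w_birth [] (by omega)⟩
      | neg k =>
        simp only [Piece.index, Piece.ins] at *
        have := w_cx true (i := k) (n := n) [death j] (by omega)
        rw [w_death _ (by omega), w_nil] at this
        rw [cx_true] at this
        rw [this] at hm2
        have hm := Option.some.inj hm2
        exact ⟨_, w_birth [] (by omega)⟩)
    exact E.trans (r := [death j, q.moved (q.index - 2), birth j]) h3 h4

theorem fl_nil (b : Fl) (i : ℕ) : fl b i ++ [] = fl b i := List.append_nil _

theorem exV {n i j : ℕ} (h : j + 2 ≤ i) (h' : i + 2 ≤ n) (b c : Fl) :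
    E n (fl b j ++ fl c i) (fl c i ++ fl b j) := by
  have wb : ∀ k, i ≤ k → width (fl b j) k = some k := fun k hk => fl_width b (by omega)
  cases c with
  | I =>
    have : fl b j ++ fl .I i = fl .I i ++ fl b j := by simp [fl]
    rw [this]
    exact E.refl (m := n) (by show width (fl b j) n = _; exact wb n (by omega))
  | P => exact exR (pos i) h h' b
  | E =>
    have h1 := (exR (n := n) (j := j) (death i) h h' b).right [birth i] ⟨n, by
      rw [width_append, width_append, wb n (by omega), Option.bind_some, w_death _ h', w_nil,
        Option.bind_some, w_birth _ (by omega), w_nil]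
      congr 1; omega⟩
    have h2 := (exR (n := n - 2) (j := j) (birth i) h (by show i + 0 ≤ n - 2; omega) b).left
      (m := n) [death i] (w_death [] h')
    have h1' : E n (fl b j ++ fl .E i) ([death i] ++ (fl b j ++ [birth i])) := by
      have : (fl b j ++ [death i]) ++ [birth i] = fl b j ++ fl .E i := by simp [fl]
      rw [this] at h1
      exact h1
    exact h1'.trans h2

/-- an arc moves to the right past a filling -/
theorem arcR {n i : ℕ} (e : Bool) (h : i + 3 ≤ n) (b : Fl) :
    E n ([cx e i, cx e (i + 1)] ++ fl b i) (fl b (i + 1) ++ [cx e i, cx e (i + 1)]) := by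
  cases b with
  | I =>
    exact E.refl (m := n) (by
      show width [cx e i, cx e (i + 1)] n = _
      rw [w_cx _ _ (by omega), w_cx _ _ (by omega), w_nil])
  | P =>
    cases e
    · exact e_third h
    · exact e_over false h
  | E =>
    -- both sides are equivalent to `[death (i+1), birth i]`
    have a1 : E n [cx e i, cx e (i + 1), death i, birth i]
        [cx e i, cx (!e) i, death (i + 1), birth i] := by
      have := E.cong (m := n) [cx e i] [birth i] (e_sd (n := n) (i := i) e h)
        (by rw [w_cx _ _ (by omega), w_nil]) ⟨n, by
          show width [cx e i, cx e (i + 1), death i, birth i] n = _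
          rw [w_cx _ _ (by omega), w_cx _ _ (by omega), w_death _ (by omega),
            w_birth _ (by omega), w_nil]
          congr 1; omega⟩
      exact this
    have a2 : E n [cx e i, cx (!e) i, death (i + 1), birth i] [death (i + 1), birth i] := by
      have := E.right (n := n) [death (i + 1), birth i] (e_r2 (n := n) (i := i) e (by omega)) ⟨n, by
          show width [cx e i, cx (!e) i, death (i + 1), birth i] n = _
          rw [w_cx _ _ (by omega), w_cx _ _ (by omega), w_death _ (by omega),
            w_birth _ (by omega), w_nil]
          congr 1; omega⟩
      exact this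
    have a3 : E n [death (i + 1), birth i, cx (!e) (i + 1), cx e (i + 1)]
        [death (i + 1), birth (i + 1), cx e i, cx e (i + 1)] := by
      have h0 := e_sb (n := n - 2) (i := i) (!e) (by omega)
      rw [Bool.not_not] at h0
      have := E.cong (m := n) [death (i + 1)] [cx e (i + 1)] h0
        (by rw [w_death _ (by omega), w_nil]) ⟨n, by
          show width [death (i + 1), birth i, cx (!e) (i + 1), cx e (i + 1)] n = _
          rw [w_death _ (by omega), w_birth _ (by omega), w_cx _ _ (by omega),
            w_cx _ _ (by omega), w_nil]
          congr 1; omega⟩
      exact this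
    have a4 : E n [death (i + 1), birth i, cx (!e) (i + 1), cx e (i + 1)]
        [death (i + 1), birth i] := by
      have h0 := e_r2 (n := n) (i := i + 1) (!e) (by omega)
      rw [Bool.not_not] at h0
      have := E.left (m := n) [death (i + 1), birth i] h0
        (by rw [w_death _ (by omega), w_birth _ (by omega), w_nil]; congr 1; omega)
      exact this
    exact (a1.trans a2).trans (a4.symm.trans a3)

/-- the braid relation for an arc passing to the left -/
theorem e_overL {n i : ℕ} (h : i + 3 ≤ n) :
    E n [neg (i + 1), neg i, pos (i + 1)] [pos i, neg (i + 1), neg i] := by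
  have h1 := mirE (e_over (n := n) (i := i) true h)
  have h1' : E n (mir [neg i, neg (i + 1), pos i]) (mir [pos (i + 1), neg i, neg (i + 1)]) :=
    mirE (e_over (n := n) (i := i) false h)
  have h2 := e_invcong (n := n) (u := [(false, i), (false, i + 1), (true, i)])
    (v := [(true, i + 1), (false, i), (false, i + 1)])
    (by simp; omega) (by simp; omega) h1'
  have h3 : E n [pos i, neg (i + 1), neg i] [neg (i + 1), neg i, pos (i + 1)] := by
    simpa [ic, cw, cx] using h2
  exact h3.symm

/-- an arc moves to the left past a filling -/
theorem arcL {n i : ℕ} (e : Bool) (h : i + 3 ≤ n) (b : Fl) :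
    E n ([cx e (i + 1), cx e i] ++ fl b (i + 1)) (fl b i ++ [cx e (i + 1), cx e i]) := by
  cases b with
  | I =>
    exact E.refl (m := n) (by
      show width [cx e (i + 1), cx e i] n = _
      rw [w_cx _ _ (by omega), w_cx _ _ (by omega), w_nil])
  | P =>
    cases e
    · exact (e_third h).symm
    · exact e_overL h
  | E =>
    have a1 : E n [cx e (i + 1), cx (!e) (i + 1), death i, birth (i + 1)]
        [cx e (i + 1), cx e i, death (i + 1), birth (i + 1)] := by
      have h0 := e_sd (n := n) (i := i) (!e) h
      rw [Bool.not_not] at h0
      have := E.cong (m := n) [cx e (i + 1)] [birth (i + 1)] h0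
        (by rw [w_cx _ _ (by omega), w_nil]) ⟨n, by
          show width [cx e (i + 1), cx (!e) (i + 1), death i, birth (i + 1)] n = _
          rw [w_cx _ _ (by omega), w_cx _ _ (by omega), w_death _ (by omega),
            w_birth _ (by omega), w_nil]
          congr 1; omega⟩
      exact this
    have a2 : E n [cx e (i + 1), cx (!e) (i + 1), death i, birth (i + 1)]
        [death i, birth (i + 1)] := by
      have := E.right (n := n) [death i, birth (i + 1)] (e_r2 (n := n) (i := i + 1) e (by omega))
        ⟨n, by
          show width [cx e (i + 1), cx (!e) (i + 1), death i, birth (i + 1)] n = _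
          rw [w_cx _ _ (by omega), w_cx _ _ (by omega), w_death _ (by omega),
            w_birth _ (by omega), w_nil]
          congr 1; omega⟩
      exact this
    have a3 : E n [death i, birth i, cx e (i + 1), cx e i]
        [death i, birth (i + 1), cx (!e) i, cx e i] := by
      have h0 := e_sb (n := n - 2) (i := i) e (by omega)
      have := E.cong (m := n) [death i] [cx e i] h0
        (by rw [w_death _ (by omega), w_nil]) ⟨n, by
          show width [death i, birth i, cx e (i + 1), cx e i] n = _
          rw [w_death _ (by omega), w_birth _ (by omega), w_cx _ _ (by omega),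
            w_cx _ _ (by omega), w_nil]
          congr 1; omega⟩
      exact this
    have a4 : E n [death i, birth (i + 1), cx (!e) i, cx e i] [death i, birth (i + 1)] := by
      have h0 := e_r2 (n := n) (i := i) (!e) (by omega)
      rw [Bool.not_not] at h0
      have := E.left (m := n) [death i, birth (i + 1)] h0
        (by rw [w_death _ (by omega), w_birth _ (by omega), w_nil]; congr 1; omega)
      exact this
    exact (a1.symm.trans a2).trans (a3.trans a4).symm

end Run7.h112
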