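import Pool.Agent.Run7.h112.SGInv2

/-!
# The invariant of 4-valent spatial graphs: invariance
-/

set_option autoImplicit false
set_option linter.unusedSimpArgs false
set_option linter.unusedVariables false

namespace Run7.h112

open LaurentPolynomial
open Pool.Agent.Helper454.Kauf
open Pool.Agent.Helper454.Kauf.Piece (birth death pos neg)
open Pool.Agent.Helper82_Alt (crs cx sg w_birth w_death w_cx w_nil width_append E e_zig1 e_zig2
  e_sb e_sd e_r2 e_third e_far e_third' e_over E.left E.right E.trans E.symm E.cong cx_true cx_false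
  E_of_local)
open GPiece (lnk vtx)

noncomputable section

/-- the invariant -/
def Hg (G : GWord) : Raz := HS om G (fun s t => kv s * kv t)

/-- equality of the sums in all contexts -/
def GEq (n m : ℕ) (l r : GWord) : Prop :=
  gwidth l n = some m ∧
  ∀ (C D : Ctx n m), HS om l (fun a b => C.v a * D.v b) = HS om r (fun a b => C.v a * D.v b)

theorem Hg_ctx {n m : ℕ} {l r x y : GWord} (h : GEq n m l r) (hx : gwidth x 0 = some n)
    (hy : gwidth y m = some 0) : Hg (x ++ l ++ y) = Hg (x ++ r ++ y) := by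
  have key : ∀ l : GWord, Hg (x ++ l ++ y) = HS om x (fun s t => HS om y (fun c d =>
      HS om l (fun a b => kv (s ++ a ++ c) * kv (t ++ b ++ d)))) := by
    intro l
    rw [Hg, HS_append, HS_append]
    congr 1
    funext s t
    rw [HS_comm]
  rw [key, key]
  refine HS_congr om x hx fun s t hs ht => ?_
  refine HS_congr om y hy fun c d hc hd => ?_
  exact h.2 ⟨s, c, hs, hc⟩ ⟨t, d, ht, hd⟩

theorem gwidth_lift (w : Word) (n : ℕ) : gwidth (lift w) n = width w n := by
  induction w generalizing n with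
  | nil => rfl
  | cons p w ih =>
    show gwidth (lnk p :: lift w) n = _
    rw [gwidth, width]
    show (p.width n).bind _ = _
    congr 1
    funext k
    exact ih k

/-! ### the moves -/

theorem g_local {n m : ℕ} {l r : Word} (h : LocalMove l r) (hl : width l n = some m)
    (hr : width r n = some m) : GEq n m (lift l) (lift r) := by
  refine ⟨by rw [gwidth_lift]; exact hl, fun C D => ?_⟩
  have hE := E_of_local h hl hr
  rw [HS_lift, HS_lift, C.eqE hE hl, D.eqE (mirE hE) (by rw [mir_width]; exact hl)]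

theorem g_first {n m : ℕ} {l r : Word} (h : FirstMove l r) (hl : width l n = some m) :
    GEq n m (lift l) (lift r) := by
  refine ⟨by rw [gwidth_lift]; exact hl, fun C D => ?_⟩
  rw [HS_lift, HS_lift]
  have aa : kA * ka = 1 := by rw [mul_comm]; exact Ex.raz_aa
  have aa' : ka * kA = 1 := Ex.raz_aa
  cases h with
  | birthPos i =>
    obtain ⟨k, hk, hl⟩ := Ex.wd_cons hl
    obtain ⟨k', hk', hl⟩ := Ex.wd_cons hl
    obtain rfl := Ex.wd_nil hl
    obtain ⟨h1, rfl⟩ := Ex.wd_birth hk
    obtain ⟨h2, h3⟩ := Ex.wd_pos hk'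
    subst h3
    have e1 := C.curlB false [] [] i rfl h1 rfl
    have e2 := D.curlB true [] [] i rfl h1 rfl
    simp only [List.nil_append, List.append_nil, cx_false, cx_true] at e1 e2
    show C.v [birth i, pos i] * D.v [birth i, neg i] = C.v [birth i] * D.v [birth i]
    rw [e1, e2]
    show kA * _ * (ka * _) = _
    linear_combination (C.v [birth i] * D.v [birth i]) * aa
  | birthNeg i =>
    obtain ⟨k, hk, hl⟩ := Ex.wd_cons hl
    obtain ⟨k', hk', hl⟩ := Ex.wd_cons hl
    obtain rfl := Ex.wd_nil hl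
    obtain ⟨h1, rfl⟩ := Ex.wd_birth hk
    obtain ⟨h2, h3⟩ := Ex.wd_neg hk'
    subst h3
    have e1 := C.curlB true [] [] i rfl h1 rfl
    have e2 := D.curlB false [] [] i rfl h1 rfl
    simp only [List.nil_append, List.append_nil, cx_false, cx_true] at e1 e2
    show C.v [birth i, neg i] * D.v [birth i, pos i] = C.v [birth i] * D.v [birth i]
    rw [e1, e2]
    show ka * _ * (kA * _) = _
    linear_combination (C.v [birth i] * D.v [birth i]) * aa
  | deathPos i =>
    obtain ⟨k, hk, hl⟩ := Ex.wd_cons hl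
    obtain ⟨k', hk', hl⟩ := Ex.wd_cons hl
    obtain rfl := Ex.wd_nil hl
    obtain ⟨h1, h1'⟩ := Ex.wd_pos hk
    subst h1'
    obtain ⟨h2, h3⟩ := Ex.wd_death hk'
    subst h3
    have e1 := C.curlD false [] [] i rfl h1 rfl
    have e2 := D.curlD true [] [] i rfl h1 rfl
    simp only [List.nil_append, List.append_nil, cx_false, cx_true] at e1 e2
    show C.v [pos i, death i] * D.v [neg i, death i] = C.v [death i] * D.v [death i]
    rw [e1, e2]
    show kA * _ * (ka * _) = _
    linear_combination (C.v [death i] * D.v [death i]) * aa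
  | deathNeg i =>
    obtain ⟨k, hk, hl⟩ := Ex.wd_cons hl
    obtain ⟨k', hk', hl⟩ := Ex.wd_cons hl
    obtain rfl := Ex.wd_nil hl
    obtain ⟨h1, h1'⟩ := Ex.wd_neg hk
    subst h1'
    obtain ⟨h2, h3⟩ := Ex.wd_death hk'
    subst h3
    have e1 := C.curlD true [] [] i rfl h1 rfl
    have e2 := D.curlD false [] [] i rfl h1 rfl
    simp only [List.nil_append, List.append_nil, cx_false, cx_true] at e1 e2
    show C.v [neg i, death i] * D.v [pos i, death i] = C.v [death i] * D.v [death i]
    rw [e1, e2]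
    show ka * _ * (kA * _) = _
    linear_combination (C.v [death i] * D.v [death i]) * aa

theorem gw_lnk {p : Piece} {n k : ℕ} (h : (lnk p).width n = some k) : p.width n = some k := h

theorem mirP_index (p : Piece) : (mirP p).index = p.index := by cases p <;> rfl
theorem mirP_ins (p : Piece) : (mirP p).ins = p.ins := by cases p <;> rfl
theorem mirP_outs (p : Piece) : (mirP p).outs = p.outs := by cases p <;> rfl

theorem E_w {n m : ℕ} {l r : Word} (h : E n l r) (hr : width r n = some m) :
    width l n = some m := by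
  obtain ⟨⟨k, h1, h2⟩, _⟩ := h
  rw [h2] at hr
  rw [h1, hr]

theorem w_app_fl {n m i : ℕ} (p : Piece) (b : Fl) (hi : i + 2 ≤ n) (hp : p.width n = some m) :
    width (fl b i ++ [p]) n = some m := by
  rw [width_append, fl_width b hi, Option.bind_some, width, hp]; rfl

theorem S2_comm {R : Type} [CommRing R] (f g : Fl → Fl → R) (h : Fl → Fl → Fl → Fl → R) :
    S2 (fun b b' => f b b' * S2 (fun c c' => g c c' * h b b' c c')) =
      S2 (fun c c' => g c c' * S2 (fun b b' => f b b' * h b b' c c')) := by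
  have h1 : ∀ b b', f b b' * S2 (fun c c' => g c c' * h b b' c c') =
      S2 (fun c c' => g c c' * (f b b' * h b b' c c')) := by
    intro b b'
    rw [← S2_mul]
    exact S2_congr fun c c' => by ring
  have h2 : ∀ c c', g c c' * S2 (fun b b' => f b b' * h b b' c c') =
      S2 (fun b b' => g c c' * (f b b' * h b b' c c')) := by
    intro c c'
    rw [← S2_mul]
  rw [S2_congr h1, S2_congr h2]
  have key : ∀ k : Fl → Fl → Fl → Fl → R, S2 (fun b b' => S2 (fun c c' => k b b' c c')) =
      S2 (fun c c' => S2 (fun b b' => k b b' c c')) := by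
    intro k
    have e1 : S2 (fun c c' => S2 (fun b b' => k b b' c c')) = S2 (fun c c' =>
        (k .I .I c c' + k .I .E c c' + k .I .P c c') + (k .E .I c c' + k .E .E c c' + k .E .P c c') +
        (k .P .I c c' + k .P .E c c' + k .P .P c c')) := rfl
    rw [e1]
    simp only [S2_add]
    rfl
  exact key (fun b b' c c' => g c c' * (f b b' * h b b' c c'))

theorem HS_two (p : Piece) (i : ℕ) (F : Word → Word → Raz) :
    HS om [lnk p, vtx i] F = S2 (fun b b' => om b b' * F (p :: fl b i) (mirP p :: fl b' i)) := by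
  simp only [HS, List.append_nil]

theorem HS_two' (p : Piece) (i : ℕ) (F : Word → Word → Raz) :
    HS om [vtx i, lnk p] F =
      S2 (fun b b' => om b b' * F (fl b i ++ [p]) (fl b' i ++ [mirP p])) := by
  simp only [HS]

theorem HS_one (i : ℕ) (F : Word → Word → Raz) :
    HS om [vtx i] F = S2 (fun b b' => om b b' * F (fl b i) (fl b' i)) := by
  simp only [HS, List.append_nil]

theorem gw_nil {n k : ℕ} (h : gwidth [] n = some k) : k = n := (Option.some.inj h).symm

theorem g_exLL {n m : ℕ} (p q : Piece) (h : p.index + p.ins ≤ q.index)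
    (hl : gwidth [lnk p, lnk (q.moved (q.index + p.outs - p.ins))] n = some m) :
    GEq n m [lnk p, lnk (q.moved (q.index + p.outs - p.ins))] [lnk q, lnk p] := by
  have hw : width [p, q.moved (q.index + p.outs - p.ins)] n = some m := by
    rw [← gwidth_lift]; exact hl
  obtain ⟨k, hk, hl'⟩ := Ex.wd_cons hw
  obtain ⟨k', hk', hl''⟩ := Ex.wd_cons hl'
  have hp := width_piece hk
  have hq := width_piece hk'
  rw [index_moved, ins_moved] at hq
  have hE : E n [p, q.moved (q.index + p.outs - p.ins)] [q, p] := by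
    refine e_far p q h ?_
    clear hk' hl hl' hl'' hk hw
    generalize q.index = qi at *
    generalize q.ins = qj at *
    generalize (q.moved (qi + p.outs - p.ins)).outs = qk at *
    cases p <;> simp only [Piece.outs, Piece.ins, Piece.index] at hp hq h <;> omega
  have hw' : width [q, p] n = some m := by
    obtain ⟨⟨k, h1, h2⟩, _⟩ := hE
    rw [h1] at hw
    rw [h2, hw]
  exact g_local (LocalMove.exchange p q h) hw hw'

theorem g_exLV {n m : ℕ} (p : Piece) (i : ℕ) (h : p.index + p.ins ≤ i)
    (hl : gwidth [lnk p, vtx (i + p.outs - p.ins)] n = some m) :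
    GEq n m [lnk p, vtx (i + p.outs - p.ins)] [vtx i, lnk p] := by
  refine ⟨hl, ?_⟩
  obtain ⟨k, hk, hl'⟩ := gw_cons hl
  obtain ⟨k', hk', hl''⟩ := gw_cons hl'
  have hkm := gw_nil hl''
  obtain ⟨h1, h2⟩ := gw_vtx hk'
  subst hkm
  subst h2
  have hp := width_piece (gw_lnk hk)
  have hi : i + 2 ≤ n := by
    cases p <;> simp only [Piece.outs, Piece.ins, Piece.index] at hp h1 h <;> omega
  intro C D
  rw [HS_two, HS_two']
  refine S2_congr fun b b' => ?_
  have hE := exL (n := n) p h hi b
  have hE' := exL (n := n) (mirP p) (by rw [mirP_index, mirP_ins]; exact h) hi b'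
  rw [mirP_outs, mirP_ins] at hE'
  have hw := w_app_fl p b hi (gw_lnk hk)
  have hw' := w_app_fl (mirP p) b' hi (by rw [mirP_width']; exact gw_lnk hk)
  rw [C.eqE hE (E_w hE hw), D.eqE hE' (E_w hE' hw')]

theorem g_exVL {n m : ℕ} (q : Piece) (j : ℕ) (h : j + 2 ≤ q.index)
    (hl : gwidth [vtx j, lnk q] n = some m) :
    GEq n m [vtx j, lnk q] [lnk q, vtx j] := by
  refine ⟨hl, ?_⟩
  obtain ⟨k, hk, hl'⟩ := gw_cons hl
  obtain ⟨k', hk', hl''⟩ := gw_cons hl'
  have hkm := gw_nil hl''
  obtain ⟨h1, h2⟩ := gw_vtx hk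
  subst hkm
  subst h2
  have hq := width_piece (gw_lnk hk')
  intro C D
  rw [HS_two, HS_two']
  refine S2_congr fun b b' => ?_
  have hE := exR (n := k) q h hq.1 b
  have hE' := exR (n := k) (mirP q) (by rw [mirP_index]; exact h)
    (by rw [mirP_index, mirP_ins]; exact hq.1) b'
  have hw := w_app_fl (n := k) (i := j) q b h1 (gw_lnk hk')
  have hw' := w_app_fl (n := k) (i := j) (mirP q) b' h1
    (by rw [mirP_width']; exact gw_lnk hk')
  rw [C.eqE hE hw, D.eqE hE' hw']

theorem HS_vv (o : Fl → Fl → Raz) (i j : ℕ) (F : Word → Word → Raz) :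
    HS o [vtx j, vtx i] F = S2 (fun b b' => o b b' * S2 (fun c c' => o c c' *
      F (fl b j ++ fl c i) (fl b' j ++ fl c' i))) := by
  simp only [HS, List.append_nil]

theorem g_exVV {n m : ℕ} (i j : ℕ) (h : j + 2 ≤ i)
    (hl : gwidth [vtx j, vtx i] n = some m) :
    GEq n m [vtx j, vtx i] [vtx i, vtx j] := by
  refine ⟨hl, ?_⟩
  obtain ⟨k, hk, hl'⟩ := gw_cons hl
  obtain ⟨k', hk', hl''⟩ := gw_cons hl'
  have hkm := gw_nil hl''
  obtain ⟨h1, h2⟩ := gw_vtx hk
  obtain ⟨h3, h4⟩ := gw_vtx hk'
  have hmn : n = m := by omega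
  subst hmn
  have h3' : i + 2 ≤ n := by omega
  intro C D
  have hw : ∀ b c, width (fl b j ++ fl c i) n = some n := by
    intro b c
    rw [width_append, fl_width b h1, Option.bind_some, fl_width c h3']
  have key : ∀ (b b' c c' : Fl), C.v (fl b j ++ fl c i) * D.v (fl b' j ++ fl c' i) =
      C.v (fl c i ++ fl b j) * D.v (fl c' i ++ fl b' j) := by
    intro b b' c c'
    rw [C.eqE (exV h h3' b c) (hw _ _), D.eqE (exV h h3' b' c') (hw _ _)]
  have e := S2_comm om om (fun b b' c c' => C.v (fl c i ++ fl b j) * D.v (fl c' i ++ fl b' j))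
  beta_reduce at e
  rw [HS_vv, HS_vv]
  simp only [key]
  exact e

theorem g_exch {n m : ℕ} (p q : GPiece) (h : p.index + p.ins ≤ q.index)
    (hl : gwidth [p, q.moved (q.index + p.outs - p.ins)] n = some m) :
    GEq n m [p, q.moved (q.index + p.outs - p.ins)] [q, p] := by
  cases p with
  | lnk p =>
    cases q with
    | lnk q => exact g_exLL p q h hl
    | vtx i => exact g_exLV p i h hl
  | vtx j =>
    cases q with
    | lnk q =>
      have e : (lnk q).moved ((lnk q).index + (vtx j).outs - (vtx j).ins) = lnk q := by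
        show lnk (q.moved (q.index + 2 - 2)) = _
        rw [Nat.add_sub_cancel, moved_self]
      rw [e] at hl ⊢
      exact g_exVL q j h hl
    | vtx i =>
      have e : (vtx i).moved ((vtx i).index + (vtx j).outs - (vtx j).ins) = vtx i := rfl
      rw [e] at hl ⊢
      exact g_exVV i j h hl

theorem g_twTop {n m i : ℕ} (b : Bool) (hl : gwidth [lnk (cx b i), vtx i] n = some m) :
    GEq n m [lnk (cx b i), vtx i] [vtx i] := by
  refine ⟨hl, ?_⟩
  obtain ⟨k, hk, hl'⟩ := gw_cons hl
  obtain ⟨k', hk', hl''⟩ := gw_cons hl'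
  obtain ⟨h1, rfl⟩ := gw_vtx hk'
  obtain rfl := gw_nil hl''
  have hkn : i + 2 ≤ n ∧ m = n := by
    cases b
    · exact Ex.wd_pos (gw_lnk hk)
    · exact Ex.wd_neg (gw_lnk hk)
  obtain ⟨h2, rfl⟩ := hkn
  intro C D
  rw [HS_two, HS_one]
  cases b
  · refine tw_PN (h1 := rfl) (h2 := top_E C h1 false) (h3 := pP C h1) (h4 := neg_eq D h1)
      (h5 := top_E D h1 true) (h6 := nP D h1)
  · refine tw_NP (h1 := rfl) (h2 := top_E D h1 false) (h3 := pP D h1) (h4 := neg_eq C h1)
      (h5 := top_E C h1 true) (h6 := nP C h1)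

theorem g_twBot {n m i : ℕ} (b : Bool) (hl : gwidth [vtx i, lnk (cx b i)] n = some m) :
    GEq n m [vtx i, lnk (cx b i)] [vtx i] := by
  refine ⟨hl, ?_⟩
  obtain ⟨k, hk, hl'⟩ := gw_cons hl
  obtain ⟨k', hk', hl''⟩ := gw_cons hl'
  obtain ⟨h1, hkk⟩ := gw_vtx hk
  subst hkk
  obtain rfl := gw_nil hl''
  have hkn : i + 2 ≤ k ∧ m = k := by
    cases b
    · exact Ex.wd_pos (gw_lnk hk')
    · exact Ex.wd_neg (gw_lnk hk')
  obtain ⟨h2, rfl⟩ := hkn
  intro C D
  rw [HS_two', HS_one]
  cases b
  · refine tw_PN (h1 := rfl) (h2 := bot_E C h1 false) (h3 := pP C h1) (h4 := neg_eq D h1)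
      (h5 := bot_E D h1 true) (h6 := pN D h1)
  · refine tw_NP (h1 := rfl) (h2 := bot_E D h1 false) (h3 := pP D h1) (h4 := neg_eq C h1)
      (h5 := bot_E C h1 true) (h6 := pN C h1)

/-! ### turning a vertex -/

theorem rotB {n : ℕ} (C : Ctx n (n + 2)) {i : ℕ} (h : i < n) :
    C.v (birth i :: fl .I (i + 1)) = C.v (birth (i + 1) :: fl .E i) ∧
    C.v (birth i :: fl .E (i + 1)) = C.v (birth (i + 1) :: fl .I i) ∧
    C.v (birth i :: fl .P (i + 1)) = zVar * (C.v (birth (i + 1) :: fl .I i) +
      C.v (birth (i + 1) :: fl .E i)) - C.v (birth (i + 1) :: fl .P i) := by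
  refine ⟨?_, ?_, ?_⟩
  · have := E.right (n := n) [birth i] (e_zig2 (n := n) (i := i) h) ⟨n + 2, by
      show width [birth (i + 1), death i, birth i] n = _
      rw [w_birth _ (by omega), w_death _ (by omega), w_birth _ (by omega), w_nil]
      congr 1⟩
    exact (C.eqE (l := [birth (i + 1), death i, birth i]) (r := [birth i]) this (by
      rw [w_birth _ (by omega), w_death _ (by omega), w_birth _ (by omega), w_nil]
      congr 1)).symm
  · have := E.right (n := n) [birth (i + 1)] (e_zig1 (n := n) (i := i) h) ⟨n + 2, by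
      show width [birth i, death (i + 1), birth (i + 1)] n = _
      rw [w_birth _ (by omega), w_death _ (by omega), w_birth _ (by omega), w_nil]
      congr 1⟩
    exact C.eqE (l := [birth i, death (i + 1), birth (i + 1)]) (r := [birth (i + 1)]) this (by
      rw [w_birth _ (by omega), w_death _ (by omega), w_birth _ (by omega), w_nil]
      congr 1)
  · have h1 : C.v [birth i, pos (i + 1)] = C.v [birth (i + 1), neg i] :=
      C.eqE (e_sb (n := n) (i := i) false h) (by
        show width [birth i, cx false (i + 1)] n = _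
        rw [w_birth _ (by omega), w_cx _ _ (by omega), w_nil])
    have h2 := C.skein [birth (i + 1)] [] i (w_birth [] (by omega)) (by omega) rfl
    simp only [List.append_nil, List.cons_append, List.nil_append] at h2
    show C.v [birth i, pos (i + 1)] = zVar * (C.v [birth (i + 1)] +
      C.v [birth (i + 1), death i, birth i]) - C.v [birth (i + 1), pos i]
    rw [h1]
    linear_combination h2

theorem rotD {n : ℕ} (C : Ctx n (n - 2)) {i : ℕ} (h : i + 3 ≤ n) :
    C.v (fl .I (i + 1) ++ [death i]) = C.v (fl .E i ++ [death (i + 1)]) ∧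
    C.v (fl .E (i + 1) ++ [death i]) = C.v (fl .I i ++ [death (i + 1)]) ∧
    C.v (fl .P (i + 1) ++ [death i]) = zVar * (C.v (fl .I i ++ [death (i + 1)]) +
      C.v (fl .E i ++ [death (i + 1)])) - C.v (fl .P i ++ [death (i + 1)]) := by
  refine ⟨?_, ?_, ?_⟩
  · have := E.left (m := n) [death i] (e_zig1 (n := n - 2) (i := i) (by omega))
      (w_death [] (by omega))
    exact (C.eqE (l := [death i, birth i, death (i + 1)]) (r := [death i]) this (by
      rw [w_death _ (by omega), w_birth _ (by omega), w_death _ (by omega), w_nil]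
      congr 1)).symm
  · have := E.left (m := n) [death (i + 1)] (e_zig2 (n := n - 2) (i := i) (by omega))
      (w_death [] (by omega))
    exact C.eqE (l := [death (i + 1), birth (i + 1), death i]) (r := [death (i + 1)]) this (by
      rw [w_death _ (by omega), w_birth _ (by omega), w_death _ (by omega), w_nil]
      congr 1)
  · have h1 : C.v [pos (i + 1), death i] = C.v [neg i, death (i + 1)] :=
      C.eqE (e_sd (n := n) (i := i) false h) (by
        show width [cx false (i + 1), death i] n = _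
        rw [w_cx _ _ (by omega), w_death _ (by omega), w_nil])
    have h2 := C.skein [] [death (i + 1)] i rfl (by omega) (w_death [] (by omega))
    simp only [List.append_nil, List.cons_append, List.nil_append] at h2
    show C.v [pos (i + 1), death i] = zVar * (C.v [death (i + 1)] +
      C.v [death i, birth i, death (i + 1)]) - C.v [pos i, death (i + 1)]
    rw [h1]
    linear_combination h2

theorem g_turnB {n m i : ℕ} (hl : gwidth [lnk (birth i), vtx (i + 1)] n = some m) :
    GEq n m [lnk (birth i), vtx (i + 1)] [lnk (birth (i + 1)), vtx i] := by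
  refine ⟨hl, ?_⟩
  obtain ⟨k, hk, hl'⟩ := gw_cons hl
  obtain ⟨k', hk', hl''⟩ := gw_cons hl'
  obtain ⟨h1, rfl⟩ := gw_vtx hk'
  obtain rfl := gw_nil hl''
  obtain ⟨h2, rfl⟩ := Ex.wd_birth (gw_lnk hk)
  intro C D
  rw [HS_two, HS_two]
  obtain ⟨a1, a2, a3⟩ := rotB C (i := i) (by omega)
  obtain ⟨b1, b2, b3⟩ := rotB D (i := i) (by omega)
  exact rot_id a1 a2 a3 b1 b2 b3

theorem g_turnD {n m i : ℕ} (hl : gwidth [vtx (i + 1), lnk (death i)] n = some m) :
    GEq n m [vtx (i + 1), lnk (death i)] [vtx i, lnk (death (i + 1))] := by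
  refine ⟨hl, ?_⟩
  obtain ⟨k, hk, hl'⟩ := gw_cons hl
  obtain ⟨k', hk', hl''⟩ := gw_cons hl'
  obtain ⟨h1, hkk⟩ := gw_vtx hk
  subst hkk
  obtain rfl := gw_nil hl''
  obtain ⟨h2, rfl⟩ := Ex.wd_death (gw_lnk hk')
  intro C D
  rw [HS_two', HS_two']
  obtain ⟨a1, a2, a3⟩ := rotD C (i := i) (by omega)
  obtain ⟨b1, b2, b3⟩ := rotD D (i := i) (by omega)
  exact rot_id a1 a2 a3 b1 b2 b3

/-! ### an arc passing a vertex -/

theorem HS_aav (p q : Piece) (i : ℕ) (F : Word → Word → Raz) :
    HS om [lnk p, lnk q, vtx i] F =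
      S2 (fun b b' => om b b' * F ([p, q] ++ fl b i) ([mirP p, mirP q] ++ fl b' i)) := by
  simp only [HS, List.append_nil, List.cons_append, List.nil_append]

theorem HS_vaa (p q : Piece) (i : ℕ) (F : Word → Word → Raz) :
    HS om [vtx i, lnk p, lnk q] F =
      S2 (fun b b' => om b b' * F (fl b i ++ [p, q]) (fl b' i ++ [mirP p, mirP q])) := by
  simp only [HS]

theorem mirP_cx (b : Bool) (i : ℕ) : mirP (cx b i) = cx (!b) i := by cases b <;> rfl

theorem g_arcR {n m i : ℕ} (b : Bool)
    (hl : gwidth [lnk (cx b i), lnk (cx b (i + 1)), vtx i] n = some m) :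
    GEq n m [lnk (cx b i), lnk (cx b (i + 1)), vtx i]
      [vtx (i + 1), lnk (cx b i), lnk (cx b (i + 1))] := by
  refine ⟨hl, ?_⟩
  obtain ⟨k, hk, hl'⟩ := gw_cons hl
  obtain ⟨k', hk', hl2⟩ := gw_cons hl'
  obtain ⟨k'', hk'', hl3⟩ := gw_cons hl2
  obtain ⟨h1, rfl⟩ := gw_vtx hk''
  obtain rfl := gw_nil hl3
  have e1 : i + 2 ≤ n ∧ k = n := by
    cases b
    · exact Ex.wd_pos (gw_lnk hk)
    · exact Ex.wd_neg (gw_lnk hk)
  obtain ⟨_, rfl⟩ := e1
  have e2 : i + 1 + 2 ≤ k ∧ m = k := by
    cases b
    · exact Ex.wd_pos (gw_lnk hk')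
    · exact Ex.wd_neg (gw_lnk hk')
  obtain ⟨h3, rfl⟩ := e2
  intro C D
  rw [HS_aav, HS_vaa]
  refine S2_congr fun c c' => ?_
  congr 1
  have w : ∀ (b : Bool) (c : Fl), width ([cx b i, cx b (i + 1)] ++ fl c i) m = some m := by
    intro b c
    show width (cx b i :: cx b (i + 1) :: fl c i) m = _
    rw [w_cx _ _ (by omega), w_cx _ _ (by omega), fl_width c h1]
  rw [mirP_cx, mirP_cx, C.eqE (arcR b (by omega) c) (w b c),
    D.eqE (arcR (!b) (by omega) c') (w (!b) c')]

theorem g_arcL {n m i : ℕ} (b : Bool)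
    (hl : gwidth [lnk (cx b (i + 1)), lnk (cx b i), vtx (i + 1)] n = some m) :
    GEq n m [lnk (cx b (i + 1)), lnk (cx b i), vtx (i + 1)]
      [vtx i, lnk (cx b (i + 1)), lnk (cx b i)] := by
  refine ⟨hl, ?_⟩
  obtain ⟨k, hk, hl'⟩ := gw_cons hl
  obtain ⟨k', hk', hl2⟩ := gw_cons hl'
  obtain ⟨k'', hk'', hl3⟩ := gw_cons hl2
  obtain ⟨h1, rfl⟩ := gw_vtx hk''
  obtain rfl := gw_nil hl3
  have e1 : i + 1 + 2 ≤ n ∧ k = n := by
    cases b
    · exact Ex.wd_pos (gw_lnk hk)
    · exact Ex.wd_neg (gw_lnk hk)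
  obtain ⟨_, rfl⟩ := e1
  have e2 : i + 2 ≤ k ∧ m = k := by
    cases b
    · exact Ex.wd_pos (gw_lnk hk')
    · exact Ex.wd_neg (gw_lnk hk')
  obtain ⟨h3, rfl⟩ := e2
  intro C D
  rw [HS_aav, HS_vaa]
  refine S2_congr fun c c' => ?_
  congr 1
  have w : ∀ (b : Bool) (c : Fl), width ([cx b (i + 1), cx b i] ++ fl c (i + 1)) m = some m := by
    intro b c
    show width (cx b (i + 1) :: cx b i :: fl c (i + 1)) m = _
    rw [w_cx _ _ (by omega), w_cx _ _ (by omega), fl_width c (by omega)]
  rw [mirP_cx, mirP_cx, C.eqE (arcL b (by omega) c) (w b c),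
    D.eqE (arcL (!b) (by omega) c') (w (!b) c')]

/-! ### invariance -/

/-- the number of vertices -/
def nv : GWord → ℕ
  | [] => 0
  | lnk _ :: w => nv w
  | vtx _ :: w => nv w + 1

theorem nv_append (u v : GWord) : nv (u ++ v) = nv u + nv v := by
  induction u with
  | nil => simp [nv]
  | cons p u ih =>
    cases p with
    | lnk p => simpa [nv] using ih
    | vtx i => simp only [List.cons_append, nv, ih]; omega

theorem nv_lift (w : Word) : nv (lift w) = 0 := by
  induction w with
  | nil => rfl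
  | cons p w ih => exact ih

theorem nv_move {l r : GWord} (h : GMove l r) : nv l = nv r := by
  cases h with
  | link l r _ => rw [nv_lift, nv_lift]
  | exchange p q h => cases p <;> cases q <;> simp [nv, GPiece.moved]
  | _ => rfl

theorem gsplit3 {x l y : GWord} (h : GClosed (x ++ l ++ y)) :
    ∃ k k', gwidth x 0 = some k ∧ gwidth l k = some k' ∧ gwidth y k' = some 0 := by
  unfold GClosed at h
  rw [gwidth_append, gwidth_append] at h
  obtain ⟨k', h1, h2⟩ := Option.bind_eq_some_iff.1 h
  obtain ⟨k, h3, h4⟩ := Option.bind_eq_some_iff.1 h1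
  exact ⟨k, k', h3, h4, h2⟩

/-- a link move changes the number of strands in the same way on both sides -/
theorem local_w {l r : Word} (h : LocalMove l r) {n k k' : ℕ} (hl : width l n = some k)
    (hr : width r n = some k') : k = k' := by
  have key : ∀ (w : Word) (n k : ℕ), width w n = some k →
      k + (w.map Piece.ins).sum = n + (w.map Piece.outs).sum := by
    intro w
    induction w with
    | nil => intro n k h; rw [Ex.wd_nil h]; rfl
    | cons p w ih =>
      intro n k h
      obtain ⟨n', h1, h2⟩ := Ex.wd_cons h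
      have h3 := width_piece h1
      have h4 := ih n' k h2
      simp only [List.map_cons, List.sum_cons]
      cases p <;> simp only [Piece.ins, Piece.outs, Piece.index] at * <;> omega
  have h1 := key l n k hl
  have h2 := key r n k' hr
  cases h with
  | exchange p q h =>
    cases p <;> cases q <;> simp [Piece.ins, Piece.outs, Piece.moved] at h1 h2 <;> omega
  | _ => simp [Piece.ins, Piece.outs] at h1 h2 <;> omega

theorem Hg_step {G G' : GWord} (h : GStep G G') : Hg G = Hg G' := by
  obtain ⟨x, l, r, y, hm, c1, c2⟩ := h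
  obtain ⟨n, m, hx, hl, hy⟩ := gsplit3 c1
  obtain ⟨n', m', hx', hr, hy'⟩ := gsplit3 c2
  rw [hx] at hx'
  obtain rfl := Option.some.inj hx'
  suffices GEq n m l r from Hg_ctx this hx hy
  cases hm with
  | link l r h =>
    rw [gwidth_lift] at hl hr
    rcases h with h | h
    · obtain rfl := local_w h hl hr
      exact g_local h hl hr
    · exact g_first h hl
  | exchange p q h => exact g_exch p q h hl
  | turnBirth i => exact g_turnB hl
  | turnDeath i => exact g_turnD hl
  | underRight i => exact g_arcR false hl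
  | overRight i => exact g_arcR true hl
  | overLeft i => exact g_arcL false hl
  | underLeft i => exact g_arcL true hl
  | twistTopPos i => exact g_twTop false hl
  | twistTopNeg i => exact g_twTop true hl
  | twistBottomPos i => exact g_twBot false hl
  | twistBottomNeg i => exact g_twBot true hl

theorem Hg_iso {G G' : GWord} (h : GIsotopic G G') : Hg G = Hg G' ∧ nv G = nv G' := by
  induction h with
  | rel G G' h =>
    refine ⟨Hg_step h, ?_⟩
    obtain ⟨x, l, r, y, hm, _, _⟩ := h
    rw [nv_append, nv_append, nv_append, nv_append, nv_move hm]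
  | refl G => exact ⟨rfl, rfl⟩
  | symm G G' _ ih => exact ⟨ih.1.symm, ih.2.symm⟩
  | trans G G' G'' _ _ ih1 ih2 => exact ⟨ih1.1.trans ih2.1, ih1.2.trans ih2.2⟩

end

end Run7.h112
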