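import Pool.Agent.Run7.h112.SGPos

/-!
# Adequate diagrams have colourings with equal colours at all vertices
-/

set_option autoImplicit false
set_option linter.unusedSimpArgs false
set_option linter.unusedVariables false

namespace Run7.h112

open Pool.Agent.Helper454.Kauf
open Pool.Agent.Helper454.Kauf.Piece (birth death pos neg)
open GPiece (lnk vtx)

theorem GRun_append {α : Type} (u v : GWord) (s t : List α) :
    GRun (u ++ v) s t ↔ ∃ r, GRun u s r ∧ GRun v r t := by
  induction u generalizing s with
  | nil =>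
    simp only [List.nil_append, GRun]
    constructor
    · intro h; exact ⟨s, rfl, h⟩
    · rintro ⟨r, rfl, h⟩; exact h
  | cons p u ih =>
    simp only [List.cons_append, GRun]
    constructor
    · rintro ⟨s', h1, h2⟩
      obtain ⟨r, h3, h4⟩ := (ih s').1 h2
      exact ⟨r, ⟨s', h1, h3⟩, h4⟩
    · rintro ⟨r, ⟨s', h1, h3⟩, h4⟩
      exact ⟨s', h1, (ih s').2 ⟨r, h3, h4⟩⟩

theorem GRun_lift {α : Type} (D : Word) (s : List α) : GRun (lift D) s [] ↔ AState s D := by
  induction D generalizing s with
  | nil =>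
    show s = [] ↔ _
    constructor
    · rintro rfl; exact AState.nil
    · intro h; cases h; rfl
  | cons p D ih =>
    show (∃ s', GR (lnk p) s s' ∧ GRun (lift D) s' []) ↔ _
    rw [AState_cons]
    refine exists_congr fun s' => and_congr Iff.rfl (ih s')

theorem PR.map {α β : Type} (f : α → β) (hf : Function.Injective f) {p : Piece} {s s' : List α}
    (h : PR p s s') : PR p (s.map f) (s'.map f) := by
  cases p with
  | birth i =>
    obtain ⟨A, B, c, hA, rfl, rfl⟩ := h
    exact ⟨A.map f, B.map f, f c, by simpa using hA, by simp, by simp⟩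
  | death i =>
    obtain ⟨A, B, c, hA, rfl, rfl⟩ := h
    exact ⟨A.map f, B.map f, f c, by simpa using hA, by simp, by simp⟩
  | pos i =>
    obtain ⟨A, B, b, c, hA, hbc, rfl, rfl⟩ := h
    exact ⟨A.map f, B.map f, f b, f c, by simpa using hA, fun h => hbc (hf h), by simp, rfl⟩
  | neg i =>
    obtain ⟨A, B, b, c, hA, hbc, rfl, rfl⟩ := h
    exact ⟨A.map f, B.map f, f b, f c, by simpa using hA, fun h => hbc (hf h), by simp, by simp⟩

theorem GRun.map {α β : Type} (f : α → β) (hf : Function.Injective f) {w : GWord}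
    {s t : List α} (h : GRun w s t) : GRun w (s.map f) (t.map f) := by
  induction w generalizing s with
  | nil =>
    simp only [GRun] at h ⊢
    rw [h]
  | cons p w ih =>
    obtain ⟨s', h1, h2⟩ := h
    refine ⟨s'.map f, ?_, ih h2⟩
    cases p with
    | lnk p => exact PR.map f hf h1
    | vtx i =>
      obtain ⟨rfl, A, B, b, hA, rfl⟩ := h1
      exact ⟨rfl, A.map f, B.map f, f b, by simpa using hA, by simp⟩

section par

variable {α β : Type} [DecidableEq α] [DecidableEq β]

/-- the number of strands with the pair of colours `κ` -/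
def zc (κ : α × β) (s : List α) (t : List β) : ℕ := (List.zip s t).count κ

theorem zc_split (κ : α × β) {A : List α} {A' : List β} (h : A.length = A'.length)
    (B : List α) (B' : List β) (x y : α) (x' y' : β) :
    zc κ (A ++ x :: y :: B) (A' ++ x' :: y' :: B') = zc κ A A' +
      ((if (x, x') = κ then 1 else 0) + (if (y, y') = κ then 1 else 0)) + zc κ B B' := by
  unfold zc
  rw [List.zip_append h, List.count_append, List.zip_cons_cons, List.zip_cons_cons,
    List.count_cons, List.count_cons]
  simp only [beq_iff_eq]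
  ring

theorem zc_append (κ : α × β) {A : List α} {A' : List β} (h : A.length = A'.length)
    (B : List α) (B' : List β) :
    zc κ (A ++ B) (A' ++ B') = zc κ A A' + zc κ B B' := by
  unfold zc
  rw [List.zip_append h, List.count_append]

theorem par_step {p : Piece} {s s' : List α} {t t' : List β} (h : PR p s s') (h' : PR p t t')
    (hl : s.length = t.length) :
    s'.length = t'.length ∧ ∀ κ : α × β, zc κ s t % 2 = zc κ s' t' % 2 := by
  cases p with
  | birth i =>
    obtain ⟨A, B, c, hA, rfl, rfl⟩ := h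
    obtain ⟨A', B', c', hA', rfl, rfl⟩ := h'
    have hAA : A.length = A'.length := by omega
    refine ⟨by simp at hl ⊢; omega, fun κ => ?_⟩
    rw [zc_append κ hAA, zc_split κ hAA]
    split_ifs <;> omega
  | death i =>
    obtain ⟨A, B, c, hA, rfl, rfl⟩ := h
    obtain ⟨A', B', c', hA', rfl, rfl⟩ := h'
    have hAA : A.length = A'.length := by omega
    refine ⟨by simp at hl ⊢; omega, fun κ => ?_⟩
    rw [zc_split κ hAA, zc_append κ hAA]
    split_ifs <;> omega
  | pos i =>
    obtain ⟨A, B, b, c, hA, hbc, rfl, rfl⟩ := h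
    obtain ⟨A', B', b', c', hA', hbc', rfl, rfl⟩ := h'
    exact ⟨hl, fun κ => rfl⟩
  | neg i =>
    obtain ⟨A, B, b, c, hA, hbc, rfl, rfl⟩ := h
    obtain ⟨A', B', b', c', hA', hbc', rfl, rfl⟩ := h'
    have hAA : A.length = A'.length := by omega
    refine ⟨by simp at hl ⊢; omega, fun κ => ?_⟩
    rw [zc_split κ hAA, zc_split κ hAA]
    split_ifs <;> omega

theorem par_run {w : GWord} {s s' : List α} {t t' : List β} (h : GRun w s s') (h' : GRun w t t')
    (hl : s.length = t.length) :
    s'.length = t'.length ∧ ∀ κ : α × β, zc κ s t % 2 = zc κ s' t' % 2 := by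
  induction w generalizing s t with
  | nil =>
    simp only [GRun] at h h'
    subst h h'
    exact ⟨hl, fun κ => rfl⟩
  | cons p w ih =>
    obtain ⟨s1, h1, h2⟩ := h
    obtain ⟨t1, h1', h2'⟩ := h'
    cases p with
    | lnk p =>
      obtain ⟨h3, h4⟩ := par_step h1 h1' hl
      obtain ⟨h5, h6⟩ := ih h2 h2' h3
      exact ⟨h5, fun κ => (h4 κ).trans (h6 κ)⟩
    | vtx i =>
      obtain ⟨rfl, _⟩ := h1
      obtain ⟨rfl, _⟩ := h1'
      exact ih h2 h2' hl

end par

/-- one vertex -/
theorem key_vertex (u : GWord) (i : ℕ) (D : Word)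
    (hI : ∃ N, GRun (α := Fin N) (u ++ lift D) [] [])
    (hE : ∃ N, GRun (α := Fin N) (u ++ lift (death i :: birth i :: D)) [] []) :
    ∃ N, GRun (α := Fin N) (u ++ vtx i :: lift D) [] [] := by
  obtain ⟨N1, hI⟩ := hI
  obtain ⟨N2, hE⟩ := hE
  obtain ⟨s, hs1, hs2⟩ := (GRun_append _ _ _ _).1 hI
  obtain ⟨t, ht1, ht2⟩ := (GRun_append _ _ _ _).1 hE
  obtain ⟨t1, ⟨A', B', b, hA', rfl, rfl⟩, t2, ⟨A'', B'', b', hA'', hAB, rfl⟩, ht4⟩ := ht2
  obtain ⟨rfl, rfl⟩ := List.append_inj hAB (by omega)
  have hlen := (par_run hs1 ht1 rfl).1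
  obtain ⟨A, r, hA, hr, rfl⟩ : ∃ A r : List (Fin N1), A.length = i ∧ r.length = s.length - i ∧
      s = A ++ r := by
    refine ⟨s.take i, s.drop i, ?_, by simp, by simp⟩
    simp only [List.length_take]
    simp at hlen
    omega
  rcases r with _ | ⟨a1, _ | ⟨a2, B⟩⟩
  · simp at hlen; omega
  · simp at hlen; omega
  by_cases ha : a1 = a2
  · subst ha
    exact ⟨N1, (GRun_append _ _ _ _).2 ⟨_, hs1, _, ⟨rfl, A, B, a1, hA, rfl⟩, hs2⟩⟩
  by_cases hb : b = b'
  · subst hb
    exact ⟨N2, (GRun_append _ _ _ _).2 ⟨_, ht1, _, ⟨rfl, A', B', b, hA', rfl⟩, ht4⟩⟩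
  exfalso
  have hAA : A.length = A'.length := by omega
  have p1 := (par_run hs1 ht1 rfl).2 (a1, b)
  have p2 := (par_run hs2 ht4 (by simp at hlen ⊢; omega)).2 (a1, b)
  have z0 : zc (a1, b) ([] : List (Fin N1)) ([] : List (Fin N2)) = 0 := rfl
  rw [z0, zc_split _ hAA] at p1
  rw [z0, zc_split _ hAA] at p2
  have c1 : ((a2, b) : Fin N1 × Fin N2) ≠ (a1, b) := by
    intro h; exact ha (Prod.mk.inj h).1.symm
  have c2 : ((a1, b') : Fin N1 × Fin N2) ≠ (a1, b) := by
    intro h; exact hb (Prod.mk.inj h).2.symm
  have c3 : ((a2, b') : Fin N1 × Fin N2) ≠ (a1, b) := by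
    intro h; exact hb (Prod.mk.inj h).2.symm
  rw [if_pos rfl, if_neg c1] at p1
  rw [if_neg c2, if_neg c3] at p2
  omega

theorem all_vertices (v : GWord) : ∀ u : GWord,
    (∀ D, Smoothing v D → ∃ N, GRun (α := Fin N) (u ++ lift D) [] []) →
    ∃ N, GRun (α := Fin N) (u ++ v) [] [] := by
  induction v with
  | nil => intro u h; exact h [] Smoothing.nil
  | cons p v ih =>
    intro u h
    cases p with
    | lnk p =>
      have := ih (u ++ [lnk p]) (fun D hD => by
        have := h (p :: D) (Smoothing.lnk p v D hD)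
        simpa [lift] using this)
      simpa using this
    | vtx i =>
      have := ih (u ++ [vtx i]) (fun D hD => by
        have h1 := h D (Smoothing.vert i v D hD)
        have h2 := h (death i :: birth i :: D) (Smoothing.horiz i v D hD)
        have := key_vertex u i D h1 h2
        simpa using this)
      simpa using this

theorem adequate_run {G : GWord} (h : ∀ D, Smoothing G D → AAdequate D) :
    ∃ N, GRun (α := Fin N) G [] [] := by
  refine all_vertices G [] fun D hD => ?_
  obtain ⟨N, hN⟩ := h D hD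
  exact ⟨N, (GRun_lift D []).2 hN⟩

theorem smoothing_mir {G : GWord} {D : Word} (h : Smoothing (gmir G) D) : Smoothing G (mir D) := by
  induction G generalizing D with
  | nil =>
    cases h
    exact Smoothing.nil
  | cons p G ih =>
    cases p with
    | lnk p =>
      cases h with
      | lnk _ _ D h =>
        have := Smoothing.lnk p G _ (ih h)
        have e : mir (mirP p :: D) = p :: mir D := by
          show mirP (mirP p) :: mir D = _
          rw [mirP_mirP]
        rw [e]
        exact this
    | vtx i =>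
      cases h with
      | vert _ _ D h => exact Smoothing.vert i G _ (ih h)
      | horiz _ _ D h => exact Smoothing.horiz i G _ (ih h)

theorem adequate_run' {G : GWord} (h : ∀ D, Smoothing G D → BAdequate D) :
    ∃ N, GRun (α := Fin N) (gmir G) [] [] := by
  refine adequate_run fun D hD => ?_
  have := h (mir D) (smoothing_mir hD)
  unfold BAdequate at this
  rwa [mir_mir] at this

end Run7.h112
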