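import Pool.Agent.Run7.h112.SGTop
import Pool.Agent.Run7.h112.SGPar

/-!
# Adequate diagrams of 4-valent spatial graphs have minimal crossing number
-/

set_option autoImplicit false
set_option linter.unusedSimpArgs false
set_option linter.unusedVariables false

namespace Run7.h112

open LaurentPolynomial
open Pool.Agent.Helper454.Kauf
open Pool.Agent.Helper82_Alt (crs Fil)
open GPiece (lnk vtx)

theorem omLZ (N : ℤ) : omL N = omZ N := by
  funext b b'
  cases b <;> cases b' <;> rfl

theorem HS_lead {N : ℕ} {G : GWord} (hG : GClosed G) :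
    HS (omL N) G (fun s t => pv N s * pv N t) = gs G * ZZ (N := N) G [] [] := by
  rw [omLZ, ← HS_ZZ G hG [] [] rfl rfl]
  rfl

theorem lead_ne {G : GWord} (hG : GClosed G) (hA : GAdequate G) :
    ∃ (N : ℕ), 2 ≤ N ∧ HS (omL N) G (fun s t => pv N s * pv N t) ≠ 0 := by
  obtain ⟨N1, h1⟩ := adequate_run (G := G) fun D hD => (hA D hD).1
  obtain ⟨N2, h2⟩ := adequate_run' (G := G) fun D hD => (hA D hD).2
  refine ⟨max 2 (max N1 N2), le_max_left _ _, ?_⟩
  rw [HS_lead hG]
  refine mul_ne_zero (gs_ne G) (ne_of_gt ?_)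
  have l1 : N1 ≤ max 2 (max N1 N2) := le_trans (le_max_left _ _) (le_max_right _ _)
  have l2 : N2 ≤ max 2 (max N1 N2) := le_trans (le_max_right _ _) (le_max_right _ _)
  refine ZZ_pos (le_max_left _ _) G [] [] ?_ ?_
  · simpa using h1.map (Fin.castLE l1) (Fin.castLE_injective l1)
  · simpa using h2.map (Fin.castLE l2) (Fin.castLE_injective l2)

/-- every adequate diagram of a 4-valent spatial graph has minimal crossing number -/
theorem adequate_minimal {G : GWord} (hG : GClosed G) (hA : GAdequate G) : MinimalCrossings G := by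
  intro G' hG' hiso
  by_contra hlt
  push Not at hlt
  obtain ⟨hH, hnv⟩ := Hg_iso hiso
  obtain ⟨N, hN, hne⟩ := lead_ne hG hA
  have h1 := (Hg_top (R := ℚ) (N := N) (τ := tau N hN) (tau_val N hN) hG).2
  have h2 := (Hg_top (R := ℚ) (N := N) (τ := tau N hN) (tau_val N hN) hG').1
  have h3 : (rho (tau N hN) (Hg G')).coeff (2 * gcrossings G + 2 * nv G) = 0 := by
    refine rho_coeff_zero _ h2 ?_
    rw [← hnv]
    have : (gcrossings G' : ℤ) < gcrossings G := by exact_mod_cast hlt
    linarith
  rw [← hH, h1] at h3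
  exact hne (by exact_mod_cast h3)

end Run7.h112
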