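import Pool.Agent.Run7.h112.SGSum

/-!
# The leading coefficient as a sum over pairs of colourings
-/

set_option autoImplicit false
set_option linter.unusedSimpArgs false
set_option linter.unusedVariables false

namespace Run7.h112

open Pool.Agent.Helper454.Kauf
open Pool.Agent.Helper454.Kauf.Piece (birth death pos neg)
open Pool.Agent.Helper82_Alt (crs cx w_birth w_death w_cx w_nil width_append)
open GPiece (lnk vtx)

variable {N : ℕ}

/-- equal colours -/
def bG (f : Fn N) : Fn N
  | a :: b :: s => if a = b then f (a :: b :: s) else 0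
  | _ => 0

def gg (i : ℕ) : Fn N → Fn N := sh bG i

/-- the leading coefficients of the weights -/
def omZ (N : ℤ) : Fl → Fl → ℤ
  | .I, .I => N
  | .I, .E => 1
  | .I, .P => -N
  | .E, .I => 1
  | .E, .E => 1
  | .E, .P => -1
  | .P, .I => -N
  | .P, .E => -1
  | .P, .P => N + 1

/-- the sum over the pairs of colourings -/
def ZZ : GWord → List (Fin N) → List (Fin N) → ℤ
  | [], s, t => ini N s * ini N t
  | lnk p :: w, s, t => op p (fun s' => op (mirP p) (fun t' => ZZ w s' t') t) s
  | vtx i :: w, s, t =>
      ((N : ℤ) - 1) * gg i (fun s' => gg i (fun t' => ZZ w s' t') t) s +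
      op (pos i) (fun s' => op (pos i) (fun t' => ZZ w s' t') t) s +
      op (neg i) (fun s' => op (neg i) (fun t' => ZZ w s' t') t) s

/-- the sign -/
def gs : GWord → ℤ
  | [] => 1
  | lnk p :: w => sgp p * sgp (mirP p) * gs w
  | vtx _ :: w => gs w

theorem gs_ne (w : GWord) : gs w ≠ 0 := by
  induction w with
  | nil => simp [gs]
  | cons p w ih =>
    cases p with
    | lnk p =>
      rw [gs]
      refine mul_ne_zero (mul_ne_zero ?_ ?_) ih <;> cases p <;> simp [sgp, mirP]
    | vtx i => exact ih

/-- linear operators -/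
structure Lin (Q : Fn N → Fn N) : Prop where
  add : ∀ f g, Q (f + g) = Q f + Q g
  smul : ∀ (c : ℤ) (f : Fn N), Q (fun s => c * f s) = fun s => c * Q f s

theorem Lin.of_add {Q : Fn N → Fn N} (h : ∀ f g, Q (f + g) = Q f + Q g) : Lin Q := by
  refine ⟨h, fun c f => ?_⟩
  have h0 : Q 0 = 0 := by
    have := h 0 0
    simpa using this
  let φ : Fn N →+ Fn N := ⟨⟨Q, h0⟩, h⟩
  have := map_zsmul φ c f
  exact this

theorem Lin.op (p : Piece) : Lin (op p : Fn N → Fn N) := Lin.of_add (op_add p)

theorem Lin.M (w : Word) : Lin (M w : Fn N → Fn N) := Lin.of_add (M_add w)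

theorem bG_add (f g : Fn N) : bG (f + g) = bG f + bG g := by
  funext s
  rcases s with _ | ⟨a, _ | ⟨b, s⟩⟩ <;> simp [bG]
  split_ifs <;> simp

theorem Lin.gg (i : ℕ) : Lin (gg i : Fn N → Fn N) := Lin.of_add (sh_add bG_add i)

theorem Lin.smul' {Q : Fn N → Fn N} (h : Lin Q) (c : ℤ) (f : Fn N) (s : List (Fin N)) :
    Q (fun s => c * f s) s = c * Q f s := congrFun (h.smul c f) s

theorem Lin.smulR {Q : Fn N → Fn N} (h : Lin Q) (c : ℤ) (f : Fn N) (s : List (Fin N)) :
    Q (fun s => f s * c) s = Q f s * c := by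
  have : (fun s => f s * c) = fun s => c * f s := by funext s; ring
  rw [this, h.smul', mul_comm]

theorem Lin.add' {Q : Fn N → Fn N} (h : Lin Q) (f g : Fn N) (s : List (Fin N)) :
    Q (fun s => f s + g s) s = Q f s + Q g s := congrFun (h.add f g) s

theorem Lin.sub' {Q : Fn N → Fn N} (h : Lin Q) (f g : Fn N) (s : List (Fin N)) :
    Q (fun s => f s - g s) s = Q f s - Q g s := by
  have e : (fun s => f s - g s) = fun s => f s + (-1) * g s := by funext s; ring
  rw [e, h.add' f (fun s => (-1) * g s), h.smul']; ring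

/-- a linear operator can be pulled out of a sum -/
theorem HS_pull {Q : Fn N → Fn N} (h : Lin Q) (o : Fl → Fl → ℤ) (w : GWord)
    (f : Word → Word → Fn N) (s : List (Fin N)) :
    HS o w (fun u v => Q (f u v) s) = Q (fun s' => HS o w (fun u v => f u v s')) s := by
  induction w generalizing f with
  | nil => rfl
  | cons p w ih =>
    cases p with
    | lnk p =>
      simp only [HS]
      exact ih (fun u v => f (p :: u) (mirP p :: v))
    | vtx i =>
      simp only [HS]
      simp only [S2]
      have e := fun b b' => ih (fun u v => f (fl b i ++ u) (fl b' i ++ v))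
      simp only [e]
      simp only [h.add', h.smul']

theorem op_congr (p : Piece) {n m : ℕ} (hp : p.width n = some m) {f g : Fn N}
    (h : ∀ s : List (Fin N), s.length = m → f s = g s) (s : List (Fin N)) (hs : s.length = n) :
    op p f s = op p g s := by
  obtain ⟨h1, h2⟩ := width_piece hp
  exact sh_len p p.index h1 h2 h s hs

theorem gg_eq {n i : ℕ} (hi : i + 2 ≤ n) (f : Fn N) (s : List (Fin N)) (hs : s.length = n) :
    gg i f s = f s - op (pos i) f s := by
  obtain ⟨A, r, hA, hr, rfl⟩ := split_state (show i ≤ n by omega) s hs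
  rcases r with _ | ⟨x, _ | ⟨y, r⟩⟩
  · simp at hr; omega
  · simp at hr; omega
  rw [op_app (k := 0) (pos i) hA rfl]
  have h1 : gg i f (A ++ x :: y :: r) = sh bG 0 (fun r => f (A ++ r)) (x :: y :: r) := by
    have := sh_app (bG : Fn N → Fn N) hA 0 f (x :: y :: r)
    exact this
  rw [h1]
  simp only [sh, bG, base, bV]
  by_cases hxy : x = y <;> simp [hxy]

theorem nn_eq {n i : ℕ} (hi : i + 2 ≤ n) (f : Fn N) (s : List (Fin N)) (hs : s.length = n) :
    op (neg i) f s = op (pos i) f s + M [death i, birth i] f s - f s := by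
  have := r_skein hi f s hs
  simp only [M] at this ⊢
  linarith

/-- the form in terms of the operators -/
theorem form_eq {n i : ℕ} (hi : i + 2 ≤ n) (K : List (Fin N) → List (Fin N) → ℤ)
    (s t : List (Fin N)) (hs : s.length = n) (ht : t.length = n) :
    S2 (fun b b' => omZ N b b' * ((sgn (fl b i) * sgn (fl b' i)) *
      M (fl b i) (fun s' => M (fl b' i) (fun t' => K s' t') t) s)) =
    ((N : ℤ) - 1) * gg i (fun s' => gg i (fun t' => K s' t') t) s +
      op (pos i) (fun s' => op (pos i) (fun t' => K s' t') t) s +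
      op (neg i) (fun s' => op (neg i) (fun t' => K s' t') t) s := by
  have sI : sgn (fl .I i) = 1 := by simp [fl, sgn]
  have sE : sgn (fl .E i) = -1 := by
    simp [fl, sgn, sgp, pow_succ, pm]
  have sP : sgn (fl .P i) = 1 := by simp [fl, sgn, sgp]
  have MI : ∀ f : Fn N, M (fl .I i) f = f := fun f => rfl
  have MP : ∀ f : Fn N, M (fl .P i) f = op (pos i) f := fun f => rfl
  have ME : ∀ f : Fn N, M (fl .E i) f = M [death i, birth i] f := fun f => rfl
  simp only [S2, omZ, sI, sE, sP, MI, MP, ME]
  have g1 : ∀ f : Fn N, gg i f s = f s - op (pos i) f s := fun f => gg_eq hi f s hs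
  have g2 : ∀ f : Fn N, gg i f t = f t - op (pos i) f t := fun f => gg_eq hi f t ht
  have n1 : ∀ f : Fn N, op (neg i) f s = op (pos i) f s + M [death i, birth i] f s - f s :=
    fun f => nn_eq hi f s hs
  have n2 : ∀ f : Fn N, op (neg i) f t = op (pos i) f t + M [death i, birth i] f t - f t :=
    fun f => nn_eq hi f t ht
  simp only [g2, n2]
  simp only [g1, n1]
  have lV : Lin (op (pos i) : Fn N → Fn N) := Lin.op (pos i)
  have lE : Lin (M [death i, birth i] : Fn N → Fn N) := Lin.M [death i, birth i]
  simp only [lV.sub', lV.add', lE.sub', lE.add']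
  ring

/-- the comparison -/
theorem HS_ZZ (G : GWord) {n : ℕ} (hG : gwidth G n = some 0) (s t : List (Fin N))
    (hs : s.length = n) (ht : t.length = n) :
    HS (omZ N) G (fun u v => (sgn u * M u (ini N) s) * (sgn v * M v (ini N) t)) =
      gs G * ZZ G s t := by
  induction G generalizing n s t with
  | nil => simp [HS, sgn, M, gs, ZZ]
  | cons p w ih =>
    obtain ⟨k, hk, hw⟩ := gw_cons hG
    -- a general form of the statement for `w` after operators
    have key : ∀ (Q Q' : Fn N → Fn N), Lin Q → Lin Q' →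
        (∀ f g : Fn N, (∀ s : List (Fin N), s.length = k → f s = g s) → Q f s = Q g s) →
        (∀ f g : Fn N, (∀ s : List (Fin N), s.length = k → f s = g s) → Q' f t = Q' g t) →
        HS (omZ N) w (fun u v => (sgn u * Q (M u (ini N)) s) * (sgn v * Q' (M v (ini N)) t)) =
          gs w * Q (fun s' => Q' (fun t' => ZZ w s' t') t) s := by
      intro Q Q' lQ lQ' cQ cQ'
      have e1 : ∀ u v : Word, (sgn u * Q (M u (ini N)) s) * (sgn v * Q' (M v (ini N)) t) =
          Q (fun s' => Q' (fun t' => (sgn u * M u (ini N) s') * (sgn v * M v (ini N) t')) t) s := by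
        intro u v
        have a1 : ∀ s', Q' (fun t' => (sgn u * M u (ini N) s') * (sgn v * M v (ini N) t')) t =
            (sgn u * M u (ini N) s') * (sgn v * Q' (M v (ini N)) t) := by
          intro s'
          rw [lQ'.smul', lQ'.smul']
        simp only [a1]
        rw [lQ.smulR, lQ.smul']
      simp only [e1]
      rw [HS_pull lQ (omZ N) w (fun u v s' =>
        Q' (fun t' => (sgn u * M u (ini N) s') * (sgn v * M v (ini N) t')) t) s]
      have e2 : ∀ s', HS (omZ N) w (fun u v =>
          Q' (fun t' => (sgn u * M u (ini N) s') * (sgn v * M v (ini N) t')) t) =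
          Q' (fun t' => HS (omZ N) w (fun u v =>
            (sgn u * M u (ini N) s') * (sgn v * M v (ini N) t'))) t := by
        intro s'
        exact HS_pull lQ' (omZ N) w (fun u v t' =>
          (sgn u * M u (ini N) s') * (sgn v * M v (ini N) t')) t
      simp only [e2]
      rw [← lQ.smul']
      refine cQ _ _ fun s' hs' => ?_
      rw [← lQ'.smul']
      exact cQ' _ _ fun t' ht' => ih hw s' t' hs' ht'
    cases p with
    | lnk p =>
      have hk' : p.width n = some k := hk
      simp only [HS]
      have h1 := key (op p) (op (mirP p)) (Lin.op p) (Lin.op (mirP p))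
        (fun f g h => op_congr p hk' h s hs)
        (fun f g h => op_congr (mirP p) (by rw [mirP_width']; exact hk') h t ht)
      have e : ∀ u v : Word, (sgn (p :: u) * M (p :: u) (ini N) s) *
          (sgn (mirP p :: v) * M (mirP p :: v) (ini N) t) =
          (sgp p * sgp (mirP p)) * ((sgn u * op p (M u (ini N)) s) *
            (sgn v * op (mirP p) (M v (ini N)) t)) := by
        intro u v
        have s1 : sgn (p :: u) = sgp p * sgn u := by simp [sgn]
        have s2 : sgn (mirP p :: v) = sgp (mirP p) * sgn v := by simp [sgn]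
        rw [s1, s2]
        simp only [M]
        ring
      simp only [e]
      rw [HS_mul, h1, gs, ZZ]
      ring
    | vtx i =>
      obtain ⟨hi, hkn⟩ := gw_vtx hk
      subst hkn
      have cM : ∀ (b : Fl) (r : List (Fin N)), r.length = k → ∀ f g : Fn N,
          (∀ s : List (Fin N), s.length = k → f s = g s) → M (fl b i) f r = M (fl b i) g r :=
        fun b r hr f g h => M_len (fl b i) (fl_width b hi) h r hr
      have h1 : ∀ b b', HS (omZ N) w (fun u v => (sgn (fl b i ++ u) * M (fl b i ++ u) (ini N) s) *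
          (sgn (fl b' i ++ v) * M (fl b' i ++ v) (ini N) t)) =
          (sgn (fl b i) * sgn (fl b' i)) *
            (gs w * M (fl b i) (fun s' => M (fl b' i) (fun t' => ZZ w s' t') t) s) := by
        intro b b'
        rw [← key (M (fl b i)) (M (fl b' i)) (Lin.M _) (Lin.M _) (cM b s hs) (cM b' t ht),
          ← HS_mul]
        congr 1
        funext u v
        rw [sgn_append, sgn_append, M_append, M_append]
        ring
      simp only [HS, h1, gs, ZZ]
      rw [← form_eq hi (fun s' t' => ZZ w s' t') s t hs ht, ← S2_mul]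
      refine S2_congr fun b b' => ?_
      ring

/-! ### positivity -/

theorem bG_nonneg (f : Fn N) (hf : ∀ s, 0 ≤ f s) (s : List (Fin N)) : 0 ≤ bG f s := by
  rcases s with _ | ⟨a, _ | ⟨b, s⟩⟩ <;> simp only [bG] <;> try exact le_refl _
  split_ifs
  · exact hf _
  · exact le_refl _

theorem op_nonneg (p : Piece) (f : Fn N) (hf : ∀ s, 0 ≤ f s) (s : List (Fin N)) :
    0 ≤ op p f s := sh_nonneg _ (fun f hf s => base_nonneg p f hf s) _ f hf s

theorem gg_nonneg (i : ℕ) (f : Fn N) (hf : ∀ s, 0 ≤ f s) (s : List (Fin N)) :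
    0 ≤ gg i f s := sh_nonneg _ (fun f hf s => bG_nonneg f hf s) _ f hf s

theorem ZZ_nonneg (hN : 1 ≤ N) (G : GWord) (s t : List (Fin N)) : 0 ≤ ZZ G s t := by
  induction G generalizing s t with
  | nil => exact mul_nonneg (ini_nonneg s) (ini_nonneg t)
  | cons p w ih =>
    cases p with
    | lnk p =>
      simp only [ZZ]
      exact op_nonneg p _ (fun s' => op_nonneg _ _ (fun t' => ih s' t') t) s
    | vtx i =>
      simp only [ZZ]
      have h1 : (0 : ℤ) ≤ (N : ℤ) - 1 := by
        have : (1 : ℤ) ≤ N := by exact_mod_cast hN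
        linarith
      refine add_nonneg (add_nonneg (mul_nonneg h1 ?_) ?_) ?_
      · exact gg_nonneg i _ (fun s' => gg_nonneg i _ (fun t' => ih s' t') t) s
      · exact op_nonneg _ _ (fun s' => op_nonneg _ _ (fun t' => ih s' t') t) s
      · exact op_nonneg _ _ (fun s' => op_nonneg _ _ (fun t' => ih s' t') t) s

/-- one step of a colouring of a graph diagram; at a vertex all four legs have the same colour -/
def GR {α : Type} : GPiece → List α → List α → Prop
  | lnk p, s, s' => PR p s s'
  | vtx i, s, s' => s' = s ∧ ∃ A B b, A.length = i ∧ s = A ++ b :: b :: B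

/-- the colourings of a graph diagram -/
def GRun {α : Type} : GWord → List α → List α → Prop
  | [], s, t => s = t
  | p :: w, s, t => ∃ s', GR p s s' ∧ GRun w s' t

/-- the mirror image of a graph diagram -/
def gmir : GWord → GWord
  | [] => []
  | lnk p :: w => lnk (mirP p) :: gmir w
  | vtx i :: w => vtx i :: gmir w

theorem gg_pos {i : ℕ} (f : Fn N) (s : List (Fin N)) (h : ∃ A B b, A.length = i ∧
    s = A ++ b :: b :: B) : gg i f s = f s := by
  obtain ⟨A, B, b, hA, rfl⟩ := h
  have h1 : gg i f (A ++ b :: b :: B) = sh bG 0 (fun r => f (A ++ r)) (b :: b :: B) :=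
    sh_app (bG : Fn N → Fn N) hA 0 f (b :: b :: B)
  rw [h1]
  simp [sh, bG]

theorem ZZ_pos (hN : 2 ≤ N) (G : GWord) (s t : List (Fin N)) (h1 : GRun G s [])
    (h2 : GRun (gmir G) t []) : 0 < ZZ G s t := by
  have hnn := fun G s t => ZZ_nonneg (N := N) (by omega) G s t
  induction G generalizing s t with
  | nil =>
    simp only [GRun, gmir] at h1 h2
    subst h1 h2
    simp [ZZ, ini]
  | cons p w ih =>
    cases p with
    | lnk p =>
      obtain ⟨s', hs', hs''⟩ := h1
      obtain ⟨t', ht', ht''⟩ := h2
      have h3 := ih s' t' hs'' ht''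
      simp only [ZZ]
      refine lt_of_le_of_ne (op_nonneg p _ (fun s' => op_nonneg _ _ (fun t' => hnn w s' t') t) s)
        (Ne.symm ?_)
      rw [op_ne p _ (fun s' => op_nonneg _ _ (fun t' => hnn w s' t') t)]
      refine ⟨s', hs', ?_⟩
      rw [op_ne (mirP p) _ (fun t' => hnn w s' t')]
      exact ⟨t', ht', h3.ne'⟩
    | vtx i =>
      obtain ⟨s', ⟨rfl, hs⟩, hs''⟩ := h1
      obtain ⟨t', ⟨rfl, ht⟩, ht''⟩ := h2
      have h3 := ih s' t' hs'' ht''
      simp only [ZZ]
      rw [gg_pos _ s' hs, gg_pos _ t' ht]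
      have h4 : (0 : ℤ) < (N : ℤ) - 1 := by
        have : (2 : ℤ) ≤ N := by exact_mod_cast hN
        linarith
      have h5 := op_nonneg (pos i) (fun s' => op (pos i) (fun t' => ZZ w s' t') t')
        (fun s' => op_nonneg _ _ (fun t' => hnn w s' t') t') s'
      have h6 := op_nonneg (neg i) (fun s' => op (neg i) (fun t' => ZZ w s' t') t')
        (fun s' => op_nonneg _ _ (fun t' => hnn w s' t') t') s'
      have h7 := mul_pos h4 h3
      linarith

end Run7.h112
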