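import Pool.Agent.Run7.h112.Spec

/-!
# Diagrams of 4-valent spatial graphs

The diagram is cut by horizontal lines into elementary pieces, read from top to bottom, exactly as
for links (`Pool.Agent.Helper454.Kauf.Defs`).  There is one new kind of piece, a vertex `vtx i` of
valence four which joins the four endpoints of the strands `i` and `i + 1` above it and of the
strands `i` and `i + 1` below it.  (By a planar isotopy every vertex of valence four can be brought
into this position: two edges leave it upwards and two edges leave it downwards.)
-/

set_option autoImplicit false

namespace Run7.h112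

open Pool.Agent.Helper454.Kauf
open Pool.Agent.Helper454.Kauf.Piece (birth death pos neg)

/-- The elementary pieces of a sliced diagram of a 4-valent spatial graph: the pieces of a link
diagram (`birth i`, `death i`, `pos i`, `neg i`) and the vertices `vtx i`, where the strands `i` and
`i + 1` come together and leave again. -/
inductive GPiece : Type
  | lnk (p : Piece) : GPiece
  | vtx (i : ℕ) : GPiece
  deriving DecidableEq

/-- Diagrams of 4-valent spatial graphs (possibly with endpoints at the top and at the bottom): lists
of pieces, read from top to bottom. -/
abbrev GWord : Type := List GPiece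

namespace GPiece

/-- The number of strands a piece uses at its top. -/
def ins : GPiece → ℕ
  | lnk p => p.ins
  | vtx _ => 2

/-- The number of strands a piece has at its bottom. -/
def outs : GPiece → ℕ
  | lnk p => p.outs
  | vtx _ => 2

/-- The position of a piece. -/
def index : GPiece → ℕ
  | lnk p => p.index
  | vtx i => i

/-- The same kind of piece, at position `j`. -/
def moved (j : ℕ) : GPiece → GPiece
  | lnk p => lnk (p.moved j)
  | vtx _ => vtx j

/-- The number of strands below the piece if there are `n` strands above it
(`none` if the piece does not fit). -/
def width : GPiece → ℕ → Option ℕ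
  | lnk p, n => p.width n
  | vtx i, n => if i + 2 ≤ n then some n else none

end GPiece

open GPiece

/-- The number of strands below a diagram if there are `n` strands above it. -/
def gwidth : GWord → ℕ → Option ℕ
  | [], n => some n
  | p :: w, n => (p.width n).bind (gwidth w)

/-- Graph diagrams: no endpoints. -/
def GClosed (w : GWord) : Prop := gwidth w 0 = some 0

/-- A link diagram as a graph diagram without vertices. -/
def lift (w : Word) : GWord := w.map lnk

/-- The number of crossings of a graph diagram. -/
def gcrossings : GWord → ℕ
  | [] => 0
  | lnk (.pos _) :: w => gcrossings w + 1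
  | lnk (.neg _) :: w => gcrossings w + 1
  | lnk (.birth _) :: w => gcrossings w
  | lnk (.death _) :: w => gcrossings w
  | vtx _ :: w => gcrossings w

/-- The local moves of graph diagrams: the planar isotopies and the five Reidemeister moves for
spatial graphs with non-rigid vertices.
* `link`: the moves of link diagrams (planar isotopy and the Reidemeister moves I, II, III);
* `exchange`: exchange of the heights of two pieces which are next to each other;
* `turnBirth`, `turnDeath`: planar rotation of a vertex (next to a maximum or a minimum);
* `underRight`, ..., `overLeft`: an arc is moved under or over a vertex, to the right or to the left;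
* `twistTop...`, `twistBottom...`: two edges which are adjacent at a vertex are twisted. -/
inductive GMove : GWord → GWord → Prop
  | link (l r : Word) (h : LocalMove l r ∨ FirstMove l r) : GMove (lift l) (lift r)
  | exchange (p q : GPiece) (h : p.index + p.ins ≤ q.index) :
      GMove [p, q.moved (q.index + p.outs - p.ins)] [q, p]
  | turnBirth (i : ℕ) : GMove [lnk (birth i), vtx (i + 1)] [lnk (birth (i + 1)), vtx i]
  | turnDeath (i : ℕ) : GMove [vtx (i + 1), lnk (death i)] [vtx i, lnk (death (i + 1))]
  | underRight (i : ℕ) : GMove [lnk (pos i), lnk (pos (i + 1)), vtx i]
      [vtx (i + 1), lnk (pos i), lnk (pos (i + 1))]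
  | overRight (i : ℕ) : GMove [lnk (neg i), lnk (neg (i + 1)), vtx i]
      [vtx (i + 1), lnk (neg i), lnk (neg (i + 1))]
  | overLeft (i : ℕ) : GMove [lnk (pos (i + 1)), lnk (pos i), vtx (i + 1)]
      [vtx i, lnk (pos (i + 1)), lnk (pos i)]
  | underLeft (i : ℕ) : GMove [lnk (neg (i + 1)), lnk (neg i), vtx (i + 1)]
      [vtx i, lnk (neg (i + 1)), lnk (neg i)]
  | twistTopPos (i : ℕ) : GMove [lnk (pos i), vtx i] [vtx i]
  | twistTopNeg (i : ℕ) : GMove [lnk (neg i), vtx i] [vtx i]
  | twistBottomPos (i : ℕ) : GMove [vtx i, lnk (pos i)] [vtx i]
  | twistBottomNeg (i : ℕ) : GMove [vtx i, lnk (neg i)] [vtx i]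

/-- Two graph diagrams differ by one move. -/
inductive GStep : GWord → GWord → Prop
  | mk (x l r y : GWord) : GMove l r → GClosed (x ++ l ++ y) → GClosed (x ++ r ++ y) →
      GStep (x ++ l ++ y) (x ++ r ++ y)

/-- Diagrams of isotopic 4-valent spatial graphs. -/
def GIsotopic : GWord → GWord → Prop := Relation.EqvGen GStep

/-- The smoothings of a graph diagram: every vertex is replaced by one of the two planar pairings of
its four endpoints, i.e. by two vertical arcs or by a minimum above a maximum. -/
inductive Smoothing : GWord → Word → Prop
  | nil : Smoothing [] []
  | lnk (p : Piece) (G : GWord) (D : Word) : Smoothing G D → Smoothing (GPiece.lnk p :: G) (p :: D)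
  | vert (i : ℕ) (G : GWord) (D : Word) : Smoothing G D → Smoothing (GPiece.vtx i :: G) D
  | horiz (i : ℕ) (G : GWord) (D : Word) : Smoothing G D →
      Smoothing (GPiece.vtx i :: G) (Piece.death i :: Piece.birth i :: D)

/-- The graph diagram is adequate: every smoothing is an adequate link diagram. -/
def GAdequate (G : GWord) : Prop := ∀ D, Smoothing G D → Adequate D

/-- The graph diagram has minimal crossing number: no diagram of an isotopic spatial graph has fewer
crossings. -/
def MinimalCrossings (G : GWord) : Prop :=
  ∀ G' : GWord, GClosed G' → GIsotopic G G' → gcrossings G ≤ gcrossings G'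

end Run7.h112
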