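import Pool.Agent.Run7.h112.SGSpec
import Pool.Agent.Run7.h112.Adq

/-!
# Sums over pairs of fillings of the vertices
-/

set_option autoImplicit false
set_option linter.unusedSimpArgs false
set_option linter.unusedVariables false

namespace Run7.h112

open Pool.Agent.Helper454.Kauf
open Pool.Agent.Helper454.Kauf.Piece (birth death pos neg)
open Pool.Agent.Helper82_Alt (crs cx w_birth w_death w_cx w_nil width_append E)
open GPiece (lnk vtx)

/-- the three fillings of a vertex -/
inductive Fl : Type
  | I | E | P
  deriving DecidableEq

/-- the filling at position `i` -/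
def fl : Fl → ℕ → Word
  | .I, _ => []
  | .E, i => [death i, birth i]
  | .P, i => [pos i]

section Sum

variable {R : Type} [CommRing R]

/-- sum over the pairs of fillings -/
def S2 (f : Fl → Fl → R) : R :=
  (f .I .I + f .I .E + f .I .P) + (f .E .I + f .E .E + f .E .P) + (f .P .I + f .P .E + f .P .P)

theorem S2_add (f g : Fl → Fl → R) : S2 (fun b b' => f b b' + g b b') = S2 f + S2 g := by
  simp only [S2]; ring

theorem S2_mul (c : R) (f : Fl → Fl → R) : S2 (fun b b' => c * f b b') = c * S2 f := by
  simp only [S2]; ring

theorem S2_congr {f g : Fl → Fl → R} (h : ∀ b b', f b b' = g b b') : S2 f = S2 g := by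
  have : f = g := by funext b b'; exact h b b'
  rw [this]

/-- the sum over all pairs of fillings of all vertices, with the weights `o` -/
def HS (o : Fl → Fl → R) : GWord → (Word → Word → R) → R
  | [], F => F [] []
  | lnk p :: w, F => HS o w (fun s t => F (p :: s) (mirP p :: t))
  | vtx i :: w, F => S2 (fun b b' => o b b' * HS o w (fun s t => F (fl b i ++ s) (fl b' i ++ t)))

theorem HS_add (o : Fl → Fl → R) (w : GWord) (F G : Word → Word → R) :
    HS o w (fun s t => F s t + G s t) = HS o w F + HS o w G := by
  induction w generalizing F G with
  | nil => rfl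
  | cons p w ih =>
    cases p with
    | lnk p =>
      simp only [HS]
      exact ih (fun s t => F (p :: s) (mirP p :: t)) (fun s t => G (p :: s) (mirP p :: t))
    | vtx i =>
      simp only [HS]
      rw [← S2_add]
      refine S2_congr fun b b' => ?_
      rw [ih (fun s t => F (fl b i ++ s) (fl b' i ++ t))
        (fun s t => G (fl b i ++ s) (fl b' i ++ t))]
      ring

theorem HS_mul (o : Fl → Fl → R) (w : GWord) (c : R) (F : Word → Word → R) :
    HS o w (fun s t => c * F s t) = c * HS o w F := by
  induction w generalizing F with
  | nil => rfl
  | cons p w ih =>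
    cases p with
    | lnk p =>
      simp only [HS]
      exact ih (fun s t => F (p :: s) (mirP p :: t))
    | vtx i =>
      simp only [HS]
      rw [← S2_mul]
      refine S2_congr fun b b' => ?_
      rw [ih (fun s t => F (fl b i ++ s) (fl b' i ++ t))]
      ring

theorem HS_S2 (o : Fl → Fl → R) (w : GWord) (F : Fl → Fl → Word → Word → R) :
    HS o w (fun s t => S2 (fun b b' => F b b' s t)) = S2 (fun b b' => HS o w (F b b')) := by
  simp only [S2, HS_add]

theorem HS_append (o : Fl → Fl → R) (u v : GWord) (F : Word → Word → R) :
    HS o (u ++ v) F = HS o u (fun s t => HS o v (fun s' t' => F (s ++ s') (t ++ t'))) := by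
  induction u generalizing F with
  | nil => rfl
  | cons p u ih =>
    cases p with
    | lnk p =>
      simp only [List.cons_append, HS]
      rw [ih]
    | vtx i =>
      simp only [List.cons_append, HS]
      refine S2_congr fun b b' => ?_
      rw [ih]
      simp only [List.append_assoc]

/-- the two sums commute -/
theorem HS_comm (o : Fl → Fl → R) (u v : GWord) (Φ : Word → Word → Word → Word → R) :
    HS o u (fun a b => HS o v (fun c d => Φ a b c d)) =
      HS o v (fun c d => HS o u (fun a b => Φ a b c d)) := by
  induction u generalizing Φ with
  | nil => rfl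
  | cons p u ih =>
    cases p with
    | lnk p =>
      simp only [HS]
      exact ih (fun a b c d => Φ (p :: a) (mirP p :: b) c d)
    | vtx i =>
      simp only [HS]
      rw [HS_S2]
      refine S2_congr fun b b' => ?_
      rw [HS_mul]
      rw [ih (fun a c d e => Φ (fl b i ++ a) (fl b' i ++ c) d e)]

theorem fl_width (b : Fl) {i n : ℕ} (h : i + 2 ≤ n) : width (fl b i) n = some n := by
  cases b
  · rfl
  · show width [death i, birth i] n = some n
    rw [w_death _ h, w_birth _ (by omega), w_nil]; congr 1; omega
  · exact w_cx false [] h

theorem mirP_width' (p : Piece) (n : ℕ) : (mirP p).width n = p.width n := by cases p <;> rfl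

theorem gw_cons {p : GPiece} {w : GWord} {n k : ℕ} (h : gwidth (p :: w) n = some k) :
    ∃ n', p.width n = some n' ∧ gwidth w n' = some k := by
  simp only [gwidth] at h
  exact Option.bind_eq_some_iff.1 h

theorem gw_vtx {i n k : ℕ} (h : (vtx i).width n = some k) : i + 2 ≤ n ∧ k = n := by
  simp only [GPiece.width] at h
  split at h
  · rename_i hi
    exact ⟨hi, (Option.some.inj h).symm⟩
  · exact absurd h (by simp)

theorem gwidth_append (u v : GWord) (n : ℕ) :
    gwidth (u ++ v) n = (gwidth u n).bind (gwidth v) := by
  induction u generalizing n with
  | nil => rfl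
  | cons p u ih =>
    simp only [List.cons_append, gwidth]
    rcases p.width n with _ | m
    · rfl
    · simp only [Option.bind_some]; exact ih m

/-- the sum only depends on the values on the fillings, which have the right widths -/
theorem HS_congr (o : Fl → Fl → R) (w : GWord) {n m : ℕ} (hw : gwidth w n = some m)
    {F G : Word → Word → R}
    (h : ∀ s t, width s n = some m → width t n = some m → F s t = G s t) :
    HS o w F = HS o w G := by
  induction w generalizing n F G with
  | nil =>
    have : n = m := by simpa [gwidth] using hw
    subst this
    exact h [] [] rfl rfl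
  | cons p w ih =>
    obtain ⟨k, hk, hw'⟩ := gw_cons hw
    cases p with
    | lnk p =>
      simp only [HS]
      refine ih hw' fun s t hs ht => h _ _ ?_ ?_
      · rw [width]
        show (p.width n).bind _ = _
        have hk' : p.width n = some k := hk
        rw [hk', Option.bind_some, hs]
      · rw [width, mirP_width']
        have hk' : p.width n = some k := hk
        rw [hk', Option.bind_some, ht]
    | vtx i =>
      simp only [HS]
      obtain ⟨h1, rfl⟩ := gw_vtx hk
      refine S2_congr fun b b' => ?_
      congr 1
      refine ih hw' fun s t hs ht => h _ _ ?_ ?_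
      · rw [width_append, fl_width b h1, Option.bind_some, hs]
      · rw [width_append, fl_width b' h1, Option.bind_some, ht]

/-- a ring homomorphism -/
theorem HS_map {S : Type} [CommRing S] (φ : R →+* S) (o : Fl → Fl → R) (w : GWord)
    (F : Word → Word → R) :
    φ (HS o w F) = HS (fun b b' => φ (o b b')) w (fun s t => φ (F s t)) := by
  induction w generalizing F with
  | nil => rfl
  | cons p w ih =>
    cases p with
    | lnk p => simp only [HS]; exact ih _
    | vtx i =>
      simp only [HS, S2, map_add, map_mul, ih]

theorem HS_lift (o : Fl → Fl → R) (w : Word) (F : Word → Word → R) :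
    HS o (lift w) F = F w (mir w) := by
  induction w generalizing F with
  | nil => rfl
  | cons p w ih =>
    show HS o (lnk p :: lift w) F = _
    simp only [HS]
    rw [ih]
    rfl

end Sum

end Run7.h112
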