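import Pool.Agent.Run7.h112.SGInv3
import Pool.Agent.Run7.h112.AI

/-!
# The top coefficient of the invariant of 4-valent spatial graphs
-/

set_option autoImplicit false
set_option linter.unusedSimpArgs false
set_option linter.unusedVariables false

namespace Run7.h112

open LaurentPolynomial
open Pool.Agent.Helper454.Kauf
open Pool.Agent.Helper454.Kauf.Piece (birth death pos neg)
open Pool.Agent.Helper82_Alt (crs cx sg w_birth w_death w_cx w_nil width_append Fil LT_mul_coeff
  LC_mul_coeff cx_true cx_false)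
open GPiece (lnk vtx)

noncomputable section

/-- the number of crossings of a filling -/
def cN : Fl → ℤ
  | .I => 0
  | .E => 0
  | .P => 1

theorem crs_fl (b : Fl) (i : ℕ) : (crs (fl b i) : ℤ) = cN b := by
  cases b <;> simp [fl, crs, cN]

theorem Fil_T (n : ℤ) : Fil n (aPow n) := by
  have := Fil.aP (c := n) (n := n) (p := 1) (Fil.one.mono (by omega))
  rwa [mul_one] at this

theorem Fil_z : Fil 1 zVar := by
  have := Fil.zP (c := 1) (n := 1) (p := 1) (Fil.one.mono (by omega))
  rwa [mul_one] at this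

theorem om_fil (b b' : Fl) : Fil (2 - cN b - cN b') (om b b') := by
  have hz2 : Fil 2 (zVar ^ 2) := by
    rw [pow_two]; exact Fil_mul Fil_z Fil_z
  have ha : Fil 1 ka := Fil_T 1
  have hA : Fil 1 kA := (Fil_T (-1)).mono (by omega)
  have h1 : Fil 2 (1 : Raz) := Fil.one.mono (by omega)
  have hd : Fil 2 dlt := Fil_dlt.mono (by omega)
  cases b <;> cases b' <;> simp only [om, cN]
  · exact ((hd.sub h1).sub (Fil_mul Fil_z ha)).add hz2
  · exact hz2.sub h1
  · exact ha.sub Fil_z
  · exact hz2.sub h1
  · exact ((hd.sub h1).sub (Fil_mul Fil_z hA)).add hz2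
  · exact hA.sub Fil_z
  · exact ha.sub Fil_z
  · exact hA.sub Fil_z
  · exact Fil.one.sub Fil_dlt

section top

variable {R : Type} [CommRing R]

/-- the leading coefficients of the weights -/
def omR (τ : Rˣ) (b b' : Fl) : R := (rho τ (om b b')).coeff (2 - cN b - cN b')

theorem S2_fil {c : ℤ} {f : Fl → Fl → Raz} (h : ∀ b b', Fil c (f b b')) : Fil c (S2 f) := by
  unfold S2
  exact ((((h _ _).add (h _ _)).add (h _ _)).add (((h _ _).add (h _ _)).add (h _ _))).add
    (((h _ _).add (h _ _)).add (h _ _))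

theorem S2_coeff (τ : Rˣ) (c : ℤ) (f : Fl → Fl → Raz) :
    (rho τ (S2 f)).coeff c = S2 (fun b b' => (rho τ (f b b')).coeff c) := by
  simp only [S2, map_add, AddMonoidAlgebra.coeff_add, Finsupp.add_apply]

theorem HS_lnk {S : Type} [CommRing S] (o : Fl → Fl → S) (p : Piece) (w : GWord)
    (F : Word → Word → S) :
    HS o (lnk p :: w) F = HS o w (fun s t => F (p :: s) (mirP p :: t)) := by simp only [HS]

theorem HS_vtx {S : Type} [CommRing S] (o : Fl → Fl → S) (i : ℕ) (w : GWord)
    (F : Word → Word → S) :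
    HS o (vtx i :: w) F =
      S2 (fun b b' => o b b' * HS o w (fun s t => F (fl b i ++ s) (fl b' i ++ t))) := by
  simp only [HS]

theorem nv_lnk (p : Piece) (w : GWord) : nv (lnk p :: w) = nv w := by simp only [nv]

/-- the statement about the top coefficient -/
def TopSt (τ : Rˣ) (G : GWord) (F : Word → Word → Raz) (c : ℤ) : Prop :=
    Fil (c + 2 * gcrossings G + 2 * nv G) (HS om G F) ∧
    (rho τ (HS om G F)).coeff (c + 2 * gcrossings G + 2 * nv G) =
      HS (omR τ) G (fun s t => (rho τ (F s t)).coeff (c + crs s + crs t))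

theorem top_nil (τ : Rˣ) (F : Word → Word → Raz) (c : ℤ) (h : Fil c (F [] [])) :
    TopSt τ [] F c := by
  unfold TopSt
  have e : c + 2 * ((gcrossings [] : ℕ) : ℤ) + 2 * ((nv [] : ℕ) : ℤ) = c := by
    simp [gcrossings, nv]
  have e2 : c + ((crs [] : ℕ) : ℤ) + ((crs [] : ℕ) : ℤ) = c := by simp [crs]
  rw [e]
  refine ⟨h, ?_⟩
  show (rho τ (F [] [])).coeff c = (rho τ (F [] [])).coeff (c + ((crs [] : ℕ) : ℤ) + ((crs [] : ℕ) : ℤ))
  rw [e2]

theorem top_lnk (τ : Rˣ) (p : Piece) (w : GWord) (F : Word → Word → Raz) (c e : ℤ)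
    (h1 : ∀ s, (crs (p :: s) : ℤ) = e + crs s) (h2 : ∀ s, (crs (mirP p :: s) : ℤ) = e + crs s)
    (h3 : ((gcrossings (lnk p :: w) : ℕ) : ℤ) = e + gcrossings w)
    (h4 : TopSt τ w (fun s t => F (p :: s) (mirP p :: t)) (c + 2 * e)) :
    TopSt τ (lnk p :: w) F c := by
  unfold TopSt at h4 ⊢
  have e1 : c + 2 * gcrossings (lnk p :: w) + 2 * nv (lnk p :: w) =
      c + 2 * e + 2 * gcrossings w + 2 * nv w := by
    rw [h3, nv_lnk]; ring
  rw [e1, HS_lnk, HS_lnk]
  refine ⟨h4.1, ?_⟩
  have e2 : (fun s t => (rho τ (F (p :: s) (mirP p :: t))).coeff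
      (c + crs (p :: s) + crs (mirP p :: t))) =
      fun s t => (rho τ (F (p :: s) (mirP p :: t))).coeff (c + 2 * e + crs s + crs t) := by
    funext s t
    rw [h1, h2]
    congr 1
    ring
  rw [e2]
  exact h4.2

theorem top_vtx (τ : Rˣ) (i : ℕ) (w : GWord) (F : Word → Word → Raz) (c : ℤ)
    (h2 : ∀ b b', TopSt τ w (fun s t => F (fl b i ++ s) (fl b' i ++ t)) (c + cN b + cN b')) :
    TopSt τ (vtx i :: w) F c := by
  unfold TopSt at h2 ⊢
  have e1 : ∀ b b' : Fl, c + 2 * gcrossings (vtx i :: w) + 2 * nv (vtx i :: w) =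
      (2 - cN b - cN b') + ((c + cN b + cN b') + 2 * gcrossings w + 2 * nv w) := by
    intro b b'
    simp only [gcrossings, nv]; push_cast; ring
  have hF : ∀ b b', Fil (c + 2 * gcrossings (vtx i :: w) + 2 * nv (vtx i :: w))
      (om b b' * HS om w (fun s t => F (fl b i ++ s) (fl b' i ++ t))) := by
    intro b b'
    rw [e1 b b']
    exact Fil_mul (om_fil b b') (h2 b b').1
  have hC : ∀ b b', (rho τ (om b b' * HS om w (fun s t => F (fl b i ++ s) (fl b' i ++ t)))).coeff
      (c + 2 * gcrossings (vtx i :: w) + 2 * nv (vtx i :: w)) =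
      omR τ b b' * HS (omR τ) w (fun s t => (rho τ (F (fl b i ++ s) (fl b' i ++ t))).coeff
        (c + crs (fl b i ++ s) + crs (fl b' i ++ t))) := by
    intro b b'
    rw [e1 b b', map_mul (rho τ)]
    rw [(top_mul _ _ _ _ (fun c' hc => rho_coeff_zero τ (om_fil b b') hc)
      (fun c' hc => rho_coeff_zero τ (h2 b b').1 hc)).1, (h2 b b').2]
    have e3 : (fun s t => (rho τ (F (fl b i ++ s) (fl b' i ++ t))).coeff
        (c + crs (fl b i ++ s) + crs (fl b' i ++ t))) =
        fun s t => (rho τ (F (fl b i ++ s) (fl b' i ++ t))).coeff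
          (c + cN b + cN b' + crs s + crs t) := by
      funext s t
      rw [crs_append, crs_append, Nat.cast_add, Nat.cast_add, crs_fl, crs_fl]
      congr 1
      ring
    rw [e3]
    rfl
  rw [HS_vtx, HS_vtx]
  exact ⟨S2_fil hF, (S2_coeff τ _ _).trans (S2_congr hC)⟩

theorem HS_top (τ : Rˣ) (G : GWord) {n m : ℕ} (hw : gwidth G n = some m) (F : Word → Word → Raz)
    (c : ℤ) (h : ∀ s t, width s n = some m → width t n = some m → Fil (c + crs s + crs t) (F s t)) :
    TopSt τ G F c := by
  induction G generalizing n F c with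
  | nil =>
    have hnm : m = n := gw_nil hw
    subst hnm
    have := h [] [] rfl rfl
    refine top_nil τ F c ?_
    simpa [crs] using this
  | cons p w ih =>
    obtain ⟨k, hk, hw'⟩ := gw_cons hw
    cases p with
    | lnk p =>
      have key : ∀ e : ℤ, (∀ s, (crs (p :: s) : ℤ) = e + crs s) →
          (∀ s, (crs (mirP p :: s) : ℤ) = e + crs s) →
          ((gcrossings (lnk p :: w) : ℕ) : ℤ) = e + gcrossings w →
          TopSt τ (lnk p :: w) F c := by
        intro e h1 h2 h3
        refine top_lnk τ p w F c e h1 h2 h3 (ih hw' _ _ ?_)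
        intro s t hs ht
        have := h (p :: s) (mirP p :: t) (by
          rw [width]
          have hk' : p.width n = some k := hk
          rw [hk', Option.bind_some, hs]) (by
          rw [width, mirP_width']
          have hk' : p.width n = some k := hk
          rw [hk', Option.bind_some, ht])
        rw [h1, h2] at this
        exact this.mono (by linarith)
      cases p with
      | birth i =>
        exact key 0 (fun s => by simp [crs]) (fun s => by simp [crs, mirP])
          (by simp [gcrossings])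
      | death i =>
        exact key 0 (fun s => by simp [crs]) (fun s => by simp [crs, mirP])
          (by simp [gcrossings])
      | pos i =>
        exact key 1 (fun s => by simp only [crs]; push_cast; ring)
          (fun s => by simp only [crs, mirP]; push_cast; ring)
          (by simp only [gcrossings]; push_cast; ring)
      | neg i =>
        exact key 1 (fun s => by simp only [crs]; push_cast; ring)
          (fun s => by simp only [crs, mirP]; push_cast; ring)
          (by simp only [gcrossings]; push_cast; ring)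
    | vtx i =>
      obtain ⟨h1, hkn⟩ := gw_vtx hk
      subst hkn
      refine top_vtx τ i w F c fun b b' => ih hw' _ _ ?_
      intro s t hs ht
      have := h (fl b i ++ s) (fl b' i ++ t) (by
        rw [width_append, fl_width b h1, Option.bind_some, hs]) (by
        rw [width_append, fl_width b' h1, Option.bind_some, ht])
      rw [crs_append, crs_append, Nat.cast_add, Nat.cast_add, crs_fl, crs_fl] at this
      exact this.mono (by linarith)

theorem mono_coeff (r : R) (k j : ℤ) :
    (C r * T k : LaurentPolynomial R).coeff j = if k = j then r else 0 := by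
  rw [← single_eq_C_mul_T]
  show (Finsupp.single k r) j = _
  rw [Finsupp.single_apply]

/-- the leading coefficients, explicitly -/
def omL (N : ℤ) : Fl → Fl → ℤ
  | .I, .I => N
  | .I, .E => 1
  | .I, .P => -N
  | .E, .I => 1
  | .E, .E => 1
  | .E, .P => -1
  | .P, .I => -N
  | .P, .E => -1
  | .P, .P => N + 1

theorem rho_ka (τ : Rˣ) : rho τ ka = C (τ : R) * T 1 := by rw [rho_aPow, zpow_one]

theorem rho_kA (τ : Rˣ) : rho τ kA = C ((τ⁻¹ : Rˣ) : R) * T (-1) := by
  rw [rho_aPow, zpow_neg_one]

theorem omR_eq {N : ℤ} {τ : Rˣ} (hτ : (τ : R) = 1 - N) (b b' : Fl) :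
    omR τ b b' = ((omL N b b' : ℤ) : R) := by
  have t2 : (T 1 : LaurentPolynomial R) ^ 2 = C 1 * T 2 := by
    rw [pow_two, ← T_add, map_one, one_mul]; norm_num
  have one' : (1 : LaurentPolynomial R) = C 1 * T 0 := by rw [T_zero, map_one, one_mul]
  have tz : (T 1 : LaurentPolynomial R) = C 1 * T 1 := by rw [map_one, one_mul]
  have za : rho τ (zVar * ka) = C (τ : R) * T 2 := by
    rw [map_mul, rho_z, rho_ka, mul_left_comm, ← T_add]; norm_num
  have zA : rho τ (zVar * kA) = C ((τ⁻¹ : Rˣ) : R) * T 0 := by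
    rw [map_mul, rho_z, rho_kA, mul_left_comm, ← T_add]; norm_num
  have zz : rho τ (zVar ^ 2) = C 1 * T 2 := by
    rw [map_pow, rho_z, t2]
  have dd : rho τ dlt = C ((τ : R) - 1) * T 0 + C ((τ⁻¹ : Rˣ) : R) * T (-2) := by
    rw [rho_dlt, T_zero, mul_one]
  have oo : rho τ (1 : Raz) = C 1 * T 0 := by rw [map_one, ← one']
  have rz : rho τ zVar = C 1 * T 1 := by rw [rho_z, ← tz]
  unfold omR
  cases b <;> cases b' <;> simp only [om, cN, omL]
  · rw [map_add (rho τ), map_sub (rho τ), map_sub (rho τ), dd, oo, za, zz]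
    simp only [AddMonoidAlgebra.coeff_add, AddMonoidAlgebra.coeff_sub, Finsupp.add_apply,
      Finsupp.sub_apply, mono_coeff]
    norm_num
    rw [hτ]; ring
  · rw [map_sub (rho τ), zz, oo]
    simp only [AddMonoidAlgebra.coeff_add, AddMonoidAlgebra.coeff_sub, Finsupp.add_apply,
      Finsupp.sub_apply, mono_coeff]
    norm_num
  · rw [map_sub (rho τ), rho_ka, rz]
    simp only [AddMonoidAlgebra.coeff_add, AddMonoidAlgebra.coeff_sub, Finsupp.add_apply,
      Finsupp.sub_apply, mono_coeff]
    norm_num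
    rw [hτ]; ring
  · rw [map_sub (rho τ), zz, oo]
    simp only [AddMonoidAlgebra.coeff_add, AddMonoidAlgebra.coeff_sub, Finsupp.add_apply,
      Finsupp.sub_apply, mono_coeff]
    norm_num
  · rw [map_add (rho τ), map_sub (rho τ), map_sub (rho τ), dd, oo, zA, zz]
    simp only [AddMonoidAlgebra.coeff_add, AddMonoidAlgebra.coeff_sub, Finsupp.add_apply,
      Finsupp.sub_apply, mono_coeff]
    norm_num
  · rw [map_sub (rho τ), rho_kA, rz]
    simp only [AddMonoidAlgebra.coeff_add, AddMonoidAlgebra.coeff_sub, Finsupp.add_apply,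
      Finsupp.sub_apply, mono_coeff]
    norm_num
  · rw [map_sub (rho τ), rho_ka, rz]
    simp only [AddMonoidAlgebra.coeff_add, AddMonoidAlgebra.coeff_sub, Finsupp.add_apply,
      Finsupp.sub_apply, mono_coeff]
    norm_num
    rw [hτ]; ring
  · rw [map_sub (rho τ), rho_kA, rz]
    simp only [AddMonoidAlgebra.coeff_add, AddMonoidAlgebra.coeff_sub, Finsupp.add_apply,
      Finsupp.sub_apply, mono_coeff]
    norm_num
  · rw [map_sub (rho τ), oo, dd]
    simp only [AddMonoidAlgebra.coeff_add, AddMonoidAlgebra.coeff_sub, Finsupp.add_apply,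
      Finsupp.sub_apply, mono_coeff]
    norm_num
    rw [hτ]; ring

/-- the top coefficient of the invariant -/
theorem Hg_top {N : ℕ} {τ : Rˣ} (hτ : (τ : R) = 1 - N) {G : GWord} (hG : GClosed G) :
    Fil (2 * gcrossings G + 2 * nv G) (Hg G) ∧
    (rho τ (Hg G)).coeff (2 * gcrossings G + 2 * nv G) =
      ((HS (omL N) G (fun s t => pv N s * pv N t) : ℤ) : R) := by
  have h1 := HS_top τ G hG (fun s t => kv s * kv t) 0 (by
    intro s t hs ht
    rw [zero_add]
    exact Fil_mul (kv_fil hs) (kv_fil ht))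
  unfold TopSt at h1
  rw [zero_add] at h1
  refine ⟨h1.1, ?_⟩
  unfold Hg
  rw [h1.2]
  have h3 := HS_map (Int.castRingHom R) (omL N) G (fun s t => pv N s * pv N t)
  rw [eq_intCast] at h3
  rw [h3]
  have h4 : (fun b b' => (Int.castRingHom R) (omL N b b')) = omR τ := by
    funext b b'
    rw [eq_intCast]
    exact (omR_eq (by rw [hτ]; push_cast; rfl) b b').symm
  rw [h4]
  refine HS_congr (omR τ) G hG fun s t hs ht => ?_
  have e1 := eqv_all hτ (crs s) s hs rfl
  have e2 := eqv_all hτ (crs t) t ht rfl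
  unfold Eqv fv at e1 e2
  have e3 : (Int.castRingHom R) (pv N s * pv N t) = ((pv N s : ℤ) : R) * ((pv N t : ℤ) : R) := by
    rw [map_mul]; rfl
  have e4 := (top_mul _ _ _ _
    (fun c' hc => rho_coeff_zero τ (kv_fil hs) hc)
    (fun c' hc => rho_coeff_zero τ (kv_fil ht) hc)).1
  show (rho τ (kv s * kv t)).coeff (0 + crs s + crs t) = (Int.castRingHom R) (pv N s * pv N t)
  rw [e3, ← e1, ← e2, ← e4, zero_add, map_mul]

end top

end

end Run7.h112
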