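import Pool.Agent.Run7.h112.Ext

/-!
# Semi-adequate diagrams
-/

set_option autoImplicit false
set_option linter.unusedSimpArgs false
set_option linter.unusedVariables false

namespace Run7.h112

open LaurentPolynomial
open Pool.Agent.Helper454.Kauf
open Pool.Agent.Helper454.Kauf.Piece (birth death pos neg)
open Pool.Agent.Helper82_Alt (crs RStep RLab SStep Connected NotNugatory Reduced Fil)

noncomputable section

/-! ### the row argument with parity -/

/-- the real part -/
def reH : GaussianInt →+ ℤ := ⟨⟨Zsqrtd.re, rfl⟩, fun _ _ => rfl⟩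

theorem iU_two : iU ^ (2 : ℤ) = -1 := by
  ext1
  have : ((iU ^ (2 : ℤ) : GaussianIntˣ) : GaussianInt) = (iU : GaussianInt) * iU := by
    rw [show (2 : ℤ) = 1 + 1 by norm_num, zpow_add, zpow_one]; rfl
  rw [this]
  exact ii

theorem re_odd (m : ℤ) (h : Odd m) : reH ((iU ^ m : GaussianIntˣ) : GaussianInt) = 0 := by
  obtain ⟨a, rfl⟩ := h
  rw [zpow_add, zpow_mul, iU_two, zpow_one, Units.val_mul]
  have h : ((-1 : GaussianIntˣ) ^ a) = 1 ∨ ((-1 : GaussianIntˣ) ^ a) = -1 := by
    rcases Int.even_or_odd a with h | h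
    · left; exact h.neg_one_zpow
    · right; exact h.neg_one_zpow
  rcases h with h | h
  · rw [h]; rfl
  · rw [h]; rfl

theorem row_two' {D : Word} (hD : Closed D) (hne : D ≠ []) {k j : ℤ} (hk : k ≠ 0)
    (hj : ((Lam D).coeff j).coeff k ≠ 0) :
    ∃ j', j' ≠ j ∧ Even (j' - j) ∧ ((Lam D).coeff j').coeff k ≠ 0 := by
  by_contra h
  push Not at h
  have h1 := ai_row hD hne k
  rw [if_neg hk, Finsupp.sum] at h1
  have h2 := congrArg (fun z => reH (z * ((iU ^ (-j) : GaussianIntˣ) : GaussianInt))) h1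
  simp only [zero_mul, map_zero] at h2
  rw [Finset.sum_mul, map_sum, Finset.sum_eq_single j] at h2
  · rw [mul_assoc, ← Units.val_mul, ← zpow_add, add_neg_cancel, zpow_zero, Units.val_one,
      mul_one] at h2
    apply hj
    have e : reH ((((Lam D).coeff j).coeff k : ℤ) : GaussianInt) = ((Lam D).coeff j).coeff k := by
      show Zsqrtd.re _ = _
      simp
    rw [← e]; exact h2
  · intro b _ hb
    rw [mul_assoc, ← Units.val_mul, ← zpow_add]
    by_cases he : Even (b - j)
    · rw [h b hb he]; simp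
    · have ho : Odd (b + -j) := by
        rw [← sub_eq_add_neg]; exact Int.not_even_iff_odd.1 he
      have e1 := re_odd _ ho
      have e2 : ∀ (n : ℤ) (z : GaussianInt), reH ((n : GaussianInt) * z) = n * reH z := by
        intro n z
        show Zsqrtd.re ((n : GaussianInt) * z) = n * Zsqrtd.re z
        simp
      rw [e2, e1, mul_zero]
  · intro hj'
    have : (Lam D).coeff j = 0 := by simpa using hj'
    rw [this]; simp

/-! ### the top coefficient as a Tutte polynomial -/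

theorem toLaurent_coeff (p : Polynomial ℤ) (j : ℕ) :
    (Polynomial.toLaurent p).coeff (j : ℤ) = p.coeff j := by
  induction p using Polynomial.induction_on' with
  | add p q hp hq =>
    rw [map_add, AddMonoidAlgebra.coeff_add, Finsupp.add_apply, hp, hq, Polynomial.coeff_add]
  | monomial n a =>
    rw [← Polynomial.C_mul_X_pow_eq_monomial, Polynomial.toLaurent_C_mul_X_pow,
      ← single_eq_C_mul_T, Polynomial.coeff_C_mul_X_pow]
    show (Finsupp.single (n : ℤ) a) (j : ℤ) = _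
    by_cases h : j = n
    · subst h; simp
    · rw [if_neg h, Finsupp.single_eq_of_ne']
      intro h0; exact h (by exact_mod_cast h0.symm)

theorem fr_pos {D : Word} (hD : Closed D) (hne : D ≠ []) : 0 < fr D := by
  obtain ⟨Y, rfl, _⟩ := (closed_form hD hne).2
  simp [fr]

/-- the graph of the `A`-state -/
theorem exists_graph {D : Word} (hD : Closed D) (hne : D ≠ []) :
    ∃ E NE : List (Fin (fr D) × Fin (fr D)), Run D [] (List.finRange (fr D)) E NE ∧
      NE.length = crs D :=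
  exists_run D [] (List.finRange (fr D)) hD (by simp)

theorem graph_cnt {D : Word} (hD : Closed D) (hne : D ≠ [])
    {E NE : List (Fin (fr D) × Fin (fr D))} (h : Run D [] (List.finRange (fr D)) E NE) {N : ℕ}
    (hN : 0 < N) : cnt N D = (G.pc N (G.cl ⊥ E) NE : ℤ) := by
  have h1 := run_count h (fun _ => (⟨0, hN⟩ : Fin N)) (List.nodup_finRange _) (by simp)
  rw [Z_pc (fun v => List.mem_finRange v)] at h1
  exact h1

theorem phi_TT {D : Word} (hD : Closed D) (hne : D ≠ [])
    {E NE : List (Fin (fr D) × Fin (fr D))} (h : Run D [] (List.finRange (fr D)) E NE) :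
    phi D = C (sgn D * (-1) ^ G.nc (G.cl ⊥ E)) * Polynomial.toLaurent (G.TT (G.cl ⊥ E) NE) := by
  haveI : Nonempty (Fin (fr D)) := ⟨⟨0, fr_pos hD hne⟩⟩
  refine ev_ext fun N hN => ?_
  have h1 := phi_ev hD hne N hN
  have h2 := G.TT_eval N (G.cl ⊥ E) NE
  rw [pv, graph_cnt hD hne h (by omega)] at h1
  have hN' : (N : ℚ) ≠ 0 := by
    have : 0 < N := by omega
    exact_mod_cast this.ne'
  have h3 : ((G.pc N (G.cl ⊥ E) NE : ℤ) : ℚ) =
      (-1) ^ G.nc (G.cl ⊥ E) * (-(N : ℚ) * (((G.TT (G.cl ⊥ E) NE).eval (1 - (N : ℤ)) : ℤ) : ℚ)) := by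
    have h4 := congrArg (fun z : ℤ => (-1 : ℚ) ^ G.nc (G.cl ⊥ E) * (z : ℚ)) h2
    simp only [Int.cast_mul, Int.cast_pow, Int.cast_neg, Int.cast_one, Int.cast_natCast] at h4
    rw [← mul_assoc, ← mul_pow] at h4
    simp only [mul_neg, mul_one, neg_neg, one_pow, one_mul] at h4
    rw [Int.cast_natCast, h4]
  have h5 : evN N hN (Polynomial.toLaurent (G.TT (G.cl ⊥ E) NE)) =
      (((G.TT (G.cl ⊥ E) NE).eval (1 - (N : ℤ)) : ℤ) : ℚ) := by
    rw [evN, LaurentPolynomial.eval₂_toLaurent]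
    have : ((tau N hN : ℚˣ) : ℚ) = (Int.castRingHom ℚ) (1 - (N : ℤ)) := by
      rw [tau_val]; simp
    rw [this, Polynomial.eval₂_at_apply]
    rfl
  have h6 : evN N hN (C (sgn D * (-1) ^ G.nc (G.cl ⊥ E))) =
      (sgn D : ℚ) * (-1) ^ G.nc (G.cl ⊥ E) := by
    rw [evN, LaurentPolynomial.eval₂_C]; simp
  rw [map_mul, h5, h6]
  rw [Int.cast_mul, h3] at h1
  have h7 : -(N : ℚ) ≠ 0 := neg_ne_zero.2 hN'
  apply mul_left_cancel₀ h7
  rw [h1]
  ring

theorem graph_loopless {D : Word} (hD : Closed D) (hne : D ≠ [])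
    {E NE : List (Fin (fr D) × Fin (fr D))} (h : Run D [] (List.finRange (fr D)) E NE)
    (ha : AAdequate D) : ∀ e ∈ NE, ¬ (G.cl ⊥ E) e.1 e.2 := by
  obtain ⟨N0, h0⟩ := ha.large
  have h1 := h0 (N0 + 1) (by omega)
  rw [graph_cnt hD hne h (by omega)] at h1
  intro e he hr
  apply h1
  have h2 : G.pc (N0 + 1) (G.cl ⊥ E) NE = 0 := by
    unfold G.pc
    rw [Nat.card_eq_zero]
    left
    refine ⟨fun f => ?_⟩
    exact f.2.2 e he (f.2.1 _ _ hr)
  rw [h2]; rfl

/-- a low term on the top edge -/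
theorem semi_coeff {D : Word} (hD : Closed D) (hne : D ≠ []) (hc : Connected D) (hr : Reduced D)
    (ha : AAdequate D) :
    ∃ j : ℕ, 2 * j ≤ crs D ∧ ((Lam D).coeff (j : ℤ)).coeff ((crs D : ℤ) - j) ≠ 0 := by
  haveI : Nonempty (Fin (fr D)) := ⟨⟨0, fr_pos hD hne⟩⟩
  obtain ⟨E, NE, h, hl⟩ := exists_graph hD hne
  obtain ⟨j, h1, h2⟩ := G.low_degree (crs D) (G.cl ⊥ E) NE hl
    (run_conn h (fun v => List.mem_finRange v) hc) (graph_loopless hD hne h ha) (run_noBridge h hr)
  refine ⟨j, h1, ?_⟩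
  rw [← rT_coeff]
  have h3 := phi_TT hD hne h
  unfold phi at h3
  rw [h3, Pool.Agent.Helper82_Alt.LC_mul_coeff, toLaurent_coeff]
  refine mul_ne_zero (mul_ne_zero (sgn_ne D) ?_) h2.ne'
  exact pow_ne_zero _ (by norm_num)

theorem semi_tt {D : Word} (hD : Closed D) (hne : D ≠ []) (hc : Connected D) (hr : Reduced D)
    (ha : AAdequate D) (hn : 0 < crs D) : ∃ t, IsTT (Lam D) t ∧ (crs D : ℤ) + 2 ≤ t := by
  obtain ⟨j, h1, h2⟩ := semi_coeff hD hne hc hr ha
  obtain ⟨j', h3, h4, h5⟩ := row_two' hD hne (by omega) h2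
  obtain ⟨c', hc'⟩ := exists_top (iva_ne (Lam_ne hD hne))
  refine ⟨_, ⟨_, c', (top_adequate hD hne).2 ha, hc', rfl⟩, ?_⟩
  have h6 := Lam_fil hD hne _ _ h5
  have h7 := hc'.2 (-j') ((crs D : ℤ) - j) (by rw [iva_coeff, neg_neg]; exact h5)
  obtain ⟨m, hm⟩ := h4
  omega

/-! ### mirror images -/

theorem mir_get {D : Word} {t : ℕ} (h : t < (mir D).length) :
    (mir D)[t] = mirP (D[t]'(by simpa [mir] using h)) := by
  simp [mir]

theorem mir_length (D : Word) : (mir D).length = D.length := by simp [mir]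

theorem SStep_mir {p : Piece} {s s' : ℕ → Bool} : SStep (mirP p) s s' ↔ SStep p s s' := by
  cases p <;> exact Iff.rfl

theorem RStep_mir {G : Type} {p : Piece} {s s' : ℕ → G} : RStep (mirP p) s s' ↔ RStep p s s' := by
  cases p <;> exact Iff.rfl

theorem Connected.mir {D : Word} (h : Connected D) : Connected (mir D) := by
  intro s hs
  obtain ⟨v, hv⟩ := h s fun t ht => by
    have := hs t (by rw [mir_length]; exact ht)
    rw [mir_get] at this
    exact SStep_mir.1 this
  refine ⟨v, fun t n hn => hv t n ?_⟩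
  rw [← hn, ← mir_width (D.take t)]
  congr 1
  simp [Run7.h112.mir, List.map_take]

theorem RLab.mir {G : Type} {D : Word} {r : ℕ → ℕ → G} (h : RLab D r) : RLab (mir D) r := by
  refine ⟨h.1, fun t ht => h.2.1 t (by rw [mir_length] at ht; exact ht), fun t ht => ?_⟩
  rw [mir_get]
  exact RStep_mir.2 (h.2.2 t _)

theorem Reduced.mir {D : Word} (h : Reduced D) : Reduced (mir D) := by
  intro t ht i hi
  have ht' : t < D.length := by rw [mir_length] at ht; exact ht
  have h1 : D[t] = Piece.pos i ∨ D[t] = Piece.neg i := by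
    rw [mir_get] at hi
    rcases hi with hi | hi
    · right
      have := congrArg mirP hi
      rw [mirP_mirP] at this
      exact this
    · left
      have := congrArg mirP hi
      rw [mirP_mirP] at this
      exact this
  obtain ⟨⟨r, h2, h3⟩, r', h4, h5⟩ := h t ht' i h1
  exact ⟨⟨r, RLab.mir h2, h3⟩, r', RLab.mir h4, h5⟩

theorem IsTT.mir {D : Word} (hD : Closed D) (hne : D ≠ []) {t : ℤ} (h : IsTT (Lam (mir D)) t) :
    IsTT (Lam D) t := by
  obtain ⟨c, c', h1, h2, rfl⟩ := h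
  rw [Lam_mir hD hne] at h1 h2
  rw [iva_iva] at h2
  exact ⟨c', c, h2, h1, by ring⟩

theorem semi_tt' {D : Word} (hD : Closed D) (hne : D ≠ []) (hc : Connected D) (hr : Reduced D)
    (ha : AAdequate D ∨ BAdequate D) (hn : 0 < crs D) :
    ∃ t, IsTT (Lam D) t ∧ (crs D : ℤ) + 2 ≤ t := by
  rcases ha with ha | ha
  · exact semi_tt hD hne hc hr ha hn
  · obtain ⟨t, h1, h2⟩ := semi_tt (mir_closed.2 hD) (mir_ne hne) (Connected.mir hc)
      (Reduced.mir hr) ha (by rw [mir_crs]; exact hn)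
    rw [mir_crs] at h2
    exact ⟨t, h1.mir hD hne, h2⟩

end

end Run7.h112
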