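import Pool.Agent.Helper454.Kauf.Defs

/-!
# Crossing numbers, adequate diagrams, connected sums

Diagrams are the sliced diagrams of `Pool.Agent.Helper454.Kauf.Defs`: lists of elementary pieces
(`birth i`, `death i`, `pos i`, `neg i`), read from top to bottom; `Closed` (no endpoints),
`IsKnot` (one component) and `Isotopic` (planar isotopy and the three Reidemeister moves) are defined
there.
-/

set_option autoImplicit false

namespace Run7.h112

open Pool.Agent.Helper454.Kauf

/-- The number of crossings of a diagram. -/
def crossings : Word → ℕ
  | [] => 0
  | .pos _ :: w => crossings w + 1
  | .neg _ :: w => crossings w + 1
  | .birth _ :: w => crossings w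
  | .death _ :: w => crossings w

/-- The crossing number of the link with the diagram `D`: the smallest number of crossings of a
diagram of the same (unoriented) link. -/
noncomputable def crossingNumber (D : Word) : ℕ :=
  sInf {n | ∃ E, Closed E ∧ Isotopic D E ∧ crossings E = n}

/-- The connected sum of two diagrams: the outermost minimum of `D` and the outermost maximum of `E`
are cut open (a closed diagram ends with the piece `death 0` and begins with the piece `birth 0`)
and the loose ends are joined by two parallel arcs. -/
def connSum (D E : Word) : Word := D.dropLast ++ E.tail

/-- The connected sum `D # E₁ # E₂ # ...` of a diagram and a list of diagrams. -/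
def connSums (D : Word) (Es : List Word) : Word := Es.foldl connSum D

/-- The other crossing. -/
def mirP : Piece → Piece
  | .birth i => .birth i
  | .death i => .death i
  | .pos i => .neg i
  | .neg i => .pos i

/-- The mirror image of a diagram in the plane of the diagram: all crossings are changed. -/
def mir (D : Word) : Word := D.map mirP

/-- Colourings of the circles of the `A`-state of a diagram, with different colours on the two arcs
at every crossing. (`l`, `r` are the colours of the strands to the left and to the right of a piece.)
The `A`-smoothing of `pos i` consists of two vertical arcs, the `A`-smoothing of `neg i` is a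
minimum above a maximum; a piece `birth`, `death` has the same colour at its two ends. -/
inductive AState {α : Type} : List α → Word → Prop
  | nil : AState [] []
  | birth (l r : List α) (c : α) (w : Word) : AState (l ++ [c, c] ++ r) w →
      AState (l ++ r) (Piece.birth l.length :: w)
  | death (l r : List α) (c : α) (w : Word) : AState (l ++ r) w →
      AState (l ++ [c, c] ++ r) (Piece.death l.length :: w)
  | pos (l r : List α) (b c : α) (w : Word) : b ≠ c → AState (l ++ [b, c] ++ r) w →
      AState (l ++ [b, c] ++ r) (Piece.pos l.length :: w)
  | neg (l r : List α) (b c : α) (w : Word) : b ≠ c → AState (l ++ [c, c] ++ r) w →
      AState (l ++ [b, b] ++ r) (Piece.neg l.length :: w)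

/-- The diagram is `A`-adequate: no circle of the `A`-state meets itself at a crossing. Equivalently,
the circles can be coloured (with some finite number of colours) so that the two arcs at every
crossing have different colours. -/
def AAdequate (D : Word) : Prop := ∃ N : ℕ, AState (α := Fin N) [] D

/-- The diagram is `B`-adequate: its mirror image is `A`-adequate. -/
def BAdequate (D : Word) : Prop := AAdequate (mir D)

/-- The diagram is adequate. -/
def Adequate (D : Word) : Prop := AAdequate D ∧ BAdequate D

end Run7.h112
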