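import Pool.Agent.Run7.h112.Spec
import Pool.Agent.Run7.h112.Main
import Pool.Agent.Helper82_Alt.TanK

/-!
# Uniqueness, mirror images, tops
-/

set_option autoImplicit false
set_option linter.unusedSimpArgs false
set_option linter.unusedVariables false

namespace Run7.h112

open LaurentPolynomial
open Pool.Agent.Helper454.Kauf
open Pool.Agent.Helper454.Kauf.Piece (birth death pos neg)
open Pool.Agent.Helper82_Alt (crs cx sg w_birth w_death w_cx w_nil width_append Fil LT_mul_coeff
  LC_mul_coeff t_B1 cx_true cx_false)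

noncomputable section

/-- uniqueness -/
theorem uniq {M : Type} [AddCommGroup M] [Module Raz M] {Λ : Word → M} (hΛ : KauffmanRules Λ)
    {D : Word} (hD : Closed D) (hne : D ≠ []) : Λ D = Lam D • Λ circle := by
  have hR : KauffmanRules (fun D => (Λ D, Ex.Lam Raz D) : Word → M × Raz) := by
    refine ⟨?_, ?_, ?_, ?_, ?_, ?_⟩
    · intro D E h
      exact Prod.ext (hΛ.regular D E h) (Ex.Lam_rules.regular D E h)
    · intro x i y h
      exact Prod.ext (hΛ.birthPos x i y h) (Ex.Lam_rules.birthPos x i y h)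
    · intro x i y h
      exact Prod.ext (hΛ.birthNeg x i y h) (Ex.Lam_rules.birthNeg x i y h)
    · intro x i y h
      exact Prod.ext (hΛ.deathPos x i y h) (Ex.Lam_rules.deathPos x i y h)
    · intro x i y h
      exact Prod.ext (hΛ.deathNeg x i y h) (Ex.Lam_rules.deathNeg x i y h)
    · intro x i y h
      exact Prod.ext (hΛ.skein x i y h) (Ex.Lam_rules.skein x i y h)
  obtain ⟨p, _, h⟩ := t_B1 (M × Raz) _ hR D hD hne
  have h1 := congrArg Prod.fst h
  have h2 := congrArg Prod.snd h
  simp only [Prod.smul_fst, Prod.smul_snd, Ex.Lam_circle, smul_eq_mul, mul_one] at h1 h2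
  rw [h1]
  show _ = Ex.Lam Raz D • _
  rw [h2]

/-! ### mirror images -/

theorem mirP_mirP (p : Piece) : mirP (mirP p) = p := by cases p <;> rfl

theorem mir_mir (D : Word) : mir (mir D) = D := by
  simp [mir, Function.comp_def, mirP_mirP]

theorem mir_append (u v : Word) : mir (u ++ v) = mir u ++ mir v := by simp [mir]

theorem mirP_width (p : Piece) (n : ℕ) : (mirP p).width n = p.width n := by cases p <;> rfl

theorem mir_width (w : Word) (n : ℕ) : width (mir w) n = width w n := by
  induction w generalizing n with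
  | nil => rfl
  | cons p w ih =>
    show width (mirP p :: mir w) n = _
    rw [width, width, mirP_width]
    congr 1
    funext m
    exact ih m

theorem mir_closed {w : Word} : Closed (mir w) ↔ Closed w := by
  unfold Closed; rw [mir_width]

theorem mir_crs (w : Word) : crs (mir w) = crs w := by
  induction w with
  | nil => rfl
  | cons p w ih =>
    show crs (mirP p :: mir w) = _
    cases p <;> simp [crs, mirP, ih]

theorem mir_ne {w : Word} (h : w ≠ []) : mir w ≠ [] := by
  intro h0
  apply h
  simpa [mir] using h0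

theorem third_neg {k n i : ℕ} {x y : Word} (hx : width x 0 = some n) (hi : i + 3 ≤ n)
    (hc : Closed (x ++ [neg i, neg (i + 1), neg i] ++ y)) :
    RegIsotopic (x ++ [neg i, neg (i + 1), neg i] ++ y)
      (x ++ [neg (i + 1), neg i, neg (i + 1)] ++ y) :=
  (Pool.Agent.Helper82_Alt.e_third' (n := n) (i := i) hi).2 x y hx hc

theorem mir_step {D E : Word} (h : RegStep D E) : RegIsotopic (mir D) (mir E) := by
  obtain ⟨x, l, r, y, hlr, c1, c2⟩ := h
  rw [mir_append, mir_append, mir_append, mir_append]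
  have c1' : Closed (mir x ++ mir l ++ mir y) := by
    rw [← mir_append, ← mir_append]; exact mir_closed.2 c1
  have c2' : Closed (mir x ++ mir r ++ mir y) := by
    rw [← mir_append, ← mir_append]; exact mir_closed.2 c2
  have st : LocalMove (mir l) (mir r) → RegIsotopic (mir x ++ mir l ++ mir y)
      (mir x ++ mir r ++ mir y) := fun h =>
    Relation.EqvGen.rel _ _ (RegStep.mk _ _ _ _ h c1' c2')
  cases hlr with
  | exchange p q h =>
    apply st
    have := LocalMove.exchange (mirP p) (mirP q) (by cases p <;> cases q <;> exact h)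
    cases p <;> cases q <;> exact this
  | zigzag₁ i => exact st (LocalMove.zigzag₁ i)
  | zigzag₂ i => exact st (LocalMove.zigzag₂ i)
  | slideBirth₁ i => exact st (LocalMove.slideBirth₂ i)
  | slideBirth₂ i => exact st (LocalMove.slideBirth₁ i)
  | slideDeath₁ i => exact st (LocalMove.slideDeath₂ i)
  | slideDeath₂ i => exact st (LocalMove.slideDeath₁ i)
  | second₁ i => exact st (LocalMove.second₂ i)
  | second₂ i => exact st (LocalMove.second₁ i)
  | third i =>
    obtain ⟨k, k', hx, hl, hy⟩ := Ex.split3 c1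
    have hk : i + 3 ≤ k := by
      obtain ⟨m, hm, hl⟩ := Ex.wd_cons hl
      obtain ⟨m', hm', _⟩ := Ex.wd_cons hl
      have := Ex.wd_pos hm
      have := Ex.wd_pos hm'
      omega
    exact third_neg (k := 0) (n := k) (by rw [mir_width]; exact hx) hk c1'

theorem mir_reg {D E : Word} (h : RegIsotopic D E) : RegIsotopic (mir D) (mir E) := by
  induction h with
  | rel D E h => exact mir_step h
  | refl D => exact Relation.EqvGen.refl _
  | symm D E _ ih => exact ih.symm
  | trans D E F _ _ ih1 ih2 => exact ih1.trans _ _ _ ih2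

/-- exchange `a` and `a⁻¹` -/
def iva : Raz ≃ₐ[LaurentPolynomial ℤ] Raz := LaurentPolynomial.invert

theorem iva_aPow (n : ℤ) : iva (aPow n) = aPow (-n) := LaurentPolynomial.invert_T n

theorem iva_z : iva zVar = zVar := LaurentPolynomial.invert_C _

theorem iva_coeff (p : Raz) (j : ℤ) : (iva p).coeff j = p.coeff (-j) :=
  LaurentPolynomial.invert_apply p j

theorem iva_iva (p : Raz) : iva (iva p) = p := by
  refine LaurentPolynomial.ext fun j => ?_
  rw [iva_coeff, iva_coeff, neg_neg]

theorem mir_cl {x l y : Word} (h : Closed (x ++ l ++ y)) : Closed (mir x ++ mir l ++ mir y) := by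
  rw [← mir_append, ← mir_append]; exact mir_closed.2 h

theorem mir_rules : KauffmanRules (fun D => iva (Ex.Lam Raz (mir D)) : Word → Raz) := by
  refine ⟨?_, ?_, ?_, ?_, ?_, ?_⟩
  · intro D E h
    show iva (Ex.Lam Raz (mir D)) = iva (Ex.Lam Raz (mir E))
    rw [Ex.Lam_rules.regular _ _ (mir_reg h)]
  · intro x i y h
    have := Ex.Lam_rules.birthNeg (mir x) i (mir y) (mir_cl h)
    simp only [mir_append]
    show iva (Ex.Lam Raz (mir x ++ [birth i, neg i] ++ mir y)) = _
    rw [this, smul_eq_mul, map_mul, iva_aPow]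
    rfl
  · intro x i y h
    have := Ex.Lam_rules.birthPos (mir x) i (mir y) (mir_cl h)
    simp only [mir_append]
    show iva (Ex.Lam Raz (mir x ++ [birth i, pos i] ++ mir y)) = _
    rw [this, smul_eq_mul, map_mul, iva_aPow]
    rfl
  · intro x i y h
    have := Ex.Lam_rules.deathNeg (mir x) i (mir y) (mir_cl h)
    simp only [mir_append]
    show iva (Ex.Lam Raz (mir x ++ [neg i, death i] ++ mir y)) = _
    rw [this, smul_eq_mul, map_mul, iva_aPow]
    rfl
  · intro x i y h
    have := Ex.Lam_rules.deathPos (mir x) i (mir y) (mir_cl h)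
    simp only [mir_append]
    show iva (Ex.Lam Raz (mir x ++ [pos i, death i] ++ mir y)) = _
    rw [this, smul_eq_mul, map_mul, iva_aPow]
    rfl
  · intro x i y h
    have h' : Closed (mir x ++ [pos i] ++ mir y) := by
      obtain ⟨k, k', hx, hl, hy⟩ := Ex.split3 (mir_cl h)
      exact Ex.closed_of hx (by simpa [mir, mirP, width, Piece.width] using hl) hy
    have := Ex.Lam_rules.skein (mir x) i (mir y) h'
    simp only [mir_append]
    show iva (Ex.Lam Raz (mir x ++ [neg i] ++ mir y)) +
      iva (Ex.Lam Raz (mir x ++ [pos i] ++ mir y)) = zVar • (iva (Ex.Lam Raz (mir x ++ mir y)) +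
      iva (Ex.Lam Raz (mir x ++ [death i, birth i] ++ mir y)))
    rw [← map_add, add_comm, this, smul_eq_mul, smul_eq_mul, map_mul, iva_z, map_add]

theorem Lam_mir {D : Word} (hD : Closed D) (hne : D ≠ []) : Lam (mir D) = iva (Lam D) := by
  have h := uniq mir_rules hD hne
  change iva (Ex.Lam Raz (mir D)) = Lam D • iva (Ex.Lam Raz (mir circle)) at h
  have e : mir circle = circle := rfl
  rw [e, Ex.Lam_circle, map_one, smul_eq_mul, mul_one] at h
  rw [← iva_iva (Lam (mir D))]
  show iva (iva (Ex.Lam Raz (mir D))) = _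
  rw [h]

/-! ### tops -/

/-- the unit `t` of `ℤ[t^{±1}]` -/
def tU : (LaurentPolynomial ℤ)ˣ := sU ℤ

/-- `a ↦ t s`, `z ↦ s` -/
abbrev rT : Raz →+* LaurentPolynomial (LaurentPolynomial ℤ) := rho tU

theorem rT_coeff (p : Raz) (c j : ℤ) : ((rT p).coeff c).coeff j = (p.coeff j).coeff (c - j) := by
  rw [rho_coeff, Finsupp.sum, AddMonoidAlgebra.coeff_sum, Finset.sum_apply']
  have e : ∀ i : ℤ, ((((p.coeff i).coeff (c - i) : ℤ) : LaurentPolynomial ℤ) *
      ((tU ^ i : (LaurentPolynomial ℤ)ˣ) : LaurentPolynomial ℤ)).coeff j =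
      if i = j then (p.coeff i).coeff (c - i) else 0 := by
    intro i
    rw [tU, sU_zpow]
    have e1 : (((p.coeff i).coeff (c - i) : ℤ) : LaurentPolynomial ℤ) =
      C ((p.coeff i).coeff (c - i)) := by simp
    rw [e1, LC_mul_coeff, T_apply]
    simp
  simp only [e]
  rw [Finset.sum_ite_eq']
  split_ifs with h
  · rfl
  · have : p.coeff j = 0 := by simpa using h
    simp [this]

/-- `c` is the largest value of `j + k` for a monomial `a^j z^k` of `p` -/
def IsTop (p : Raz) (c : ℤ) : Prop :=
  (∃ j k, j + k = c ∧ (p.coeff j).coeff k ≠ 0) ∧ Fil c p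

theorem IsTop.unique {p : Raz} {c c' : ℤ} (h : IsTop p c) (h' : IsTop p c') : c = c' := by
  obtain ⟨⟨j, k, h1, h2⟩, h3⟩ := h
  obtain ⟨⟨j', k', h1', h2'⟩, h3'⟩ := h'
  have := h3' _ _ h2
  have := h3 _ _ h2'
  omega

theorem Fil_iff {p : Raz} {c : ℤ} : Fil c p ↔ ∀ c' > c, (rT p).coeff c' = 0 := by
  constructor
  · intro h c' hc'
    exact rho_coeff_zero _ h hc'
  · intro h j k hjk
    by_contra h0
    have := congrArg (fun q : LaurentPolynomial ℤ => q.coeff j) (h (j + k) (by omega))
    simp only [rT_coeff, add_sub_cancel_left] at this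
    exact hjk (by simpa using this)

theorem isTop_iff {p : Raz} {c : ℤ} : IsTop p c ↔ (rT p).coeff c ≠ 0 ∧ Fil c p := by
  refine and_congr ?_ Iff.rfl
  constructor
  · rintro ⟨j, k, h1, h2⟩ h0
    have := congrArg (fun q : LaurentPolynomial ℤ => q.coeff j) h0
    simp only [rT_coeff] at this
    apply h2
    have e : c - j = k := by omega
    rw [e] at this
    simpa using this
  · intro h
    obtain ⟨j, hj⟩ : ∃ j, ((rT p).coeff c).coeff j ≠ 0 := by
      by_contra h0
      push Not at h0
      exact h (LaurentPolynomial.ext fun j => by simpa using h0 j)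
    rw [rT_coeff] at hj
    exact ⟨j, c - j, by ring, hj⟩

/-- top coefficients multiply -/
theorem top_mul {R : Type} [CommRing R] (f g : LaurentPolynomial R) (c d : ℤ)
    (hf : ∀ c' > c, f.coeff c' = 0) (hg : ∀ d' > d, g.coeff d' = 0) :
    (f * g).coeff (c + d) = f.coeff c * g.coeff d ∧ ∀ e > c + d, (f * g).coeff e = 0 := by
  have hs : ∀ (f : LaurentPolynomial R), f = ∑ j ∈ f.coeff.support, (C (f.coeff j) * T j) := by
    intro f
    refine LaurentPolynomial.ext fun k => ?_
    rw [AddMonoidAlgebra.coeff_sum, Finset.sum_apply', Finset.sum_eq_single k]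
    · rw [← single_eq_C_mul_T]
      show _ = (Finsupp.single k (f.coeff k)) k
      rw [Finsupp.single_eq_same]
    · intro b _ hb
      rw [← single_eq_C_mul_T]
      show (Finsupp.single b (f.coeff b)) k = 0
      rw [Finsupp.single_eq_of_ne' hb]
    · intro hk
      rw [← single_eq_C_mul_T]
      show (Finsupp.single k (f.coeff k)) k = 0
      rw [Finsupp.single_eq_same]
      simpa using hk
  have key : ∀ e, (f * g).coeff e = ∑ j ∈ f.coeff.support, f.coeff j * g.coeff (e - j) := by
    intro e
    conv_lhs => rw [hs f]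
    rw [Finset.sum_mul, AddMonoidAlgebra.coeff_sum, Finset.sum_apply']
    refine Finset.sum_congr rfl fun j _ => ?_
    rw [mul_assoc, LC_mul_coeff, LT_mul_coeff]
  constructor
  · rw [key, Finset.sum_eq_single c]
    · congr 2; ring
    · intro j _ hj
      rcases lt_or_gt_of_ne hj with h | h
      · rw [hg _ (by linarith), mul_zero]
      · rw [hf _ h, zero_mul]
    · intro h
      have : f.coeff c = 0 := by simpa using h
      rw [this, zero_mul]
  · intro e he
    rw [key]
    refine Finset.sum_eq_zero fun j _ => ?_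
    by_cases h : j > c
    · rw [hf _ h, zero_mul]
    · rw [hg _ (by linarith), mul_zero]

theorem IsTop.mul {p q : Raz} {c d : ℤ} (hp : IsTop p c) (hq : IsTop q d) :
    IsTop (p * q) (c + d) := by
  rw [isTop_iff] at *
  obtain ⟨h1, h2⟩ := top_mul (rT p) (rT q) c d (Fil_iff.1 hp.2) (Fil_iff.1 hq.2)
  rw [← map_mul] at h1 h2
  refine ⟨?_, Fil_iff.2 h2⟩
  rw [h1]
  exact mul_ne_zero hp.1 hq.1

theorem IsTop.aPow (n : ℤ) {p : Raz} {c : ℤ} (hp : IsTop p c) :
    IsTop (Pool.Agent.Helper454.Kauf.aPow n * p) (n + c) := by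
  refine ⟨?_, Fil.aP (by simpa using hp.2)⟩
  obtain ⟨⟨j, k, h1, h2⟩, h3⟩ := hp
  refine ⟨n + j, k, by omega, ?_⟩
  rw [Pool.Agent.Helper454.Kauf.aPow, LT_mul_coeff, add_sub_cancel_left]
  exact h2

/-- every nonzero polynomial has a top -/
theorem exists_top {p : Raz} (hp : p ≠ 0) : ∃ c, IsTop p c := by
  have h0 : rT p ≠ 0 := by
    intro h
    apply hp
    refine LaurentPolynomial.ext fun j => LaurentPolynomial.ext fun k => ?_
    have := congrArg (fun q : LaurentPolynomial (LaurentPolynomial ℤ) => (q.coeff (j + k)).coeff j) h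
    simp only [rT_coeff, add_sub_cancel_left] at this
    simpa using this
  have hne : (rT p).coeff.support.Nonempty := by
    rw [Finsupp.support_nonempty_iff]
    intro h
    apply h0
    exact LaurentPolynomial.ext fun j => by rw [h]; rfl
  refine ⟨(rT p).coeff.support.max' hne, isTop_iff.2 ⟨?_, Fil_iff.2 ?_⟩⟩
  · have := Finset.max'_mem _ hne
    exact Finsupp.mem_support_iff.1 this
  · intro c' hc'
    by_contra h
    have := Finset.le_max' _ c' (Finsupp.mem_support_iff.2 h)
    omega

/-! ### first moves, crossing numbers -/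

theorem iso_Lam {D E : Word} (h : Isotopic D E) : ∃ m : ℤ, Lam E = aPow m * Lam D := by
  have z1 : aPow 0 = 1 := by rw [aPow, T_zero]
  have zz : ∀ a b : ℤ, aPow a * aPow b = aPow (a + b) := by intro a b; rw [aPow, aPow, aPow, T_add]
  induction h with
  | rel D E h =>
    obtain ⟨x, l, r, y, hlr, c1, c2⟩ := h
    rcases hlr with h | h
    · refine ⟨0, ?_⟩
      rw [z1, one_mul]
      exact (Ex.Lam_regular _ _ (Relation.EqvGen.rel _ _ (RegStep.mk x l r y h c1 c2))).symm
    · cases h with
      | birthPos i =>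
        refine ⟨1, ?_⟩
        have := Ex.Lam_rules.birthPos x i y c2
        show Ex.Lam Raz _ = _ * Ex.Lam Raz _
        rw [this, smul_eq_mul, ← mul_assoc, zz]; simp [z1]
      | birthNeg i =>
        refine ⟨-1, ?_⟩
        have := Ex.Lam_rules.birthNeg x i y c2
        show Ex.Lam Raz _ = _ * Ex.Lam Raz _
        rw [this, smul_eq_mul, ← mul_assoc, zz]; simp [z1]
      | deathPos i =>
        refine ⟨1, ?_⟩
        have := Ex.Lam_rules.deathPos x i y c2
        show Ex.Lam Raz _ = _ * Ex.Lam Raz _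
        rw [this, smul_eq_mul, ← mul_assoc, zz]; simp [z1]
      | deathNeg i =>
        refine ⟨-1, ?_⟩
        have := Ex.Lam_rules.deathNeg x i y c2
        show Ex.Lam Raz _ = _ * Ex.Lam Raz _
        rw [this, smul_eq_mul, ← mul_assoc, zz]; simp [z1]
  | refl D => exact ⟨0, by rw [z1, one_mul]⟩
  | symm D E _ ih =>
    obtain ⟨m, h⟩ := ih
    refine ⟨-m, ?_⟩
    rw [h, ← mul_assoc, zz]; simp [z1]
  | trans D E F _ _ ih1 ih2 =>
    obtain ⟨m, h⟩ := ih1
    obtain ⟨m', h'⟩ := ih2
    exact ⟨m' + m, by rw [h', h, ← mul_assoc, zz]⟩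

theorem closed_form {D : Word} (hD : Closed D) (hne : D ≠ []) :
    (∃ V, D = V ++ [death 0] ∧ width V 0 = some 2) ∧ ∃ Y, D = birth 0 :: Y ∧ width Y 2 = some 0 := by
  constructor
  · obtain ⟨V, p, rfl⟩ : ∃ V p, D = V ++ [p] :=
      ⟨D.dropLast, D.getLast hne, (List.dropLast_append_getLast hne).symm⟩
    obtain ⟨rfl, h⟩ := Ex.last_death hD
    exact ⟨V, rfl, h⟩
  · cases D with
    | nil => exact absurd rfl hne
    | cons p Y =>
      obtain ⟨m, hm, hY⟩ := Ex.wd_cons hD
      cases p with
      | birth i =>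
        obtain ⟨h1, rfl⟩ := Ex.wd_birth hm
        obtain rfl : i = 0 := by omega
        exact ⟨Y, rfl, hY⟩
      | death i => have := Ex.wd_death hm; omega
      | pos i => have := Ex.wd_pos hm; omega
      | neg i => have := Ex.wd_neg hm; omega

theorem connSum_closed {D E : Word} (hD : Closed D) (hDn : D ≠ []) (hE : Closed E) (hEn : E ≠ []) :
    Closed (connSum D E) := by
  obtain ⟨V, rfl, hV⟩ := (closed_form hD hDn).1
  obtain ⟨Y, rfl, hY⟩ := (closed_form hE hEn).2
  unfold connSum Closed
  rw [List.dropLast_concat, List.tail_cons, width_append, hV, Option.bind_some, hY]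

theorem connSum_ne {D E : Word} (hD : Closed D) (hDn : D ≠ []) (hE : Closed E) (hEn : E ≠ []) :
    connSum D E ≠ [] := by
  obtain ⟨V, rfl, hV⟩ := (closed_form hD hDn).1
  unfold connSum
  rw [List.dropLast_concat]
  intro h
  simp only [List.append_eq_nil_iff] at h
  rw [h.1] at hV
  simp [width] at hV

theorem connSum_crs {D E : Word} (hD : Closed D) (hDn : D ≠ []) (hE : Closed E) (hEn : E ≠ []) :
    crs (connSum D E) = crs D + crs E := by
  obtain ⟨V, rfl, hV⟩ := (closed_form hD hDn).1
  obtain ⟨Y, rfl, hY⟩ := (closed_form hE hEn).2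
  unfold connSum
  rw [List.dropLast_concat, List.tail_cons, crs_append, crs_append]
  simp [crs]

theorem connSum_Lam {D E : Word} (hD : Closed D) (hDn : D ≠ []) (hE : Closed E) (hEn : E ≠ []) :
    Lam (connSum D E) = Lam D * Lam E := by
  have hc := connSum_closed hD hDn hE hEn
  obtain ⟨V, rfl, hV⟩ := (closed_form hD hDn).1
  obtain ⟨Y, rfl, hY⟩ := (closed_form hE hEn).2
  unfold connSum at *
  rw [List.dropLast_concat, List.tail_cons] at *
  obtain ⟨q, hq⟩ := Pool.Agent.Helper82_Alt.PTanK.t_tanK Raz (Ex.Lam Raz) Ex.Lam_rules V hV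
  have h1 := hq _ hD
  have h2 := hq _ hc
  have e : (birth 0 :: [death 0] : Word) = circle := rfl
  rw [e, Ex.Lam_circle] at h1
  simp only [smul_eq_mul, mul_one] at h1 h2
  show Ex.Lam Raz _ = Ex.Lam Raz _ * Ex.Lam Raz _
  rw [h1, h2]

end

end Run7.h112
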